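import Pool.Agent.Work.MP_3d425c_gt.Bg.Tf2

/-! The boundary surface. -/

namespace Pool.Agent.Work.MP_3d425c_gt.Bg
open Set Relation Pool.Agent.Work.MP_3d425c_gt.Md Pool.Agent.Work.MP_3d425c_gt.Cy

variable {G X0 X1 X2 X3 : Type} [Group G] [MulAction G X0] [MulAction G X1] [MulAction G X2]
  [MulAction G X3] {T : Tri G X0 X1 X2 X3} {E : Subgroup G} {Ω : Type} [MulAction E Ω]

/-- number of true entries -/
def bd_nb {n : ℕ} (b : Fin n → Bool) : ℕ := (Finset.univ.filter fun i => b i = true).card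

/-- which vertices are present -/
def bd_pat {n : ℕ} (σ : Fin n → Option Ω) : Fin n → Bool := fun i => (σ i).isSome

theorem bd_pat_smul {n : ℕ} (g : E) (σ : Fin n → Option Ω) : bd_pat (g • σ) = bd_pat σ := by
  funext i
  unfold bd_pat
  rw [Pi.smul_apply]
  cases σ i <;> rfl

theorem bd_d1 : ∀ b : Fin 3 → Bool, ∃ k0 k1 : Fin 3, (1 ≤ bd_nb b ∧ bd_nb b ≤ 2) → k0 ≠ k1 ∧
    ∀ k : Fin 3, bd_nb (fun i => b (k.succAbove i)) = 1 ↔ k = k0 ∨ k = k1 := by decide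

theorem bd_d2 : ∀ (b : Fin 3 → Bool) (k : Fin 3), bd_nb (fun i => b (k.succAbove i)) = 1 →
    1 ≤ bd_nb b ∧ bd_nb b ≤ 2 := by decide

theorem bd_d3 : ∀ (b : Fin 4 → Bool) (k : Fin 4), (1 ≤ bd_nb (fun i => b (k.succAbove i)) ∧
    bd_nb (fun i => b (k.succAbove i)) ≤ 2) → 1 ≤ bd_nb b ∧ bd_nb b ≤ 3 := by decide

theorem bd_d4 : ∀ b : Fin 4 → Bool, (1 ≤ bd_nb b ∧ bd_nb b ≤ 3) → ∃ k : Fin 4,
    1 ≤ bd_nb (fun i => b (k.succAbove i)) ∧ bd_nb (fun i => b (k.succAbove i)) ≤ 2 := by decide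

/-- the faces `k`, `k'` share an edge with exactly one present vertex -/
def bd_sh (b : Fin 4 → Bool) (k k' : Fin 4) : Prop := ∃ i j : Fin 3, i ≤ j ∧
  bd_nb (fun t : Fin 2 => b (j.succ.succAbove (i.succAbove t))) = 1 ∧
  ((k = j.succ ∧ k' = i.castSucc) ∨ (k' = j.succ ∧ k = i.castSucc))

instance (b : Fin 4 → Bool) (k k' : Fin 4) : Decidable (bd_sh b k k') := by
  unfold bd_sh
  infer_instance

theorem bd_d5 : ∀ (b : Fin 4 → Bool) (k k' : Fin 4), (1 ≤ bd_nb (fun i => b (k.succAbove i)) ∧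
    bd_nb (fun i => b (k.succAbove i)) ≤ 2) → (1 ≤ bd_nb (fun i => b (k'.succAbove i)) ∧
    bd_nb (fun i => b (k'.succAbove i)) ≤ 2) → k = k' ∨ bd_sh b k k' ∨
      ∃ k'', bd_sh b k k'' ∧ bd_sh b k'' k' ∧ 1 ≤ bd_nb (fun i => b (k''.succAbove i)) ∧
        bd_nb (fun i => b (k''.succAbove i)) ≤ 2 := by decide +kernel

/-- the two flags over an edge of a tetrahedron -/
def bd_fl (p : Fin 3 × Fin 3) (b : Bool) : Fin 4 × Fin 3 :=
  if b = true then (p.2.succ, p.1) else (p.1.castSucc, p.2)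

theorem bd_d6 : ∀ (p p' : Fin 3 × Fin 3) (b b' : Bool), p.1 ≤ p.2 → p'.1 ≤ p'.2 →
    bd_fl p b = bd_fl p' b' → p = p' ∧ b = b' := by decide

theorem bd_d7 : ∀ q : Fin 4 × Fin 3, ∃ (p : Fin 3 × Fin 3) (b : Bool), p.1 ≤ p.2 ∧
    bd_fl p b = q := by decide

theorem bd_fl_eq (x : X3 × (Fin 4 → Option Ω)) {p : Fin 3 × Fin 3} (h : p.1 ≤ p.2) (b : Bool) :
    f2 T (f3 T x (bd_fl p b).1) (bd_fl p b).2 = f2 T (f3 T x p.2.succ) p.1 := by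
  cases b
  · exact (f2_f3 T x p.1 p.2 h).symm
  · rfl

theorem bd_even (x : X3 × (Fin 4 → Option Ω)) (v : X1 × (Fin 2 → Option Ω)) :
    Even (Nat.card {q : Fin 4 × Fin 3 // f2 T (f3 T x q.1) q.2 = v}) := by
  let Ψ : {p : Fin 3 × Fin 3 // p.1 ≤ p.2 ∧ f2 T (f3 T x p.2.succ) p.1 = v} × Bool →
      {q : Fin 4 × Fin 3 // f2 T (f3 T x q.1) q.2 = v} := fun r =>
    ⟨bd_fl r.1.1 r.2, (bd_fl_eq x r.1.2.1 r.2).trans r.1.2.2⟩
  have h : Function.Bijective Ψ := by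
    constructor
    · intro r r' e
      have e1 := bd_d6 _ _ _ _ r.1.2.1 r'.1.2.1 (congrArg Subtype.val e)
      exact Prod.ext (Subtype.ext e1.1) e1.2
    · intro q
      obtain ⟨p, b, h1, h2⟩ := bd_d7 q.1
      refine ⟨(⟨p, h1, ?_⟩, b), Subtype.ext h2⟩
      rw [← bd_fl_eq x h1 b, h2]
      exact q.2
  rw [← Nat.card_eq_of_bijective Ψ h, Nat.card_prod, Nat.card_eq_fintype_card (α := Bool),
    Fintype.card_bool]
  exact even_two.mul_left _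

theorem bd_choice {D A B : Type} [Group D] [MulAction D A] [MulAction D B]
    (hA : ∀ (g : D) (a : A), g • a = a → g = 1) {P : A → B → Prop}
    (hP : ∀ (g : D) a b, P a b → P (g • a) (g • b)) (h : ∀ a, ∃ b, P a b) :
    ∃ s : A → B, (∀ a, P a (s a)) ∧ ∀ (g : D) a, s (g • a) = g • s a := by
  choose t ht using h
  have h1 : ∀ a : A, ∃ g : D, g • (ob D a).out = a := fun a => ob_eq_iff.1 (ob_out (ob D a)).symm
  choose γ hγ using h1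
  refine ⟨fun a => γ a • t (ob D a).out, fun a => ?_, fun g a => ?_⟩
  · have h2 := hP (γ a) _ _ (ht (ob D a).out)
    rwa [hγ] at h2
  · have h2 := hγ (g • a)
    rw [ob_smul] at h2
    have h3 : ((γ (g • a))⁻¹ * (g * γ a)) • (ob D a).out = (ob D a).out := by
      rw [mul_smul, mul_smul, hγ, inv_smul_eq_iff, h2]
    have e : γ (g • a) = g * γ a := inv_mul_eq_one.1 (hA _ _ h3)
    show γ (g • a) • t (ob D (g • a)).out = g • γ a • t (ob D a).out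
    rw [ob_smul, e, mul_smul]

theorem bd_en (W : Et T E Ω) : ∃ kk : W.C2 1 2 → Bool → Fin 3,
    (∀ (g : E) c i, kk (g • c) i = kk c i) ∧ (∀ c, Function.Injective (kk c)) ∧
    ∀ c k, np (f2 T c.1 k).2 = 1 ↔ ∃ i, kk c i = k := by
  choose k0 k1 hk using bd_d1
  refine ⟨fun c i => cond i (k1 (bd_pat c.1.2)) (k0 (bd_pat c.1.2)), fun g c i => ?_,
    fun c i j e => ?_, fun c k => ?_⟩
  · have e : bd_pat (g • c).1.2 = bd_pat c.1.2 := bd_pat_smul g c.1.2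
    simp only [e]
  · have h := (hk (bd_pat c.1.2) c.2.2).1
    cases i <;> cases j
    · rfl
    · exact absurd e h
    · exact absurd e.symm h
    · rfl
  · refine ((hk (bd_pat c.1.2) c.2.2).2 k).trans ⟨fun h => ?_, fun ⟨i, h⟩ => ?_⟩
    · exact h.elim (fun e => ⟨false, e.symm⟩) fun e => ⟨true, e.symm⟩
    · cases i
      · exact Or.inl h.symm
      · exact Or.inr h.symm

theorem bd_sd (W : Et T E Ω) : ∃ (sd : W.C2 1 2 → Bool → W.C3 1 3) (m : W.C2 1 2 → Bool → Fin 4),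
    (∀ (g : E) c i, sd (g • c) i = g • sd c i) ∧
    (∀ c i j, sd c i = sd c j → m c i = m c j → i = j) ∧ (∀ c i, f3 T (sd c i).1 (m c i) = c.1) ∧
    ∀ c x k, W.V3 x → f3 T x k = c.1 → ∃ i, (sd c i).1 = x ∧ m c i = k := by
  have key := bd_choice (D := E) (A := W.C2 1 2) (B := Bool → X3 × (Fin 4 → Option Ω))
    (fun g c h => W.free_cell g c.2.2.1 (congrArg (fun z : W.C2 1 2 => z.1.2) h))
    (P := fun c s => ∃ m : Bool → Fin 4, (s false, m false) ≠ (s true, m true) ∧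
      ∀ x k, (W.V3 x ∧ f3 T x k = c.1) ↔ ∃ i, s i = x ∧ m i = k) ?_ ?_
  · obtain ⟨s, hs, he⟩ := key
    choose m hm hm' using hs
    have h1 : ∀ c i, W.V3 (s c i) ∧ f3 T (s c i) (m c i) = c.1 := fun c i =>
      (hm' c _ _).2 ⟨i, rfl, rfl⟩
    have h2 : ∀ c i, np (s c i).2 ∈ Icc 1 3 := fun c i => bd_d3 (bd_pat (s c i).2) (m c i) (by
      have h3 := c.2.2
      rw [← (h1 c i).2] at h3
      exact h3)
    refine ⟨fun c i => ⟨s c i, (h1 c i).1, h2 c i⟩, m, fun g c i => Subtype.ext ?_,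
      fun c i j e e' => ?_, fun c i => (h1 c i).2, fun c x k hx e => (hm' c x k).1 ⟨hx, e⟩⟩
    · exact congrFun (he g c) i
    · have e1 : s c i = s c j := congrArg Subtype.val e
      cases i <;> cases j
      · rfl
      · exact absurd (Prod.ext e1 e') (hm c)
      · exact absurd (Prod.ext e1.symm e'.symm) (hm c)
      · rfl
  · rintro g c s ⟨m, h1, h2⟩
    refine ⟨m, fun e => h1 (Prod.ext (smul_left_cancel g (Prod.mk.inj e).1)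
      (Prod.mk.inj e).2), fun x k => ⟨fun h => ?_, ?_⟩⟩
    · obtain ⟨i, e1, e2⟩ := (h2 (g⁻¹ • x) k).1 ⟨W.V3_smul g⁻¹ h.1, by
        rw [Et.f3_smul, h.2]
        exact inv_smul_smul g c.1⟩
      refine ⟨i, ?_, e2⟩
      show g • s i = x
      rw [e1, smul_inv_smul]
    · rintro ⟨i, rfl, rfl⟩
      have h3 := (h2 _ _).2 ⟨i, rfl, rfl⟩
      refine ⟨W.V3_smul g h3.1, ?_⟩
      show f3 T (g • s i) (m i) = g • c.1
      rw [Et.f3_smul, h3.2]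
  · intro c
    obtain ⟨p, q, h1, h2⟩ := W.two c.2.1 c.2.2.1
    refine ⟨fun i => cond i q.1 p.1, fun i => cond i q.2 p.2, h1, fun x k =>
      (h2 (x, k)).trans ⟨fun h => ?_, fun ⟨i, e1, e2⟩ => ?_⟩⟩
    · rcases h with h | h
      · exact ⟨false, by rw [← h]; exact ⟨rfl, rfl⟩⟩
      · exact ⟨true, by rw [← h]; exact ⟨rfl, rfl⟩⟩
    · cases i
      · exact Or.inl (Prod.ext e1.symm e2.symm)
      · exact Or.inr (Prod.ext e1.symm e2.symm)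

theorem bd_up (W : Et T E Ω) (v : W.C1 1 1) {f : X2} {k : Fin 3} (h : T.d2 f k = v.1.1) :
    ∃ c : W.C2 1 2, c.1.1 = f ∧ f2 T c.1 k = v.1 := by
  obtain ⟨σ, ⟨h1, h2⟩, -⟩ := W.up1 v.2.1 v.2.2.1 h
  refine ⟨⟨(f, σ), h1, bd_d2 (bd_pat σ) k ?_⟩, rfl, h2⟩
  have h3 := le_antisymm v.2.2.2 v.2.2.1
  rw [← h2] at h3
  exact h3

theorem bd_uq (W : Et T E Ω) (v : W.C1 1 1) {c c' : X2 × (Fin 3 → Option Ω)} (h : W.V2 c)
    (h' : W.V2 c') (e : c.1 = c'.1) {k : Fin 3} (h1 : f2 T c k = v.1) (h2 : f2 T c' k = v.1) :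
    c = c' := by
  obtain ⟨f, σ⟩ := c
  obtain ⟨f', σ'⟩ := c'
  obtain rfl : f = f' := e
  exact Prod.ext rfl ((W.up1 v.2.1 v.2.2.1 (congrArg Prod.fst h1)).unique ⟨h, h1⟩ ⟨h', h2⟩)

theorem bd_link (W : Et T E Ω) (v : W.C1 1 1) {R : W.C2 1 2 → W.C2 1 2 → Prop}
    (hR : ∀ (c c' : W.C2 1 2) x k k', W.V3 x → f3 T x k = c.1 → f3 T x k' = c'.1 → R c c')
    {p q : X2 × Fin 3} (h : EqvGen (fun p q => ∃ x, ∃ i j : Fin 3,
      i ≤ j ∧ p = (T.d3 x j.succ, i) ∧ q = (T.d3 x i.castSucc, j)) p q) :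
    T.d2 p.1 p.2 = T.d2 q.1 q.2 ∧ ∀ c c' : W.C2 1 2, c.1.1 = p.1 → f2 T c.1 p.2 = v.1 →
      c'.1.1 = q.1 → f2 T c'.1 q.2 = v.1 → EqvGen R c c' := by
  induction h with
  | rel p q h =>
    obtain ⟨x, i, j, hij, rfl, rfl⟩ := h
    refine ⟨T.s3 x i j hij, fun c c' e1 e2 e3 e4 => EqvGen.rel _ _ ?_⟩
    obtain ⟨σ, ⟨h1, h2⟩, -⟩ := W.up2 c.2.1 c.2.2.1 e1.symm
    refine hR c c' (x, σ) _ _ h1 h2 (bd_uq W v (h1 i.castSucc) c'.2.1 e3.symm ?_ e4)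
    rw [← f2_f3 T _ i j hij, h2]
    exact e2
  | refl p =>
    refine ⟨rfl, fun c c' e1 e2 e3 e4 => ?_⟩
    rw [Subtype.ext (bd_uq W v c.2.1 c'.2.1 (e1.trans e3.symm) e2 e4)]
    exact EqvGen.refl _
  | symm p q _ ih => exact ⟨ih.1.symm, fun c c' e1 e2 e3 e4 => (ih.2 c' c e3 e4 e1 e2).symm⟩
  | trans p q r _ _ ih ih' =>
    refine ⟨ih.1.trans ih'.1, fun c c' e1 e2 e3 e4 => ?_⟩
    obtain ⟨c'', e5, e6⟩ := bd_up W v (f := q.1) (k := q.2) (by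
      rw [← ih.1, ← e1]
      exact congrArg Prod.fst e2)
    exact (ih.2 c c'' e1 e2 e5 e6).trans _ _ _ (ih'.2 c'' c' e5 e6 e3 e4)

/-- a boundary component that is finite modulo a cyclic group -/
theorem bdy (hs : S_surf) (hM : Mfd T) (hG : Hyp E) (W : Et T E Ω) [Finite (Ob E Ω)]
    (bd : ∃ x, W.Bd x) (h : oc E (W.C2 1 2) ≤ oc E (W.C1 1 1) + oc E (W.C3 1 3)) :
    ∃ (a : E) (U : Set (X1 × (Fin 2 → Option Ω))), U.Nonempty ∧ (∀ c ∈ U, c ∈ W.C1 1 1) ∧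
      (∀ c, a • c ∈ U ↔ c ∈ U) ∧ Sm a U ∧
      ∀ c ∈ W.C2 1 2, ∀ k l, f2 T c k ∈ U → f2 T c l ∈ W.C1 1 1 → f2 T c l ∈ U := by
  obtain ⟨kk, k1, k2, k3⟩ := bd_en W
  obtain ⟨sd, m, s1, s2, s3, s4⟩ := bd_sd W
  let en : W.C2 1 2 → Bool → W.C1 1 1 := fun c i =>
    ⟨f2 T c.1 (kk c i), c.2.1 _, ((k3 c _).2 ⟨i, rfl⟩).ge, ((k3 c _).2 ⟨i, rfl⟩).le⟩
  have e1 : ∀ (g : E) c i, en (g • c) i = g • en c i := fun g c i => Subtype.ext (by
    show f2 T (g • c.1) (kk (g • c) i) = g • f2 T c.1 (kk c i)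
    rw [k1, Et.f2_smul])
  have e2 : ∀ (c : W.C2 1 2) k (v : W.C1 1 1), f2 T c.1 k = v.1 → ∃ i, kk c i = k ∧ en c i = v := by
    intro c k v e
    obtain ⟨i, rfl⟩ := (k3 c k).1 (by rw [e]; exact le_antisymm v.2.2.2 v.2.2.1)
    exact ⟨i, rfl, Subtype.ext e⟩
  have e3 : ∀ v, ∃ c i, en c i = v := by
    intro v
    obtain ⟨f, k, e⟩ := hM.pure v.1.1
    obtain ⟨c, -, e'⟩ := bd_up W v e
    obtain ⟨i, -, e''⟩ := e2 c k v e'
    exact ⟨c, i, e''⟩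
  have e4 : Nonempty (W.C2 1 2) := by
    obtain ⟨x, e, hx | hx⟩ := bd
    · exact ⟨(e3 ⟨(e, ![some x, none]), hx, show (1 : ℕ) ∈ Icc 1 1 from ⟨le_rfl, le_rfl⟩⟩).choose⟩
    · exact ⟨(e3 ⟨(e, ![none, some x]), hx, show (1 : ℕ) ∈ Icc 1 1 from ⟨le_rfl, le_rfl⟩⟩).choose⟩
  have e5 : ∀ (c c' : W.C2 1 2) x k k', f3 T x k = c.1 → f3 T x k' = c'.1 →
      bd_sh (bd_pat x.2) k k' → ∃ i j, en c i = en c' j := by
    rintro c c' x k k' a1 a2 ⟨i, j, hij, a3, ⟨rfl, rfl⟩ | ⟨rfl, rfl⟩⟩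
    · obtain ⟨t, a4⟩ := (k3 c i).1 (by rw [← a1]; exact a3)
      obtain ⟨t', -, a5⟩ := e2 c' j (en c t) (by
        show _ = f2 T c.1 (kk c t)
        rw [a4, ← a1, ← a2, f2_f3 T x i j hij])
      exact ⟨t, t', a5.symm⟩
    · obtain ⟨t, a4⟩ := (k3 c' i).1 (by rw [← a2]; exact a3)
      obtain ⟨t', -, a5⟩ := e2 c j (en c' t) (by
        show _ = f2 T c'.1 (kk c' t)
        rw [a4, ← a1, ← a2, f2_f3 T x i j hij])
      exact ⟨t', t, a5⟩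
  have key := hs E (W.C1 1 1) (W.C2 1 2) (W.C3 1 3) hG
    (fun g c h => W.free_cell g c.2.2.1 (congrArg (fun z : W.C1 1 1 => z.1.2) h))
    (fun g c h => W.free_cell g c.2.2.1 (congrArg (fun z : W.C3 1 3 => z.1.2) h))
    (W.finC2 one_pos 2) e4 en sd e1 s1 e3 ?_ ?_ ?_ ?_ h
  · obtain ⟨a, U, u1, u2, u3, K, hK, u4⟩ := key
    refine ⟨a, {v | ∃ c ∈ U, ∃ i, (en c i).1 = v}, ?_, ?_, fun v => ⟨?_, ?_⟩,
      ⟨(fun p : W.C2 1 2 × Bool => (en p.1 p.2).1) '' (K ×ˢ univ),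
        (hK.prod finite_univ).image _, ?_⟩, ?_⟩
    · obtain ⟨c, hc⟩ := u1
      exact ⟨_, c, hc, true, rfl⟩
    · rintro _ ⟨c, -, i, rfl⟩
      exact (en c i).2
    · rintro ⟨c, hc, i, e⟩
      refine ⟨a⁻¹ • c, (u3 _).1 (by rwa [smul_inv_smul]), i, ?_⟩
      rw [e1]
      show a⁻¹ • (en c i).1 = v
      rw [e, inv_smul_smul]
    · rintro ⟨c, hc, i, rfl⟩
      exact ⟨a • c, (u3 c).2 hc, i, congrArg Subtype.val (e1 a c i)⟩
    · rintro _ ⟨c, hc, i, rfl⟩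
      obtain ⟨k, hk, n, rfl⟩ := u4 c hc
      exact ⟨_, ⟨(k, i), ⟨hk, trivial⟩, rfl⟩, n, congrArg Subtype.val (e1 _ k i)⟩
    · rintro c hc k l ⟨c', hc', i, e⟩ hl
      obtain ⟨j, -, a1⟩ := e2 ⟨c, hc⟩ k (en c' i) e.symm
      obtain ⟨j', -, a2⟩ := e2 ⟨c, hc⟩ l ⟨_, hl⟩ rfl
      exact ⟨⟨c, hc⟩, u2 c' hc' _ i j a1.symm, j', congrArg Subtype.val a2⟩
  · intro x
    obtain ⟨k, hk⟩ := bd_d4 (bd_pat x.1.2) x.2.2
    obtain ⟨i, e, -⟩ := s4 ⟨f3 T x.1 k, x.2.1 k, hk⟩ x.1 k x.2.1 rfl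
    exact ⟨_, i, Subtype.ext e⟩
  · intro x v
    let Φ : {p : W.C2 1 2 × Bool × Bool // sd p.1 p.2.1 = x ∧ en p.1 p.2.2 = v} →
        {q : Fin 4 × Fin 3 // f2 T (f3 T x.1 q.1) q.2 = v.1} := fun p =>
      ⟨(m p.1.1 p.1.2.1, kk p.1.1 p.1.2.2), by
        obtain ⟨⟨c, i, j⟩, rfl, rfl⟩ := p
        exact congrArg (f2 T · (kk c j)) (s3 c i)⟩
    have hΦ : Function.Bijective Φ := by
      constructor
      · rintro ⟨⟨c, i, j⟩, a1, a2⟩ ⟨⟨c', i', j'⟩, a3, a4⟩ e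
        have a5 : m c i = m c' i' := congrArg (fun z => z.1.1) e
        have a6 : kk c j = kk c' j' := congrArg (fun z => z.1.2) e
        have a7 : sd c i = sd c' i' := a1.trans a3.symm
        obtain rfl : c = c' := Subtype.ext (by rw [← s3 c i, ← s3 c' i', a5, a7])
        obtain rfl := s2 c i i' a7 a5
        obtain rfl := k2 c a6
        rfl
      · rintro ⟨⟨k, l⟩, e⟩
        have a1 : np (f3 T x.1 k).2 ∈ Icc 1 2 := bd_d2 (bd_pat (f3 T x.1 k).2) l (by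
          have a2 := le_antisymm v.2.2.2 v.2.2.1
          rw [← e] at a2
          exact a2)
        obtain ⟨i, a2, a3⟩ := s4 ⟨f3 T x.1 k, x.2.1 k, a1⟩ x.1 k x.2.1 rfl
        obtain ⟨j, a4, a5⟩ := e2 ⟨f3 T x.1 k, x.2.1 k, a1⟩ l v e
        exact ⟨⟨(_, i, j), Subtype.ext a2, a5⟩, Subtype.ext (Prod.ext a3 a4)⟩
    rw [Nat.card_eq_of_bijective Φ hΦ]
    exact bd_even x.1 v.1
  · intro c c' i j e
    have a1 : f2 T c.1 (kk c i) = f2 T c'.1 (kk c' j) := congrArg Subtype.val e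
    refine (bd_link W (en c i) ?_ (T.link (c.1.1, kk c i) (c'.1.1, kk c' j)
      (congrArg Prod.fst a1))).2 c c' rfl rfl rfl a1.symm
    intro d d' x k k' hx a2 a3
    obtain ⟨t, a4, -⟩ := s4 d x k hx a2
    obtain ⟨t', a5, -⟩ := s4 d' x k' hx a3
    exact ⟨t, t', Subtype.ext (a4.trans a5.symm)⟩
  · intro c c' i j e
    have a1 := s3 c i
    have a2 := s3 c' j
    rw [← e] at a2
    have a3 := c.2.2
    have a4 := c'.2.2
    rw [← a1] at a3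
    rw [← a2] at a4
    rcases bd_d5 (bd_pat (sd c i).1.2) _ _ a3 a4 with a5 | a5 | ⟨k, a5, a6, a7⟩
    · rw [a5] at a1
      rw [Subtype.ext (a1.symm.trans a2)]
      exact EqvGen.refl _
    · exact EqvGen.rel _ _ (e5 c c' _ _ _ a1 a2 a5)
    · exact (EqvGen.rel _ _ (e5 c ⟨_, (sd c i).2.1 k, a7⟩ _ _ _ a1 rfl a5)).trans _ _ _
        (EqvGen.rel _ _ (e5 _ c' _ _ _ rfl a2 a6))

end Pool.Agent.Work.MP_3d425c_gt.Bg
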