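import Pool.Agent.Work.MP_3d425c_gt.Nv.Hull2
import Pool.Agent.Work.MP_3d425c_gt.Ta.Defs

-- merged part: Pool.Agent.Work.MP_3d425c_gt.Nv.Univ
section
/-! The universal labelling of arcs, finiteness of homotopies, and homotopies in bounded balls. -/

namespace Pool.Agent.Work.MP_3d425c_gt.Nv
open Set Relation

universe u v

namespace Sys
variable {B W C : Type u} {X : Sys B W} {D : W → Set ℝ} {K : Cells B W C} {E : C → Set ℝ}

section univ
variable {H : B × ℝ → List (W × Bool) → List (W × Bool) → Prop}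

/-- valid closed words -/
def Cl (X : Sys B W) (D : W → Set ℝ) (x : B × ℝ) (u : List (W × Bool)) : Prop :=
  X.Def D x u ∧ X.go x u = x

theorem Cl.append {x : B × ℝ} {u v} (hu : X.Cl D x u) (hv : X.Cl D x v) : X.Cl D x (u ++ v) :=
  ⟨def_append.2 ⟨hu.1, by rw [hu.2]; exact hv.1⟩, by rw [go_append, hu.2, hv.2]⟩

theorem Cl.rev {x : B × ℝ} {u} (hu : X.Cl D x u) : X.Cl D x (Nv.rev u) := by
  have := def_rev hu.1
  rw [hu.2] at this
  exact this

theorem cl_nil (x : B × ℝ) : X.Cl D x [] := ⟨trivial, rfl⟩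

/-- classes of valid words from `x` -/
abbrev Om (X : Sys B W) (D : W → Set ℝ) (H : B × ℝ → List (W × Bool) → List (W × Bool) → Prop)
    (x : B × ℝ) : Type u := Quot fun p q : {p // X.Def D x p} => H x p.1 q.1

/-- left multiplication by a closed word -/
def act (h : X.Cong D H) {x : B × ℝ} {u} (hu : X.Cl D x u) : X.Om D H x → X.Om D H x :=
  Quot.map (fun w => ⟨u ++ w.1, def_append.2 ⟨hu.1, by rw [hu.2]; exact w.2⟩⟩)
    fun _ _ k => h.app_l hu.1 (by rw [hu.2]; exact k)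

theorem act_act (h : X.Cong D H) {x : B × ℝ} {u v} (hu : X.Cl D x u) (hv : X.Cl D x v)
    (k : H x (u ++ v) []) (o : X.Om D H x) : act h hu (act h hv o) = o := by
  induction o using Quot.ind with
  | mk w =>
    refine Quot.sound ?_
    have := h.app_r k (r := w.1) (by rw [(hu.append hv).2]; exact w.2)
    simpa using this

open Classical in
/-- the permutation of a closed word -/
noncomputable def prm (h : X.Cong D H) (x : B × ℝ) (u : List (W × Bool)) :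
    Equiv.Perm (X.Om D H x) :=
  if hu : X.Cl D x u then
    ⟨act h hu, act h hu.rev,
      act_act h hu.rev hu (by have := h.rev_mul hu.1; rwa [hu.2] at this),
      act_act h hu hu.rev (h.mul_rev hu.1)⟩
  else 1

theorem prm_mk (h : X.Cong D H) {x : B × ℝ} {u} (hu : X.Cl D x u) (w : {p // X.Def D x p}) :
    prm h x u (Quot.mk _ w) =
      Quot.mk _ ⟨u ++ w.1, def_append.2 ⟨hu.1, by rw [hu.2]; exact w.2⟩⟩ := by
  rw [prm, dif_pos hu]; rfl

theorem prm_mul (h : X.Cong D H) {x : B × ℝ} {u v z} (hu : X.Cl D x u) (hv : X.Cl D x v)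
    (k : H x (u ++ v) z) : prm h x u * prm h x v = prm h x z := by
  have hz : X.Cl D x z := ⟨h.dfr k, by rw [← h.go_eq k]; exact (hu.append hv).2⟩
  ext o
  induction o using Quot.ind with
  | mk w =>
    rw [Equiv.Perm.mul_apply, prm_mk h hv, prm_mk h hu, prm_mk h hz]
    refine Quot.sound ?_
    have := h.app_r k (r := w.1) (by rw [(hu.append hv).2]; exact w.2)
    simpa using this

theorem prm_nil (h : X.Cong D H) (x : B × ℝ) : prm h x [] = 1 := by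
  ext o
  induction o using Quot.ind with
  | mk w => rw [prm_mk h (cl_nil x)]; rfl

theorem prm_congr (h : X.Cong D H) {x : B × ℝ} {u z} (hu : X.Cl D x u) (k : H x u z) :
    prm h x u = prm h x z := by
  rw [← prm_mul h hu (cl_nil x) (z := z) (by simpa using k), prm_nil, mul_one]

theorem prm_inj (h : X.Cong D H) {x : B × ℝ} {u z} (hu : X.Cl D x u) (hz : X.Cl D x z)
    (k : prm h x u = prm h x z) : H x u z := by
  have e := congrArg (fun f : Equiv.Perm (X.Om D H x) => f (Quot.mk _ ⟨[], trivial⟩)) k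
  simp only [prm_mk h hu, prm_mk h hz] at e
  have e2 := Quot.eqvGen_exact e
  have all : ∀ p q : {p // X.Def D x p},
      EqvGen (fun p q : {p // X.Def D x p} => H x p.1 q.1) p q → H x p.1 q.1 := by
    intro p q k
    induction k with
    | rel _ _ k => exact k
    | refl p => exact h.refl p.2
    | symm _ _ _ i => exact h.symm i
    | trans _ _ _ _ _ i j => exact h.trans i j
  simpa using all _ _ e2

/-- the universal labelling seen from one base point -/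
theorem exists_univ_at (h : X.Cong D H) (x : B × ℝ) :
    ∃ Ψ : W × ℝ → Equiv.Perm (X.Om D H x), (∀ y p q, H y p q → X.val Ψ y p = X.val Ψ y q) ∧
      ∀ p q, X.Def D x p → X.Def D x q → X.go x p = X.go x q → X.val Ψ x p = X.val Ψ x q →
        H x p q := by
  classical
  let R : B × ℝ → Prop := fun y => ∃ p, X.Def D x p ∧ X.go x p = y
  have hr : ∀ y, ∃ p, R y → X.Def D x p ∧ X.go x p = y := fun y => by
    by_cases hy : R y
    · obtain ⟨p, hp⟩ := hy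
      exact ⟨p, fun _ => hp⟩
    · exact ⟨[], fun h => absurd h hy⟩
  choose r hr using hr
  have Rgo : ∀ y p, R y → X.Def D y p → R (X.go y p) := by
    rintro y p ⟨d, h1, rfl⟩ hp
    exact ⟨d ++ p, def_append.2 ⟨h1, hp⟩, go_append _ _ _⟩
  have Rback : ∀ y p, X.Def D y p → R (X.go y p) → R y := by
    intro y p hp k
    have := Rgo _ _ k (def_rev hp).1
    rwa [(def_rev hp).2] at this
  let lp : B × ℝ → List (W × Bool) → List (W × Bool) := fun y p =>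
    r y ++ p ++ rev (r (X.go y p))
  have hcl : ∀ y p, R y → X.Def D y p → X.Cl D x (lp y p) := by
    intro y p hy hp
    obtain ⟨a1, a2⟩ := hr y hy
    obtain ⟨b1, b2⟩ := hr _ (Rgo y p hy hp)
    have := def_rev b1
    rw [b2] at this
    refine ⟨def_append.2 ⟨def_append.2 ⟨a1, by rw [a2]; exact hp⟩, ?_⟩, ?_⟩
    · rw [go_append, a2]; exact this.1
    · rw [go_append, go_append, a2]; exact this.2
  have hmul : ∀ y p q, R y → X.Def D y p → X.Def D (X.go y p) q →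
      prm h x (lp y p) * prm h x (lp (X.go y p) q) = prm h x (lp y (p ++ q)) := by
    intro y p q hy hp hq
    refine prm_mul h (hcl y p hy hp) (hcl _ q (Rgo y p hy hp) hq) ?_
    obtain ⟨a1, a2⟩ := hr y hy
    obtain ⟨b1, b2⟩ := hr _ (Rgo y p hy hp)
    obtain ⟨c1, c2⟩ := hr _ (Rgo _ q (Rgo y p hy hp) hq)
    have k1 := h.rev_mul b1
    have c3 := def_rev c1
    rw [b2] at k1
    rw [c2] at c3
    have k2 := h.app_r k1 (r := q ++ rev (r (X.go (X.go y p) q)))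
      (by rw [h.go_eq k1]; exact def_append.2 ⟨hq, c3.1⟩)
    have k3 := h.app_l (x := x) (r := r y ++ p) (def_append.2 ⟨a1, by rw [a2]; exact hp⟩)
      (by rw [go_append, a2]; exact k2)
    simpa [lp, go_append] using k3
  have hone : ∀ y p, R y → H y p [] → prm h x (lp y p) = 1 := by
    intro y p hy k
    obtain ⟨a1, a2⟩ := hr y hy
    rw [← prm_nil h x]
    refine prm_congr h (hcl y p hy (h.dfl k)) ?_
    have e : X.go y p = y := h.go_eq k
    have a3 := def_rev a1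
    rw [a2] at a3
    have k2 := h.app_l a1 (p := p ++ rev (r y)) (q := [] ++ rev (r y))
      (by rw [a2]; exact h.app_r k (by rw [e]; exact a3.1))
    have k3 := h.trans k2 (by simpa using h.mul_rev a1)
    simpa [lp, e] using k3
  let Ψ : W × ℝ → Equiv.Perm (X.Om D H x) := fun a =>
    if R (X.src a.1, a.2) then prm h x (lp (X.src a.1, a.2) [(a.1, true)]) else 1
  have letter : ∀ y l, R y → X.Def D y [l] → X.val Ψ y [l] = prm h x (lp y [l]) := by
    rintro ⟨b, a⟩ ⟨w, s⟩ hy hl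
    cases s
    · obtain rfl : X.tgt w = b := hl.1
      have hy' := Rgo _ _ hy hl
      have hl' := (def_rev hl).1
      have k := hmul _ _ _ hy hl hl'
      rw [hone _ _ hy (h.mul_rev hl)] at k
      rw [eq_inv_of_mul_eq_one_left k, val_cons, val_nil, mul_one]
      simp only [Bool.false_eq_true, if_false]
      exact congrArg _ (if_pos hy')
    · obtain rfl : X.src w = b := hl.1
      rw [val_cons, val_nil, mul_one]
      simp only [if_true]
      exact if_pos hy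
  have main : ∀ p y, R y → X.Def D y p → X.val Ψ y p = prm h x (lp y p) := by
    intro p
    induction p with
    | nil => intro y hy _; rw [val_nil, hone y [] hy (h.refl trivial)]
    | cons l p ih =>
      intro y hy hp
      have h1 : X.Def D y [l] := ⟨hp.1, hp.2.1, trivial⟩
      have h2 : X.Def D (X.go y [l]) p := hp.2.2
      have := val_append Ψ y [l] p (X := X)
      rw [letter y l hy h1, ih _ (Rgo _ _ hy h1) h2, hmul _ _ _ hy h1 h2] at this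
      exact this
  have away : ∀ p y, ¬ R y → X.Def D y p → X.val Ψ y p = 1 := by
    intro p
    induction p with
    | nil => intro y _ _; exact val_nil _ _
    | cons l p ih =>
      rintro ⟨b, a⟩ hy hp
      have h1 : X.Def D (b, a) [l] := ⟨hp.1, hp.2.1, trivial⟩
      have hy' : ¬ R (X.step (b, a) l) := fun k => hy (Rback _ _ h1 k)
      rw [val_cons, ih _ hy' hp.2.2, mul_one]
      obtain ⟨w, s⟩ := l
      cases s
      · simp only [Bool.false_eq_true, if_false, inv_eq_one]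
        exact if_neg hy'
      · obtain rfl : X.src w = b := hp.1
        simp only [if_true]
        exact if_neg hy
  refine ⟨Ψ, fun y p q k => ?_, fun p q hp hq e k => ?_⟩
  · by_cases hy : R y
    · have hq := h.dfr k
      have e := h.go_eq k
      have k1 := hmul y p (rev q) hy (h.dfl k) (by rw [e]; exact (def_rev hq).1)
      have k2 := hmul y q (rev q) hy hq (def_rev hq).1
      rw [hone _ _ hy (h.to_mul_rev k), e] at k1
      rw [hone _ _ hy (h.mul_rev hq)] at k2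
      rw [main p y hy (h.dfl k), main q y hy hq]
      exact mul_right_cancel (k1.trans k2.symm)
    · rw [away p y hy (h.dfl k), away q y hy (h.dfr k)]
  · have hx : R x := ⟨[], trivial, rfl⟩
    rw [main p x hx hp, main q x hx hq] at k
    have hq' : X.Def D (X.go x p) (rev q) := by rw [e]; exact (def_rev hq).1
    have k1 := hmul x p (rev q) hx hp hq'
    have k2 := hmul x q (rev q) hx hq (def_rev hq).1
    rw [hone _ _ hx (h.mul_rev hq), ← e, ← k, k1, ← prm_nil h x] at k2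
    have hpq : X.Def D x (p ++ rev q) := def_append.2 ⟨hp, hq'⟩
    have e2 : X.go x (p ++ rev q) = x := by rw [go_append, e]; exact (def_rev hq).2
    have k3 := prm_inj h (hcl x _ hx hpq) (cl_nil x) k2
    obtain ⟨a1, a2⟩ := hr x hx
    refine h.of_mul_rev hq ?_ e
    have a3 := def_rev a1
    rw [a2] at a3
    have k4 : H x (r x ++ (p ++ rev q)) (r x) :=
      h.of_mul_rev a1 (by simpa [lp, e2] using k3) (by rw [go_append, a2, e2])
    have k5 := h.app_l a3.1 (p := r x ++ (p ++ rev q)) (q := r x) (by rw [a3.2]; exact k4)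
    have k6 := h.rev_mul a1
    rw [a2] at k6
    have k7 := h.app_r k6 (r := p ++ rev q) (by rw [h.go_eq k6]; exact hpq)
    refine h.trans (h.symm ?_) (h.trans k5 k6)
    simpa using k7

theorem val_map {Γ Γ' : Type*} [Group Γ] [Group Γ'] (f : Γ →* Γ') (Ψ : W × ℝ → Γ) (x : B × ℝ)
    (p) : X.val (fun a => f (Ψ a)) x p = f (X.val Ψ x p) := by
  induction p generalizing x with
  | nil => simp
  | cons l p ih =>
    rw [val_cons, val_cons, ih, map_mul]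
    split_ifs <;> simp

/-- the universal labelling of a congruence -/
theorem exists_univ (h : X.Cong D H) :
    ∃ (Γ : Type u) (_ : Group Γ) (Ψ : W × ℝ → Γ),
      (∀ y p q, H y p q → X.val Ψ y p = X.val Ψ y q) ∧
      ∀ x p q, X.Def D x p → X.Def D x q → X.go x p = X.go x q → X.val Ψ x p = X.val Ψ x q →
        H x p q := by
  choose Ψ h1 h2 using exists_univ_at h
  let Φ : W × ℝ → ∀ x, Equiv.Perm (X.Om D H x) := fun a x => Ψ x a
  have e : ∀ x y p, X.val Φ y p x = X.val (Ψ x) y p := fun x y p =>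
    (val_map (Pi.evalMonoidHom (fun x => Equiv.Perm (X.Om D H x)) x) Φ y p).symm
  refine ⟨∀ x, Equiv.Perm (X.Om D H x), inferInstance, Φ, fun y p q k => ?_,
    fun x p q hp hq e1 k => h2 x p q hp hq e1 ?_⟩
  · funext x
    rw [e, e, h1 x y p q k]
  · rw [← e, ← e, k]

end univ

/-- the universal labelling for homotopy in the leaves -/
theorem exists_univ_hd (hC : X.CV D K E) :
    ∃ (Γ : Type u) (_ : Group Γ) (Ψ : W × ℝ → Γ), (∀ c, ∀ a ∈ E c, X.Kills K Ψ (c, a)) ∧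
      ∀ x p q, X.Def D x p → X.Def D x q → X.go x p = X.go x q → X.val Ψ x p = X.val Ψ x q →
        X.Hd D K E x p q := by
  obtain ⟨Γ, _, Ψ, h1, h2⟩ := exists_univ (cong_hd hC)
  exact ⟨Γ, inferInstance, Ψ, fun c a ha => (h1 _ _ _ (hd_cell hC ha)).trans (val_nil _ _), h2⟩

/-- UNIV -/
theorem hd_of_val (hC : X.CV D K E) {x : B × ℝ} {p q} (hp : X.Def D x p) (hq : X.Def D x q)
    (e : X.go x p = X.go x q)
    (k : ∀ (Γ : Type u) [Group Γ] (Ψ : W × ℝ → Γ), (∀ c, ∀ a ∈ E c, X.Kills K Ψ (c, a)) →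
      X.val Ψ x p = X.val Ψ x q) : X.Hd D K E x p q := by
  obtain ⟨Γ, _, Ψ, h1, h2⟩ := exists_univ_hd hC
  exact h2 x p q hp hq e (k Γ Ψ h1)

/-- FIN -/
theorem Hd.fin (hC : X.CV D K E) {x : B × ℝ} {p q} (h : X.Hd D K E x p q) :
    ∃ M : Finset (C × ℝ), (∀ κ ∈ M, κ.2 ∈ E κ.1) ∧
      ∀ (Γ : Type v) [Group Γ] (Ψ : W × ℝ → Γ), (∀ κ ∈ M, X.Kills K Ψ κ) →
        X.val Ψ x p = X.val Ψ x q := by
  classical
  obtain ⟨-, h⟩ := h
  induction h with
  | rel p q h =>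
    obtain ⟨hd, p1, r, p2, rfl, rfl, hr⟩ := h
    have hd' := (def_append.1 (def_append.1 hd).1).2
    have e := hr.closed hC hd'
    have key : ∀ (Γ : Type v) [Group Γ] (Ψ : W × ℝ → Γ), X.val Ψ (X.go x p1) r = 1 →
        X.val Ψ x (p1 ++ r ++ p2) = X.val Ψ x (p1 ++ p2) := by
      intro Γ _ Ψ k
      rw [val_append, val_append, val_append, go_append, e, k, mul_one]
    rcases hr with ⟨l, rfl⟩ | ⟨c, h1, h2, rfl⟩
    · exact ⟨∅, by simp, fun Γ _ Ψ _ => key Γ Ψ (val_back _ _ _)⟩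
    · refine ⟨{(c, (X.go x p1).2)}, by simpa using h2, fun Γ _ Ψ k => key Γ Ψ ?_⟩
      have := k _ (Finset.mem_singleton_self _)
      rw [Kills] at this
      simp only [← h1] at this
      exact this
  | refl => exact ⟨∅, by simp, fun _ _ _ _ => rfl⟩
  | symm _ _ _ i =>
    obtain ⟨M, h1, h2⟩ := i
    exact ⟨M, h1, fun Γ _ Ψ k => (h2 Γ Ψ k).symm⟩
  | trans _ _ _ _ _ i j =>
    obtain ⟨M, h1, h2⟩ := i
    obtain ⟨N, h3, h4⟩ := j
    refine ⟨M ∪ N, fun κ hκ => (Finset.mem_union.1 hκ).elim (h1 κ) (h3 κ), fun Γ _ Ψ k => ?_⟩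
    rw [h2 Γ Ψ fun κ hκ => k κ (Finset.mem_union_left _ hκ),
      h4 Γ Ψ fun κ hκ => k κ (Finset.mem_union_right _ hκ)]

theorem Hd.val_eq (hC : X.CV D K E) {x : B × ℝ} {p q} (h : X.Hd D K E x p q)
    {Γ : Type v} [Group Γ] {Ψ : W × ℝ → Γ} (k : ∀ c, ∀ a ∈ E c, X.Kills K Ψ (c, a)) :
    X.val Ψ x p = X.val Ψ x q := by
  obtain ⟨M, h1, h2⟩ := Hd.fin.{u, v} hC h
  exact h2 Γ Ψ fun κ hκ => k κ.1 κ.2 (h1 κ hκ)

theorem val_eq_ev {Γ : Type*} [Group Γ] (Ψ : W × ℝ → Γ) (x : B × ℝ) (p) :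
    X.val Ψ x p = ev Ψ (X.arcs x p) := lift_mk _ _

theorem ev_map {A A' Γ : Type*} [Group Γ] (f : A → A') (Ψ : A' → Γ) (w : List (A × Bool)) :
    ev Ψ (w.map fun z => (f z.1, z.2)) = ev (fun a => Ψ (f a)) w := by
  induction w with
  | nil => simp
  | cons z w ih => rw [List.map_cons, ev_cons, ev_cons, ih]; rfl

theorem exists_lift {x : B × ℝ} {p} (hp : X.Def D x p) :
    ∃ w : List ({α : W × ℝ // α.2 ∈ D α.1} × Bool),
      w.map (fun z => (z.1.1, z.2)) = X.arcs x p ∧ w.length = p.length := by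
  induction p generalizing x with
  | nil => exact ⟨[], rfl, rfl⟩
  | cons l p ih =>
    obtain ⟨w, h1, h2⟩ := ih hp.2.2
    exact ⟨(⟨(l.1, X.al l x.2), hp.2.1⟩, l.2) :: w, by rw [List.map_cons, h1]; rfl, by simp [h2]⟩

/-- a prefix of a word ends at the source of a crossed arc -/
theorem reach_arc {x : B × ℝ} {p} (hp : X.Def D x p) {z : (W × ℝ) × Bool} (hz : z ∈ X.arcs x p) :
    ∃ d, X.Def D x d ∧ d.length ≤ p.length ∧ X.go x d = (X.src z.1.1, z.1.2) := by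
  induction p generalizing x with
  | nil => simp [arcs] at hz
  | cons l p ih =>
    rcases List.mem_cons.1 hz with rfl | hz
    · obtain ⟨w, s⟩ := l
      obtain ⟨b, a⟩ := x
      cases s
      · exact ⟨[(w, false)], ⟨hp.1, hp.2.1, trivial⟩, by simp, rfl⟩
      · obtain rfl : X.src w = b := hp.1
        exact ⟨[], trivial, by simp, rfl⟩
    · obtain ⟨d, h1, h2, h3⟩ := ih hp.2.2 hz
      exact ⟨l :: d, ⟨hp.1, hp.2.1, h1⟩, by simpa using h2, h3⟩

/-- BALL: a homotopy between words of length at most `n` follows from the cells that are reached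
by valid words of length at most `R`, and `R` depends only on `n`. -/
theorem ball (hC : X.CV D K E) (S : X.Surf D K E) (n : ℕ) : ∃ R : ℕ, ∀ x p q,
    p.length ≤ n → q.length ≤ n → X.Hd D K E x p q →
    ∀ (Γ : Type v) [Group Γ] (Ψ : W × ℝ → Γ),
      (∀ c d, X.Def D x d → d.length ≤ R → (X.go x d).1 = K.base c → (X.go x d).2 ∈ E c →
        X.val Ψ (X.go x d) (K.word c) = 1) → X.val Ψ x p = X.val Ψ x q := by
  classical
  obtain ⟨N, hN⟩ := S.len
  obtain ⟨k, hk⟩ := exists_nat_ge (|S.Y| * (2 * (2 * n)))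
  refine ⟨n + N + 2 * N * k, fun x p q hpn hqn h Γ _ Ψ hΨ => ?_⟩
  have hp := h.1
  have hq := (cong_hd hC).dfr h
  obtain ⟨w, hw, hwl⟩ := exists_lift hp
  obtain ⟨w', hw', hwl'⟩ := exists_lift hq
  obtain ⟨M, hM, hM2⟩ := Hd.fin.{u, v} hC h
  set Z : Finset {α : W × ℝ // α.2 ∈ D α.1} := ((w ++ w').map Prod.fst).toFinset with hZ
  have memZ : ∀ a, a ∈ Z ↔ ∃ z, (z ∈ w ∨ z ∈ w') ∧ z.1 = a := fun a => by
    simp only [hZ, List.mem_toFinset, List.mem_map, List.mem_append]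
  have hZc : (Z.card : ℝ) ≤ 2 * n := by
    have := List.toFinset_card_le ((w ++ w').map Prod.fst)
    rw [List.length_map, List.length_append, hwl, hwl'] at this
    have h2 : Z.card ≤ 2 * n := by rw [hZ]; omega
    exact_mod_cast h2
  have cellarc : ∀ z : {α : W × ℝ // α.2 ∈ D α.1} × Bool, ∃ d,
      X.Def D (K.base (S.Q.cell z).1.1, (S.Q.cell z).1.2) d ∧ d.length ≤ N ∧
      X.go (K.base (S.Q.cell z).1.1, (S.Q.cell z).1.2) d = (X.src z.1.1.1, z.1.1.2) := by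
    intro z
    have h1 : (z.1.1, S.Q.sg z) ∈ X.bd K (S.Q.cell z).1 := by
      rw [← S.bd_eq]
      exact List.mem_map.2 ⟨(z.1, S.Q.sg z),
        List.mem_map.2 ⟨z, (S.Q.mem _ _).2 rfl, rfl⟩, rfl⟩
    obtain ⟨d, h2, h3, h4⟩ := reach_arc (hC _ _ (S.Q.cell z).2).1 h1
    exact ⟨d, h2, h3.trans (hN _), h4⟩
  have near : ∀ j κ, S.Q.Near (Z : Set _) j κ →
      ∃ d, X.Def D x d ∧ d.length ≤ n + N + 2 * N * j ∧ X.go x d = (K.base κ.1.1, κ.1.2) := by
    intro j κ hκ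
    induction hκ with
    | base j z hz =>
      obtain ⟨z', hz', e⟩ := (memZ _).1 hz
      obtain ⟨d, h1, h2, h3⟩ : ∃ d, X.Def D x d ∧ d.length ≤ n ∧
          X.go x d = (X.src z.1.1.1, z.1.1.2) := by
        rcases hz' with hz' | hz'
        · obtain ⟨d, h1, h2, h3⟩ := reach_arc hp (z := (z'.1.1, z'.2))
            (by rw [← hw]; exact List.mem_map.2 ⟨z', hz', rfl⟩)
          exact ⟨d, h1, h2.trans hpn, by rw [h3, ← e]⟩
        · obtain ⟨d, h1, h2, h3⟩ := reach_arc hq (z := (z'.1.1, z'.2))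
            (by rw [← hw']; exact List.mem_map.2 ⟨z', hz', rfl⟩)
          exact ⟨d, h1, h2.trans hqn, by rw [h3, ← e]⟩
      obtain ⟨d', g1, g2, g3⟩ := cellarc z
      have g4 := def_rev g1
      rw [g3] at g4
      refine ⟨d ++ rev d', def_append.2 ⟨h1, by rw [h3]; exact g4.1⟩, ?_, ?_⟩
      · simp only [List.length_append, rev, List.length_reverse, List.length_map]; omega
      · rw [go_append, h3, g4.2]
    | step j c c' _ hadj ih =>
      obtain ⟨d, h1, h2, h3⟩ := ih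
      obtain ⟨a, b, -, rfl, rfl⟩ := hadj
      obtain ⟨d1, f1, f2, f3⟩ := cellarc (a, b)
      obtain ⟨d2, g1, g2, g3⟩ := cellarc (a, !b)
      have g4 := def_rev g1
      rw [g3] at g4
      refine ⟨d ++ d1 ++ rev d2,
        def_append.2 ⟨def_append.2 ⟨h1, by rw [h3]; exact f1⟩, ?_⟩, ?_, ?_⟩
      · rw [go_append, h3, f3]; exact g4.1
      · simp only [List.length_append, rev, List.length_reverse, List.length_map, mul_add]; omega
      · rw [go_append, go_append, h3, f3]; exact g4.2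
  have cellval : ∀ (Φ : W × ℝ → Γ) (κ : {κ : C × ℝ // κ.2 ∈ E κ.1}),
      X.val Φ (K.base κ.1.1, κ.1.2) (K.word κ.1.1) = ev (fun a => Φ a.1) (S.Q.bd κ) := by
    intro Φ κ
    rw [val_eq_ev, ← ev_map Subtype.val Φ, S.bd_eq]; rfl
  rw [val_eq_ev, val_eq_ev, ← hw, ← hw', ev_map Subtype.val Ψ, ev_map Subtype.val Ψ]
  refine S.Q.hull (Z : Set _) w w' (fun z hz => (memZ _).2 ⟨z, Or.inl hz, rfl⟩)
    (fun z hz => (memZ _).2 ⟨z, Or.inr hz, rfl⟩) (M.subtype fun κ => κ.2 ∈ E κ.1)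
    (fun φ hφ => ?_) _ fun κ hκ => ?_
  · let Φ : W × ℝ → Γ := fun α => if h : α.2 ∈ D α.1 then φ ⟨α, h⟩ else 1
    have e : (fun a : {α : W × ℝ // α.2 ∈ D α.1} => Φ a.1) = φ := funext fun a => dif_pos a.2
    have := hM2 Γ Φ fun κ hκ => by
      have h1 := cellval Φ ⟨κ, hM κ hκ⟩
      rw [e, hφ _ (Finset.mem_subtype.2 hκ)] at h1
      exact h1
    rwa [val_eq_ev, val_eq_ev, ← hw, ← hw', ev_map Subtype.val Φ, ev_map Subtype.val Φ, e] at this
  · have hnear := S.Q.near_of_K S.wt Z hκ (fun _ _ => mem_univ _) k (by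
      have h0 : (0 : ℝ) ≤ Z.card := Nat.cast_nonneg _
      calc S.Y * (2 * Z.card) ≤ |S.Y| * (2 * Z.card) :=
            mul_le_mul_of_nonneg_right (le_abs_self _) (by linarith)
        _ ≤ |S.Y| * (2 * (2 * n)) := mul_le_mul_of_nonneg_left (by linarith) (abs_nonneg _)
        _ ≤ k := hk)
    obtain ⟨d, h1, h2, h3⟩ := near k κ hnear
    have := hΨ κ.1.1 d h1 h2 (by rw [h3]) (by rw [h3]; exact κ.2)
    rw [h3, cellval] at this
    exact this

end Sys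
end Pool.Agent.Work.MP_3d425c_gt.Nv
end

-- merged part: Pool.Agent.Work.MP_3d425c_gt.Nv.Mod
section
/-! The primal words of a carried foliation; statements of the blocks for Novikov's theorem. -/

namespace Pool.Agent.Work.MP_3d425c_gt.Nv
open Set Relation Pool.Agent.Work.MP_3d425c_gt.Md

variable {G X0 X1 X2 X3 : Type} [Group G] [MulAction G X0] [MulAction G X1] [MulAction G X2]
  [MulAction G X3] (T : Tri G X0 X1 X2 X3) (φ : X2 → ℝ ≃o ℝ)

/-- The complex, the upper links and the lower links of its vertices are simply connected: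
group valued cocycles are coboundaries. -/
structure Disc : Prop where
  sc : ∀ (Γ : Type) [Group Γ] (z : X1 → Γ), (∀ f, z (T.d2 f 1) = z (T.d2 f 2) * z (T.d2 f 0)) →
    ∃ s : X0 → Γ, ∀ e, z e = s (T.d1 e 1) * (s (T.d1 e 0))⁻¹
  ul : ∀ (Γ : Type) [Group Γ] (c : X2 → Γ),
    (∀ x, c (T.d3 x 2) = c (T.d3 x 1) * c (T.d3 x 3)) →
    ∃ s : X1 → Γ, ∀ f, c f = s (T.d2 f 1) * (s (T.d2 f 2))⁻¹
  ll : ∀ (Γ : Type) [Group Γ] (c : X2 → Γ),
    (∀ x, c (T.d3 x 1) = c (T.d3 x 2) * c (T.d3 x 0)) →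
    ∃ s : X1 → Γ, ∀ f, c f = s (T.d2 f 1) * (s (T.d2 f 0))⁻¹

/-- walls: `(f, false)` from the long edge to the low edge, `(f, true)` to the high edge -/
noncomputable def sys : Sys X1 (X2 × Bool) where
  src w := T.d2 w.1 1
  tgt w := if w.2 then T.d2 w.1 0 else T.d2 w.1 2
  m w := ((φ w.1).trans (OrderIso.mulLeft₀ 2 two_pos)).trans
    (OrderIso.addRight (if w.2 then -1 else 0))

/-- the three kinds of plaques of a tetrahedron -/
def cells : Cells X1 (X2 × Bool) (X3 × Fin 3) where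
  base c := T.d2 (T.d3 c.1 2) 1
  word c := ![[((T.d3 c.1 2, false), true), ((T.d3 c.1 3, false), false),
      ((T.d3 c.1 1, false), false)],
    [((T.d3 c.1 2, true), true), ((T.d3 c.1 0, false), true), ((T.d3 c.1 3, true), false),
      ((T.d3 c.1 1, false), false)],
    [((T.d3 c.1 2, true), true), ((T.d3 c.1 0, true), true), ((T.d3 c.1 1, true), false)]] c.2

/-- the level of the middle vertex on the long edge -/
noncomputable def mark (f : X2) : ℝ := (φ f).symm (1 / 2)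

/-- `a ≤ t` in the mode `true` (germs from above), `a < t` in the mode `false` -/
def ab (sg : Bool) (a t : ℝ) : Prop := if sg then a ≤ t else a < t

/-- `[a,b)` in the mode `true`, `(a,b]` in the mode `false` -/
def Iv (sg : Bool) (a b : ℝ) : Set ℝ := {t | ab sg a t ∧ ¬ ab sg b t}

/-- half open domains of the walls -/
def Dm (sg : Bool) (w : X2 × Bool) : Set ℝ :=
  if w.2 then Iv sg (mark φ w.1) 1 else Iv sg 0 (mark φ w.1)

/-- open domains of the walls -/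
def Do (w : X2 × Bool) : Set ℝ := if w.2 then Ioo (mark φ w.1) 1 else Ioo 0 (mark φ w.1)

/-- half open domains of the cells -/
def Em (sg : Bool) (c : X3 × Fin 3) : Set ℝ :=
  ![Iv sg 0 (mark φ (T.d3 c.1 2)), Iv sg (mark φ (T.d3 c.1 2)) (mark φ (T.d3 c.1 1)),
    Iv sg (mark φ (T.d3 c.1 1)) 1] c.2

theorem sys_m (f : X2) (b : Bool) (t : ℝ) :
    (sys T φ).m (f, b) t = 2 * φ f t + if b then -1 else 0 := rfl

theorem sys_m_symm (f : X2) (b : Bool) (t : ℝ) :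
    ((sys T φ).m (f, b)).symm t = (φ f).symm ((t + if b then 1 else 0) / 2) := by
  rw [OrderIso.symm_apply_eq, sys_m, OrderIso.apply_symm_apply]
  cases b <;> simp <;> ring

/-- valid cells have valid closed words -/
def S_cv : Prop := T.Flat φ → ∀ sg, (sys T φ).CV (Dm φ sg) (cells T) (Em T φ sg)

/-- the half open cells form a surface with surplus -/
def S_surf : Prop := ∀ y, T.Flw y → T.Flat φ → ∀ sg,
  Nonempty ((sys T φ).Surf (Dm φ sg) (cells T) (Em T φ sg))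

/-- crossing a vertex level -/
def S_cross : Prop := Disc T → T.Flat φ → ∀ (sg : Bool) (Γ : Type) [Group Γ]
  (Ψ : (X2 × Bool) × ℝ → Γ), (∀ κ : (X3 × Fin 3) × ℝ, κ.2 ∈ Em T φ sg κ.1 →
    (sys T φ).Kills (cells T) Ψ κ) →
  ∃ Ψ' : (X2 × Bool) × ℝ → Γ, (∀ κ : (X3 × Fin 3) × ℝ, κ.2 ∈ Em T φ (!sg) κ.1 →
    (sys T φ).Kills (cells T) Ψ' κ) ∧ ∀ α, α.2 ∈ Do φ α.1 → Ψ' α = Ψ α

/-- the complex of edges, walls and cells is simply connected -/
def S_ksc : Prop := Disc T → ∀ (Γ : Type) [Group Γ] (Ψ : (X2 × Bool) × ℝ → Γ),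
  (∀ c, (sys T φ).flat.Kills (cells T) Ψ (c, 0)) →
  ∃ s : X1 → Γ, ∀ w, Ψ (w, 0) = s ((sys T φ).src w) * (s ((sys T φ).tgt w))⁻¹

end Pool.Agent.Work.MP_3d425c_gt.Nv
end

-- merged part: Pool.Agent.Work.MP_3d425c_gt.Nv.Aon2
section
/-! All or nothing for words that are valid in the open mode. -/

namespace Pool.Agent.Work.MP_3d425c_gt.Nv
open Set Filter Topology Relation

universe u

namespace Sys
variable {B W C : Type u} {X : Sys B W} {D Dp Dn : W → Set ℝ} {K : Cells B W C}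
  {Ep En : C → Set ℝ}

/-- homotopy in the mode `Dp` of words that are valid in the mode `D` -/
def Ho (X : Sys B W) (D Dp : W → Set ℝ) (K : Cells B W C) (Ep : C → Set ℝ) (x : B × ℝ)
    (p q : List (W × Bool)) : Prop := X.Def D x p ∧ X.Def D x q ∧ X.Hd Dp K Ep x p q

theorem cong_ho (hD : ∀ w, D w ⊆ Dp w) (hC : X.CV Dp K Ep) : X.Cong D (X.Ho D Dp K Ep) where
  dfl h := h.1
  go_eq h := (cong_hd hC).go_eq h.2.2
  refl h := ⟨h, h, (cong_hd hC).refl (h.mono hD)⟩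
  symm h := ⟨h.2.1, h.1, (cong_hd hC).symm h.2.2⟩
  trans h k := ⟨h.1, k.2.1, (cong_hd hC).trans h.2.2 k.2.2⟩
  app_r h k := ⟨def_append.2 ⟨h.1, k⟩, def_append.2 ⟨h.2.1, (cong_hd hC).go_eq h.2.2 ▸ k⟩,
    (cong_hd hC).app_r h.2.2 (k.mono hD)⟩
  app_l k h := ⟨def_append.2 ⟨k, h.1⟩, def_append.2 ⟨k, h.2.1⟩,
    (cong_hd hC).app_l (k.mono hD) h.2.2⟩
  cancel := by
    intro x l h
    exact ⟨⟨h.1, h.2.1, by simp [step], by simpa [step] using h.2.1, trivial⟩, trivial,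
      (cong_hd hC).cancel (h.mono hD)⟩

theorem side_gt : Side fun a : ℝ => 𝓝[>] a where
  le _ := nhdsWithin_le_nhds
  map f a := tendsto_nhdsWithin_iff.2 ⟨(f.continuous.tendsto a).mono_left nhdsWithin_le_nhds,
    eventually_mem_nhdsWithin.mono fun _ h => f.strictMono h⟩

theorem side_lt : Side fun a : ℝ => 𝓝[<] a where
  le _ := nhdsWithin_le_nhds
  map f a := tendsto_nhdsWithin_iff.2 ⟨(f.continuous.tendsto a).mono_left nhdsWithin_le_nhds,
    eventually_mem_nhdsWithin.mono fun _ h => f.strictMono h⟩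

theorem aon_oc (hD : ∀ w, (D w).OrdConnected) (b : B) (p : List (W × Bool)) :
    {a | X.Def D (b, a) p}.OrdConnected := by
  induction p generalizing b with
  | nil => exact ⟨fun _ _ _ _ _ _ => trivial⟩
  | cons l p ih =>
    have m : Monotone (X.al l) := by
      rcases l with ⟨w, _ | _⟩
      · exact (X.m w).symm.monotone
      · exact monotone_id
    exact ⟨fun a ha a' ha' c hc => ⟨ha.1, (hD l.1).out ha.2.1 ha'.2.1 ⟨m hc.1, m hc.2⟩,
      (ih (X.t l)).out ha.2.2 ha'.2.2 ⟨(X.mp l).monotone hc.1, (X.mp l).monotone hc.2⟩⟩⟩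

theorem aon_congr {Γ : Type*} [Group Γ] {Ψ Ψ' : W × ℝ → Γ} (h : ∀ α, α.2 ∈ D α.1 → Ψ' α = Ψ α)
    {x p} (hp : X.Def D x p) : X.val Ψ' x p = X.val Ψ x p := by
  rw [aon_val, aon_val]
  exact ev_congr fun z hz => h _ (aon_arc hp hz).1

theorem aon_univ (hC : X.CV Dp K Ep) {x : B × ℝ} {p q} (hp : X.Def Dp x p) (hq : X.Def Dp x q)
    (e : X.go x p = X.go x q) (k : ∀ (Γ : Type u) [Group Γ] (Ψ : W × ℝ → Γ),
      (∀ κ : C × ℝ, κ.2 ∈ Ep κ.1 → X.Kills K Ψ κ) → X.val Ψ x p = X.val Ψ x q) :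
    X.Hd Dp K Ep x p q :=
  hd_of_val hC hp hq e fun Γ _ Ψ h => k Γ Ψ fun κ hκ => h κ.1 κ.2 hκ

/-- a homotopy in one mode gives one in the other mode -/
theorem aon_cross (hn : ∀ w, D w ⊆ Dn w) (hCp : X.CV Dp K Ep) (hCn : X.CV Dn K En)
    (cr : ∀ (Γ : Type u) [Group Γ] (Ψ : W × ℝ → Γ), (∀ κ : C × ℝ, κ.2 ∈ En κ.1 → X.Kills K Ψ κ) →
      ∃ Ψ' : W × ℝ → Γ, (∀ κ : C × ℝ, κ.2 ∈ Ep κ.1 → X.Kills K Ψ' κ) ∧
        ∀ α, α.2 ∈ D α.1 → Ψ' α = Ψ α)
    {x p q} (hp : X.Def D x p) (hq : X.Def D x q) (h : X.Hd Dp K Ep x p q) :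
    X.Hd Dn K En x p q := by
  refine aon_univ hCn (hp.mono hn) (hq.mono hn) ((cong_hd hCp).go_eq h) fun Γ _ Ψ hΨ => ?_
  obtain ⟨Ψ', h1, h2⟩ := cr Γ Ψ hΨ
  obtain ⟨M, hM⟩ := aon_fin hCp Γ h
  rw [← aon_congr h2 hp, ← aon_congr h2 hq]
  exact hM Ψ' fun κ _ => h1 _ κ.2

theorem aon_ho (hD : ∀ w, (D w).OrdConnected) (hCp : X.CV Dp K Ep) (hCn : X.CV Dn K En)
    (S : Surf X Dp K Ep) (d1 : ∀ w, FC2 (fun a => 𝓝[>] a) (Dp w) (Dp w))
    (e1 : ∀ c, FC2 (fun a => 𝓝[>] a) (Ep c) (Ep c))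
    (d2 : ∀ w, FC2 (fun a => 𝓝[<] a) (Dp w) (Dn w))
    (e2 : ∀ c, FC2 (fun a => 𝓝[<] a) (Ep c) (En c))
    (cr : ∀ x p q, X.Def D x p → X.Def D x q → (X.Hd Dp K Ep x p q ↔ X.Hd Dn K En x p q)) :
    X.AON D (X.Ho D Dp K Ep) := by
  intro b a a' p q h hp hq
  refine ⟨hp, hq, ?_⟩
  have hI := ((aon_oc (X := X) hD b p).inter (aon_oc (X := X) hD b q)).isPreconnected
  refine hI.induction₂' (fun s t => X.Hd Dp K Ep (b, s) p q → X.Hd Dp K Ep (b, t) p q)
    (fun s hs => ?_) (fun _ _ _ _ _ _ i j k => j (i k)) ⟨h.1, h.2.1⟩ ⟨hp, hq⟩ h.2.2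
  refine Eventually.filter_mono nhdsWithin_le_nhds ?_
  rw [← nhdsLT_sup_nhdsGE, ← Ioi_insert, nhdsWithin_insert, eventually_sup, eventually_sup,
    eventually_pure]
  by_cases e : X.Hd Dp K Ep (b, s) p q
  · exact ⟨(aon_open side_lt d2 e2 ((cr _ _ _ hs.1 hs.2).1 e)).mono fun _ k => ⟨fun _ => k, fun _ => e⟩,
      ⟨id, id⟩, (aon_open side_gt d1 e1 e).mono fun _ k => ⟨fun _ => k, fun _ => e⟩⟩
  · have n1 := mt (aon_closed side_gt d1 e1 hCp S fun _ _ _ => aon_univ hCp) e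
    have n2 := mt (fun k => (cr _ _ _ hs.1 hs.2).2
      (aon_closed side_lt d2 e2 hCp S (fun _ _ _ => aon_univ hCn) k)) e
    rw [not_frequently] at n1 n2
    exact ⟨n2.mono fun _ k => ⟨fun i => absurd i e, fun i => absurd i k⟩, ⟨id, id⟩,
      n1.mono fun _ k => ⟨fun i => absurd i e, fun i => absurd i k⟩⟩

theorem fc2_gt (a b : ℝ) : FC2 (fun a => 𝓝[>] a) (Iv true a b) (Iv true a b) := fun t => by
  simp only [Iv, ab, if_true, mem_ofPred_eq, not_le]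
  refine ⟨fun h => ?_, fun h => ⟨?_, ?_⟩⟩
  · filter_upwards [Ioo_mem_nhdsGT h.2] with x hx
    exact ⟨h.1.trans hx.1.le, hx.2⟩
  · by_contra k
    obtain ⟨x, h1, h2⟩ := (h.and_eventually (Ioo_mem_nhdsGT (not_le.1 k))).exists
    exact absurd h1.1 (not_le.2 h2.2)
  · obtain ⟨x, h1, h2⟩ := (h.and_eventually eventually_mem_nhdsWithin).exists
    exact lt_trans h2 h1.2

theorem fc2_lt (a b : ℝ) : FC2 (fun a => 𝓝[<] a) (Iv true a b) (Iv false a b) := fun t => by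
  simp only [Iv, ab, if_true, mem_ofPred_eq, not_le, Bool.false_eq_true, if_false, not_lt]
  refine ⟨fun h => ?_, fun h => ⟨?_, ?_⟩⟩
  · filter_upwards [Ioo_mem_nhdsLT h.1] with x hx
    exact ⟨hx.1.le, hx.2.trans_le h.2⟩
  · obtain ⟨x, h1, h2⟩ := (h.and_eventually eventually_mem_nhdsWithin).exists
    exact h1.1.trans_lt h2
  · by_contra k
    obtain ⟨x, h1, h2⟩ := (h.and_eventually (Ioo_mem_nhdsLT (not_le.1 k))).exists
    exact absurd h1.2 (not_lt.2 h2.1.le)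

end Sys

open Sys Pool.Agent.Work.MP_3d425c_gt.Md

variable {G X0 X1 X2 X3 : Type} [Group G] [MulAction G X0] [MulAction G X1] [MulAction G X2]
  [MulAction G X3] {T : Tri G X0 X1 X2 X3} {φ : X2 → ℝ ≃o ℝ}

theorem do_sub (sg : Bool) (w : X2 × Bool) : Do φ w ⊆ Dm φ sg w := by
  have : ∀ a b : ℝ, Ioo a b ⊆ Iv sg a b := fun a b t h => by
    cases sg
    · exact ⟨h.1, not_lt.2 h.2.le⟩
    · exact ⟨h.1.le, not_le.2 h.2⟩
  rcases w with ⟨f, _ | _⟩ <;> exact this _ _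

/-- congruence and all or nothing in the model -/
theorem aon_model (cv : S_cv T φ) (sf : S_surf T φ) (cr : S_cross T φ) (hD : Disc T) {y}
    (hy : T.Flw y) (hf : T.Flat φ) :
    (sys T φ).Cong (Do φ) ((sys T φ).Ho (Do φ) (Dm φ true) (cells T) (Em T φ true)) ∧
    (sys T φ).AON (Do φ) ((sys T φ).Ho (Do φ) (Dm φ true) (cells T) (Em T φ true)) := by
  obtain ⟨S⟩ := sf y hy hf true
  refine ⟨cong_ho (do_sub true) (cv hf true), aon_ho ?_ (cv hf true) (cv hf false) S ?_ ?_ ?_ ?_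
    fun x p q hp hq => ⟨aon_cross (do_sub false) (cv hf true) (cv hf false) (cr hD hf false) hp hq,
      aon_cross (do_sub true) (cv hf false) (cv hf true) (cr hD hf true) hp hq⟩⟩
  · rintro ⟨f, _ | _⟩ <;> exact ordConnected_Ioo
  · rintro ⟨f, _ | _⟩ <;> exact fc2_gt _ _
  · rintro ⟨x, i⟩
    fin_cases i <;> exact fc2_gt _ _
  · rintro ⟨f, _ | _⟩ <;> exact fc2_lt _ _
  · rintro ⟨x, i⟩
    fin_cases i <;> exact fc2_lt _ _

end Pool.Agent.Work.MP_3d425c_gt.Nv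
end

-- merged part: Pool.Agent.Work.MP_3d425c_gt.Nv.Cv
section
/-! Valid cells have valid closed boundary words; the levels of their arcs. -/

namespace Pool.Agent.Work.MP_3d425c_gt.Nv
open Set Relation Pool.Agent.Work.MP_3d425c_gt.Md

theorem Cv_ab_map (sg : Bool) (f : ℝ ≃o ℝ) (a t : ℝ) : ab sg (f a) (f t) ↔ ab sg a t := by
  cases sg <;> simp [ab]

theorem Cv_iv_map (sg : Bool) (f : ℝ ≃o ℝ) (a b t : ℝ) :
    f t ∈ Iv sg (f a) (f b) ↔ t ∈ Iv sg a b := by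
  simp only [Iv, mem_ofPred_eq, Cv_ab_map]

theorem Cv_iv_Icc (sg : Bool) (a b : ℝ) : Iv sg a b ⊆ Icc a b := fun t h => by
  cases sg <;> simp only [Iv, ab, mem_ofPred_eq, if_true, Bool.false_eq_true, if_false, not_le,
    not_lt] at h
  · exact ⟨h.1.le, h.2⟩
  · exact ⟨h.1, h.2.le⟩

theorem Cv_Ioo_iv (sg : Bool) (a b : ℝ) : Ioo a b ⊆ Iv sg a b := fun t h => by
  cases sg <;> simp only [Iv, ab, mem_ofPred_eq, if_true, Bool.false_eq_true, if_false, not_le,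
    not_lt]
  · exact ⟨h.1, h.2.le⟩
  · exact ⟨h.1.le, h.2⟩

theorem Cv_ab_mono {sg : Bool} {a a' t : ℝ} (h : a' ≤ a) (k : ab sg a t) : ab sg a' t := by
  cases sg
  · exact lt_of_le_of_lt h k
  · exact le_trans h k

theorem Cv_iv_mono {sg : Bool} {a b a' b' : ℝ} (h1 : a' ≤ a) (h2 : b ≤ b') :
    Iv sg a b ⊆ Iv sg a' b' := fun _ h => ⟨Cv_ab_mono h1 h.1, fun k => h.2 (Cv_ab_mono h2 k)⟩

variable {G X0 X1 X2 X3 : Type} [Group G] [MulAction G X0] [MulAction G X1] [MulAction G X2]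
  [MulAction G X3] {T : Tri G X0 X1 X2 X3} {φ : X2 → ℝ ≃o ℝ}

theorem Cv_mark (φ : X2 → ℝ ≃o ℝ) (f : X2) : φ f (mark φ f) = 1 / 2 :=
  (φ f).apply_symm_apply _

theorem Cv_eq_mark {f : X2} {t : ℝ} (h : φ f t = 1 / 2) : t = mark φ f :=
  (φ f).injective (h.trans (Cv_mark φ f).symm)

theorem Cv_le_mark {f : X2} {t : ℝ} : 2 * φ f t ≤ 1 ↔ t ≤ mark φ f := by
  rw [← (φ f).le_iff_le (x := t), Cv_mark]
  constructor <;> intro h <;> linarith

theorem Cv_zero (h : T.Flat φ) (f : X2) : φ f 0 = 0 := h.supp f 0 fun k => lt_irrefl _ k.1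

theorem Cv_one (h : T.Flat φ) (f : X2) : φ f 1 = 1 := h.supp f 1 fun k => lt_irrefl _ k.2

theorem Cv_mark_mem (h : T.Flat φ) (f : X2) : mark φ f ∈ Ioo (0 : ℝ) 1 := by
  constructor
  · rw [← (φ f).lt_iff_lt, Cv_mark, Cv_zero h]
    norm_num
  · rw [← (φ f).lt_iff_lt, Cv_mark, Cv_one h]
    norm_num

theorem Cv_mark_lt (h : T.Flat φ) (x : X3) : mark φ (T.d3 x 2) < mark φ (T.d3 x 1) := by
  have h1 := Cv_mark_mem h (T.d3 x 1)
  have h2 := h.flat x _ (Ioo_subset_Icc_self h1)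
  by_contra hn
  have h3 := Cv_le_mark.2 (not_lt.1 hn)
  rw [if_pos h3, if_pos (Cv_le_mark.2 le_rfl), Cv_mark, show (2 : ℝ) * (1 / 2) = 1 by norm_num,
    Cv_one h] at h2
  linarith

theorem Cv_left (h : T.Flat φ) (x : X3) {s : ℝ} (hs : mark φ (T.d3 x 2) ≤ s) :
    (if 2 * φ (T.d3 x 2) s ≤ 1 then 2 * φ (T.d3 x 2) s
      else 1 + 2 * φ (T.d3 x 0) (2 * φ (T.d3 x 2) s - 1)) =
      1 + 2 * φ (T.d3 x 0) (2 * φ (T.d3 x 2) s - 1) := by
  split_ifs with c
  · rw [le_antisymm (Cv_le_mark.1 c) hs, Cv_mark, show (2 : ℝ) * (1 / 2) - 1 = 0 by norm_num,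
      Cv_zero h]
    norm_num
  · rfl

/-- the level identity of the low plaques -/
theorem Cv_low (h : T.Flat φ) (x : X3) {s : ℝ} (hs : s ∈ Icc 0 (mark φ (T.d3 x 2))) :
    2 * φ (T.d3 x 2) s = 2 * φ (T.d3 x 3) (2 * φ (T.d3 x 1) s) := by
  have h2 := h.flat x s ⟨hs.1, hs.2.trans (Cv_mark_mem h _).2.le⟩
  rwa [if_pos (Cv_le_mark.2 hs.2), if_pos (Cv_le_mark.2 (hs.2.trans (Cv_mark_lt h x).le))] at h2

/-- the level identity of the middle plaques -/
theorem Cv_mid (h : T.Flat φ) (x : X3) {s : ℝ}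
    (hs : s ∈ Icc (mark φ (T.d3 x 2)) (mark φ (T.d3 x 1))) :
    1 + 2 * φ (T.d3 x 0) (2 * φ (T.d3 x 2) s - 1) = 2 * φ (T.d3 x 3) (2 * φ (T.d3 x 1) s) := by
  have h2 := h.flat x s ⟨(Cv_mark_mem h _).1.le.trans hs.1, hs.2.trans (Cv_mark_mem h _).2.le⟩
  rwa [Cv_left h x hs.1, if_pos (Cv_le_mark.2 hs.2)] at h2

/-- the level identity of the high plaques -/
theorem Cv_high (h : T.Flat φ) (x : X3) {s : ℝ} (hs : s ∈ Icc (mark φ (T.d3 x 1)) 1) :
    φ (T.d3 x 0) (2 * φ (T.d3 x 2) s - 1) = φ (T.d3 x 1) s := by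
  have h2 := h.flat x s ⟨(Cv_mark_mem h _).1.le.trans hs.1, hs.2⟩
  rw [Cv_left h x ((Cv_mark_lt h x).le.trans hs.1)] at h2
  split_ifs at h2 with c
  · rw [le_antisymm (Cv_le_mark.1 c) hs.1] at h2 ⊢
    rw [Cv_mark, show (2 : ℝ) * (1 / 2) = 1 by norm_num, Cv_one h] at h2
    rw [Cv_mark]
    linarith
  · linarith

theorem Cv_mark3 (h : T.Flat φ) (x : X3) :
    2 * φ (T.d3 x 1) (mark φ (T.d3 x 2)) = mark φ (T.d3 x 3) := by
  have h2 := Cv_low h x ⟨(Cv_mark_mem h _).1.le, le_rfl⟩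
  rw [Cv_mark] at h2
  exact Cv_eq_mark (by linarith)

theorem Cv_mark0 (h : T.Flat φ) (x : X3) :
    2 * φ (T.d3 x 2) (mark φ (T.d3 x 1)) - 1 = mark φ (T.d3 x 0) :=
  Cv_eq_mark ((Cv_high h x ⟨le_rfl, (Cv_mark_mem h _).2.le⟩).trans (Cv_mark φ _))

theorem Cv_mf (T : Tri G X0 X1 X2 X3) (φ : X2 → ℝ ≃o ℝ) (f : X2) (t : ℝ) :
    (sys T φ).m (f, false) t = 2 * φ f t := add_zero _

theorem Cv_mt (T : Tri G X0 X1 X2 X3) (φ : X2 → ℝ ≃o ℝ) (f : X2) (t : ℝ) :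
    (sys T φ).m (f, true) t = 2 * φ f t - 1 := (sub_eq_add_neg _ _).symm

theorem Cv_sf {f : X2} {t u : ℝ} (h : u = 2 * φ f t) : ((sys T φ).m (f, false)).symm u = t := by
  rw [OrderIso.symm_apply_eq, Cv_mf, h]

theorem Cv_st {f : X2} {t u : ℝ} (h : u = 2 * φ f t - 1) :
    ((sys T φ).m (f, true)).symm u = t := by
  rw [OrderIso.symm_apply_eq, Cv_mt, h]

/-- the level on `ac` of a low or middle plaque -/
theorem Cv_iv1 (sg : Bool) (f : X2) {a b s : ℝ} (hs : s ∈ Iv sg a b) :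
    2 * φ f s ∈ Iv sg (2 * φ f a) (2 * φ f b) :=
  (Cv_iv_map sg ((φ f).trans (OrderIso.mulLeft₀ 2 two_pos)) a b s).2 hs

/-- the level on `bd` of a middle or high plaque -/
theorem Cv_iv2 (sg : Bool) (f : X2) {a b s : ℝ} (hs : s ∈ Iv sg a b) :
    2 * φ f s - 1 ∈ Iv sg (2 * φ f a - 1) (2 * φ f b - 1) :=
  (Cv_iv_map sg (((φ f).trans (OrderIso.mulLeft₀ 2 two_pos)).trans (OrderIso.subRight 1))
    a b s).2 hs

theorem Cv_e00 (T : Tri G X0 X1 X2 X3) (x : X3) : T.d2 (T.d3 x 1) 0 = T.d2 (T.d3 x 0) 0 :=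
  T.s3 x 0 0 le_rfl
theorem Cv_e01 (T : Tri G X0 X1 X2 X3) (x : X3) : T.d2 (T.d3 x 2) 0 = T.d2 (T.d3 x 0) 1 :=
  T.s3 x 0 1 (by decide)
theorem Cv_e02 (T : Tri G X0 X1 X2 X3) (x : X3) : T.d2 (T.d3 x 3) 0 = T.d2 (T.d3 x 0) 2 :=
  T.s3 x 0 2 (by decide)
theorem Cv_e11 (T : Tri G X0 X1 X2 X3) (x : X3) : T.d2 (T.d3 x 2) 1 = T.d2 (T.d3 x 1) 1 :=
  T.s3 x 1 1 le_rfl
theorem Cv_e12 (T : Tri G X0 X1 X2 X3) (x : X3) : T.d2 (T.d3 x 3) 1 = T.d2 (T.d3 x 1) 2 :=
  T.s3 x 1 2 (by decide)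
theorem Cv_e22 (T : Tri G X0 X1 X2 X3) (x : X3) : T.d2 (T.d3 x 3) 2 = T.d2 (T.d3 x 2) 2 :=
  T.s3 x 2 2 le_rfl

theorem Cv_em0 (sg : Bool) (x : X3) : Em T φ sg (x, 0) = Iv sg 0 (mark φ (T.d3 x 2)) := rfl
theorem Cv_em1 (sg : Bool) (x : X3) :
    Em T φ sg (x, 1) = Iv sg (mark φ (T.d3 x 2)) (mark φ (T.d3 x 1)) := rfl
theorem Cv_em2 (sg : Bool) (x : X3) : Em T φ sg (x, 2) = Iv sg (mark φ (T.d3 x 1)) 1 := rfl
theorem Cv_dmf (sg : Bool) (f : X2) : Dm φ sg (f, false) = Iv sg 0 (mark φ f) := rfl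
theorem Cv_dmt (sg : Bool) (f : X2) : Dm φ sg (f, true) = Iv sg (mark φ f) 1 := rfl

/-- arcs of a low plaque -/
theorem Cv_bd0 (h : T.Flat φ) (x : X3) {s : ℝ} (hs : s ∈ Icc 0 (mark φ (T.d3 x 2))) :
    (sys T φ).bd (cells T) ((x, 0), s) = [(((T.d3 x 2, false), s), true),
      (((T.d3 x 3, false), 2 * φ (T.d3 x 1) s), false), (((T.d3 x 1, false), s), false)] := by
  have e : ((sys T φ).m (T.d3 x 3, false)).symm ((sys T φ).m (T.d3 x 2, false) s) =
      2 * φ (T.d3 x 1) s := Cv_sf ((Cv_mf T φ _ _).trans (Cv_low h x hs))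
  show [(((T.d3 x 2, false), s), true), (((T.d3 x 3, false), ((sys T φ).m (T.d3 x 3, false)).symm
    ((sys T φ).m (T.d3 x 2, false) s)), false), (((T.d3 x 1, false),
    ((sys T φ).m (T.d3 x 1, false)).symm (((sys T φ).m (T.d3 x 3, false)).symm
    ((sys T φ).m (T.d3 x 2, false) s))), false)] = _
  rw [e, Cv_sf rfl]

/-- arcs of a middle plaque -/
theorem Cv_bd1 (h : T.Flat φ) (x : X3) {s : ℝ}
    (hs : s ∈ Icc (mark φ (T.d3 x 2)) (mark φ (T.d3 x 1))) :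
    (sys T φ).bd (cells T) ((x, 1), s) = [(((T.d3 x 2, true), s), true),
      (((T.d3 x 0, false), 2 * φ (T.d3 x 2) s - 1), true),
      (((T.d3 x 3, true), 2 * φ (T.d3 x 1) s), false), (((T.d3 x 1, false), s), false)] := by
  have e : ((sys T φ).m (T.d3 x 3, true)).symm ((sys T φ).m (T.d3 x 0, false)
      ((sys T φ).m (T.d3 x 2, true) s)) = 2 * φ (T.d3 x 1) s :=
    Cv_st (by rw [Cv_mf, Cv_mt, ← Cv_mid h x hs]; ring)
  show [(((T.d3 x 2, true), s), true),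
    (((T.d3 x 0, false), (sys T φ).m (T.d3 x 2, true) s), true),
    (((T.d3 x 3, true), ((sys T φ).m (T.d3 x 3, true)).symm ((sys T φ).m (T.d3 x 0, false)
      ((sys T φ).m (T.d3 x 2, true) s))), false),
    (((T.d3 x 1, false), ((sys T φ).m (T.d3 x 1, false)).symm (((sys T φ).m (T.d3 x 3, true)).symm
      ((sys T φ).m (T.d3 x 0, false) ((sys T φ).m (T.d3 x 2, true) s)))), false)] = _
  rw [e, Cv_sf rfl, Cv_mt]

/-- arcs of a high plaque -/
theorem Cv_bd2 (h : T.Flat φ) (x : X3) {s : ℝ} (hs : s ∈ Icc (mark φ (T.d3 x 1)) 1) :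
    (sys T φ).bd (cells T) ((x, 2), s) = [(((T.d3 x 2, true), s), true),
      (((T.d3 x 0, true), 2 * φ (T.d3 x 2) s - 1), true), (((T.d3 x 1, true), s), false)] := by
  have e : ((sys T φ).m (T.d3 x 1, true)).symm ((sys T φ).m (T.d3 x 0, true)
      ((sys T φ).m (T.d3 x 2, true) s)) = s := Cv_st (by rw [Cv_mt, Cv_mt, Cv_high h x hs])
  show [(((T.d3 x 2, true), s), true),
    (((T.d3 x 0, true), (sys T φ).m (T.d3 x 2, true) s), true),
    (((T.d3 x 1, true), ((sys T φ).m (T.d3 x 1, true)).symm ((sys T φ).m (T.d3 x 0, true)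
      ((sys T φ).m (T.d3 x 2, true) s))), false)] = _
  rw [e, Cv_mt]

/-- the arcs of a low plaque are valid -/
theorem Cv_dm0 (h : T.Flat φ) {sg : Bool} {x : X3} {s : ℝ} (hs : s ∈ Em T φ sg (x, 0)) :
    s ∈ Dm φ sg (T.d3 x 2, false) ∧ 2 * φ (T.d3 x 1) s ∈ Dm φ sg (T.d3 x 3, false) ∧
      s ∈ Dm φ sg (T.d3 x 1, false) := by
  have := Cv_iv1 (φ := φ) sg (T.d3 x 1) hs
  rw [Cv_zero h, mul_zero, Cv_mark3 h] at this
  exact ⟨hs, this, Cv_iv_mono le_rfl (Cv_mark_lt h x).le hs⟩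

/-- the arcs of a middle plaque are valid -/
theorem Cv_dm1 (h : T.Flat φ) {sg : Bool} {x : X3} {s : ℝ} (hs : s ∈ Em T φ sg (x, 1)) :
    s ∈ Dm φ sg (T.d3 x 2, true) ∧ 2 * φ (T.d3 x 2) s - 1 ∈ Dm φ sg (T.d3 x 0, false) ∧
      2 * φ (T.d3 x 1) s ∈ Dm φ sg (T.d3 x 3, true) ∧ s ∈ Dm φ sg (T.d3 x 1, false) := by
  have a := Cv_iv1 (φ := φ) sg (T.d3 x 1) hs
  have b := Cv_iv2 (φ := φ) sg (T.d3 x 2) hs
  rw [Cv_mark3 h, Cv_mark, show (2 : ℝ) * (1 / 2) = 1 by norm_num] at a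
  rw [Cv_mark0 h, Cv_mark, show (2 : ℝ) * (1 / 2) - 1 = 0 by norm_num] at b
  exact ⟨Cv_iv_mono le_rfl (Cv_mark_mem h _).2.le hs, b, a,
    Cv_iv_mono (Cv_mark_mem h _).1.le le_rfl hs⟩

/-- the arcs of a high plaque are valid -/
theorem Cv_dm2 (h : T.Flat φ) {sg : Bool} {x : X3} {s : ℝ} (hs : s ∈ Em T φ sg (x, 2)) :
    s ∈ Dm φ sg (T.d3 x 2, true) ∧ 2 * φ (T.d3 x 2) s - 1 ∈ Dm φ sg (T.d3 x 0, true) ∧
      s ∈ Dm φ sg (T.d3 x 1, true) := by
  have b := Cv_iv2 (φ := φ) sg (T.d3 x 2) hs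
  rw [Cv_mark0 h, Cv_one h, show (2 : ℝ) * 1 - 1 = 1 by norm_num] at b
  exact ⟨Cv_iv_mono (Cv_mark_lt h x).le le_rfl hs, b, hs⟩

variable (T φ)

theorem cv : S_cv T φ := by
  rintro h sg ⟨x, k⟩ s hs
  fin_cases k
  · have e : ((sys T φ).m (T.d3 x 3, false)).symm ((sys T φ).m (T.d3 x 2, false) s) =
        2 * φ (T.d3 x 1) s :=
      Cv_sf ((Cv_mf T φ _ _).trans (Cv_low h x (Cv_iv_Icc sg _ _ hs)))
    have e' : ((sys T φ).m (T.d3 x 1, false)).symm (((sys T φ).m (T.d3 x 3, false)).symm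
        ((sys T φ).m (T.d3 x 2, false) s)) = s := Cv_sf e
    obtain ⟨a1, a2, a3⟩ := Cv_dm0 h hs
    rw [← e] at a2
    rw [← e'] at a3
    exact ⟨⟨rfl, a1, Cv_e22 T x, a2, (Cv_e12 T x).symm, a3, trivial⟩,
      Prod.ext (Cv_e11 T x).symm e'⟩
  · have e : ((sys T φ).m (T.d3 x 3, true)).symm ((sys T φ).m (T.d3 x 0, false)
        ((sys T φ).m (T.d3 x 2, true) s)) = 2 * φ (T.d3 x 1) s :=
      Cv_st (by rw [Cv_mf, Cv_mt, ← Cv_mid h x (Cv_iv_Icc sg _ _ hs)]; ring)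
    have e' : ((sys T φ).m (T.d3 x 1, false)).symm (((sys T φ).m (T.d3 x 3, true)).symm
        ((sys T φ).m (T.d3 x 0, false) ((sys T φ).m (T.d3 x 2, true) s))) = s := Cv_sf e
    obtain ⟨a1, a2, a3, a4⟩ := Cv_dm1 h hs
    rw [← Cv_mt T φ] at a2
    rw [← e] at a3
    rw [← e'] at a4
    exact ⟨⟨rfl, a1, (Cv_e01 T x).symm, a2, Cv_e02 T x, a3, (Cv_e12 T x).symm, a4, trivial⟩,
      Prod.ext (Cv_e11 T x).symm e'⟩
  · have e : ((sys T φ).m (T.d3 x 1, true)).symm ((sys T φ).m (T.d3 x 0, true)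
        ((sys T φ).m (T.d3 x 2, true) s)) = s :=
      Cv_st (by rw [Cv_mt, Cv_mt, Cv_high h x (Cv_iv_Icc sg _ _ hs)])
    obtain ⟨a1, a2, a3⟩ := Cv_dm2 h hs
    rw [← Cv_mt T φ] at a2
    rw [← e] at a3
    exact ⟨⟨rfl, a1, (Cv_e01 T x).symm, a2, Cv_e00 T x, a3, trivial⟩,
      Prod.ext (Cv_e11 T x).symm e⟩

end Pool.Agent.Work.MP_3d425c_gt.Nv
end

-- merged part: Pool.Agent.Work.MP_3d425c_gt.Nv.Ksc
section
/-! The complex of edges, walls and cells is simply connected. -/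

namespace Pool.Agent.Work.MP_3d425c_gt.Nv
open Set Relation Pool.Agent.Work.MP_3d425c_gt.Md

variable {G X0 X1 X2 X3 : Type} [Group G] [MulAction G X0] [MulAction G X1] [MulAction G X2]
  [MulAction G X3] {T : Tri G X0 X1 X2 X3} {φ : X2 → ℝ ≃o ℝ}

theorem ksc_alg (hD : Disc T) {Γ : Type} [Group Γ] (lo hi : X2 → Γ)
    (h0 : ∀ x, lo (T.d3 x 2) = lo (T.d3 x 1) * lo (T.d3 x 3))
    (h1 : ∀ x, hi (T.d3 x 2) * lo (T.d3 x 0) = lo (T.d3 x 1) * hi (T.d3 x 3))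
    (h2 : ∀ x, hi (T.d3 x 1) = hi (T.d3 x 2) * hi (T.d3 x 0)) :
    ∃ s : X1 → Γ, ∀ f, lo f = s (T.d2 f 1) * (s (T.d2 f 2))⁻¹ ∧
      hi f = s (T.d2 f 1) * (s (T.d2 f 0))⁻¹ := by
  classical
  have cd : ∀ x, T.d2 (T.d3 x 1) 0 = T.d2 (T.d3 x 0) 0 := fun x => T.s3 x 0 0 le_rfl
  have bd : ∀ x, T.d2 (T.d3 x 2) 0 = T.d2 (T.d3 x 0) 1 := fun x => T.s3 x 0 1 (by decide)
  have bc : ∀ x, T.d2 (T.d3 x 3) 0 = T.d2 (T.d3 x 0) 2 := fun x => T.s3 x 0 2 (by decide)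
  have ad : ∀ x, T.d2 (T.d3 x 2) 1 = T.d2 (T.d3 x 1) 1 := fun x => T.s3 x 1 1 le_rfl
  have ac : ∀ x, T.d2 (T.d3 x 3) 1 = T.d2 (T.d3 x 1) 2 := fun x => T.s3 x 1 2 (by decide)
  have ab : ∀ x, T.d2 (T.d3 x 3) 2 = T.d2 (T.d3 x 2) 2 := fun x => T.s3 x 2 2 le_rfl
  have vc : ∀ f, T.d1 (T.d2 f 1) 0 = T.d1 (T.d2 f 0) 0 := fun f => T.s2 f 0 0 le_rfl
  have vb : ∀ f, T.d1 (T.d2 f 2) 0 = T.d1 (T.d2 f 0) 1 := fun f => T.s2 f 0 1 (by decide)
  have va : ∀ f, T.d1 (T.d2 f 2) 1 = T.d1 (T.d2 f 1) 1 := fun f => T.s2 f 1 1 le_rfl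
  obtain ⟨s, hs⟩ := hD.ul Γ lo h0
  obtain ⟨h, hh⟩ : ∃ h : X2 → Γ, ∀ f, hi f = s (T.d2 f 1) * h f * (s (T.d2 f 0))⁻¹ :=
    ⟨fun f => (s (T.d2 f 1))⁻¹ * hi f * s (T.d2 f 0), fun f => by group⟩
  have m1 : ∀ x, h (T.d3 x 2) = h (T.d3 x 3) := fun x => by
    have e := h1 x
    rw [hh, hh, hs, hs, bd, bc, ad, ac] at e
    calc h (T.d3 x 2) = (s (T.d2 (T.d3 x 1) 1))⁻¹ * (s (T.d2 (T.d3 x 1) 1) * h (T.d3 x 2) *
          (s (T.d2 (T.d3 x 0) 1))⁻¹ * (s (T.d2 (T.d3 x 0) 1) * (s (T.d2 (T.d3 x 0) 2))⁻¹)) *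
          s (T.d2 (T.d3 x 0) 2) := by group
      _ = _ := by rw [e]; group
  have m2 : ∀ x, h (T.d3 x 1) = h (T.d3 x 2) * h (T.d3 x 0) := fun x => by
    have e := h2 x
    rw [hh, hh, hh, bd, cd, ad] at e
    calc h (T.d3 x 1) = (s (T.d2 (T.d3 x 1) 1))⁻¹ * (s (T.d2 (T.d3 x 1) 1) * h (T.d3 x 1) *
          (s (T.d2 (T.d3 x 0) 0))⁻¹) * s (T.d2 (T.d3 x 0) 0) := by group
      _ = _ := by rw [e]; group
  obtain ⟨r, hr⟩ := hD.ll Γ h m2
  have q : ∀ f f', T.d1 (T.d2 f 2) 0 = T.d1 (T.d2 f' 2) 0 →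
      (r (T.d2 f 2))⁻¹ * h f = (r (T.d2 f' 2))⁻¹ * h f' := fun f f' e => by
    have e' := T.equ f f' e
    clear e
    induction e' with
    | rel a b k =>
      obtain ⟨x, ⟨rfl, rfl⟩ | ⟨rfl, rfl⟩⟩ := k
      · rw [m1, ab]
      · rw [m2, m1, hr (T.d3 x 3), bc, ac]; group
    | refl a => rfl
    | symm a b _ ih => exact ih.symm
    | trans a b c _ _ i j => exact i.trans j
  obtain ⟨k, hk⟩ : ∃ k : X0 → Γ, ∀ f, h f = r (T.d2 f 2) * k (T.d1 (T.d2 f 2) 0) := by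
    refine ⟨fun v => if e : ∃ f, T.d1 (T.d2 f 2) 0 = v then
      (r (T.d2 e.choose 2))⁻¹ * h e.choose else 1, fun f => ?_⟩
    have e : ∃ f', T.d1 (T.d2 f' 2) 0 = T.d1 (T.d2 f 2) 0 := ⟨f, rfl⟩
    dsimp only
    rw [dif_pos e, q _ _ e.choose_spec]; group
  obtain ⟨u, hu⟩ := hD.sc Γ (fun e => r e * k (T.d1 e 0)) fun f => by
    rw [← hk, hr, vc]; group
  refine ⟨fun e => s e * u (T.d1 e 1), fun f => ⟨?_, ?_⟩⟩
  · dsimp only
    rw [hs, va]; group
  · dsimp only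
    rw [hh, hk, hu, va, vb]; group

theorem ksc : S_ksc T φ := by
  intro hD Γ _ Ψ hK
  obtain ⟨s, hs⟩ := ksc_alg hD (fun f => Ψ ((f, false), 0)) (fun f => Ψ ((f, true), 0))
    (fun x => by
      have e := hK (x, 0)
      simp [Sys.Kills, cells, Sys.val_cons, Sys.al, Sys.step, Sys.mp, Sys.flat] at e
      exact mul_inv_eq_one.1 (by rw [mul_inv_rev]; exact e))
    (fun x => by
      have e := hK (x, 1)
      simp [Sys.Kills, cells, Sys.val_cons, Sys.al, Sys.step, Sys.mp, Sys.flat] at e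
      exact mul_inv_eq_one.1 (by rw [mul_inv_rev, mul_assoc]; exact e))
    (fun x => by
      have e := hK (x, 2)
      simp [Sys.Kills, cells, Sys.val_cons, Sys.al, Sys.step, Sys.mp, Sys.flat] at e
      exact (mul_inv_eq_one.1 (by rw [mul_assoc]; exact e)).symm)
  refine ⟨s, ?_⟩
  rintro ⟨f, _ | _⟩
  · exact (hs f).1
  · exact (hs f).2

end Pool.Agent.Work.MP_3d425c_gt.Nv
end

-- merged part: Pool.Agent.Work.MP_3d425c_gt.Nv.Nov1
section
/-! Closed valid words fix their level. -/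

namespace Pool.Agent.Work.MP_3d425c_gt.Nv
open Set Relation Sys Pool.Agent.Work.MP_3d425c_gt.Md

section
universe u
variable {B W C : Type u} {X : Sys B W} {D D' : W → Set ℝ}

theorem nov_step (b : B) (a : ℝ) (l : W × Bool) : X.flat.step (b, a) l = (X.t l, a) := by
  rcases l with ⟨w, _ | _⟩ <;> rfl

theorem nov_flat (a' : ℝ) (p : List (W × Bool)) (x : B × ℝ) (d : X.Def D x p) :
    X.flat.Def (fun _ => univ) (x.1, a') p ∧ X.flat.go (x.1, a') p = ((X.go x p).1, a') := by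
  induction p generalizing x with
  | nil => exact ⟨trivial, rfl⟩
  | cons l p ih =>
    exact ⟨⟨d.1, trivial, nov_step _ a' l ▸ (ih _ d.2.2).1⟩, by
      rw [go_cons, nov_step]; exact (ih _ d.2.2).2⟩

theorem nov_inter {x : B × ℝ} {p} (d : X.Def D x p) (d' : X.Def D' x p) :
    X.Def (fun w => D w ∩ D' w) x p := by
  induction p generalizing x with
  | nil => trivial
  | cons l p ih => exact ⟨d.1, ⟨d.2.1, d'.2.1⟩, ih d.2.2 d'.2.2⟩

theorem nov_val {Γ : Type*} [Group Γ] {Ψ : W × ℝ → Γ} {s : B → Γ}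
    (h : ∀ w, Ψ (w, 0) = s (X.src w) * (s (X.tgt w))⁻¹) {b p}
    (d : X.flat.Def (fun _ => univ) (b, 0) p) :
    X.flat.val Ψ (b, 0) p = s b * (s (X.flat.go (b, 0) p).1)⁻¹ := by
  induction p generalizing b with
  | nil => simp
  | cons l p ih =>
    obtain ⟨d1, -, d3⟩ := d
    rw [nov_step] at d3
    rw [val_cons, go_cons, nov_step, ih d3]
    obtain rfl : X.s l = b := d1
    rcases l with ⟨w, _ | _⟩
    · have : Ψ (w, X.flat.al (w, false) 0) = _ := h w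
      simp [this, Sys.s, Sys.t]
    · have : Ψ (w, X.flat.al (w, true) 0) = _ := h w
      simp [this, Sys.s, Sys.t]
end

variable {G X0 X1 X2 X3 : Type} [Group G] [MulAction G X0] [MulAction G X1] [MulAction G X2]
  [MulAction G X3] {T : Tri G X0 X1 X2 X3} {φ : X2 → ℝ ≃o ℝ}

theorem nov_iv {a b : ℝ} : Iv true a b ∩ Iv false a b ⊆ Ioo a b := fun _ h =>
  ⟨h.2.1, not_le.1 h.1.2⟩

theorem nov_of_aon (hD : Disc T) (hf : T.Flat φ)
    (hA : (sys T φ).AON (Do φ) ((sys T φ).Ho (Do φ) (Dm φ true) (cells T) (Em T φ true)))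
    {b a p} (d : (sys T φ).Def (Do φ) (b, a) p) (e : ((sys T φ).go (b, a) p).1 = b) :
    (sys T φ).Ho (Do φ) (Dm φ true) (cells T) (Em T φ true) (b, a) p [] := by
  have ex : ∀ c, ∃ a, a ∈ Em T φ true c ∧ a ∈ Em T φ false c := by
    have : ∀ u v : ℝ, u < v → ∃ a, a ∈ Iv true u v ∧ a ∈ Iv false u v := fun u v h =>
      let ⟨a, h⟩ := exists_between h
      ⟨a, Cv_Ioo_iv _ _ _ h, Cv_Ioo_iv _ _ _ h⟩
    rintro ⟨x, k⟩
    fin_cases k
    · exact this _ _ (Cv_mark_mem hf _).1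
    · exact this _ _ (Cv_mark_lt hf x)
    · exact this _ _ (Cv_mark_mem hf _).2
  refine develop ⟨cong_ho (do_sub true) (cv T φ hf true), hA, ?_, ?_⟩ (K := cells T) ?_ ?_ d e
  · rintro ⟨f, _ | _⟩ <;> exact ordConnected_Ioo
  · rintro ⟨f, _ | _⟩
    · exact nonempty_Ioo.2 (Cv_mark_mem hf f).1
    · exact nonempty_Ioo.2 (Cv_mark_mem hf f).2
  · intro c
    obtain ⟨a, h1, h2⟩ := ex c
    refine ⟨a, (nov_inter (cv T φ hf true c a h1).1 (cv T φ hf false c a h2).1).mono ?_, trivial,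
      hd_cell (cv T φ hf true) h1⟩
    rintro ⟨f, _ | _⟩ <;> exact nov_iv
  · intro b p d e
    refine hd_of_val (fun c a _ => ?_) d trivial e fun Γ _ Ψ h => ?_
    · obtain ⟨a', h1, -⟩ := ex c
      have := nov_flat a _ _ (cv T φ hf true c a' h1).1
      rwa [(cv T φ hf true c a' h1).2] at this
    · obtain ⟨s, hs⟩ := @ksc G X0 X1 X2 X3 _ _ _ _ _ T φ hD Γ _ Ψ fun c => h c 0 trivial
      rw [nov_val hs d, e]
      simp

end Pool.Agent.Work.MP_3d425c_gt.Nv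
end

-- merged part: Pool.Agent.Work.MP_3d425c_gt.Nv.Cross
section
/-! Crossing a vertex level. -/

namespace Pool.Agent.Work.MP_3d425c_gt.Nv
open Set Relation Pool.Agent.Work.MP_3d425c_gt.Md

variable {G X0 X1 X2 X3 : Type} [Group G] [MulAction G X0] [MulAction G X1] [MulAction G X2]
  [MulAction G X3] {T : Tri G X0 X1 X2 X3} {φ : X2 → ℝ ≃o ℝ}

theorem ed_cd (x : X3) : T.d2 (T.d3 x 1) 0 = T.d2 (T.d3 x 0) 0 := T.s3 x 0 0 le_rfl
theorem ed_bd (x : X3) : T.d2 (T.d3 x 2) 0 = T.d2 (T.d3 x 0) 1 := T.s3 x 0 1 (by decide)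
theorem ed_bc (x : X3) : T.d2 (T.d3 x 3) 0 = T.d2 (T.d3 x 0) 2 := T.s3 x 0 2 (by decide)
theorem ed_ac (x : X3) : T.d2 (T.d3 x 3) 1 = T.d2 (T.d3 x 1) 2 := T.s3 x 1 2 (by decide)
theorem ed_ab (x : X3) : T.d2 (T.d3 x 3) 2 = T.d2 (T.d3 x 2) 2 := T.s3 x 2 2 le_rfl

theorem cr_lt (f : X2) (t : ℝ) : t < mark φ f ↔ 2 * φ f t < 1 := by
  rw [mark, OrderIso.lt_symm_apply]; constructor <;> intro h <;> linarith
theorem cr_gt (f : X2) (t : ℝ) : mark φ f < t ↔ 1 < 2 * φ f t := by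
  rw [mark, OrderIso.symm_apply_lt]; constructor <;> intro h <;> linarith
theorem cr_eq (f : X2) (t : ℝ) : t = mark φ f ↔ 2 * φ f t = 1 := by
  rw [mark, OrderIso.eq_symm_apply]; constructor <;> intro h <;> linarith
theorem cr_mk (f : X2) : 2 * φ f (mark φ f) = 1 := (cr_eq f _).1 rfl

section
variable (h : T.Flat φ)
include h

theorem cr_zero (f : X2) : φ f 0 = 0 := h.supp f 0 fun k => lt_irrefl _ k.1
theorem cr_one (f : X2) : φ f 1 = 1 := h.supp f 1 fun k => lt_irrefl _ k.2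
theorem cr_pos (f : X2) : 0 < mark φ f := by rw [cr_lt, cr_zero h]; norm_num
theorem cr_lt1 (f : X2) : mark φ f < 1 := by rw [cr_gt, cr_one h]; norm_num

theorem cr_bc (x : X3) : mark φ (T.d3 x 2) < mark φ (T.d3 x 1) := by
  have k := h.flat x _ ⟨(cr_pos h (T.d3 x 1)).le, (cr_lt1 h _).le⟩
  rw [cr_mk, if_pos le_rfl, cr_one h] at k
  rw [cr_gt]
  split_ifs at k with c
  · linarith
  · exact not_le.1 c

theorem cr_low (x : X3) {s : ℝ} (hs : s ∈ Icc 0 (mark φ (T.d3 x 2))) :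
    2 * φ (T.d3 x 3) (2 * φ (T.d3 x 1) s) = 2 * φ (T.d3 x 2) s := by
  have k := h.flat x s ⟨hs.1, hs.2.trans (cr_lt1 h _).le⟩
  rw [if_pos (not_lt.1 fun c => ((cr_gt _ _).2 c).not_ge hs.2),
    if_pos ((cr_lt _ _).1 (hs.2.trans_lt (cr_bc h x))).le] at k
  exact k.symm

theorem cr_mid (x : X3) {s : ℝ} (hs : s ∈ Icc (mark φ (T.d3 x 2)) (mark φ (T.d3 x 1))) :
    2 * φ (T.d3 x 3) (2 * φ (T.d3 x 1) s) = 2 * φ (T.d3 x 0) (2 * φ (T.d3 x 2) s + -1) + 1 := by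
  have k := h.flat x s ⟨(cr_pos h _).le.trans hs.1, hs.2.trans (cr_lt1 h _).le⟩
  rw [if_pos (c := 2 * φ (T.d3 x 1) s ≤ 1) (not_lt.1 fun c => ((cr_gt _ _).2 c).not_ge hs.2)] at k
  rw [← k, ← sub_eq_add_neg]
  split_ifs with c
  · have e : 2 * φ (T.d3 x 2) s = 1 :=
      le_antisymm c (not_lt.1 fun c => ((cr_lt _ _).2 c).not_ge hs.1)
    rw [e, sub_self, cr_zero h]; norm_num
  · ring

theorem cr_high (x : X3) {s : ℝ} (hs : s ∈ Icc (mark φ (T.d3 x 1)) 1) :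
    2 * φ (T.d3 x 1) s = 2 * φ (T.d3 x 0) (2 * φ (T.d3 x 2) s + -1) := by
  have k := h.flat x s ⟨(cr_pos h _).le.trans hs.1, hs.2⟩
  rw [if_neg (not_le.2 ((cr_gt _ _).1 ((cr_bc h x).trans_le hs.1)))] at k
  rw [← sub_eq_add_neg]
  split_ifs at k with c
  · have e : 2 * φ (T.d3 x 1) s = 1 :=
      le_antisymm c (not_lt.1 fun c => ((cr_lt _ _).2 c).not_ge hs.1)
    rw [e, cr_one h] at k
    linarith
  · linarith

variable {Γ : Type} [Group Γ] (Ψ : (X2 × Bool) × ℝ → Γ)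

theorem kills_low (x : X3) {s : ℝ} (hs : s ∈ Icc 0 (mark φ (T.d3 x 2))) :
    (sys T φ).Kills (cells T) Ψ ((x, 0), s) ↔ Ψ ((T.d3 x 2, false), s) =
      Ψ ((T.d3 x 1, false), s) * Ψ ((T.d3 x 3, false), 2 * φ (T.d3 x 1) s) := by
  have e1 : ((sys T φ).m (T.d3 x 3, false)).symm ((sys T φ).m (T.d3 x 2, false) s) =
      2 * φ (T.d3 x 1) s := by
    rw [OrderIso.symm_apply_eq, sys_m, sys_m, cr_low h x hs]
  have e2 : ((sys T φ).m (T.d3 x 1, false)).symm (2 * φ (T.d3 x 1) s) = s := by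
    rw [OrderIso.symm_apply_eq, sys_m]; simp
  simp only [Sys.Kills, cells, Matrix.cons_val_zero, Sys.val_cons, Sys.val_nil, Sys.al, Sys.step,
    Sys.mp, if_true, Bool.false_eq_true, if_false, mul_one, e1, e2]
  rw [← mul_inv_rev, mul_inv_eq_one]

theorem kills_mid (x : X3) {s : ℝ} (hs : s ∈ Icc (mark φ (T.d3 x 2)) (mark φ (T.d3 x 1))) :
    (sys T φ).Kills (cells T) Ψ ((x, 1), s) ↔
      Ψ ((T.d3 x 2, true), s) * Ψ ((T.d3 x 0, false), 2 * φ (T.d3 x 2) s + -1) =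
      Ψ ((T.d3 x 1, false), s) * Ψ ((T.d3 x 3, true), 2 * φ (T.d3 x 1) s) := by
  have e0 : (sys T φ).m (T.d3 x 2, true) s = 2 * φ (T.d3 x 2) s + -1 := rfl
  have e1 : ((sys T φ).m (T.d3 x 3, true)).symm ((sys T φ).m (T.d3 x 0, false)
      (2 * φ (T.d3 x 2) s + -1)) = 2 * φ (T.d3 x 1) s := by
    rw [OrderIso.symm_apply_eq, sys_m, sys_m, cr_mid h x hs]; simp
  have e2 : ((sys T φ).m (T.d3 x 1, false)).symm (2 * φ (T.d3 x 1) s) = s := by
    rw [OrderIso.symm_apply_eq, sys_m]; simp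
  simp only [Sys.Kills, cells, Matrix.cons_val_one, Matrix.cons_val_zero, Sys.val_cons,
    Sys.val_nil, Sys.al, Sys.step, Sys.mp, if_true, Bool.false_eq_true, if_false, mul_one, e0, e1, e2]
  rw [← mul_inv_rev, ← mul_assoc, mul_inv_eq_one]

theorem kills_high (x : X3) {s : ℝ} (hs : s ∈ Icc (mark φ (T.d3 x 1)) 1) :
    (sys T φ).Kills (cells T) Ψ ((x, 2), s) ↔
      Ψ ((T.d3 x 2, true), s) * Ψ ((T.d3 x 0, true), 2 * φ (T.d3 x 2) s + -1) =
      Ψ ((T.d3 x 1, true), s) := by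
  have e0 : (sys T φ).m (T.d3 x 2, true) s = 2 * φ (T.d3 x 2) s + -1 := rfl
  have e1 : ((sys T φ).m (T.d3 x 1, true)).symm ((sys T φ).m (T.d3 x 0, true)
      (2 * φ (T.d3 x 2) s + -1)) = s := by
    rw [OrderIso.symm_apply_eq, sys_m, sys_m, cr_high h x hs]
  simp only [Sys.Kills, cells, Matrix.cons_val, Sys.val_cons,
    Sys.val_nil, Sys.al, Sys.step, Sys.mp, if_true, Bool.false_eq_true, if_false, mul_one, e0, e1]
  rw [← mul_assoc, mul_inv_eq_one]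

theorem cr_Ab (x : X3) : 2 * φ (T.d3 x 1) (mark φ (T.d3 x 2)) = mark φ (T.d3 x 3) := by
  rw [cr_eq, cr_low h x ⟨(cr_pos h _).le, le_rfl⟩, cr_mk]

theorem cr_Bc (x : X3) : 2 * φ (T.d3 x 2) (mark φ (T.d3 x 1)) + -1 = mark φ (T.d3 x 0) := by
  rw [cr_eq, ← cr_high h x ⟨le_rfl, (cr_lt1 h _).le⟩, cr_mk]

theorem cr_A0 (x : X3) {s : ℝ} (hs : 0 < s) : 0 < 2 * φ (T.d3 x 1) s := by
  have := (φ (T.d3 x 1)).strictMono hs
  rw [cr_zero h] at this
  linarith

theorem cr_B1 (x : X3) {s : ℝ} (hs : s < 1) : 2 * φ (T.d3 x 2) s + -1 < 1 := by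
  have := (φ (T.d3 x 2)).strictMono hs
  rw [cr_one h] at this
  linarith

/-- all arcs of a cell at an interior level are open -/
theorem kills_open {Ψ' : (X2 × Bool) × ℝ → Γ} (e : ∀ α, α.2 ∈ Do φ α.1 → Ψ' α = Ψ α) (x : X3)
    (s : ℝ) :
    (s ∈ Ioo 0 (mark φ (T.d3 x 2)) → (sys T φ).Kills (cells T) Ψ ((x, 0), s) →
      (sys T φ).Kills (cells T) Ψ' ((x, 0), s)) ∧
    (s ∈ Ioo (mark φ (T.d3 x 2)) (mark φ (T.d3 x 1)) → (sys T φ).Kills (cells T) Ψ ((x, 1), s) →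
      (sys T φ).Kills (cells T) Ψ' ((x, 1), s)) ∧
    (s ∈ Ioo (mark φ (T.d3 x 1)) 1 → (sys T φ).Kills (cells T) Ψ ((x, 2), s) →
      (sys T φ).Kills (cells T) Ψ' ((x, 2), s)) := by
  have bc := cr_bc h x
  have lo : ∀ f t, 0 < t → t < mark φ f → Ψ' ((f, false), t) = Ψ ((f, false), t) :=
    fun f t a b => e _ ⟨a, b⟩
  have hi : ∀ f t, mark φ f < t → t < 1 → Ψ' ((f, true), t) = Ψ ((f, true), t) :=
    fun f t a b => e _ ⟨a, b⟩
  have m1 := (φ (T.d3 x 1)).strictMono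
  have m2 := (φ (T.d3 x 2)).strictMono
  have Ab := cr_Ab h x
  have Bc := cr_Bc h x
  refine ⟨fun hs => ?_, fun hs => ?_, fun hs => ?_⟩
  · rw [kills_low h _ x (Ioo_subset_Icc_self hs), kills_low h _ x (Ioo_subset_Icc_self hs),
      lo _ _ hs.1 hs.2, lo _ _ hs.1 (hs.2.trans bc),
      lo _ _ (cr_A0 h x hs.1) (by linarith [m1 hs.2])]
    exact id
  · have s0 := (cr_pos h _).trans hs.1
    rw [kills_mid h _ x (Ioo_subset_Icc_self hs), kills_mid h _ x (Ioo_subset_Icc_self hs),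
      hi _ _ hs.1 (hs.2.trans (cr_lt1 h _)), lo _ _ s0 hs.2,
      lo _ _ (by linarith [(cr_gt _ _).1 hs.1]) (by linarith [m2 hs.2]),
      hi _ _ (by linarith [m1 hs.1]) ((cr_lt _ _).1 hs.2)]
    exact id
  · rw [kills_high h _ x (Ioo_subset_Icc_self hs), kills_high h _ x (Ioo_subset_Icc_self hs),
      hi _ _ (bc.trans hs.1) hs.2, hi _ _ hs.1 hs.2,
      hi _ _ (by linarith [m2 hs.1]) (cr_B1 h x hs.2)]
    exact id

end

theorem iv_true {a b t : ℝ} : t ∈ Iv true a b ↔ a ≤ t ∧ t < b := by simp [Iv, ab]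
theorem iv_false {a b t : ℝ} : t ∈ Iv false a b ↔ a < t ∧ t ≤ b := by simp [Iv, ab]

theorem cross : S_cross T φ := by
  classical
  intro hD h sg Γ _ Ψ hK
  have K0 : ∀ x s, s ∈ Iv sg 0 (mark φ (T.d3 x 2)) → (sys T φ).Kills (cells T) Ψ ((x, 0), s) :=
    fun x s hs => hK ((x, 0), s) hs
  have K1 : ∀ x s, s ∈ Iv sg (mark φ (T.d3 x 2)) (mark φ (T.d3 x 1)) →
      (sys T φ).Kills (cells T) Ψ ((x, 1), s) := fun x s hs => hK ((x, 1), s) hs
  have K2 : ∀ x s, s ∈ Iv sg (mark φ (T.d3 x 1)) 1 → (sys T φ).Kills (cells T) Ψ ((x, 2), s) :=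
    fun x s hs => hK ((x, 2), s) hs
  have p0 := cr_pos h
  have p1 := cr_lt1 h
  have bc := cr_bc h
  cases sg
  · simp only [iv_false] at K0 K1 K2
    obtain ⟨ρ, hρ⟩ := hD.ll Γ (fun f => Ψ ((f, true), 1)) fun x => by
      have := (kills_high h Ψ x ⟨(p1 _).le, le_rfl⟩).1 (K2 x 1 ⟨p1 _, le_rfl⟩)
      rw [cr_one h] at this
      norm_num at this
      exact this.symm
    let Ψ' : (X2 × Bool) × ℝ → Γ := fun α => if α.1.2 = false ∧ α.2 = 0 then 1
      else if α.1.2 = true ∧ α.2 = mark φ α.1.1 then Ψ ((α.1.1, false), α.2) * ρ (T.d2 α.1.1 2)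
      else Ψ α
    have a0 : ∀ f, Ψ' ((f, false), 0) = 1 := fun f => by simp [Ψ']
    have a1 : ∀ f, Ψ' ((f, true), mark φ f) = Ψ ((f, false), mark φ f) * ρ (T.d2 f 2) :=
      fun f => by simp [Ψ']
    have e : ∀ α, α.2 ∈ Do φ α.1 → Ψ' α = Ψ α := by
      rintro ⟨⟨f, _ | _⟩, t⟩ ht
      · have : t ≠ 0 := ht.1.ne'
        simp [Ψ', this]
      · have : t ≠ mark φ f := ht.1.ne'
        simp [Ψ', this]
    refine ⟨Ψ', ?_, e⟩
    rintro ⟨⟨x, i⟩, s⟩ hs
    fin_cases i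
    · obtain ⟨h1, h2⟩ := iv_true.1 hs
      rcases h1.eq_or_lt with h1 | h1
      · obtain rfl : 0 = s := h1
        refine (kills_low h Ψ' x ⟨le_rfl, (p0 _).le⟩).2 ?_
        rw [cr_zero h, mul_zero, a0, a0, a0, mul_one]
      · exact (kills_open h Ψ e x s).1 ⟨h1, h2⟩ (K0 x s ⟨h1, h2.le⟩)
    · obtain ⟨h1, h2⟩ := iv_true.1 hs
      rcases h1.eq_or_lt with h1 | h1
      · obtain rfl : mark φ (T.d3 x 2) = s := h1
        refine (kills_mid h Ψ' x ⟨le_rfl, (bc x).le⟩).2 ?_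
        have k := (kills_low h Ψ x ⟨(p0 _).le, le_rfl⟩).1 (K0 x _ ⟨p0 _, le_rfl⟩)
        rw [cr_Ab h] at k
        rw [cr_mk, add_neg_cancel, a0, cr_Ab h, a1, a1,
          e ((T.d3 x 1, false), mark φ (T.d3 x 2)) ⟨p0 _, bc x⟩, k,
          ed_ab, mul_one, mul_assoc]
      · exact (kills_open h Ψ e x s).2.1 ⟨h1, h2⟩ (K1 x s ⟨h1, h2.le⟩)
    · obtain ⟨h1, h2⟩ := iv_true.1 hs
      rcases h1.eq_or_lt with h1 | h1
      · obtain rfl : mark φ (T.d3 x 1) = s := h1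
        refine (kills_high h Ψ' x ⟨le_rfl, (p1 _).le⟩).2 ?_
        have k := (kills_mid h Ψ x ⟨(bc x).le, le_rfl⟩).1 (K1 x _ ⟨bc x, le_rfl⟩)
        rw [cr_Bc h, cr_mk, hρ] at k
        rw [cr_Bc h, a1, a1, e ((T.d3 x 2, true), mark φ (T.d3 x 1)) ⟨bc x, p1 _⟩, ← mul_assoc, k, ed_bc, ed_ac]
        group
      · exact (kills_open h Ψ e x s).2.2 ⟨h1, h2⟩ (K2 x s ⟨h1, h2.le⟩)
  · simp only [iv_true] at K0 K1 K2
    obtain ⟨ρ, hρ⟩ := hD.ul Γ (fun f => Ψ ((f, false), 0)) fun x => by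
      have := (kills_low h Ψ x ⟨le_rfl, (p0 _).le⟩).1 (K0 x 0 ⟨le_rfl, p0 _⟩)
      rwa [cr_zero h, mul_zero] at this
    let Ψ' : (X2 × Bool) × ℝ → Γ := fun α => if α.1.2 = true ∧ α.2 = 1 then 1
      else if α.1.2 = false ∧ α.2 = mark φ α.1.1 then Ψ ((α.1.1, true), α.2) * ρ (T.d2 α.1.1 0)
      else Ψ α
    have a0 : ∀ f, Ψ' ((f, true), 1) = 1 := fun f => by simp [Ψ']
    have a1 : ∀ f, Ψ' ((f, false), mark φ f) = Ψ ((f, true), mark φ f) * ρ (T.d2 f 0) :=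
      fun f => by simp [Ψ']
    have e : ∀ α, α.2 ∈ Do φ α.1 → Ψ' α = Ψ α := by
      rintro ⟨⟨f, _ | _⟩, t⟩ ht
      · have : t ≠ mark φ f := ht.2.ne
        simp [Ψ', this]
      · have : t ≠ 1 := ht.2.ne
        simp [Ψ', this]
    refine ⟨Ψ', ?_, e⟩
    rintro ⟨⟨x, i⟩, s⟩ hs
    fin_cases i
    · obtain ⟨h1, h2⟩ := iv_false.1 hs
      rcases h2.eq_or_lt with h2 | h2
      · obtain rfl : s = mark φ (T.d3 x 2) := h2
        refine (kills_low h Ψ' x ⟨(p0 _).le, le_rfl⟩).2 ?_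
        have k := (kills_mid h Ψ x ⟨le_rfl, (bc x).le⟩).1 (K1 x _ ⟨le_rfl, bc x⟩)
        rw [cr_Ab h, cr_mk, add_neg_cancel, hρ] at k
        rw [cr_Ab h, a1, a1, e ((T.d3 x 1, false), mark φ (T.d3 x 2)) ⟨p0 _, bc x⟩, ← mul_assoc, ← k, ed_bc, ed_bd]
        group
      · exact (kills_open h Ψ e x s).1 ⟨h1, h2⟩ (K0 x s ⟨h1.le, h2⟩)
    · obtain ⟨h1, h2⟩ := iv_false.1 hs
      rcases h2.eq_or_lt with h2 | h2
      · obtain rfl : s = mark φ (T.d3 x 1) := h2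
        refine (kills_mid h Ψ' x ⟨(bc x).le, le_rfl⟩).2 ?_
        have k := (kills_high h Ψ x ⟨le_rfl, (p1 _).le⟩).1 (K2 x _ ⟨le_rfl, p1 _⟩)
        rw [cr_Bc h] at k
        rw [cr_mk, a0, cr_Bc h, a1, a1, e ((T.d3 x 2, true), mark φ (T.d3 x 1)) ⟨bc x, p1 _⟩, ← mul_assoc, k,
          ed_cd, mul_one]
      · exact (kills_open h Ψ e x s).2.1 ⟨h1, h2⟩ (K1 x s ⟨h1.le, h2⟩)
    · obtain ⟨h1, h2⟩ := iv_false.1 hs
      rcases h2.eq_or_lt with h2 | h2
      · obtain rfl : s = 1 := h2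
        refine (kills_high h Ψ' x ⟨(p1 _).le, le_rfl⟩).2 ?_
        rw [cr_one h, show (2 : ℝ) * 1 + -1 = 1 by norm_num, a0, a0, a0, mul_one]
      · exact (kills_open h Ψ e x s).2.2 ⟨h1, h2⟩ (K2 x s ⟨h1.le, h2⟩)

end Pool.Agent.Work.MP_3d425c_gt.Nv
end

-- merged part: Pool.Agent.Work.MP_3d425c_gt.Nv.Surf
section
/-! The half open cells of a carried foliation form a surface with surplus. -/

namespace Pool.Agent.Work.MP_3d425c_gt.Nv
open Set Relation Pool.Agent.Work.MP_3d425c_gt.Md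

variable {G X0 X1 X2 X3 : Type} [Group G] [MulAction G X0] [MulAction G X1] [MulAction G X2]
  [MulAction G X3] {T : Tri G X0 X1 X2 X3} {φ : X2 → ℝ ≃o ℝ}

/-- the faces (with their halves) met by the three kinds of plaques, in the order of the words -/
def surfTb : Fin 3 → List (Fin 4 × Bool) :=
  ![[(2, false), (3, false), (1, false)], [(2, true), (0, false), (3, true), (1, false)],
    [(2, true), (0, true), (1, true)]]

/-- the direction of the letter of a face -/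
def surfDir : Fin 4 → Bool := ![true, false, true, false]

theorem surf_nodup (j : Fin 3) : (surfTb j).Nodup := by
  revert j
  decide

theorem surf_ab_map (sg : Bool) (f : ℝ ≃o ℝ) (a t : ℝ) : ab sg (f a) (f t) ↔ ab sg a t := by
  cases sg <;> simp [ab]

theorem surf_ab_mono {sg : Bool} {a a' t : ℝ} (h : a' ≤ a) (k : ab sg a t) : ab sg a' t := by
  cases sg
  · exact lt_of_le_of_lt h k
  · exact le_trans h k

theorem surf_iv {sg : Bool} {a b t : ℝ} (h : t ∈ Iv sg a b) : t ∈ Icc a b := by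
  cases sg
  · exact ⟨le_of_lt h.1, not_lt.1 h.2⟩
  · exact ⟨h.1, le_of_lt (not_le.1 h.2)⟩

theorem surf_iv_map (sg : Bool) (f : ℝ ≃o ℝ) (a b t : ℝ) :
    t ∈ Iv sg a b ↔ ab sg (f a) (f t) ∧ ¬ ab sg (f b) (f t) := by
  rw [surf_ab_map, surf_ab_map]
  rfl

theorem surf_m (h : T.Flat φ) {sg : Bool} {w : X2 × Bool} {t : ℝ} (ht : t ∈ Dm φ sg w) :
    (sys T φ).m w t ∈ Icc (0 : ℝ) 1 := by
  obtain ⟨f, b⟩ := w
  have e : 2 * φ f (mark φ f) = 1 := phi_mk f
  rw [sys_m]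
  cases b
  · have k := surf_iv (show t ∈ Iv sg 0 (mark φ f) from ht)
    have k1 := (φ f).monotone k.1
    have k2 := (φ f).monotone k.2
    rw [h.zero] at k1
    exact ⟨by simp; linarith, by simp; linarith⟩
  · have k := surf_iv (show t ∈ Iv sg (mark φ f) 1 from ht)
    have k1 := (φ f).monotone k.1
    have k2 := (φ f).monotone k.2
    rw [h.one] at k2
    exact ⟨by simp; linarith, by simp; linarith⟩

/-- the domain of a half of a face in the levels of the tetrahedron -/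
theorem surf_dm (h : T.Flat φ) (sg : Bool) (x : X3) (k : Fin 4) (b : Bool) (t : ℝ) :
    t ∈ Dm φ sg (T.d3 x k, b) ↔
      ∃ j, T.jm φ x k t ∈ Em T φ sg (x, j) ∧ (k, b) ∈ surfTb j := by
  have m0 : ab sg (mark φ (T.d3 x 2)) (T.jm φ x k t) → ab sg 0 (T.jm φ x k t) :=
    surf_ab_mono (h.mk_mem _).1.le
  have m1 : ab sg (mark φ (T.d3 x 1)) (T.jm φ x k t) → ab sg (mark φ (T.d3 x 2)) (T.jm φ x k t) :=
    surf_ab_mono (h.mk_lt_mk x).le
  have m2 : ab sg 1 (T.jm φ x k t) → ab sg (mark φ (T.d3 x 1)) (T.jm φ x k t) :=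
    surf_ab_mono (h.mk_mem _).2.le
  have e : (∃ j, T.jm φ x k t ∈ Em T φ sg (x, j) ∧ (k, b) ∈ surfTb j) ↔
      ((ab sg 0 (T.jm φ x k t) ∧ ¬ ab sg (mark φ (T.d3 x 2)) (T.jm φ x k t)) ∧
        (k, b) ∈ surfTb 0) ∨
      ((ab sg (mark φ (T.d3 x 2)) (T.jm φ x k t) ∧ ¬ ab sg (mark φ (T.d3 x 1)) (T.jm φ x k t)) ∧
        (k, b) ∈ surfTb 1) ∨
      ((ab sg (mark φ (T.d3 x 1)) (T.jm φ x k t) ∧ ¬ ab sg 1 (T.jm φ x k t)) ∧
        (k, b) ∈ surfTb 2) := by
    rw [Fin.exists_fin_succ, Fin.exists_fin_two]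
    rfl
  have z0 : T.jm φ x k 0 = ![mark φ (T.d3 x 2), 0, 0, 0] k := by
    rw [jm_apply]
    fin_cases k
    exacts [Tri.Flat.pos0_zero x, rfl, rfl, h.pos3_zero x]
  have z1 : T.jm φ x k (mark φ (T.d3 x k)) = ![mark φ (T.d3 x 1), mark φ (T.d3 x 1),
      mark φ (T.d3 x 2), mark φ (T.d3 x 2)] k := by
    rw [jm_apply]
    fin_cases k
    exacts [h.pos0_mk x, rfl, rfl, h.pos3_mk x]
  have z2 : T.jm φ x k 1 = ![1, 1, 1, mark φ (T.d3 x 1)] k := by
    rw [jm_apply]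
    fin_cases k
    exacts [h.pos0_one x, rfl, rfl, Tri.Flat.pos3_one x]
  rw [e]
  cases b
  · rw [show Dm φ sg (T.d3 x k, false) = Iv sg 0 (mark φ (T.d3 x k)) from rfl,
      surf_iv_map sg (T.jm φ x k), z0, z1]
    generalize T.jm φ x k t = s at *
    fin_cases k <;> simp [surfTb] <;> tauto
  · rw [show Dm φ sg (T.d3 x k, true) = Iv sg (mark φ (T.d3 x k)) 1 from rfl,
      surf_iv_map sg (T.jm φ x k), z1, z2]
    generalize T.jm φ x k t = s at *
    fin_cases k <;> simp [surfTb] <;> tauto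

theorem surf_em (h : T.Flat φ) {sg : Bool} {x : X3} {i j : Fin 3} {s : ℝ}
    (hi : s ∈ Em T φ sg (x, i)) (hj : s ∈ Em T φ sg (x, j)) : i = j := by
  have m1 : ab sg (mark φ (T.d3 x 1)) s → ab sg (mark φ (T.d3 x 2)) s :=
    surf_ab_mono (h.mk_lt_mk x).le
  fin_cases i <;> fin_cases j
  · rfl
  · exact absurd hj.1 hi.2
  · exact absurd (m1 hj.1) hi.2
  · exact absurd hi.1 hj.2
  · rfl
  · exact absurd hj.1 hi.2
  · exact absurd (m1 hi.1) hj.2
  · exact absurd hi.1 hj.2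
  · rfl

theorem surf_arc (h : T.Flat φ) {sg : Bool} {x : X3} {j : Fin 3} {s : ℝ}
    (hs : s ∈ Em T φ sg (x, j)) {p : Fin 4 × Bool} (hp : p ∈ surfTb j) :
    (T.jm φ x p.1).symm s ∈ Dm φ sg (T.d3 x p.1, p.2) :=
  (surf_dm h sg x p.1 p.2 _).2 ⟨j, by rwa [OrderIso.apply_symm_apply], hp⟩

theorem surf_bd (h : T.Flat φ) {sg : Bool} {x : X3} {j : Fin 3} {s : ℝ}
    (hs : s ∈ Em T φ sg (x, j)) : (sys T φ).bd (cells T) ((x, j), s) =
      (surfTb j).map fun p => (((T.d3 x p.1, p.2), (T.jm φ x p.1).symm s), surfDir p.1) := by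
  have j1 : (T.jm φ x 1).symm s = s := rfl
  have j2 : (T.jm φ x 2).symm s = s := rfl
  have j0 : (T.jm φ x 0).symm s = (sys T φ).m (T.d3 x 2, true) s := by
    rw [OrderIso.symm_apply_eq, jm_apply, pos0, sys_m, OrderIso.eq_symm_apply]
    simp
  have j3 : ((sys T φ).m (T.d3 x 1, false)).symm ((T.jm φ x 3).symm s) = s := by
    have k := (T.jm φ x 3).apply_symm_apply s
    rw [jm_apply, pos3] at k
    rw [sys_m_symm]
    simpa only [Bool.false_eq_true, if_false, add_zero] using k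
  have f0 : ∀ (f : X2) (t : ℝ), emb φ f 0 ((sys T φ).m (f, true) t) = t := fun f t => by
    rw [emb0, sys_m, OrderIso.symm_apply_eq]
    simp
  have f2 : ∀ (f : X2) (t : ℝ), emb φ f 2 ((sys T φ).m (f, false) t) = t := fun f t => by
    rw [emb2, sys_m, OrderIso.symm_apply_eq]
    simp
  have g0 : ∀ (f : X2) (r : ℝ), ((sys T φ).m (f, true)).symm r = emb φ f 0 r := fun f r => by
    rw [sys_m_symm, emb0]
    simp
  have g2 : ∀ (f : X2) (r : ℝ), ((sys T φ).m (f, false)).symm r = emb φ f 2 r := fun f r => by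
    rw [sys_m_symm, emb2]
    simp
  fin_cases j
  · have a := h.ab x (surf_m h (surf_arc h hs (p := (2, false)) (by decide)))
    rw [f2, ← g2, ← jm_apply, ← jm_apply, OrderIso.apply_symm_apply, ← OrderIso.eq_symm_apply,
      j2] at a
    simp [Sys.bd, cells, Sys.arcs, Sys.al, Sys.step, Sys.mp, surfTb, surfDir, a, j1, j2, j3]
  · have a := h.bc x (surf_m h (surf_arc h hs (p := (0, false)) (by decide)))
    rw [f2, ← g0, ← jm_apply, ← jm_apply, OrderIso.apply_symm_apply, ← OrderIso.eq_symm_apply,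
      j0] at a
    simp [Sys.bd, cells, Sys.arcs, Sys.al, Sys.step, Sys.mp, surfTb, surfDir, a, j0, j1, j2, j3]
  · have a := h.cd x (surf_m h (surf_arc h hs (p := (0, true)) (by decide)))
    rw [f0, ← g0, ← jm_apply, ← jm_apply, OrderIso.apply_symm_apply, ← OrderIso.eq_symm_apply,
      j0, j1] at a
    simp [Sys.bd, cells, Sys.arcs, Sys.al, Sys.step, Sys.mp, surfTb, surfDir, a, j0, j1, j2]

theorem surf_pair (T : Tri G X0 X1 X2 X3) :
    ∃ (pr : X2 → Bool → X3 × Fin 4) (sd : X3 × Fin 4 → Bool),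
      (∀ f c, T.d3 (pr f c).1 (pr f c).2 = f) ∧ (∀ f c, sd (pr f c) = c) ∧
        ∀ r, pr (T.d3 r.1 r.2) (sd r) = r := by
  classical
  choose p q hpq h using T.two
  refine ⟨fun f c => if c then p f else q f, fun r => decide (r = p (T.d3 r.1 r.2)),
    fun f c => ?_, fun f c => ?_, fun r => ?_⟩
  · cases c
    · exact (h f (q f)).2 (Or.inr rfl)
    · exact (h f (p f)).2 (Or.inl rfl)
  · cases c
    · simp [(h f (q f)).2 (Or.inr rfl), (hpq f).symm]
    · simp [(h f (p f)).2 (Or.inl rfl)]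
  · dsimp only
    by_cases k : r = p (T.d3 r.1 r.2)
    · rw [decide_eq_true k]
      exact k.symm
    · rw [decide_eq_false k]
      exact (((h _ r).1 rfl).resolve_left k).symm

theorem surf_fin {X : Type} [MulAction G X] [Finite (Ob G X)] (T : Tri G X0 X1 X2 X3)
    (d : X → X1) (hd : ∀ (g : G) x, d (g • x) = g • d x) (e : X1) : {x | d x = e}.Finite := by
  refine Finite.of_finite_image (f := ob G) (toFinite _) fun x hx y hy k => ?_
  obtain ⟨g, rfl⟩ := ob_eq_iff.1 k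
  have e1 : d (g • y) = e := hx
  have e2 : d y = e := hy
  rw [hd, e2] at e1
  rw [T.free1 g e e1, one_smul]

theorem surf : S_surf T φ := by
  intro y hy h sg
  obtain ⟨pr, sd, p1, p2, p3⟩ := surf_pair T
  have ex : ∀ z : {α : (X2 × Bool) × ℝ // α.2 ∈ Dm φ sg α.1} × Bool,
      ∃ j, T.jm φ (pr z.1.1.1.1 z.2).1 (pr z.1.1.1.1 z.2).2 z.1.1.2 ∈
        Em T φ sg ((pr z.1.1.1.1 z.2).1, j) ∧ ((pr z.1.1.1.1 z.2).2, z.1.1.1.2) ∈ surfTb j :=
    fun z => (surf_dm h sg _ _ _ _).1 (by rw [p1]; exact z.1.2)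
  choose ty t1 t2 using ex
  have : Finite (Ob G X3) := T.fin
  have := T.fin2
  obtain ⟨Y, hY⟩ : BddAbove (range fun p : Ob G X3 × Fin 4 × Bool =>
      (y (Quotient.out p.1) p.2.1 p.2.2 : ℝ)) := (finite_range _).bddAbove
  let L : {κ : (X3 × Fin 3) × ℝ // κ.2 ∈ Em T φ sg κ.1} →
      List ({α : (X2 × Bool) × ℝ // α.2 ∈ Dm φ sg α.1} × Bool) := fun κ =>
    (surfTb κ.1.1.2).attach.map fun p =>
      (⟨((T.d3 κ.1.1.1 p.1.1, p.1.2), (T.jm φ κ.1.1.1 p.1.1).symm κ.1.2), surf_arc h κ.2 p.2⟩,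
        sd (κ.1.1.1, p.1.1))
  have q3 : ∀ x k, pr (T.d3 x k) (sd (x, k)) = (x, k) := fun x k => p3 (x, k)
  refine ⟨⟨⟨fun z => ⟨(((pr z.1.1.1.1 z.2).1, ty z),
      T.jm φ (pr z.1.1.1.1 z.2).1 (pr z.1.1.1.1 z.2).2 z.1.1.2), t1 z⟩,
      fun z => surfDir (pr z.1.1.1.1 z.2).2, L, fun κ => ?_, fun κ z => ⟨fun k => ?_, ?_⟩⟩,
    fun κ => ?_, fun z => y (pr z.1.1.1.1 z.2).1 (pr z.1.1.1.1 z.2).2 z.1.1.1.2, Y,
    ⟨fun a => ?_, fun z => ?_, fun κ _ => ?_⟩, ⟨4, fun c => ?_⟩, fun e => ?_, fun e => ?_⟩⟩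
  · refine (List.nodup_attach.2 (surf_nodup _)).map fun p q e => ?_
    have e1 := congrArg (fun z : {α : (X2 × Bool) × ℝ // α.2 ∈ Dm φ sg α.1} × Bool =>
      ((pr z.1.1.1.1 z.2).2, z.1.1.1.2)) e
    simp only [q3] at e1
    exact Subtype.ext e1
  · obtain ⟨p, -, rfl⟩ := List.mem_map.1 k
    have k1 := t1 (⟨((T.d3 κ.1.1.1 p.1.1, p.1.2), (T.jm φ κ.1.1.1 p.1.1).symm κ.1.2),
      surf_arc h κ.2 p.2⟩, sd (κ.1.1.1, p.1.1))
    simp only [q3, OrderIso.apply_symm_apply] at k1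
    refine Subtype.ext ?_
    simp only [q3, OrderIso.apply_symm_apply, surf_em h k1 κ.2]
  · rintro rfl
    refine List.mem_map.2 ⟨⟨_, t2 z⟩, List.mem_attach _ _, Prod.ext (Subtype.ext ?_) (p2 _ _)⟩
    simp only [p1, OrderIso.symm_apply_apply]
  · rw [show κ.1 = ((κ.1.1.1, κ.1.1.2), κ.1.2) from rfl, surf_bd h κ.2]
    simp only [Sq.bd, L, List.map_map, Function.comp_def, q3]
    exact List.attach_map_val (f := fun p : Fin 4 × Bool =>
      (((T.d3 κ.1.1.1 p.1, p.2), (T.jm φ κ.1.1.1 p.1).symm κ.1.2), surfDir p.1))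
  · have k := hy.anti (pr a.1.1.1 true).1 (pr a.1.1.1 true).2 (pr a.1.1.1 false).1
      (pr a.1.1.1 false).2 (fun e => by simpa [p2] using congrArg sd e) (by rw [p1, p1]) a.1.1.2
    simp only [k, Int.cast_neg, add_neg_cancel, le_refl]
  · obtain ⟨g, hg⟩ := ob_eq_iff.1 (ob_out (ob G (pr z.1.1.1.1 z.2).1))
    refine hY ⟨(ob G (pr z.1.1.1.1 z.2).1, (pr z.1.1.1.1 z.2).2, z.1.1.1.2), ?_⟩
    simp only [← hg, hy.inv]
  · simp only [L, List.map_map, Function.comp_def, q3]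
    rw [List.attach_map_val (f := fun p : Fin 4 × Bool => (y κ.1.1.1 p.1 p.2 : ℝ))]
    have k0 := (Int.cast_le (R := ℝ)).2 (hy.low κ.1.1.1)
    have k1 := (Int.cast_le (R := ℝ)).2 (hy.mid κ.1.1.1)
    have k2 := (Int.cast_le (R := ℝ)).2 (hy.high κ.1.1.1)
    push_cast at k0 k1 k2
    generalize κ.1.1.2 = j
    fin_cases j <;> simp [surfTb] <;> linarith
  · obtain ⟨x, j⟩ := c
    fin_cases j <;> simp [cells]
  · have k : ∀ i, {f | T.d2 f i = e}.Finite := fun i =>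
      surf_fin T (fun f => T.d2 f i) (fun g f => T.e2 g f i) e
    refine ((((k 0).union (k 1)).union (k 2)).prod (finite_univ (α := Bool))).subset ?_
    rintro ⟨f, b⟩ (hw | hw)
    · exact ⟨Or.inl (Or.inr hw), trivial⟩
    · cases b
      · exact ⟨Or.inr hw, trivial⟩
      · exact ⟨Or.inl (Or.inl hw), trivial⟩
  · exact ((surf_fin T (fun x => T.d2 (T.d3 x 2) 1) (fun g x => by rw [T.e3, T.e2]) e).prod
      (finite_univ (α := Fin 3))).subset fun c hc => ⟨hc, trivial⟩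

end Pool.Agent.Work.MP_3d425c_gt.Nv
end

-- merged part: Pool.Agent.Work.MP_3d425c_gt.Nv.Dual
section
/-! From words of arcs between edges to chains of plaques. -/

namespace Pool.Agent.Work.MP_3d425c_gt.Nv
open Set Relation Sys Pool.Agent.Work.MP_3d425c_gt.Md

variable {G X0 X1 X2 X3 : Type} [Group G] [MulAction G X0] [MulAction G X1] [MulAction G X2]
  [MulAction G X3] {T : Tri G X0 X1 X2 X3} {φ : X2 → ℝ ≃o ℝ}

theorem dual_face (hf : T.Flat φ) (x : X3) (k : Fin 4) {t : ℝ} (ht : t ∈ Ioo (0 : ℝ) 1) :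
    ∃ p, (sys T φ).Def (Do φ) (T.d2 (T.d3 x 2) 1, T.pos φ x k t) p ∧
      (sys T φ).go (T.d2 (T.d3 x 2) 1, T.pos φ x k t) p = (T.d2 (T.d3 x k) 1, t) := by
  fin_cases k
  · refine ⟨[((T.d3 x 2, true), true)], ⟨rfl, ⟨?_, ?_⟩, trivial⟩, Prod.ext (Cv_e01 T x) ?_⟩
    · exact (φ _).symm.strictMono (by linarith [ht.1] : (1 : ℝ) / 2 < (t + 1) / 2)
    · show (φ _).symm ((t + 1) / 2) < 1
      rw [OrderIso.symm_apply_lt, Cv_one hf]
      linarith [ht.2]
    · show (sys T φ).m (T.d3 x 2, true) ((φ _).symm ((t + 1) / 2)) = t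
      rw [Cv_mt, OrderIso.apply_symm_apply]
      ring
  · exact ⟨[], trivial, Prod.ext (Cv_e11 T x) rfl⟩
  · exact ⟨[], trivial, rfl⟩
  · refine ⟨[((T.d3 x 1, false), true)], ⟨(Cv_e11 T x).symm, ⟨?_, ?_⟩, trivial⟩,
      Prod.ext (Cv_e12 T x).symm ?_⟩
    · show 0 < (φ _).symm (t / 2)
      rw [OrderIso.lt_symm_apply, Cv_zero hf]
      linarith [ht.1]
    · exact (φ _).symm.strictMono (by linarith [ht.2] : t / 2 < (1 : ℝ) / 2)
    · show (sys T φ).m (T.d3 x 1, false) ((φ _).symm (t / 2)) = t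
      rw [Cv_mf, OrderIso.apply_symm_apply]
      ring

/-- if closed words fix their level, a leaf meets a tetrahedron at most once -/
theorem dual_nc (hf : T.Flat φ) (hN : ∀ b a a' p, (sys T φ).Def (Do φ) (b, a) p →
    (sys T φ).go (b, a) p = (b, a') → a = a') : T.NC φ := by
  have key : ∀ u v : X3 × ℝ, EqvGen (T.Step φ) u v →
      ∃ p, (sys T φ).Def (Do φ) (T.d2 (T.d3 u.1 2) 1, u.2) p ∧
        (sys T φ).go (T.d2 (T.d3 u.1 2) 1, u.2) p = (T.d2 (T.d3 v.1 2) 1, v.2) := by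
    intro u v h
    induction h with
    | rel u v h =>
      obtain ⟨k, l, t, ht, e, e1, e2⟩ := h
      obtain ⟨p, h1, h2⟩ := dual_face hf u.1 k ht
      obtain ⟨q, h3, h4⟩ := dual_face hf v.1 l ht
      rw [e1, e2]
      refine ⟨p ++ rev q, def_append.2 ⟨h1, ?_⟩, ?_⟩
      · rw [h2, e, ← h4]
        exact (def_rev h3).1
      · rw [go_append, h2, e, ← h4]
        exact (def_rev h3).2
    | refl => exact ⟨[], trivial, rfl⟩
    | symm _ _ _ ih =>
      obtain ⟨p, h1, h2⟩ := ih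
      exact ⟨rev p, h2 ▸ (def_rev h1).1, h2 ▸ (def_rev h1).2⟩
    | trans _ _ _ _ _ i j =>
      obtain ⟨p, h1, h2⟩ := i
      obtain ⟨q, h3, h4⟩ := j
      exact ⟨p ++ q, def_append.2 ⟨h1, h2 ▸ h3⟩, by rw [go_append, h2, h4]⟩
  intro x s s' h
  obtain ⟨p, h1, h2⟩ := key _ _ h
  exact hN _ _ _ p h1 h2

end Pool.Agent.Work.MP_3d425c_gt.Nv
end

-- merged part: Pool.Agent.Work.MP_3d425c_gt.Nv.Nov
section
/-! Novikov's theorem for carried foliations. -/

namespace Pool.Agent.Work.MP_3d425c_gt.Nv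
open Set Relation Sys Pool.Agent.Work.MP_3d425c_gt.Md

variable {G X0 X1 X2 X3 : Type} [Group G] [MulAction G X0] [MulAction G X1] [MulAction G X2]
  [MulAction G X3] {T : Tri G X0 X1 X2 X3} {φ : X2 → ℝ ≃o ℝ}

theorem nov (hD : Disc T) {y} (hy : T.Flw y) (hf : T.Flat φ) : T.NC φ := by
  obtain ⟨c, hA⟩ := aon_model (cv T φ) surf cross hD hy hf
  refine dual_nc hf fun b a a' p d e => ?_
  have := c.go_eq (nov_of_aon hD hf hA d (congrArg Prod.fst e))
  rw [e] at this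
  exact (congrArg Prod.snd this).symm

end Pool.Agent.Work.MP_3d425c_gt.Nv
end

-- merged part: Pool.Agent.Work.MP_3d425c_gt.Bg.End1
section
/-! A simply connected leaf has one end: minority sets are finite and of bounded size. -/

namespace Pool.Agent.Work.MP_3d425c_gt.Nv
open Set Relation

namespace Sq
variable {A C : Type*} (X : Sq A C)

theorem pair_zero (ψ : A → ZMod 2) (F : Finset A) (hF : ∀ a, a ∉ F → ψ a = 0)
    (hk : ∀ c, ((X.L c).map fun z => ψ z.1).sum = 0) (g : C → ZMod 2) :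
    ∑ a ∈ F, (g (X.cell (a, true)) + g (X.cell (a, false))) * ψ a = 0 := by
  classical
  have e1 : ∑ a ∈ F, (g (X.cell (a, true)) + g (X.cell (a, false))) * ψ a =
      ∑ z ∈ F ×ˢ (Finset.univ : Finset Bool), g (X.cell z) * ψ z.1 := by
    rw [Finset.sum_product]
    refine Finset.sum_congr rfl fun a _ => ?_
    rw [Fintype.sum_bool, add_mul]
  rw [e1, ← Finset.sum_fiberwise_of_maps_to
    (t := (F ×ˢ (Finset.univ : Finset Bool)).image X.cell) (g := X.cell)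
    fun z hz => Finset.mem_image_of_mem _ hz]
  refine Finset.sum_eq_zero fun c _ => ?_
  have e2 : ∑ z ∈ (F ×ˢ (Finset.univ : Finset Bool)).filter (fun z => X.cell z = c),
      g (X.cell z) * ψ z.1 = ∑ z ∈ (X.L c).toFinset, g c * ψ z.1 := by
    refine (Finset.sum_congr rfl fun z hz => by rw [(Finset.mem_filter.1 hz).2]).trans
      (Finset.sum_subset (fun z hz => ?_) fun z hz hn => ?_)
    · exact List.mem_toFinset.2 ((X.mem c z).2 (Finset.mem_filter.1 hz).2)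
    · rw [hF z.1, mul_zero]
      intro h
      exact hn (Finset.mem_filter.2 ⟨by simpa using h, (X.mem c z).1 (List.mem_toFinset.1 hz)⟩)
  rw [e2, ← Finset.mul_sum, List.sum_toFinset _ (X.nodup c), hk, mul_zero]

theorem dual_fill
    (hH : ∀ ψ : A → ZMod 2, (∀ c, ((X.L c).map fun z => ψ z.1).sum = 0) → ∀ F : Finset A,
      ∃ (ψ' : A → ZMod 2) (F' : Finset A), (∀ a ∈ F, ψ' a = ψ a) ∧ (∀ a, a ∉ F' → ψ' a = 0) ∧
        ∀ c, ((X.L c).map fun z => ψ' z.1).sum = 0)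
    (g : C → ZMod 2) (F : Finset A)
    (hg : ∀ a, a ∉ F → g (X.cell (a, true)) + g (X.cell (a, false)) = 0) :
    ∃ k : C →₀ ZMod 2, ∀ a, k (X.cell (a, true)) + k (X.cell (a, false)) =
      g (X.cell (a, true)) + g (X.cell (a, false)) := by
  classical
  let d : (C →₀ ZMod 2) →ₗ[ZMod 2] (A → ZMod 2) :=
    LinearMap.pi fun a => Finsupp.lapply (X.cell (a, true)) + Finsupp.lapply (X.cell (a, false))
  let c : A → ZMod 2 := fun a => g (X.cell (a, true)) + g (X.cell (a, false))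
  by_contra hn
  have hc : c ∉ LinearMap.range d := by
    rintro ⟨k, hk⟩
    exact hn ⟨k, fun a => congrFun hk a⟩
  obtain ⟨f, hf, hker⟩ := Submodule.exists_le_ker_of_notMem hc
  have hcell : ∀ κ, d (Finsupp.single κ 1) =
      ∑ z ∈ (X.L κ).toFinset, (Pi.single z.1 1 : A → ZMod 2) := by
    intro κ
    funext a
    have e : (∑ z ∈ (X.L κ).toFinset, (Pi.single z.1 1 : A → ZMod 2)) a =
        ∑ z ∈ ({a} : Finset A) ×ˢ (Finset.univ : Finset Bool),
          (if X.cell z = κ then (1 : ZMod 2) else 0) := by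
      rw [Finset.sum_apply, ← Finset.sum_filter]
      simp only [Pi.single_apply]
      rw [← Finset.sum_filter]
      refine Finset.sum_congr ?_ fun _ _ => rfl
      ext z
      simp only [Finset.mem_filter, List.mem_toFinset, X.mem, Finset.mem_product,
        Finset.mem_singleton, Finset.mem_univ, and_true]
      exact ⟨fun h => ⟨h.2.symm, h.1⟩, fun h => ⟨h.2, h.1.symm⟩⟩
    rw [e, Finset.sum_product, Finset.sum_singleton, Fintype.sum_bool]
    simp only [d, LinearMap.pi_apply, LinearMap.add_apply, Finsupp.lapply_apply,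
      Finsupp.single_apply, eq_comm]
  obtain ⟨ψ', F', h1, h2, h3⟩ := hH (fun a => f (Pi.single a 1)) (fun κ => by
    have := hker (LinearMap.mem_range_self d (Finsupp.single κ 1))
    rw [LinearMap.mem_ker, hcell, map_sum, List.sum_toFinset _ (X.nodup κ)] at this
    exact this) F
  apply hf
  have e : c = ∑ a ∈ F, c a • (Pi.single a 1 : A → ZMod 2) := by
    funext b
    rw [Finset.sum_apply]
    simp only [Pi.smul_apply, Pi.single_apply, smul_eq_mul, mul_ite, mul_one, mul_zero,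
      Finset.sum_ite_eq]
    split_ifs with h
    · rfl
    · exact hg b h
  rw [e, map_sum, ← X.pair_zero ψ' (F ∪ F') (fun a ha => h2 a fun h =>
    ha (Finset.mem_union_right _ h)) h3 g]
  refine (Finset.sum_congr rfl fun a ha => ?_).trans
    (Finset.sum_subset Finset.subset_union_left fun a _ ha => ?_)
  · rw [map_smul, smul_eq_mul, h1 a ha]
  · rw [hg a ha, zero_mul]

theorem reach_symm {Z : Set A} {c d : C} (h : ReflTransGen (X.Adj Z) c d) :
    ReflTransGen (X.Adj Z) d c := by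
  induction h with
  | refl => exact .refl
  | tail _ h ih => exact .head (Adj.symm X h) ih

end Sq

universe u

namespace Sys
variable {B W C : Type u} {X : Sys B W} {D : W → Set ℝ} {K : Cells B W C} {E : C → Set ℝ}

theorem val_rev {Γ : Type*} [Group Γ] (Ψ : W × ℝ → Γ) {x : B × ℝ} {p} (hp : X.Def D x p) :
    X.val Ψ x p * X.val Ψ (X.go x p) (rev p) = 1 := by
  induction p generalizing x with
  | nil => simp
  | cons l p ih =>
    have h1 := val_append (X := X) Ψ x [l] p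
    have h2 := val_append (X := X) Ψ x [l] [linv l]
    have h3 := ih hp.2.2
    have h4 := (def_rev hp.2.2).2
    rw [List.singleton_append] at h1 h2
    rw [val_back] at h2
    rw [h1, rev_cons, val_append, go_cons x l p, h4, mul_assoc,
      ← mul_assoc (X.val Ψ (X.go x [l]) p)]
    change _ * (X.val Ψ (X.step x l) p * _ * _) = 1
    rw [h3, one_mul]
    exact h2.symm

theorem exists_pot {Γ : Type*} [Group Γ] (Ψ : W × ℝ → Γ)
    (h : ∀ x p, X.Def D x p → X.go x p = x → X.val Ψ x p = 1) :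
    ∃ σ : B × ℝ → Γ, ∀ w, ∀ t ∈ D w, σ (X.src w, t) * Ψ (w, t) = σ (X.tgt w, X.m w t) := by
  let R : Setoid (B × ℝ) := ⟨fun x y => ∃ p, X.Def D x p ∧ X.go x p = y,
    fun x => ⟨[], trivial, rfl⟩, fun ⟨p, h1, h2⟩ => ⟨rev p, h2 ▸ (def_rev h1).1, h2 ▸ (def_rev h1).2⟩,
    fun ⟨p, h1, h2⟩ ⟨q, h3, h4⟩ =>
      ⟨p ++ q, def_append.2 ⟨h1, h2 ▸ h3⟩, by rw [go_append, h2, h4]⟩⟩
  have ex : ∀ x, ∃ p, X.Def D (Quotient.mk R x).out p ∧ X.go (Quotient.mk R x).out p = x :=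
    fun x => Quotient.mk_out (s := R) x
  choose r h1 h2 using ex
  refine ⟨fun x => X.val Ψ (Quotient.mk R x).out (r x), fun w t ht => ?_⟩
  have d : X.Def D (X.src w, t) [(w, true)] := ⟨rfl, ht, trivial⟩
  have g : X.go (X.src w, t) [(w, true)] = (X.tgt w, X.m w t) := rfl
  have e : Quotient.mk R (X.src w, t) = Quotient.mk R (X.tgt w, X.m w t) :=
    Quotient.sound ⟨_, d, g⟩
  have a1 := h1 (X.tgt w, X.m w t)
  have a2 := h2 (X.tgt w, X.m w t)
  have a3 := val_rev Ψ a1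
  have a4 := def_rev a1
  rw [a2] at a3 a4
  dsimp only
  rw [← e] at a3 a4 ⊢
  have k := h _ (r (X.src w, t) ++ ([(w, true)] ++ rev (r (X.tgt w, X.m w t))))
    (def_append.2 ⟨h1 _, by rw [h2]; exact def_append.2 ⟨d, a4.1⟩⟩)
    (by rw [go_append, h2, go_append, g, a4.2])
  rw [val_append, h2, val_append, g, val_cons, val_nil, mul_one, ← mul_assoc] at k
  exact mul_right_cancel (k.trans a3.symm)

theorem tele (τ : B × ℝ → ZMod 2) {x : B × ℝ} {p} (hp : X.Def D x p) :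
    ((X.arcs x p).map fun z => τ (X.src z.1.1, z.1.2) + τ (X.tgt z.1.1, X.m z.1.1 z.1.2)).sum =
      τ x + τ (X.go x p) := by
  induction p generalizing x with
  | nil => exact (CharTwo.add_self_eq_zero _).symm
  | cons l p ih =>
    rw [arcs, List.map_cons, List.sum_cons, ih hp.2.2, go_cons]
    obtain ⟨w, s⟩ := l
    obtain ⟨b, a⟩ := x
    cases s
    · obtain rfl : X.tgt w = b := hp.1
      have e1 : X.m w (X.al (w, false) a) = a := (X.m w).apply_symm_apply a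
      have e2 : (X.src w, X.al (w, false) a) = X.step (X.tgt w, a) (w, false) := rfl
      dsimp only
      rw [e1, e2]
      linear_combination CharTwo.add_self_eq_zero (τ (X.step (X.tgt w, a) (w, false)))
    · obtain rfl : X.src w = b := hp.1
      have e1 : X.al (w, true) a = a := rfl
      have e2 : (X.tgt w, X.m w a) = X.step (X.src w, a) (w, true) := rfl
      dsimp only
      rw [e1, e2]
      linear_combination CharTwo.add_self_eq_zero (τ (X.step (X.src w, a) (w, true)))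

theorem ev_two {A : Type*} (ψ : A → ZMod 2) (w : List (A × Bool)) :
    ev (fun a => Multiplicative.ofAdd (ψ a)) w =
      Multiplicative.ofAdd (w.map fun z => ψ z.1).sum := by
  induction w with
  | nil => rfl
  | cons z w ih =>
    rw [ev_cons, ih, List.map_cons, List.sum_cons, ofAdd_add]
    congr 1
    rw [lt1]
    split_ifs
    · rfl
    · rw [← ofAdd_neg, CharTwo.neg_eq]

variable (hC : X.CV D K E) (S : X.Surf D K E)
  (hN : ∀ x p, X.Def D x p → (X.go x p).1 = x.1 → X.Hd D K E x p [])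

theorem Surf.sum_eq (f : W × ℝ → ZMod 2) (κ : {κ : C × ℝ // κ.2 ∈ E κ.1}) :
    ((S.Q.L κ).map fun z => f z.1.1).sum = ((X.bd K κ.1).map fun z => f z.1).sum := by
  rw [← S.bd_eq, Sq.bd, List.map_map, List.map_map]
  rfl

include hC hN in
theorem loc_fin (ψ : {α : W × ℝ // α.2 ∈ D α.1} → ZMod 2)
    (hψ : ∀ c, ((S.Q.L c).map fun z => ψ z.1).sum = 0) (F : Finset {α : W × ℝ // α.2 ∈ D α.1}) :
    ∃ (ψ' : {α : W × ℝ // α.2 ∈ D α.1} → ZMod 2) (F' : Finset {α : W × ℝ // α.2 ∈ D α.1}),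
      (∀ a ∈ F, ψ' a = ψ a) ∧ (∀ a, a ∉ F' → ψ' a = 0) ∧
        ∀ c, ((S.Q.L c).map fun z => ψ' z.1).sum = 0 := by
  classical
  let ψ0 : W × ℝ → ZMod 2 := fun α => if h : α.2 ∈ D α.1 then ψ ⟨α, h⟩ else 0
  have e0 : ∀ a : {α : W × ℝ // α.2 ∈ D α.1}, ψ0 a.1 = ψ a := fun a => dif_pos a.2
  obtain ⟨σ, hσ⟩ := exists_pot (X := X) (D := D) (fun α => Multiplicative.ofAdd (ψ0 α))
    fun x p hp e => by
      refine ((hN x p hp (by rw [e])).val_eq hC fun c a ha => ?_).trans (val_nil _ _)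
      have := S.sum_eq ψ0 ⟨(c, a), ha⟩
      simp only [e0, hψ] at this
      rw [Kills, val_eq_ev, ev_two]
      exact congrArg Multiplicative.ofAdd this.symm
  let P : Finset (B × ℝ) := F.image (fun a => (X.src a.1.1, a.1.2)) ∪
    F.image fun a => (X.tgt a.1.1, X.m a.1.1 a.1.2)
  let τ : B × ℝ → ZMod 2 := fun x => if x ∈ P then Multiplicative.toAdd (σ x) else 0
  have hfin : {a : {α : W × ℝ // α.2 ∈ D α.1} |
      (X.src a.1.1, a.1.2) ∈ P ∨ (X.tgt a.1.1, X.m a.1.1 a.1.2) ∈ P}.Finite := by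
    refine Set.Finite.of_finite_image (f := Subtype.val) ?_ Subtype.val_injective.injOn
    refine (P.finite_toSet.biUnion fun x _ => ((S.finW x.1).image fun w => (w, x.2)).union
      ((S.finW x.1).image fun w => (w, (X.m w).symm x.2))).subset ?_
    rintro _ ⟨a, h | h, rfl⟩
    · exact mem_biUnion h (Or.inl ⟨a.1.1, Or.inl rfl, rfl⟩)
    · exact mem_biUnion h (Or.inr ⟨a.1.1, Or.inr rfl, by simp⟩)
  refine ⟨fun a => τ (X.src a.1.1, a.1.2) + τ (X.tgt a.1.1, X.m a.1.1 a.1.2), hfin.toFinset,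
    fun a ha => ?_, fun a ha => ?_, fun κ => ?_⟩
  · have h1 : (X.src a.1.1, a.1.2) ∈ P :=
      Finset.mem_union_left _ (Finset.mem_image_of_mem _ ha)
    have h2 : (X.tgt a.1.1, X.m a.1.1 a.1.2) ∈ P :=
      Finset.mem_union_right _ (Finset.mem_image_of_mem _ ha)
    simp only [τ, if_pos h1, if_pos h2, ← hσ a.1.1 a.1.2 a.2, toAdd_mul, toAdd_ofAdd]
    rw [← add_assoc, CharTwo.add_self_eq_zero, zero_add]
    exact e0 a
  · rw [Set.Finite.mem_toFinset, mem_ofPred_eq, not_or] at ha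
    simp only [τ, if_neg ha.1, if_neg ha.2, add_zero]
  · refine (S.sum_eq (fun α => τ (X.src α.1, α.2) + τ (X.tgt α.1, X.m α.1 α.2)) κ).trans ?_
    rw [bd, tele τ (hC _ _ κ.2).1, (hC _ _ κ.2).2, CharTwo.add_self_eq_zero]

include hC in
theorem cell_arc (z : {α : W × ℝ // α.2 ∈ D α.1} × Bool) : ∃ d,
    X.Def D (K.base (S.Q.cell z).1.1, (S.Q.cell z).1.2) d ∧
      X.go (K.base (S.Q.cell z).1.1, (S.Q.cell z).1.2) d = (X.src z.1.1.1, z.1.1.2) := by
  have h1 : (z.1.1, S.Q.sg z) ∈ X.bd K (S.Q.cell z).1 := by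
    rw [← S.bd_eq]
    exact List.mem_map.2 ⟨(z.1, S.Q.sg z), List.mem_map.2 ⟨z, (S.Q.mem _ _).2 rfl, rfl⟩, rfl⟩
  obtain ⟨d, h2, -, h4⟩ := reach_arc (hC _ _ (S.Q.cell z).2).1 h1
  exact ⟨d, h2, h4⟩

include hC in
theorem reach_word {κ κ' : {κ : C × ℝ // κ.2 ∈ E κ.1}} (h : ReflTransGen (S.Q.Adj ∅) κ κ') :
    ∃ d, X.Def D (K.base κ.1.1, κ.1.2) d ∧ X.go (K.base κ.1.1, κ.1.2) d = (K.base κ'.1.1, κ'.1.2) := by
  induction h with
  | refl => exact ⟨[], trivial, rfl⟩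
  | tail _ hadj ih =>
    obtain ⟨d, h1, h3⟩ := ih
    obtain ⟨a, b, -, rfl, rfl⟩ := hadj
    obtain ⟨d1, f1, f3⟩ := cell_arc hC S (a, b)
    obtain ⟨d2, g1, g3⟩ := cell_arc hC S (a, !b)
    have g4 := def_rev g1
    rw [g3] at g4
    refine ⟨d ++ d1 ++ rev d2, def_append.2 ⟨def_append.2 ⟨h1, by rw [h3]; exact f1⟩, ?_⟩, ?_⟩
    · rw [go_append, h3, f3]; exact g4.1
    · rw [go_append, go_append, h3, f3]; exact g4.2

include hC hN in
theorem cut_fin (F0 : Finset W) (κ : {κ : C × ℝ // κ.2 ∈ E κ.1}) :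
    ∃ Z : Finset {α : W × ℝ // α.2 ∈ D α.1}, Z.card ≤ F0.card ∧
      ∀ a, a ∈ Z ↔ a.1.1 ∈ F0 ∧ ∃ b, ReflTransGen (S.Q.Adj ∅) κ (S.Q.cell (a, b)) := by
  classical
  have inj : InjOn (fun a : {α : W × ℝ // α.2 ∈ D α.1} => a.1.1)
      {a | a.1.1 ∈ F0 ∧ ∃ b, ReflTransGen (S.Q.Adj ∅) κ (S.Q.cell (a, b))} := by
    rintro a ⟨-, b, h⟩ a' ⟨-, b', h'⟩ e
    have e' : a.1.1 = a'.1.1 := e
    obtain ⟨d, d1, d2⟩ := reach_word hC S ((S.Q.reach_symm h).trans h')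
    obtain ⟨p, p1, p2⟩ := cell_arc hC S (a, b)
    obtain ⟨q, q1, q2⟩ := cell_arc hC S (a', b')
    have p3 := def_rev p1
    rw [p2] at p3
    have g : X.go (X.src a.1.1, a.1.2) (rev p ++ d ++ q) = (X.src a'.1.1, a'.1.2) := by
      rw [go_append, go_append, p3.2, d2, q2]
    have k := (cong_hd hC).go_eq (hN _ (rev p ++ d ++ q) (def_append.2 ⟨def_append.2
      ⟨p3.1, by rw [p3.2]; exact d1⟩, by rw [go_append, p3.2, d2]; exact q1⟩) (by rw [g, e']))
    rw [g] at k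
    exact Subtype.ext (Prod.ext e' (congrArg Prod.snd k).symm)
  have fin := Set.Finite.of_finite_image (F0.finite_toSet.subset
    (by rintro _ ⟨a, h, rfl⟩; exact h.1)) inj
  refine ⟨fin.toFinset, Finset.card_le_card_of_injOn (fun a => a.1.1)
    (fun a ha => (fin.mem_toFinset.1 ha).1) (by rwa [fin.coe_toFinset]), fun a => fin.mem_toFinset⟩

variable (u : C → Prop) (F0 : Finset W)
  (hu : ∀ a : {α : W × ℝ // α.2 ∈ D α.1}, a.1.1 ∉ F0 →
    (u (S.Q.cell (a, true)).1.1 ↔ u (S.Q.cell (a, false)).1.1))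

include hC hN hu in
theorem minor_fin (κ : {κ : C × ℝ // κ.2 ∈ E κ.1}) :
    {κ' | ReflTransGen (S.Q.Adj ∅) κ κ' ∧ u κ'.1.1}.Finite ∨
      {κ' | ReflTransGen (S.Q.Adj ∅) κ κ' ∧ ¬ u κ'.1.1}.Finite := by
  classical
  obtain ⟨Z, -, hZ⟩ := cut_fin hC S hN F0 κ
  let g : {κ : C × ℝ // κ.2 ∈ E κ.1} → ZMod 2 := fun κ' =>
    if ReflTransGen (S.Q.Adj ∅) κ κ' ∧ u κ'.1.1 then 1 else 0
  obtain ⟨k, hk⟩ := S.Q.dual_fill (loc_fin hC S hN) g Z fun a ha => by
    rw [CharTwo.add_eq_zero]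
    refine if_congr ?_ rfl rfl
    by_cases h : ∃ b, ReflTransGen (S.Q.Adj ∅) κ (S.Q.cell (a, b))
    · have h0 : a.1.1 ∉ F0 := fun h0 => ha ((hZ a).2 ⟨h0, h⟩)
      refine and_congr ⟨fun r => r.tail ⟨a, true, id, rfl, rfl⟩,
        fun r => r.tail ⟨a, false, id, rfl, rfl⟩⟩ (hu a h0)
    · exact iff_of_false (fun r => h ⟨_, r.1⟩) fun r => h ⟨_, r.1⟩
  have const : ∀ κ', ReflTransGen (S.Q.Adj ∅) κ κ' → k κ' + g κ' = k κ + g κ := by
    intro κ' h
    induction h with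
    | refl => rfl
    | tail _ hadj ih =>
      obtain ⟨a, b, -, rfl, rfl⟩ := hadj
      rw [← ih]
      have := hk a
      cases b
      · simp only [Bool.not_false]
        linear_combination this - CharTwo.add_self_eq_zero (k (S.Q.cell (a, false))) +
          CharTwo.add_self_eq_zero (g (S.Q.cell (a, true)))
      · simp only [Bool.not_true]
        linear_combination this - CharTwo.add_self_eq_zero (k (S.Q.cell (a, true))) +
          CharTwo.add_self_eq_zero (g (S.Q.cell (a, false)))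
  by_cases h0 : k κ + g κ = 0
  · refine Or.inl (k.support.finite_toSet.subset fun κ' h => Finsupp.mem_support_iff.2 fun e => ?_)
    have := const κ' h.1
    rw [h0, e, zero_add] at this
    exact one_ne_zero ((if_pos h).symm.trans this)
  · refine Or.inr (k.support.finite_toSet.subset fun κ' h => Finsupp.mem_support_iff.2 fun e => ?_)
    have := const κ' h.1
    rw [e, zero_add] at this
    exact h0 (this.symm.trans (if_neg fun r => h.2 r.2))

include hC hN hu in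
theorem minor_bd {n : ℕ} (hn : |S.Y| * (2 * F0.card) ≤ n) (κ : {κ : C × ℝ // κ.2 ∈ E κ.1})
    (h : {κ' | ReflTransGen (S.Q.Adj ∅) κ κ' ∧ u κ'.1.1}.Finite) :
    h.toFinset.card ≤ n ∧ ∀ κ' ∈ h.toFinset,
      ∃ Z : Set {α : W × ℝ // α.2 ∈ D α.1}, (∀ a ∈ Z, a.1.1 ∈ F0) ∧ S.Q.Near Z n κ' := by
  classical
  obtain ⟨Z, hc, hZ⟩ := cut_fin hC S hN F0 κ
  have hcl : ∀ c ∈ h.toFinset, ∀ d, S.Q.Adj (Z : Set _) c d → d ∈ h.toFinset := by
    rintro _ hc _ ⟨a, b, ha, rfl, rfl⟩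
    rw [h.mem_toFinset] at hc ⊢
    have h0 : a.1.1 ∉ F0 := fun h0 => ha ((hZ a).2 ⟨h0, b, hc.1⟩)
    refine ⟨hc.1.tail ⟨a, b, id, rfl, rfl⟩, ?_⟩
    cases b
    · exact (hu a h0).2 hc.2
    · exact (hu a h0).1 hc.2
  have hZc : (Z.card : ℝ) ≤ F0.card := by exact_mod_cast hc
  have hZ0 : (0 : ℝ) ≤ Z.card := Nat.cast_nonneg _
  have bound : |S.Y| * (2 * Z.card) ≤ n :=
    (mul_le_mul_of_nonneg_left (by linarith) (abs_nonneg _)).trans hn
  constructor
  · set Bd := (Z ×ˢ (Finset.univ : Finset Bool)).filter fun z => S.Q.cell z ∈ h.toFinset with hB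
    have h1 := S.Q.card_le S.wt (Z : Set _) h.toFinset (fun _ _ => mem_univ _) hcl Bd
      fun z => by simp only [hB, Finset.mem_filter, Finset.mem_product, Finset.mem_univ, and_true,
        Finset.mem_coe]
    have h2 : Bd.card ≤ (Z ×ˢ (Finset.univ : Finset Bool)).card := Finset.card_filter_le _ _
    rw [Finset.card_product] at h2
    simp only [Finset.card_univ, Fintype.card_bool] at h2
    have h3 : (Bd.card : ℝ) ≤ 2 * Z.card := by
      have : (Bd.card : ℝ) ≤ ((Z.card * 2 : ℕ) : ℝ) := by exact_mod_cast h2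
      push_cast at this; linarith
    have h4 : (h.toFinset.card : ℝ) ≤ n :=
      h1.trans ((mul_le_mul (le_abs_self _) h3 (Nat.cast_nonneg _) (abs_nonneg _)).trans bound)
    exact_mod_cast h4
  · intro κ' hκ'
    refine ⟨Z, fun a ha => ((hZ a).1 ha).1, S.Q.near_of_K S.wt Z ?_ (fun _ _ => mem_univ _) n
      ((mul_le_mul_of_nonneg_right (le_abs_self _) (by linarith)).trans bound)⟩
    refine h.toFinset.finite_toSet.subset fun d hd => ?_
    have hd' : ReflTransGen (S.Q.Adj (Z : Set _)) κ' d := hd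
    clear hd
    induction hd' with
    | refl => exact hκ'
    | tail _ hs ih => exact hcl _ ih _ hs

end Sys
end Pool.Agent.Work.MP_3d425c_gt.Nv
end
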