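import Pool.Agent.Work.MP_3d425c_gt.Ta.Defs
import Mathlib
import Pool.Agent.Work.MP_3d425c_gt.Cy.U2

-- merged part: Pool.Agent.Work.MP_3d425c_gt.Bg.Defs
section
/-! Towers of pieces of covers of a triangulated three-manifold: definitions. -/

namespace Pool.Agent.Work.MP_3d425c_gt.Bg
open Set Relation Pool.Agent.Work.MP_3d425c_gt.Md Pool.Agent.Work.MP_3d425c_gt.Cy

variable {G X0 X1 X2 X3 : Type} [Group G] [MulAction G X0] [MulAction G X1] [MulAction G X2]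
  [MulAction G X3]

/-- vertex `i` of an edge (`0` tail, `1` head) -/
def v1 (T : Tri G X0 X1 X2 X3) (e : X1) (i : Fin 2) : X0 := ![T.d1 e 1, T.d1 e 0] i

/-- vertex `i` of a triangle -/
def v2 (T : Tri G X0 X1 X2 X3) (f : X2) (i : Fin 3) : X0 :=
  ![T.d1 (T.d2 f 2) 1, T.d1 (T.d2 f 2) 0, T.d1 (T.d2 f 0) 0] i

/-- vertex `i` of a tetrahedron -/
def v3 (T : Tri G X0 X1 X2 X3) (x : X3) (i : Fin 4) : X0 :=
  ![v2 T (T.d3 x 3) 0, v2 T (T.d3 x 3) 1, v2 T (T.d3 x 3) 2, v2 T (T.d3 x 0) 2] i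

/-- The complex is a simply connected manifold with the compactly supported cohomology of
three-space in degrees one and two. -/
structure Mfd (T : Tri G X0 X1 X2 X3) : Prop where
  pure : ∀ e, ∃ f i, T.d2 f i = e
  sph : ∀ v, Nat.card {p : X2 × Fin 3 // v2 T p.1 p.2 = v} + 2 ≤
    Nat.card {p : X1 × Fin 2 // v1 T p.1 p.2 = v} + Nat.card {p : X3 × Fin 4 // v3 T p.1 p.2 = v}
  sc : ∀ (Γ : Type) [Group Γ] (z : X1 → Γ), (∀ f, z (T.d2 f 1) = z (T.d2 f 2) * z (T.d2 f 0)) →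
    ∃ s : X0 → Γ, ∀ e, z e = s (T.d1 e 1) * (s (T.d1 e 0))⁻¹
  hc1 : ∀ z : X1 → ℝ, (Function.support z).Finite →
    (∀ f, z (T.d2 f 1) = z (T.d2 f 2) + z (T.d2 f 0)) →
    ∃ s : X0 → ℝ, (Function.support s).Finite ∧ ∀ e, z e = s (T.d1 e 0) - s (T.d1 e 1)
  hc2 : ∀ w : X2 → ℝ, (Function.support w).Finite →
    (∀ x, w (T.d3 x 0) + w (T.d3 x 2) = w (T.d3 x 1) + w (T.d3 x 3)) →
    ∃ u : X1 → ℝ, (Function.support u).Finite ∧
      ∀ f, w f = u (T.d2 f 2) + u (T.d2 f 0) - u (T.d2 f 1)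

/-- finite modulo the powers of `a` -/
def Sm {D Ω : Type} [Group D] [MulAction D Ω] (a : D) (S : Set Ω) : Prop :=
  ∃ K : Set Ω, K.Finite ∧ ∀ x ∈ S, ∃ k ∈ K, ∃ n : ℤ, x = a ^ n • k

/-- one step along an edge, forwards or backwards -/
def St {Ω : Type} (R : Ω → X1 → Ω → Prop) (a : Ω) (l : X1 × Bool) (b : Ω) : Prop :=
  if l.2 = true then R a l.1 b else R b l.1 a

/-- lifted edge paths -/
inductive Pth {Ω : Type} (R : Ω → X1 → Ω → Prop) : Ω → List (X1 × Bool) → Ω → Prop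
  | nil (a) : Pth R a [] a
  | cons {a l b q c} : St R a l b → Pth R b q c → Pth R a (l :: q) c

/-- A piece of a cover: vertices `Ω` over `X0`; `R a e b` says that `e` lifts from `a` to `b`. -/
structure Et (T : Tri G X0 X1 X2 X3) (E : Subgroup G) (Ω : Type) [MulAction E Ω] where
  pr : Ω → X0
  R : Ω → X1 → Ω → Prop
  src : ∀ a e b, R a e b → pr a = T.d1 e 1
  tgt : ∀ a e b, R a e b → pr b = T.d1 e 0
  fn : ∀ a e b b', R a e b → R a e b' → b = b'
  inj : ∀ a a' e b, R a e b → R a' e b → a = a'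
  t1 : ∀ f a b c, R a (T.d2 f 2) b → R b (T.d2 f 0) c → R a (T.d2 f 1) c
  t2 : ∀ f a b c, R a (T.d2 f 2) b → R a (T.d2 f 1) c → R b (T.d2 f 0) c
  t3 : ∀ f a b c, R a (T.d2 f 1) c → R b (T.d2 f 0) c → R a (T.d2 f 2) b
  pr_smul : ∀ (g : E) a, pr (g • a) = g • pr a
  R_smul : ∀ (g : E) a e b, R a e b → R (g • a) (g • e) (g • b)

/-- the edges of the complex itself -/
def bR (T : Tri G X0 X1 X2 X3) (a : X0) (e : X1) (b : X0) : Prop := a = T.d1 e 1 ∧ b = T.d1 e 0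

theorem sa (T : Tri G X0 X1 X2 X3) (f : X2) : T.d1 (T.d2 f 1) 1 = T.d1 (T.d2 f 2) 1 :=
  (T.s2 f 1 1 le_rfl).symm
theorem sb (T : Tri G X0 X1 X2 X3) (f : X2) : T.d1 (T.d2 f 0) 1 = T.d1 (T.d2 f 2) 0 :=
  (T.s2 f 0 1 (by decide)).symm
theorem sc' (T : Tri G X0 X1 X2 X3) (f : X2) : T.d1 (T.d2 f 1) 0 = T.d1 (T.d2 f 0) 0 :=
  T.s2 f 0 0 le_rfl

/-- the complex itself -/
def base (T : Tri G X0 X1 X2 X3) (E : Subgroup G) : Et T E X0 where
  pr := id
  R := bR T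
  src _ _ _ h := h.1
  tgt _ _ _ h := h.2
  fn _ _ _ _ h h' := h.2.trans h'.2.symm
  inj _ _ _ _ h h' := h.1.trans h'.1.symm
  t1 f _ _ _ h h' := ⟨h.1.trans (sa T f).symm, h'.2.trans (sc' T f).symm⟩
  t2 f _ _ _ h h' := ⟨h.2.trans (sb T f).symm, h'.2.trans (sc' T f)⟩
  t3 f _ _ _ h h' := ⟨h.1.trans (sa T f), h'.1.trans (sb T f)⟩
  pr_smul _ _ := rfl
  R_smul g _ e _ h := ⟨(congrArg (g • ·) h.1).trans (T.e1 g e 1).symm,
    (congrArg (g • ·) h.2).trans (T.e1 g e 0).symm⟩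

/-- vertices with a real level -/
@[ext] structure Lv (Ω : Type) : Type where
  p : Ω
  r : ℝ

instance {D Ω : Type} [Group D] [MulAction D Ω] : MulAction D (Lv Ω) where
  smul g x := ⟨g • x.p, x.r⟩
  one_smul x := Lv.ext (one_smul D x.p) rfl
  mul_smul g h x := Lv.ext (mul_smul g h x.p) rfl

theorem Lv.smul_p {D Ω : Type} [Group D] [MulAction D Ω] (g : D) (x : Lv Ω) :
    (g • x).p = g • x.p := rfl
theorem Lv.smul_r {D Ω : Type} [Group D] [MulAction D Ω] (g : D) (x : Lv Ω) :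
    (g • x).r = x.r := rfl

/-- the edges of the cover along `χ` -/
def cR {Ω : Type} (R : Ω → X1 → Ω → Prop) (χ : Ω → X1 → Ω → ℝ) (a : Lv Ω) (e : X1) (b : Lv Ω) :
    Prop := R a.p e b.p ∧ b.r = a.r + χ a.p e b.p

/-- the number of present vertices -/
def np {Ω : Type} {n : ℕ} (σ : Fin n → Option Ω) : ℕ :=
  (Finset.univ.filter fun i => (σ i).isSome = true).card

theorem np_smul {D Ω : Type} [Group D] [MulAction D Ω] {n : ℕ} (g : D) (σ : Fin n → Option Ω) :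
    np (g • σ) = np σ := by
  unfold np
  congr 1
  refine Finset.filter_congr fun i _ => ?_
  rw [Pi.smul_apply]
  cases σ i <;> rfl

/-- edge `k` of a triangle with lifted vertices -/
def f2 {Ω : Type} (T : Tri G X0 X1 X2 X3) (c : X2 × (Fin 3 → Option Ω)) (k : Fin 3) :
    X1 × (Fin 2 → Option Ω) := (T.d2 c.1 k, fun i => c.2 (k.succAbove i))

/-- face `k` of a tetrahedron with lifted vertices -/
def f3 {Ω : Type} (T : Tri G X0 X1 X2 X3) (c : X3 × (Fin 4 → Option Ω)) (k : Fin 4) :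
    X2 × (Fin 3 → Option Ω) := (T.d3 c.1 k, fun i => c.2 (k.succAbove i))

namespace Et
variable {T : Tri G X0 X1 X2 X3} {E : Subgroup G} {Ω : Type} [MulAction E Ω] (W : Et T E Ω)

/-- edges with at most one absent end, and the degenerate ones -/
def Rp : Option Ω → X1 → Option Ω → Prop
  | some a, e, some b => W.R a e b
  | some a, e, none => W.pr a = T.d1 e 1 ∧ ∀ b, ¬ W.R a e b
  | none, e, some b => W.pr b = T.d1 e 0 ∧ ∀ a, ¬ W.R a e b
  | none, _, none => True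

theorem R_smul_iff (g : E) (a : Ω) (e : X1) (b : Ω) :
    W.R (g • a) (g • e) (g • b) ↔ W.R a e b :=
  ⟨fun h => by simpa using W.R_smul g⁻¹ _ _ _ h, W.R_smul g a e b⟩

theorem Rp_smul (g : E) {a : Option Ω} {e : X1} {b : Option Ω} (h : W.Rp a e b) :
    W.Rp (g • a) (g • e) (g • b) := by
  cases a <;> cases b
  · trivial
  · exact ⟨(W.pr_smul g _).trans ((congrArg (g • ·) h.1).trans (T.e1 g e 0).symm),
      fun a k => h.2 (g⁻¹ • a) ((W.R_smul_iff g _ _ _).1 (by rwa [smul_inv_smul]))⟩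
  · exact ⟨(W.pr_smul g _).trans ((congrArg (g • ·) h.1).trans (T.e1 g e 1).symm),
      fun a k => h.2 (g⁻¹ • a) ((W.R_smul_iff g _ _ _).1 (by rwa [smul_inv_smul]))⟩
  · exact W.R_smul g _ _ _ h

/-- neighbours -/
def Adj (a b : Ω) : Prop := ∃ e, W.R a e b ∨ W.R b e a

/-- vertices with an absent neighbour -/
def Bd (x : Ω) : Prop := ∃ e, W.Rp (some x) e none ∨ W.Rp none e (some x)

/-- a relative cocycle, invariant under `a₀`, with support finite modulo `a₀` -/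
structure Rc (a₀ : E) (z : Option Ω → X1 → Option Ω → ℝ) : Prop where
  zero : ∀ e, z none e none = 0
  coc : ∀ f a b c, W.Rp a (T.d2 f 2) b → W.Rp b (T.d2 f 0) c → W.Rp a (T.d2 f 1) c →
    z a (T.d2 f 1) c = z a (T.d2 f 2) b + z b (T.d2 f 0) c
  inv : ∀ a e b, W.Rp a e b → z (a₀ • a) (a₀ • e) (a₀ • b) = z a e b
  sup : ∃ S, Sm a₀ S ∧ ∀ a e b, W.Rp a e b → z a e b ≠ 0 → ∃ x ∈ S, a = some x ∨ b = some x

/-- the invariant of the tower -/
def Zp : Prop := ∀ (a₀ : E) z, W.Rc a₀ z → ∃ s : Option Ω → ℝ, s none = 0 ∧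
  Sm a₀ {x | s (some x) ≠ 0} ∧ ∀ a e b, W.Rp a e b → z a e b = s b - s a

/-- an invariant cocycle on the present edges -/
structure Coc (χ : Ω → X1 → Ω → ℝ) : Prop where
  coc : ∀ f a b c, W.R a (T.d2 f 2) b → W.R b (T.d2 f 0) c →
    χ a (T.d2 f 1) c = χ a (T.d2 f 2) b + χ b (T.d2 f 0) c
  inv : ∀ (g : E) a e b, W.R a e b → χ (g • a) (g • e) (g • b) = χ a e b

/-- the cover along a cocycle -/
def cov {χ : Ω → X1 → Ω → ℝ} (h : W.Coc χ) : Et T E (Lv Ω) where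
  pr a := W.pr a.p
  R := cR W.R χ
  src _ _ _ k := W.src _ _ _ k.1
  tgt _ _ _ k := W.tgt _ _ _ k.1
  fn a e b b' k k' := by
    have e1 := W.fn _ _ _ _ k.1 k'.1
    exact Lv.ext e1 (by rw [k.2, k'.2, e1])
  inj a a' e b k k' := by
    have e1 := W.inj _ _ _ _ k.1 k'.1
    refine Lv.ext e1 ?_
    have e2 := k.2.symm.trans k'.2
    rw [e1] at e2
    exact add_right_cancel e2
  t1 f a b c k k' := ⟨W.t1 f _ _ _ k.1 k'.1, by rw [h.coc f _ _ _ k.1 k'.1, k'.2, k.2, add_assoc]⟩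
  t2 f a b c k k' := ⟨W.t2 f _ _ _ k.1 k'.1, by
    rw [k'.2, h.coc f _ _ _ k.1 (W.t2 f _ _ _ k.1 k'.1), k.2, add_assoc]⟩
  t3 f a b c k k' := ⟨W.t3 f _ _ _ k.1 k'.1, by
    have e1 := k.2.symm.trans k'.2
    rw [h.coc f _ _ _ (W.t3 f _ _ _ k.1 k'.1) k'.1, ← add_assoc] at e1
    exact (add_right_cancel e1).symm⟩
  pr_smul g a := W.pr_smul g a.p
  R_smul g a e b k := ⟨W.R_smul g _ _ _ k.1, k.2.trans (congrArg _ (h.inv g _ _ _ k.1).symm)⟩

/-- restriction to an invariant set of vertices -/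
def res (F : SubMulAction E Ω) : Et T E F where
  pr a := W.pr a.1
  R a e b := W.R a.1 e b.1
  src _ _ _ k := W.src _ _ _ k
  tgt _ _ _ k := W.tgt _ _ _ k
  fn _ _ _ _ k k' := Subtype.ext (W.fn _ _ _ _ k k')
  inj _ _ _ _ k k' := Subtype.ext (W.inj _ _ _ _ k k')
  t1 f _ _ _ k k' := W.t1 f _ _ _ k k'
  t2 f _ _ _ k k' := W.t2 f _ _ _ k k'
  t3 f _ _ _ k k' := W.t3 f _ _ _ k k'
  pr_smul g a := W.pr_smul g a.1
  R_smul g _ _ _ k := W.R_smul g _ _ _ k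

/-- finite modulo the group and connected -/
structure Fc (ω : Ω) : Prop where
  fin : Finite (Ob E Ω)
  conn : ∀ x, ReflTransGen W.Adj ω x

/-- all short paths lift -/
def Lifts (ω : Ω) (ρ : ℕ) : Prop :=
  ∀ q v, Pth (bR T) (W.pr ω) q v → q.length ≤ ρ → ∃ b, Pth W.R ω q b

/-- the translates of the ends of the short paths -/
def Im (ω : Ω) (ρ : ℕ) : Set Ω :=
  {x | ∃ (g : E) (q : List (X1 × Bool)) (b : Ω), q.length ≤ ρ ∧ Pth W.R ω q b ∧ x = g • b}

/-- the first Betti number of the quotient is at most one -/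
def Top : Prop := ∃ Λ : (Ω → X1 → Ω → ℝ) →ₗ[ℝ] ℝ, ∀ χ, W.Coc χ → Λ χ = 0 →
  ∃ u : Ω → ℝ, (∀ (g : E) a, u (g • a) = u a) ∧ ∀ a e b, W.R a e b → χ a e b = u b - u a

/-- lifted edges, triangles, tetrahedra -/
def V1 (c : X1 × (Fin 2 → Option Ω)) : Prop := W.Rp (c.2 0) c.1 (c.2 1)
def V2 (c : X2 × (Fin 3 → Option Ω)) : Prop := ∀ k, W.V1 (f2 T c k)
def V3 (c : X3 × (Fin 4 → Option Ω)) : Prop := ∀ k, W.V2 (f3 T c k)

theorem f2_smul (g : E) (c : X2 × (Fin 3 → Option Ω)) (k : Fin 3) :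
    f2 T (g • c) k = g • f2 T c k := Prod.ext (T.e2 g c.1 k) rfl
theorem f3_smul (g : E) (c : X3 × (Fin 4 → Option Ω)) (k : Fin 4) :
    f3 T (g • c) k = g • f3 T c k := Prod.ext (T.e3 g c.1 k) rfl

theorem V1_smul (g : E) {c} (h : W.V1 c) : W.V1 (g • c) := W.Rp_smul g h
theorem V2_smul (g : E) {c} (h : W.V2 c) : W.V2 (g • c) := fun k =>
  f2_smul (T := T) g c k ▸ W.V1_smul g (h k)
theorem V3_smul (g : E) {c} (h : W.V3 c) : W.V3 (g • c) := fun k =>
  f3_smul (T := T) g c k ▸ W.V2_smul g (h k)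

/-- lifted cells whose number of present vertices lies in `[m, n]` -/
def C1 (m n : ℕ) : SubMulAction E (X1 × (Fin 2 → Option Ω)) :=
  ⟨{c | W.V1 c ∧ np c.2 ∈ Icc m n}, fun g c h => ⟨W.V1_smul g h.1, (np_smul g c.2).symm ▸ h.2⟩⟩
def C2 (m n : ℕ) : SubMulAction E (X2 × (Fin 3 → Option Ω)) :=
  ⟨{c | W.V2 c ∧ np c.2 ∈ Icc m n}, fun g c h => ⟨W.V2_smul g h.1, (np_smul g c.2).symm ▸ h.2⟩⟩
def C3 (m n : ℕ) : SubMulAction E (X3 × (Fin 4 → Option Ω)) :=
  ⟨{c | W.V3 c ∧ np c.2 ∈ Icc m n}, fun g c h => ⟨W.V3_smul g h.1, (np_smul g c.2).symm ▸ h.2⟩⟩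

end Et

/-- number of orbits -/
noncomputable abbrev oc (D X : Type) [Group D] [MulAction D X] : ℕ := Nat.card (Ob D X)

/-- The data that are lifted through the tower. -/
structure Dat (T : Tri G X0 X1 X2 X3) (E : Subgroup G) where
  v : X0
  S : Set E
  p : E → List (X1 × Bool)
  ρ : ℕ
  gen : Subgroup.closure S = ⊤
  pth : ∀ g ∈ S, Pth (bR T) v (p g) (g • v) ∧ (p g).length ≤ ρ
  key : ∀ (Ω : Type) [MulAction E Ω] (W : Et T E Ω) (ω : Ω), W.pr ω = v → W.Lifts ω ρ →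
    (∀ g ∈ S, Pth W.R ω (p g) (g • ω)) → ∃ Λ : (Ω → X1 → Ω → ℝ) →ₗ[ℝ] ℝ, ∀ χ, W.Coc χ → Λ χ = 0 →
      ∀ g ∈ S, Pth (cR W.R χ) ⟨ω, 0⟩ (p g) ⟨g • ω, 0⟩

/-- A stage of the tower. -/
structure Stg {T : Tri G X0 X1 X2 X3} {E : Subgroup G} (D : Dat T E) {Ω : Type} [MulAction E Ω]
    (W : Et T E Ω) (ω : Ω) : Prop where
  fc : W.Fc ω
  z : W.Zp
  pr : W.pr ω = D.v
  lifts : W.Lifts ω D.ρ
  gen : ∀ g ∈ D.S, Pth W.R ω (D.p g) (g • ω)

/-- The surface lemma. -/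
def S_surf : Prop := ∀ (D V Ed F : Type) [Group D] [MulAction D V] [MulAction D Ed]
  [MulAction D F], Hyp D → (∀ (g : D) (v : V), g • v = v → g = 1) →
  (∀ (g : D) (c : F), g • c = c → g = 1) → Finite (Ob D Ed) → Nonempty Ed →
  ∀ (en : Ed → Bool → V) (sd : Ed → Bool → F), (∀ (g : D) e i, en (g • e) i = g • en e i) →
  (∀ (g : D) e i, sd (g • e) i = g • sd e i) → (∀ v, ∃ e i, en e i = v) → (∀ c, ∃ e i, sd e i = c) →
  (∀ c v, Even (Nat.card {p : Ed × Bool × Bool // sd p.1 p.2.1 = c ∧ en p.1 p.2.2 = v})) →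
  (∀ e e' i j, en e i = en e' j → EqvGen (fun x y => ∃ k l, sd x k = sd y l) e e') →
  (∀ e e' i j, sd e i = sd e' j → EqvGen (fun x y => ∃ k l, en x k = en y l) e e') →
  oc D Ed ≤ oc D V + oc D F → ∃ (a : D) (U : Set Ed), U.Nonempty ∧
    (∀ e ∈ U, ∀ e' i j, en e i = en e' j → e' ∈ U) ∧ (∀ e, a • e ∈ U ↔ e ∈ U) ∧ Sm a U

end Pool.Agent.Work.MP_3d425c_gt.Bg
end

-- merged part: Pool.Agent.Work.MP_3d425c_gt.Bg.Basic
section
/-! Basic facts about pieces of covers. -/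

namespace Pool.Agent.Work.MP_3d425c_gt.Bg
open Set Relation Pool.Agent.Work.MP_3d425c_gt.Md Pool.Agent.Work.MP_3d425c_gt.Cy

variable {G X0 X1 X2 X3 : Type} [Group G] [MulAction G X0] [MulAction G X1] [MulAction G X2]
  [MulAction G X3] {T : Tri G X0 X1 X2 X3} {E : Subgroup G} {Ω : Type} [MulAction E Ω]

theorem St.det (W : Et T E Ω) {a b b' : Ω} {l : X1 × Bool} (h : St W.R a l b) (h' : St W.R a l b') :
    b = b' := by
  unfold St at h h'
  split_ifs at h h'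
  · exact W.fn _ _ _ _ h h'
  · exact W.inj _ _ _ _ h h'

theorem Pth.det (W : Et T E Ω) {a b b' : Ω} {q : List (X1 × Bool)} (h : Pth W.R a q b)
    (h' : Pth W.R a q b') : b = b' := by
  induction h with
  | nil =>
    cases h'
    rfl
  | cons h1 _ ih =>
    cases h' with
    | cons k1 k2 =>
      obtain rfl := St.det W h1 k1
      exact ih k2

theorem Pth.append {R : Ω → X1 → Ω → Prop} {a b c : Ω} {p q : List (X1 × Bool)} (h : Pth R a p b)
    (h' : Pth R b q c) : Pth R a (p ++ q) c := by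
  induction h with
  | nil => exact h'
  | cons h1 _ ih => exact .cons h1 (ih h')

theorem Pth.split {R : Ω → X1 → Ω → Prop} {a c : Ω} {p q : List (X1 × Bool)}
    (h : Pth R a (p ++ q) c) : ∃ b, Pth R a p b ∧ Pth R b q c := by
  induction p generalizing a with
  | nil => exact ⟨a, .nil a, h⟩
  | cons l p ih =>
    cases h with
    | cons h1 h2 =>
      obtain ⟨b, k1, k2⟩ := ih h2
      exact ⟨b, .cons h1 k1, k2⟩

/-- the reversed path -/
def rv (q : List (X1 × Bool)) : List (X1 × Bool) := (q.map fun l => (l.1, !l.2)).reverse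

theorem Pth.rv {R : Ω → X1 → Ω → Prop} {a b : Ω} {q : List (X1 × Bool)} (h : Pth R a q b) :
    Pth R b (rv q) a := by
  induction h with
  | nil a => exact .nil a
  | @cons a l b q c h1 _ ih =>
    have e : Bg.rv (l :: q) = Bg.rv q ++ [(l.1, !l.2)] := by simp [Bg.rv]
    rw [e]
    refine ih.append (.cons ?_ (.nil a))
    obtain ⟨e, _ | _⟩ := l <;> exact h1

theorem Pth.map {Ω' : Type} {R : Ω → X1 → Ω → Prop} {R' : Ω' → X1 → Ω' → Prop} (f : Ω → Ω')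
    (hf : ∀ a e b, R a e b → R' (f a) e (f b)) {a b : Ω} {q : List (X1 × Bool)}
    (h : Pth R a q b) : Pth R' (f a) q (f b) := by
  induction h with
  | nil a => exact .nil _
  | @cons a l b q c h1 _ ih =>
    refine .cons ?_ ih
    obtain ⟨e, _ | _⟩ := l <;> exact hf _ _ _ h1

theorem Pth.smul (W : Et T E Ω) (g : E) {a b : Ω} {q : List (X1 × Bool)} (h : Pth W.R a q b) :
    Pth W.R (g • a) (q.map fun l => (g • l.1, l.2)) (g • b) := by
  induction h with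
  | nil a => exact .nil _
  | @cons a l b q c h1 _ ih =>
    refine .cons ?_ ih
    obtain ⟨e, _ | _⟩ := l <;> exact W.R_smul g _ _ _ h1

/-- paths lift to the cover, and the change of level is linear in the cocycle -/
theorem Pth.lev {R : Ω → X1 → Ω → Prop} {a b : Ω} {q : List (X1 × Bool)} (h : Pth R a q b) :
    ∃ Λ : (Ω → X1 → Ω → ℝ) →ₗ[ℝ] ℝ, ∀ χ r, Pth (cR R χ) ⟨a, r⟩ q ⟨b, r + Λ χ⟩ := by
  induction h with
  | nil a => exact ⟨0, fun χ r => by simpa using .nil _⟩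
  | @cons a l b q c h1 _ ih =>
    obtain ⟨Λ, hΛ⟩ := ih
    have ev : ∀ (x : Ω) (e : X1) (y : Ω), ∃ L : (Ω → X1 → Ω → ℝ) →ₗ[ℝ] ℝ, ∀ χ, L χ = χ x e y :=
      fun x e y => ⟨⟨⟨fun χ => χ x e y, fun _ _ => rfl⟩, fun _ _ => rfl⟩, fun _ => rfl⟩
    obtain ⟨e, _ | _⟩ := l
    · obtain ⟨L, hL⟩ := ev b e a
      refine ⟨Λ - L, fun χ r => ?_⟩
      have := hΛ χ (r - χ b e a)
      rw [LinearMap.sub_apply, hL, show r + (Λ χ - χ b e a) = r - χ b e a + Λ χ by ring]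
      exact .cons (show cR R χ ⟨b, r - χ b e a⟩ e ⟨a, r⟩ from ⟨h1, (sub_add_cancel _ _).symm⟩) this
    · obtain ⟨L, hL⟩ := ev a e b
      refine ⟨L + Λ, fun χ r => ?_⟩
      have := hΛ χ (r + χ a e b)
      rw [LinearMap.add_apply, hL, ← add_assoc]
      exact .cons (show cR R χ ⟨a, r⟩ e ⟨b, r + χ a e b⟩ from ⟨h1, rfl⟩) this

theorem Et.free (W : Et T E Ω) (g : E) (a : Ω) (h : g • a = a) : g = 1 := by
  have k := W.pr_smul g a
  rw [h] at k
  exact Subtype.ext (T.free g _ k.symm)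

theorem Et.Adj.symm {W : Et T E Ω} {a b : Ω} (h : W.Adj a b) : W.Adj b a := by
  obtain ⟨e, k⟩ := h
  exact ⟨e, k.symm⟩

theorem Et.rp_head (W : Et T E Ω) {a : Ω} {e : X1} (h : W.pr a = T.d1 e 1) :
    ∃ b, W.Rp (some a) e b := by
  by_cases k : ∃ b, W.R a e b
  · obtain ⟨b, k⟩ := k
    exact ⟨some b, k⟩
  · exact ⟨none, h, not_exists.1 k⟩

theorem Et.rp_tail (W : Et T E Ω) {b : Ω} {e : X1} (h : W.pr b = T.d1 e 0) :
    ∃ a, W.Rp a e (some b) := by
  by_cases k : ∃ a, W.R a e b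
  · obtain ⟨a, k⟩ := k
    exact ⟨some a, k⟩
  · exact ⟨none, h, not_exists.1 k⟩

theorem Et.rp_fn (W : Et T E Ω) {a : Ω} {e : X1} {b b' : Option Ω} (h : W.Rp (some a) e b)
    (h' : W.Rp (some a) e b') : b = b' := by
  cases b <;> cases b'
  · rfl
  · exact absurd h' (h.2 _)
  · exact absurd h (h'.2 _)
  · exact congrArg some (W.fn _ _ _ _ h h')

theorem Et.rp_inj (W : Et T E Ω) {b : Ω} {e : X1} {a a' : Option Ω} (h : W.Rp a e (some b))
    (h' : W.Rp a' e (some b)) : a = a' := by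
  cases a <;> cases a'
  · rfl
  · exact absurd h' (h.2 _)
  · exact absurd h (h'.2 _)
  · exact congrArg some (W.inj _ _ _ _ h h')

theorem Et.rp_src (W : Et T E Ω) {a : Ω} {e : X1} {b : Option Ω} (h : W.Rp (some a) e b) :
    W.pr a = T.d1 e 1 := by
  cases b
  · exact h.1
  · exact W.src _ _ _ h

theorem Et.rp_tgt (W : Et T E Ω) {b : Ω} {e : X1} {a : Option Ω} (h : W.Rp a e (some b)) :
    W.pr b = T.d1 e 0 := by
  cases a
  · exact h.1
  · exact W.tgt _ _ _ h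

theorem Et.rp_q0 (W : Et T E Ω) {f : X2} {a : Ω} {b c : Option Ω}
    (h : W.Rp (some a) (T.d2 f 2) b) (h' : W.Rp (some a) (T.d2 f 1) c) : W.Rp b (T.d2 f 0) c := by
  cases b <;> cases c
  · trivial
  · exact ⟨(W.tgt _ _ _ h').trans (sc' T f), fun b k => h.2 b (W.t3 f _ _ _ h' k)⟩
  · exact ⟨(W.tgt _ _ _ h).trans (sb T f).symm, fun c k => h'.2 c (W.t1 f _ _ _ h k)⟩
  · exact W.t2 f _ _ _ h h'

theorem Et.rp_q1 (W : Et T E Ω) {f : X2} {b : Ω} {a c : Option Ω}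
    (h : W.Rp a (T.d2 f 2) (some b)) (h' : W.Rp (some b) (T.d2 f 0) c) : W.Rp a (T.d2 f 1) c := by
  cases a <;> cases c
  · trivial
  · exact ⟨(W.tgt _ _ _ h').trans (sc' T f).symm, fun a k => h.2 a (W.t3 f _ _ _ k h')⟩
  · exact ⟨(W.src _ _ _ h).trans (sa T f).symm, fun c k => h'.2 c (W.t2 f _ _ _ h k)⟩
  · exact W.t1 f _ _ _ h h'

theorem Et.rp_q2 (W : Et T E Ω) {f : X2} {c : Ω} {a b : Option Ω}
    (h : W.Rp a (T.d2 f 1) (some c)) (h' : W.Rp b (T.d2 f 0) (some c)) : W.Rp a (T.d2 f 2) b := by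
  cases a <;> cases b
  · trivial
  · exact ⟨(W.src _ _ _ h').trans (sb T f), fun a k => h.2 a (W.t1 f _ _ _ k h')⟩
  · exact ⟨(W.src _ _ _ h).trans (sa T f), fun b k => h'.2 b (W.t2 f _ _ _ k h)⟩
  · exact W.t3 f _ _ _ h h'

/-- fibres of an equivariant map from a cofinite set to a free set are finite -/
theorem fib_finite {D A B : Type} [Group D] [MulAction D A] [MulAction D B] [Finite (Ob D A)]
    (hB : ∀ (g : D) (b : B), g • b = b → g = 1) (f : A → B) (hf : ∀ (g : D) a, f (g • a) = g • f a)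
    (b : B) : {a | f a = b}.Finite := by
  refine Set.Finite.of_finite_image (f := ob D) (toFinite _) fun a ha a' ha' e => ?_
  obtain ⟨g, rfl⟩ := ob_eq_iff.1 e
  have k : g • b = b := by rw [← show f a' = b from ha', ← hf]; exact ha.trans ha'.symm
  rw [hB g b k, one_smul]

theorem Mfd.fin1 (hM : Mfd T) : Finite (Ob G X1) := by
  have := T.fin2
  refine Finite.of_surjective
    (fun p : Ob G X2 × Fin 3 => ob G (T.d2 (Quotient.out p.1) p.2)) fun w => ?_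
  obtain ⟨e, rfl⟩ := ob_surj w
  obtain ⟨f, i, rfl⟩ := hM.pure e
  obtain ⟨g, hg⟩ := ob_eq_iff.1 (ob_out (ob G f))
  exact ⟨(ob G f, i), by simp only [← hg, T.e2, ob_smul]⟩

theorem Mfd.edges_finite (hM : Mfd T) (v : X0) (i : Fin 2) : {e | T.d1 e i = v}.Finite := by
  have := hM.fin1
  exact fib_finite T.free (fun e => T.d1 e i) (fun g e => T.e1 g e i) v

theorem Mfd.adj_finite (hM : Mfd T) (W : Et T E Ω) (a : Ω) : {b | W.Adj a b}.Finite := by
  have h1 : {b | ∃ e, W.R a e b}.Finite :=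
    ((hM.edges_finite (W.pr a) 1).biUnion (t := fun e => {b | W.R a e b}) fun e _ =>
      Set.Subsingleton.finite fun b k b' k' => W.fn _ _ _ _ k k').subset
      fun b ⟨e, k⟩ => mem_biUnion (W.src _ _ _ k).symm k
  have h2 : {b | ∃ e, W.R b e a}.Finite :=
    ((hM.edges_finite (W.pr a) 0).biUnion (t := fun e => {b | W.R b e a}) fun e _ =>
      Set.Subsingleton.finite fun b k b' k' => W.inj _ _ _ _ k k').subset
      fun b ⟨e, k⟩ => mem_biUnion (W.tgt _ _ _ k).symm k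
  exact (h1.union h2).subset fun b ⟨e, k⟩ => k.imp (fun k => ⟨e, k⟩) fun k => ⟨e, k⟩

theorem Mfd.paths_finite (hM : Mfd T) (v : X0) (n : ℕ) :
    {q : List (X1 × Bool) | q.length ≤ n ∧ ∃ u, Pth (bR T) v q u}.Finite := by
  induction n generalizing v with
  | zero =>
    exact (finite_singleton []).subset fun q h => List.length_eq_zero_iff.1 (Nat.le_zero.1 h.1)
  | succ n ih =>
    have hl : {l : X1 × Bool | T.d1 l.1 1 = v ∨ T.d1 l.1 0 = v}.Finite :=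
      (((hM.edges_finite v 1).union (hM.edges_finite v 0)).prod (toFinite univ)).subset
        fun l h => ⟨h, trivial⟩
    refine ((finite_singleton []).union (hl.biUnion (t := fun l => (List.cons l) ''
      ({q | q.length ≤ n ∧ ∃ u, Pth (bR T) (T.d1 l.1 0) q u} ∪
        {q | q.length ≤ n ∧ ∃ u, Pth (bR T) (T.d1 l.1 1) q u})) fun l _ =>
      ((ih _).union (ih _)).image _)).subset ?_
    rintro q ⟨h1, u, h2⟩
    cases h2 with
    | nil => exact .inl rfl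
    | @cons _ l b q _ k1 k2 =>
      have h3 : q.length ≤ n := Nat.le_of_succ_le_succ h1
      obtain ⟨e, _ | _⟩ := l
      · exact .inr (mem_biUnion (x := (e, false)) (.inr k1.2.symm)
          ⟨q, .inr ⟨h3, u, k1.1 ▸ k2⟩, rfl⟩)
      · exact .inr (mem_biUnion (x := (e, true)) (.inl k1.1.symm)
          ⟨q, .inl ⟨h3, u, k1.2 ▸ k2⟩, rfl⟩)

theorem conn_of (T : Tri G X0 X1 X2 X3) (hv : ∀ v, ∃ f i j, T.d1 (T.d2 f i) j = v) (u v : X0) :
    ∃ q, Pth (bR T) u q v := by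
  let C : X0 → X0 → Prop := fun u v => ∃ q, Pth (bR T) u q v
  have sy : ∀ {u v}, C u v → C v u := fun ⟨q, h⟩ => ⟨_, h.rv⟩
  have tr : ∀ {u v w}, C u v → C v w → C u w := fun ⟨_, h⟩ ⟨_, k⟩ => ⟨_, h.append k⟩
  have ed : ∀ e j, C (T.d1 e 1) (T.d1 e j) := fun e j => by
    fin_cases j
    · exact ⟨[(e, true)], .cons ⟨rfl, rfl⟩ (.nil _)⟩
    · exact ⟨[], .nil _⟩
  have fc : ∀ f i j, C (T.d1 (T.d2 f 2) 1) (T.d1 (T.d2 f i) j) := fun f i j => by
    fin_cases i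
    · exact tr (ed _ 0) (sb T f ▸ ed (T.d2 f 0) j)
    · exact sa T f ▸ ed (T.d2 f 1) j
    · exact ed _ j
  have sh : ∀ f f' i i', T.d2 f i = T.d2 f' i' →
      C (T.d1 (T.d2 f 2) 1) (T.d1 (T.d2 f' 2) 1) := fun f f' i i' e =>
    tr (fc f i 0) (sy (e ▸ fc f' i' 0))
  have tt : ∀ x k, C (T.d1 (T.d2 (T.d3 x 0) 2) 1) (T.d1 (T.d2 (T.d3 x k) 2) 1) := fun x k => by
    fin_cases k
    · exact ⟨[], .nil _⟩
    · exact sh _ _ _ _ (T.s3 x 0 0 le_rfl).symm
    · exact sh _ _ _ _ (T.s3 x 0 1 (by decide)).symm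
    · exact sh _ _ _ _ (T.s3 x 0 2 (by decide)).symm
  have al : ∀ x y, C (T.d1 (T.d2 (T.d3 x 0) 2) 1) (T.d1 (T.d2 (T.d3 y 0) 2) 1) := fun x y => by
    induction T.conn x y with
    | rel x y h =>
      obtain ⟨k, l, h⟩ := h
      exact tr (tt x k) (sy (h ▸ tt y l))
    | refl => exact ⟨[], .nil _⟩
    | symm _ _ _ ih => exact sy ih
    | trans _ _ _ _ _ a b => exact tr a b
  have key : ∀ v, ∃ x, C (T.d1 (T.d2 (T.d3 x 0) 2) 1) v := fun v => by
    obtain ⟨f, i, j, rfl⟩ := hv v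
    obtain ⟨x, k, rfl⟩ := T.face_surj f
    exact ⟨x, tr (tt x k) (fc _ i j)⟩
  obtain ⟨x, hx⟩ := key u
  obtain ⟨y, hy⟩ := key v
  exact tr (sy hx) (tr (al x y) hy)

theorem Mfd.vert (hM : Mfd T) (v : X0) : ∃ f i j, T.d1 (T.d2 f i) j = v := by
  by_contra hn
  have e1 : IsEmpty {p : X1 × Fin 2 // v1 T p.1 p.2 = v} := ⟨fun ⟨⟨e, i⟩, h⟩ => hn (by
    obtain ⟨f, k, rfl⟩ := hM.pure e
    fin_cases i
    · exact ⟨f, k, 1, h⟩
    · exact ⟨f, k, 0, h⟩)⟩
  have e3 : IsEmpty {p : X3 × Fin 4 // v3 T p.1 p.2 = v} := ⟨fun ⟨⟨x, i⟩, h⟩ => hn (by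
    fin_cases i
    · exact ⟨_, _, _, h⟩
    · exact ⟨_, _, _, h⟩
    · exact ⟨_, _, _, h⟩
    · exact ⟨_, _, _, h⟩)⟩
  have := hM.sph v
  rw [Nat.card_of_isEmpty (α := {p : X1 × Fin 2 // v1 T p.1 p.2 = v}),
    Nat.card_of_isEmpty (α := {p : X3 × Fin 4 // v3 T p.1 p.2 = v})] at this
  omega

theorem Mfd.conn (hM : Mfd T) (u v : X0) : ∃ q, Pth (bR T) u q v := conn_of T hM.vert u v

/-- an orbit of a free action that is finite modulo `E` gives finite index -/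
theorem finiteIndex_of {X : Type} [MulAction G X] (hX : ∀ (g : G) (x : X), g • x = x → g = 1)
    (x : X) (K : Set X) (hK : K.Finite) (h : ∀ g : G, ∃ k ∈ K, ∃ a : E, g • x = a • k) :
    E.FiniteIndex := by
  have hK' : {g : G | g • x ∈ K}.Finite :=
    hK.preimage fun g _ g' _ e => by
      have : (g'⁻¹ * g) • x = x := by rw [mul_smul, show g • x = g' • x from e, inv_smul_smul]
      exact (inv_mul_eq_one.1 (hX _ _ this)).symm
  have : Finite (G ⧸ E) := by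
    refine Set.finite_univ_iff.1 ((hK'.image fun g => ((g⁻¹ : G) : G ⧸ E)).subset fun q _ => ?_)
    obtain ⟨g, rfl⟩ := QuotientGroup.mk_surjective q
    obtain ⟨k, hk, a, e⟩ := h g⁻¹
    refine ⟨(a : G)⁻¹ * g⁻¹, ?_, ?_⟩
    · show ((a : G)⁻¹ * g⁻¹) • x ∈ K
      rwa [mul_smul, e, Subgroup.smul_def, inv_smul_smul]
    · simp
  exact Subgroup.finiteIndex_of_finite_quotient

theorem Mfd.exists_bd (hM : Mfd T) (hE : ¬ E.FiniteIndex) {W : Et T E Ω} {ω : Ω} (h : W.Fc ω) :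
    ∃ x, W.Bd x := by
  by_contra hn
  have lift : ∀ q u v, Pth (bR T) u q v → ∀ a, W.pr a = u → ∃ b, W.pr b = v := by
    intro q u v hq
    induction hq with
    | nil => exact fun a ha => ⟨a, ha⟩
    | @cons u l w q v k1 _ ih =>
      intro a ha
      obtain ⟨e, _ | _⟩ := l
      · obtain ⟨_ | b, hb⟩ := W.rp_tail (ha.trans k1.2)
        · exact absurd ⟨a, e, .inr hb⟩ hn
        · exact ih b ((W.src _ _ _ hb).trans k1.1.symm)
      · obtain ⟨_ | b, hb⟩ := W.rp_head (ha.trans k1.1)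
        · exact absurd ⟨a, e, .inl hb⟩ hn
        · exact ih b ((W.tgt _ _ _ hb).trans k1.2.symm)
  have := h.fin
  refine hE (finiteIndex_of T.free (W.pr ω) (range fun c : Ob E Ω => W.pr c.out)
    (finite_range _) fun g => ?_)
  obtain ⟨q, hq⟩ := hM.conn (W.pr ω) (g • W.pr ω)
  obtain ⟨b, hb⟩ := lift _ _ _ hq ω rfl
  obtain ⟨a, ha⟩ := ob_eq_iff.1 (ob_out (ob E b)).symm
  exact ⟨_, ⟨ob E b, rfl⟩, a, by rw [← W.pr_smul, ha, hb]⟩

theorem Sm.mono {D : Type} [Group D] [MulAction D Ω] {a : D} {S S' : Set Ω} (h : Sm a S)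
    (h' : S' ⊆ S) : Sm a S' := by
  obtain ⟨K, h1, h2⟩ := h
  exact ⟨K, h1, fun x hx => h2 x (h' hx)⟩

theorem Sm.union {D : Type} [Group D] [MulAction D Ω] {a : D} {S S' : Set Ω} (h : Sm a S)
    (h' : Sm a S') : Sm a (S ∪ S') := by
  obtain ⟨K, h1, h2⟩ := h
  obtain ⟨K', k1, k2⟩ := h'
  refine ⟨K ∪ K', h1.union k1, fun x hx => ?_⟩
  rcases hx with hx | hx
  · obtain ⟨k, a, b⟩ := h2 x hx
    exact ⟨k, .inl a, b⟩
  · obtain ⟨k, a, b⟩ := k2 x hx
    exact ⟨k, .inr a, b⟩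

theorem Mfd.sm_adj (hM : Mfd T) (W : Et T E Ω) {a : E} {S : Set Ω} (h : Sm a S) :
    Sm a {y | ∃ x ∈ S, W.Adj x y} := by
  obtain ⟨K, h1, h2⟩ := h
  refine ⟨_, h1.biUnion fun k _ => hM.adj_finite W k, ?_⟩
  rintro y ⟨x, hx, e, hy⟩
  obtain ⟨k, hk, n, rfl⟩ := h2 x hx
  refine ⟨(a ^ n)⁻¹ • y, mem_biUnion hk ⟨(a ^ n)⁻¹ • e, ?_⟩, n, (smul_inv_smul _ _).symm⟩
  refine hy.imp (fun k => ?_) fun k => ?_ <;> simpa using W.R_smul (a ^ n)⁻¹ _ _ _ k

end Pool.Agent.Work.MP_3d425c_gt.Bg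
end

-- merged part: Pool.Agent.Work.MP_3d425c_gt.Lt.Defs
section
/-! Uniform lattices of the orientation preserving isometry group of hyperbolic three-space. -/

namespace Pool.Agent.Work.MP_3d425c_gt.Lt
open Matrix

/-- `ρ` maps `G` properly onto a discrete cocompact subgroup of `PSL(2, ℂ)`. -/
structure Lat {G : Type} [Group G] (ρ : G →* ProjectiveSpecialLinearGroup (Fin 2) ℂ) : Prop where
  disc : ∀ R : ℝ, {g : G | ∃ y : SpecialLinearGroup (Fin 2) ℂ,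
    QuotientGroup.mk y = ρ g ∧ ∀ i j, ‖y i j‖ ≤ R}.Finite
  coc : ∃ R : ℝ, ∀ x : SpecialLinearGroup (Fin 2) ℂ, ∃ (g : G) (y : SpecialLinearGroup (Fin 2) ℂ),
    QuotientGroup.mk y = ρ g ∧ ∀ i j, ‖(y * x) i j‖ ≤ R

end Pool.Agent.Work.MP_3d425c_gt.Lt
end

-- merged part: Pool.Agent.Work.MP_3d425c_gt.Lt.Lat
section
/-! Centralisers in a torsion-free uniform lattice of `PSL(2, ℂ)` are cyclic. -/

namespace Pool.Agent.Work.MP_3d425c_gt.Lt
open Matrix Set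

abbrev S2 : Type := SpecialLinearGroup (Fin 2) ℂ

/-- all entries are bounded by `R` -/
def Bd (R : ℝ) (x : S2) : Prop := ∀ i j, ‖x i j‖ ≤ R

theorem mul_ent (x y : S2) (i j : Fin 2) : (x * y) i j = x i 0 * y 0 j + x i 1 * y 1 j := by
  change (x.1 * y.1) i j = _
  rw [Matrix.mul_apply, Fin.sum_univ_two]

theorem det_ent (x : S2) : x 0 0 * x 1 1 - x 0 1 * x 1 0 = 1 := by
  exact (Matrix.det_fin_two x.1).symm.trans x.2

theorem Bd.nonneg {R : ℝ} {x : S2} (h : Bd R x) : 0 ≤ R := (norm_nonneg _).trans (h 0 0)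

theorem Bd.mul {R S : ℝ} {x y : S2} (h : Bd R x) (k : Bd S y) : Bd (2 * R * S) (x * y) := by
  intro i j
  rw [mul_ent]
  have a := mul_le_mul (h i 0) (k 0 j) (norm_nonneg _) h.nonneg
  have b := mul_le_mul (h i 1) (k 1 j) (norm_nonneg _) h.nonneg
  refine (norm_add_le _ _).trans ?_
  rw [norm_mul, norm_mul]
  linarith

theorem Bd.inv {R : ℝ} {x : S2} (h : Bd R x) : Bd R x⁻¹ := by
  intro i j
  rw [SpecialLinearGroup.SL2_inv_expl]
  fin_cases i <;> fin_cases j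
  · exact h 1 1
  · exact (norm_neg _).trans_le (h 0 1)
  · exact (norm_neg _).trans_le (h 1 0)
  · exact h 0 0

theorem exists_bd (x : S2) : ∃ R, Bd R x :=
  ⟨‖x 0 0‖ + ‖x 0 1‖ + ‖x 1 0‖ + ‖x 1 1‖, fun i j => by
    have := norm_nonneg (x 0 0)
    have := norm_nonneg (x 0 1)
    have := norm_nonneg (x 1 0)
    have := norm_nonneg (x 1 1)
    fin_cases i <;> fin_cases j <;> simp <;> linarith⟩

/-- the matrix with given entries -/
def mk2 (a b c d : ℂ) (h : a * d - b * c = 1) : S2 :=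
  ⟨!![a, b; c, d], by rw [Matrix.det_fin_two_of, h]⟩

theorem mk2_00 (a b c d : ℂ) (h) : mk2 a b c d h 0 0 = a := rfl
theorem mk2_01 (a b c d : ℂ) (h) : mk2 a b c d h 0 1 = b := rfl
theorem mk2_10 (a b c d : ℂ) (h) : mk2 a b c d h 1 0 = c := rfl
theorem mk2_11 (a b c d : ℂ) (h) : mk2 a b c d h 1 1 = d := rfl

theorem inv_mk2 (a b c d : ℂ) (h) :
    (mk2 a b c d h)⁻¹ = mk2 d (-b) (-c) a (by rw [← h]; ring) := by
  rw [SpecialLinearGroup.SL2_inv_expl]
  rfl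

/-- triangular form -/
theorem exists_tri (x : S2) : ∃ z : S2, (z⁻¹ * x * z) 1 0 = 0 := by
  by_cases hc : x 1 0 = 0
  · exact ⟨1, by simpa using hc⟩
  obtain ⟨l, hl⟩ : ∃ l : ℂ, 1 * (l * l) + (-(x 0 0 + x 1 1)) * l + 1 = 0 :=
    exists_quadratic_eq_zero one_ne_zero (IsAlgClosed.exists_eq_mul_self _)
  have hd := det_ent x
  refine ⟨mk2 (l - x 1 1) (-(x 1 0)⁻¹) (x 1 0) 0 (by field_simp; ring), ?_⟩
  simp only [inv_mk2, mul_ent, mk2_00, mk2_10, mk2_11]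
  linear_combination (x 1 0) * hl + (x 1 0) * hd

theorem pow_tri {x : S2} (h : x 1 0 = 0) (h1 : ‖x 0 0‖ = 1) (k : ℕ) :
    (x ^ k) 1 0 = 0 ∧ ‖(x ^ k) 0 0‖ = 1 ∧ ‖(x ^ k) 1 1‖ = 1 ∧ ‖(x ^ k) 0 1‖ ≤ k * ‖x 0 1‖ := by
  have hd := det_ent x
  have h2 : ‖x 1 1‖ = 1 := by
    rw [h, mul_zero, sub_zero] at hd
    have := congrArg norm hd
    rwa [norm_mul, h1, one_mul, norm_one] at this
  induction k with
  | zero => simp
  | succ k ih =>
    obtain ⟨a, b, c, d⟩ := ih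
    simp only [pow_succ, mul_ent, a, h, zero_mul, mul_zero, add_zero, zero_add, norm_mul, b, c,
      h1, h2, mul_one, true_and]
    refine (norm_add_le _ _).trans ?_
    rw [norm_mul, norm_mul, b, h2]
    push_cast
    linarith

theorem exists_scale {w : S2} (h : w 1 0 = 0) (h1 : ‖w 0 0‖ = 1) (n : ℕ) :
    ∃ d : S2, ∀ k ≤ n, Bd 1 ((d⁻¹ * w * d) ^ k) := by
  obtain ⟨t, ht⟩ : ∃ t : ℝ, t = n * ‖w 0 1‖ + 1 := ⟨_, rfl⟩
  have t1 : 1 ≤ t := by
    have : 0 ≤ n * ‖w 0 1‖ := by positivity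
    linarith
  have t0 : (t : ℂ) ≠ 0 := by exact_mod_cast (by linarith : t ≠ 0)
  obtain ⟨d, hd⟩ : ∃ d : S2, d = mk2 t 0 0 (t : ℂ)⁻¹ (by field_simp; ring) := ⟨_, rfl⟩
  have e00 : (d⁻¹ * w * d) 0 0 = w 0 0 := by
    simp only [hd, inv_mk2, mul_ent, mk2_00, mk2_01, mk2_10]
    field_simp
    ring
  have e10 : (d⁻¹ * w * d) 1 0 = 0 := by
    simp only [hd, inv_mk2, mul_ent, mk2_00, mk2_10, mk2_11, h]
    ring
  have e01 : (d⁻¹ * w * d) 0 1 = (t : ℂ)⁻¹ * (t : ℂ)⁻¹ * w 0 1 := by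
    simp only [hd, inv_mk2, mul_ent, mk2_00, mk2_01, mk2_11]
    ring
  refine ⟨d, fun k hk => ?_⟩
  obtain ⟨p1, p2, p3, p4⟩ := pow_tri e10 (e00 ▸ h1) k
  have p5 : ‖((d⁻¹ * w * d) ^ k) 0 1‖ ≤ 1 := by
    refine p4.trans ?_
    rw [e01, norm_mul, norm_mul, norm_inv, Complex.norm_real, Real.norm_eq_abs,
      abs_of_pos (by linarith)]
    have k1 : (k : ℝ) ≤ n := by exact_mod_cast hk
    have k2 := mul_le_mul_of_nonneg_right k1 (norm_nonneg (w 0 1))
    have t2 : t⁻¹ ≤ 1 := inv_le_one_of_one_le₀ t1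
    have t3 : 0 < t⁻¹ := inv_pos.2 (by linarith)
    have t4 : t⁻¹ * t = 1 := inv_mul_cancel₀ (by linarith)
    have k3 : t⁻¹ * (k * ‖w 0 1‖) ≤ 1 := by
      rw [← t4]
      exact mul_le_mul_of_nonneg_left (by linarith) t3.le
    calc _ = t⁻¹ * (t⁻¹ * (k * ‖w 0 1‖)) := by ring
      _ ≤ 1 * 1 := mul_le_mul t2 k3 (by positivity) zero_le_one
      _ = 1 := one_mul 1
  generalize (d⁻¹ * w * d) ^ k = v at p1 p2 p3 p5
  intro i j
  fin_cases i <;> fin_cases j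
  · exact p2.le
  · exact p5
  · exact (congrArg norm p1).trans_le (by simp)
  · exact p3.le

theorem cyc_of_disc {H : Type*} [Group H] (f : H →* Multiplicative ℝ) (hinj : Function.Injective f)
    (hfin : {b | (f b).toAdd ∈ Ioo (0 : ℝ) 1}.Finite) : IsCyclic H := by
  obtain ⟨t, ht⟩ : ∃ t, Subgroup.toAddSubgroup' f.range = AddSubgroup.closure {t} := by
    refine (AddSubgroup.dense_or_cyclic _).resolve_left fun hd => ?_
    have h2 := hd.open_subset_closure_inter (isOpen_Ioo (a := (0 : ℝ)) (b := 1))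
    have h3 : (Ioo (0 : ℝ) 1 ∩ Subgroup.toAddSubgroup' f.range).Finite :=
      (hfin.image fun b => (f b).toAdd).subset fun r ⟨h, b, hb⟩ => by
        have e : (f b).toAdd = r := congrArg Multiplicative.toAdd hb
        exact ⟨b, by rwa [mem_ofPred_eq, e], e⟩
    rw [h3.isClosed.closure_eq] at h2
    exact Ioo_infinite one_pos (h3.subset h2)
  have m1 : t ∈ Subgroup.toAddSubgroup' f.range := by
    rw [ht]
    exact AddSubgroup.subset_closure rfl
  obtain ⟨g, hg⟩ := m1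
  refine ⟨g, fun b => ?_⟩
  have m2 : (f b).toAdd ∈ AddSubgroup.closure {t} := by
    rw [← ht]
    exact ⟨b, rfl⟩
  obtain ⟨n, hn⟩ := AddSubgroup.mem_closure_singleton.1 m2
  refine ⟨n, hinj ?_⟩
  rw [map_zpow, hg]
  exact congrArg Multiplicative.ofAdd hn

variable {G : Type} [Group G] {ρ : G →* ProjectiveSpecialLinearGroup (Fin 2) ℂ}

/-- an element with an eigenvalue of modulus one has finite order -/
theorem Lat.fin_order (L : Lat ρ) {a : G} {x z : S2} (hx : QuotientGroup.mk x = ρ a)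
    (h : (z⁻¹ * x * z) 1 0 = 0) (h1 : ‖(z⁻¹ * x * z) 0 0‖ = 1) : IsOfFinOrder a := by
  classical
  obtain ⟨R, hR⟩ := L.coc
  have hf := L.disc (2 * (2 * R * 1) * R)
  obtain ⟨n, hn⟩ : ∃ n : ℕ, n = hf.toFinset.card := ⟨_, rfl⟩
  obtain ⟨d, hd⟩ := exists_scale h h1 n
  obtain ⟨g, y, hy, hb⟩ := hR (z * d)
  have hb' : Bd R (y * (z * d)) := hb
  have key : ∀ k ≤ n, g * a ^ k * g⁻¹ ∈ hf.toFinset := by
    intro k hk
    refine hf.mem_toFinset.2 ⟨y * x ^ k * y⁻¹, ?_, ?_⟩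
    · simp only [QuotientGroup.mk_mul, QuotientGroup.mk_pow, QuotientGroup.mk_inv, hx, hy,
        map_mul, map_pow, map_inv]
    · have e : y * x ^ k * y⁻¹ =
          y * (z * d) * (d⁻¹ * (z⁻¹ * x * z) * d) ^ k * (y * (z * d))⁻¹ := by
        have : d⁻¹ * (z⁻¹ * x * z) * d = (z * d)⁻¹ * x * (z * d)⁻¹⁻¹ := by group
        rw [this, conj_pow]
        group
      rw [e]
      exact (hb'.mul (hd k hk)).mul hb'.inv
  by_contra hfo
  have hinj : Function.Injective fun k : ℕ => g * a ^ k * g⁻¹ := fun i j e =>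
    injective_pow_iff_not_isOfFinOrder.2 hfo (mul_left_cancel (mul_right_cancel e))
  have := Finset.card_le_card_of_injOn (s := Finset.range (n + 1)) (t := hf.toFinset)
    (fun k => g * a ^ k * g⁻¹)
    (fun k hk => key k (Nat.lt_succ_iff.1 (Finset.mem_range.1 (Finset.mem_coe.1 hk))))
    hinj.injOn
  rw [Finset.card_range, ← hn] at this
  omega

/-- two lifts differ by a sign -/
theorem lift_sign {x y : S2}
    (h : (QuotientGroup.mk x : ProjectiveSpecialLinearGroup (Fin 2) ℂ) = QuotientGroup.mk y) :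
    ∃ e : ℂ, e ^ 2 = 1 ∧ ∀ i j, y i j = e * x i j := by
  have h' : x⁻¹ * y ∈ Subgroup.center S2 := QuotientGroup.eq.1 h
  obtain ⟨r, h1, h2⟩ := Matrix.SpecialLinearGroup.mem_center_iff.1 h'
  refine ⟨r, by simpa using h1, fun i j => ?_⟩
  have e : y = x * (x⁻¹ * y) := by group
  have f : ∀ i j, (x⁻¹ * y) i j = scalar (Fin 2) r i j := fun i j => (congrFun₂ h2 i j).symm
  rw [e, mul_ent, f, f]
  fin_cases j <;> simp [mul_comm]

theorem norm_sign {e : ℂ} (h : e ^ 2 = 1) : ‖e‖ = 1 := by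
  have := congrArg norm h
  rw [norm_pow, norm_one] at this
  exact (pow_eq_one_iff_of_nonneg (norm_nonneg _) two_ne_zero).1 this

theorem Lat.cent (L : Lat ρ) (tf : ∀ a : G, a ≠ 1 → ¬ IsOfFinOrder a) (a : G) (ha : a ≠ 1) :
    IsCyclic (Subgroup.centralizer ({a} : Set G)) := by
  classical
  choose s hs using fun g => QuotientGroup.mk_surjective (ρ g)
  -- diagonal form of `a`
  obtain ⟨z, h10, h01, hn⟩ : ∃ z : S2, (z⁻¹ * s a * z) 1 0 = 0 ∧ (z⁻¹ * s a * z) 0 1 = 0 ∧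
      ‖(z⁻¹ * s a * z) 0 0‖ ≠ 1 := by
    obtain ⟨z, hz⟩ := exists_tri (s a)
    have hn : ‖(z⁻¹ * s a * z) 0 0‖ ≠ 1 := fun h => tf a ha (L.fin_order (hs a) hz h)
    obtain ⟨w, hw⟩ : ∃ w, w = z⁻¹ * s a * z := ⟨_, rfl⟩
    rw [← hw] at hz hn
    have hd := det_ent w
    have hne : w 1 1 - w 0 0 ≠ 0 := fun e => hn (norm_sign (by
      rw [hz] at hd
      linear_combination hd - (w 0 0) * e))
    let u : S2 := mk2 1 (w 0 1 / (w 1 1 - w 0 0)) 0 1 (by ring)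
    have e : (z * u)⁻¹ * s a * (z * u) = u⁻¹ * w * u := by rw [hw]; group
    refine ⟨z * u, ?_, ?_, ?_⟩ <;> rw [e] <;>
      simp only [u, inv_mk2, mul_ent, mk2_00, mk2_01, mk2_10, mk2_11, hz]
    · ring
    · field_simp
      ring
    · simpa using hn
  let c : G → S2 := fun g => z⁻¹ * s g * z
  have hc : ∀ g h, ∃ e : ℂ, e ^ 2 = 1 ∧ ∀ i j, c (g * h) i j = e * (c g * c h) i j := by
    intro g h
    refine lift_sign ?_
    simp only [c, QuotientGroup.mk_mul, QuotientGroup.mk_inv, hs, map_mul]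
    group
  have hdiag : ∀ b ∈ Subgroup.centralizer ({a} : Set G), c b 1 0 = 0 ∧ c b 0 1 = 0 := by
    intro b hb
    obtain ⟨e, he, h1⟩ : ∃ e : ℂ, e ^ 2 = 1 ∧ ∀ i j, (c a * c b) i j = e * (c b * c a) i j := by
      refine lift_sign ?_
      have := congrArg ρ (Subgroup.mem_centralizer_singleton_iff.1 hb)
      simp only [c, QuotientGroup.mk_mul, QuotientGroup.mk_inv, hs, map_mul] at this ⊢
      calc _ = (QuotientGroup.mk z)⁻¹ * (ρ b * ρ a) * QuotientGroup.mk z := by group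
        _ = _ := by rw [this]; group
    have p10 : c a 1 0 = 0 := h10
    have p01 : c a 0 1 = 0 := h01
    have hn' : ‖c a 0 0‖ ≠ 1 := hn
    have hd := det_ent (c a)
    have q10 := h1 1 0
    have q01 := h1 0 1
    simp only [mul_ent, p10, p01, zero_mul, mul_zero, add_zero, zero_add, sub_zero]
      at q10 q01 hd
    have k : ∀ v : ℂ, v * (c a 0 0 ^ 2 - e) = 0 → v = 0 := fun v hv =>
      (mul_eq_zero.1 hv).resolve_right fun h => hn' (by
        have h2 := congrArg norm (sub_eq_zero.1 h)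
        rw [norm_sign he, norm_pow] at h2
        exact (pow_eq_one_iff_of_nonneg (norm_nonneg _) two_ne_zero).1 h2)
    refine ⟨k _ ?_, k _ ?_⟩
    · linear_combination (-e * c a 0 0) * q10 + (e * c b 1 0) * hd
        - (c b 1 0 * c a 0 0 ^ 2) * he
    · linear_combination (c a 0 0) * q01 + (e * c b 0 1) * hd
  have hne : ∀ b ∈ Subgroup.centralizer ({a} : Set G), c b 0 0 * c b 1 1 = 1 := fun b hb => by
    have hd := det_ent (c b)
    rwa [(hdiag b hb).1, mul_zero, sub_zero] at hd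
  have hpos : ∀ b ∈ Subgroup.centralizer ({a} : Set G), 0 < ‖c b 0 0‖ := fun b hb =>
    norm_pos_iff.2 (left_ne_zero_of_mul_eq_one (hne b hb))
  let f : Subgroup.centralizer ({a} : Set G) →* Multiplicative ℝ := MonoidHom.mk'
    (fun b => Multiplicative.ofAdd (Real.log ‖c b 0 0‖)) fun g h => by
      obtain ⟨e, he, h1⟩ := hc g h
      rw [← ofAdd_add, ← Real.log_mul (hpos _ g.2).ne' (hpos _ h.2).ne', Subgroup.coe_mul, h1,
        mul_ent, (hdiag _ h.2).1, mul_zero, add_zero, norm_mul, norm_sign he, one_mul, norm_mul]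
  have hinj : Function.Injective f := (injective_iff_map_eq_one f).2 fun b hb => by
    by_contra h
    refine tf b (fun e => h (Subtype.ext e)) (L.fin_order (z := z) (hs b) (hdiag _ b.2).1 ?_)
    have h2 : Real.log ‖c b 0 0‖ = 0 := hb
    exact Real.eq_one_of_pos_of_log_eq_zero (hpos _ b.2) h2
  obtain ⟨R, hR⟩ := exists_bd z
  refine cyc_of_disc f hinj (((L.disc (2 * (2 * R * Real.exp 1) * R)).preimage
    Subtype.val_injective.injOn).subset ?_)
  rintro b ⟨h0, h1⟩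
  refine ⟨s b, hs b, ?_⟩
  have l0 : 0 < Real.log ‖c b 0 0‖ := h0
  have l1 : Real.log ‖c b 0 0‖ < 1 := h1
  have m1 : ‖c b 0 0‖ ≤ Real.exp 1 := ((Real.log_lt_iff_lt_exp (hpos _ b.2)).1 l1).le
  have m0 : 1 < ‖c b 0 0‖ := (Real.log_pos_iff (norm_nonneg _)).1 l0
  have m2 : ‖c b 0 0‖ * ‖c b 1 1‖ = 1 := by rw [← norm_mul, hne _ b.2, norm_one]
  have hB : Bd (Real.exp 1) (c b) := by
    intro i j
    fin_cases i <;> fin_cases j
    · exact m1
    · exact (congrArg norm (hdiag _ b.2).2).trans_le (by simpa using (Real.exp_pos 1).le)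
    · exact (congrArg norm (hdiag _ b.2).1).trans_le (by simpa using (Real.exp_pos 1).le)
    · show ‖c b 1 1‖ ≤ Real.exp 1
      nlinarith [norm_nonneg (c b 1 1)]
  have e : s b = z * c b * z⁻¹ := by simp only [c]; group
  rw [e]
  exact (Bd.mul (Bd.mul hR hB) (Bd.inv hR) :)

theorem Lat.hyp (L : Lat ρ) (tf : ∀ a : G, a ≠ 1 → ¬ IsOfFinOrder a) : Cy.Hyp G :=
  ⟨tf, L.cent tf⟩

end Pool.Agent.Work.MP_3d425c_gt.Lt
end

-- merged part: Pool.Agent.Work.MP_3d425c_gt.Bg.LatEnd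
section
/-! Uniform lattices of `PSL(2, ℂ)` have one end. -/

namespace Pool.Agent.Work.MP_3d425c_gt.Bg
open Set Matrix Filter Topology Pool.Agent.Work.MP_3d425c_gt.Lt Pool.Agent.Work.MP_3d425c_gt.Md

/-- Almost invariant functions are almost constant. -/
def OneEnd (G : Type) [Group G] : Prop :=
  ∀ f : G → ℝ, (∀ h, {g | f (g * h) ≠ f g}.Finite) → ∃ c, {g | f g ≠ c}.Finite

theorem le_conn {r : ℝ} (hr : 0 ≤ r) : IsPreconnected {p : (ℂ × ℂ) × ℂ | r < ‖p.1‖} := by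
  have h1 : 1 < Module.rank ℝ (ℂ × ℂ) := by
    rw [rank_prod', Complex.rank_real_complex]
    norm_num
  have h2 : {u : ℂ × ℂ | r < ‖u‖} =
      (fun p : (ℂ × ℂ) × ℝ => p.2 • p.1) '' (Metric.sphere 0 1 ×ˢ Ioi r) := by
    ext u
    constructor
    · intro h
      have h0 : ‖u‖ ≠ 0 := (hr.trans_lt h).ne'
      refine ⟨(‖u‖⁻¹ • u, ‖u‖), ⟨?_, h⟩, smul_inv_smul₀ h0 u⟩
      rw [mem_sphere_zero_iff_norm, norm_smul, norm_inv, norm_norm, inv_mul_cancel₀ h0]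
    · rintro ⟨⟨v, t⟩, ⟨h, ht⟩, rfl⟩
      rw [mem_sphere_zero_iff_norm] at h
      show r < ‖t • v‖
      rwa [norm_smul, h, mul_one, Real.norm_of_nonneg (hr.trans ht.le)]
  have h3 : IsPreconnected {u : ℂ × ℂ | r < ‖u‖} := by
    rw [h2]
    exact ((isPreconnected_sphere h1 0 1).prod isPreconnected_Ioi).image _ (by fun_prop)
  have := h3.prod (isPreconnected_univ (α := ℂ))
  rwa [prod_univ] at this

/-- squared length of a column -/
noncomputable def leN (u : ℂ × ℂ) : ℂ := u.1 * (starRingEnd ℂ) u.1 + u.2 * (starRingEnd ℂ) u.2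

theorem leN_ne {u : ℂ × ℂ} (h : u ≠ 0) : leN u ≠ 0 := by
  intro e
  rw [leN, Complex.mul_conj, Complex.mul_conj, ← Complex.ofReal_add, Complex.ofReal_eq_zero] at e
  have a := Complex.normSq_nonneg u.1
  have b := Complex.normSq_nonneg u.2
  exact h (Prod.ext (Complex.normSq_eq_zero.1 (by linarith))
    (Complex.normSq_eq_zero.1 (by linarith)))

/-- the matrices with given first column -/
noncomputable def leP (u : ℂ × ℂ) (t : ℂ) (h : u ≠ 0) : S2 :=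
  mk2 u.1 (-(starRingEnd ℂ) u.2 / leN u + t * u.1) u.2 ((starRingEnd ℂ) u.1 / leN u + t * u.2) (by
    have := leN_ne h
    field_simp
    rw [leN]
    ring)

theorem leP_surj (x : S2) (h : (x 0 0, x 1 0) ≠ 0) : ∃ t, leP (x 0 0, x 1 0) t h = x := by
  have hn := leN_ne h
  have hd := det_ent x
  refine ⟨(x 0 1 * (starRingEnd ℂ) (x 0 0) + x 1 1 * (starRingEnd ℂ) (x 1 0)) / leN (x 0 0, x 1 0),
    Subtype.ext (Matrix.ext fun i j => ?_)⟩
  fin_cases i <;> fin_cases j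
  · rfl
  · show -(starRingEnd ℂ) (x 1 0) / _ + _ * x 0 0 = x 0 1
    field_simp
    simp only [leN]
    linear_combination (starRingEnd ℂ) (x 1 0) * hd
  · rfl
  · show (starRingEnd ℂ) (x 0 0) / _ + _ * x 1 0 = x 1 1
    field_simp
    simp only [leN]
    linear_combination -(starRingEnd ℂ) (x 0 0) * hd

/-- A function that is locally constant outside a ball and invariant under the exchange of
columns is constant outside the ball. -/
theorem le_const {r : ℝ} (hr : 0 ≤ r) (F : S2 → ℝ)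
    (h1 : ∀ x, ¬ Bd r x → ∃ (y : S2) (R : ℝ), Bd R (y * x) ∧
      ∀ x', ¬ Bd r x' → Bd (R + 1) (y * x') → F x' = F x) :
    ∃ c, ∀ x : S2, r < ‖(x 0 0, x 1 0)‖ → F x = c := by
  have ne : ∀ p : {p : (ℂ × ℂ) × ℂ | r < ‖p.1‖}, p.1.1 ≠ 0 := fun p e => by
    have : r < ‖p.1.1‖ := p.2
    rw [e, norm_zero] at this
    exact this.not_ge hr
  have nb : ∀ p : {p : (ℂ × ℂ) × ℂ | r < ‖p.1‖}, ¬ Bd r (leP p.1.1 p.1.2 (ne p)) := fun p k =>
    (show r < ‖p.1.1‖ from p.2).not_ge (max_le (k 0 0) (k 1 0))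
  have co : ∀ i j, Continuous fun p : {p : (ℂ × ℂ) × ℂ | r < ‖p.1‖} =>
      leP p.1.1 p.1.2 (ne p) i j := fun i j => by
    have cn : Continuous fun p : {p : (ℂ × ℂ) × ℂ | r < ‖p.1‖} => leN p.1.1 := by
      unfold leN
      fun_prop
    fin_cases i <;> fin_cases j
    · show Continuous fun p : {p : (ℂ × ℂ) × ℂ | r < ‖p.1‖} => p.1.1.1
      fun_prop
    · show Continuous fun p : {p : (ℂ × ℂ) × ℂ | r < ‖p.1‖} =>
        -(starRingEnd ℂ) p.1.1.2 / leN p.1.1 + p.1.2 * p.1.1.1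
      exact (Continuous.div (by fun_prop) cn fun p => leN_ne (ne p)).add (by fun_prop)
    · show Continuous fun p : {p : (ℂ × ℂ) × ℂ | r < ‖p.1‖} => p.1.1.2
      fun_prop
    · show Continuous fun p : {p : (ℂ × ℂ) × ℂ | r < ‖p.1‖} =>
        (starRingEnd ℂ) p.1.1.1 / leN p.1.1 + p.1.2 * p.1.1.2
      exact (Continuous.div (by fun_prop) cn fun p => leN_ne (ne p)).add (by fun_prop)
  have lc : IsLocallyConstant fun p : {p : (ℂ × ℂ) × ℂ | r < ‖p.1‖} =>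
      F (leP p.1.1 p.1.2 (ne p)) := by
    refine (IsLocallyConstant.iff_eventually_eq _).2 fun p => ?_
    obtain ⟨y, R, k1, k2⟩ := h1 _ (nb p)
    have : ∀ᶠ q in 𝓝 p, ∀ i j, ‖(y * leP q.1.1 q.1.2 (ne q)) i j‖ < R + 1 := by
      refine eventually_all.2 fun i => eventually_all.2 fun j => ?_
      refine Continuous.continuousAt (f := fun q : {p : (ℂ × ℂ) × ℂ | r < ‖p.1‖} =>
        ‖(y * leP q.1.1 q.1.2 (ne q)) i j‖) ?_ |>.eventually_lt continuousAt_const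
        ((k1 i j).trans_lt (lt_add_one R))
      simp only [mul_ent]
      exact ((continuous_const.mul (co 0 j)).add (continuous_const.mul (co 1 j))).norm
    exact this.mono fun q hq => k2 _ (nb q) fun i j => (hq i j).le
  have := isPreconnected_iff_preconnectedSpace.1 (le_conn hr)
  obtain ⟨c, hc⟩ := lc.exists_eq_const
  refine ⟨c, fun x hx => ?_⟩
  obtain ⟨t, ht⟩ := leP_surj x (ne ⟨((x 0 0, x 1 0), 0), hx⟩)
  rw [← ht]
  exact congrFun hc ⟨((x 0 0, x 1 0), t), hx⟩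

theorem bd_swap {R : ℝ} {x : S2} (h : Bd R x) : Bd R (x * mk2 0 (-1) 1 0 (by ring)) := by
  intro i j
  rw [mul_ent]
  fin_cases j
  · simpa [mk2_00, mk2_10] using h i 1
  · simpa [mk2_01, mk2_11] using h i 0

theorem oneEnd_of_lat {G : Type} [Group G] {ρ : G →* ProjectiveSpecialLinearGroup (Fin 2) ℂ}
    (L : Lat ρ) : OneEnd G := by
  intro f hf
  obtain ⟨R, hR⟩ := L.coc
  choose γ y hy hb using hR
  have R0 : 0 ≤ R := Bd.nonneg (hb 1)
  let N : S2 → G → Prop := fun x g => ∃ z : S2, QuotientGroup.mk z = ρ g⁻¹ ∧ Bd (R + 1) (z * x)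
  have hN : ∀ x, N x (γ x)⁻¹ := fun x =>
    ⟨y x, by rw [inv_inv, hy], fun i j => (hb x i j).trans (le_add_of_nonneg_right zero_le_one)⟩
  have hB := (L.disc (2 * (R + 1) * (R + 1))).biUnion fun h _ => hf h
  obtain ⟨M, M0, hM⟩ : ∃ M, 0 ≤ M ∧ ∀ g ∈ hB.toFinset, ∀ z : S2,
      QuotientGroup.mk z = ρ g⁻¹ → Bd M z := by
    choose s hs using fun g => QuotientGroup.mk_surjective (ρ g)
    choose m hm using fun g => exists_bd (s g⁻¹)
    refine ⟨∑ g ∈ hB.toFinset, m g, Finset.sum_nonneg fun g _ => (hm g).nonneg,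
      fun g hg z hz i j => ?_⟩
    obtain ⟨e, e1, e2⟩ := lift_sign ((hs g⁻¹).trans hz.symm)
    rw [e2, norm_mul, norm_sign e1, one_mul]
    exact (hm g i j).trans (Finset.single_le_sum (fun g _ => (hm g).nonneg) hg)
  have key : ∀ x, ¬ Bd (2 * M * (R + 1)) x → ∀ g g', N x g → N x g' → f g' = f g := by
    rintro x hx g g' ⟨z, z1, z2⟩ ⟨z', z1', z2'⟩
    by_contra hn
    refine hx ?_
    have k : g ∈ hB.toFinset := by
      refine hB.mem_toFinset.2 (mem_biUnion (x := g⁻¹ * g') ⟨z * z'⁻¹, ?_, ?_⟩ ?_)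
      · rw [QuotientGroup.mk_mul, QuotientGroup.mk_inv, z1, z1', map_mul, map_inv ρ g', inv_inv]
      · have := z2.mul z2'.inv
        rwa [show z * x * (z' * x)⁻¹ = z * z'⁻¹ by group] at this
      · show f (g * (g⁻¹ * g')) ≠ f g
        rwa [mul_inv_cancel_left]
    have := (hM g k z z1).inv.mul z2
    rwa [inv_mul_cancel_left] at this
  obtain ⟨c, hc⟩ := le_const (r := 2 * M * (R + 1)) (by positivity) (fun x => f (γ x)⁻¹)
    fun x _ => ⟨y x, R, hb x, fun x' h1 h2 =>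
      key x' h1 _ _ ⟨y x, by rw [inv_inv, hy], h2⟩ (hN x')⟩
  refine ⟨c, (L.disc (2 * M * (R + 1))).subset fun g hg => ?_⟩
  obtain ⟨x, hx⟩ := QuotientGroup.mk_surjective (ρ g)
  refine ⟨x, hx, ?_⟩
  by_contra hn
  have h1 : N x g := ⟨x⁻¹, by rw [QuotientGroup.mk_inv, hx, map_inv], fun i j => by
    rw [inv_mul_cancel]
    fin_cases i <;> fin_cases j <;> simp <;> linarith⟩
  obtain ⟨i, j, hij⟩ : ∃ i j, 2 * M * (R + 1) < ‖x i j‖ := by
    by_contra k
    exact hn fun i j => not_lt.1 fun h => k ⟨i, j, h⟩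
  have big : ∀ (w : S2) i, ‖w i 0‖ ≤ ‖(w 0 0, w 1 0)‖ := fun w i => by
    fin_cases i
    · exact le_max_left _ _
    · exact le_max_right _ _
  refine hg ?_
  fin_cases j
  · rw [← hc x (hij.trans_le (big x i))]
    exact key x hn _ _ (hN x) h1
  · have e : ‖(x * mk2 0 (-1) 1 0 (by ring)) i 0‖ = ‖x i 1‖ := by
      rw [mul_ent]
      simp [mk2_00, mk2_10]
    have h2 := hij.trans_eq e.symm
    rw [← hc _ (h2.trans_le (big _ i))]
    obtain ⟨z, z1, z2⟩ := h1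
    exact key _ (fun k => h2.not_ge (k i 0)) _ _ (hN _)
      ⟨z, z1, by rw [← mul_assoc]; exact bd_swap z2⟩

variable {G X0 X1 X2 X3 : Type} [Group G] [MulAction G X0] [MulAction G X1] [MulAction G X2]
  [MulAction G X3]

theorem hc1_of_oneEnd (T : Tri G X0 X1 X2 X3) (hv : ∀ v, ∃ f i j, T.d1 (T.d2 f i) j = v)
    (h : OneEnd G) (z : X1 → ℝ) (hz : (Function.support z).Finite)
    (hc : ∀ f, z (T.d2 f 1) = z (T.d2 f 2) + z (T.d2 f 0)) :
    ∃ s : X0 → ℝ, (Function.support s).Finite ∧ ∀ e, z e = s (T.d1 e 0) - s (T.d1 e 1) := by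
  obtain ⟨s, hs⟩ := T.h1 z hc
  have ed : ∀ e : X1, {g : G | z (g • e) ≠ 0}.Finite := fun e =>
    hz.preimage (f := fun g : G => g • e) fun g _ g' _ k => by
      have : (g'⁻¹ * g) • e = e := by rw [mul_smul, show g • e = g' • e from k, inv_smul_smul]
      exact (inv_mul_eq_one.1 (T.free1 _ _ this)).symm
  have pa : ∀ u v, {g : G | s (g • v) ≠ s (g • u)}.Finite := fun u v => by
    obtain ⟨q, hq⟩ := conn_of T hv u v
    induction hq with
    | nil => simp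
    | @cons a l b q c k _ ih =>
      refine (ih.union (ed l.1)).subset fun g hg => ?_
      by_contra hn
      rw [mem_union, not_or] at hn
      have e1 : s (g • c) = s (g • b) := not_not.1 hn.1
      have e2 : z (g • l.1) = 0 := not_not.1 hn.2
      rw [hs, T.e1, T.e1, sub_eq_zero] at e2
      obtain ⟨e, _ | _⟩ := l
      · exact hg (by rw [e1, k.1, k.2]; exact e2.symm)
      · exact hg (by rw [e1, k.1, k.2]; exact e2)
  obtain ⟨x⟩ := T.ne
  let v₀ := T.d1 (T.d2 (T.d3 x 0) 0) 0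
  obtain ⟨c, hc⟩ := h (fun g => s (g • v₀)) fun k => by simpa only [mul_smul] using pa v₀ (k • v₀)
  have := T.fin2
  refine ⟨fun v => s v - c, ?_, fun e => by rw [hs]; ring⟩
  refine (finite_iUnion fun p : Ob G X2 × Fin 3 × Fin 2 =>
    ((hc.union (pa v₀ (T.d1 (T.d2 p.1.out p.2.1) p.2.2))).image
      fun g => g • T.d1 (T.d2 p.1.out p.2.1) p.2.2)).subset fun v hv' => ?_
  obtain ⟨f, i, j, rfl⟩ := hv v
  obtain ⟨g, hg⟩ := ob_eq_iff.1 (ob_out (ob G f)).symm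
  refine mem_iUnion.2 ⟨(ob G f, i, j), g, ?_,
    show g • T.d1 (T.d2 (ob G f).out i) j = _ by rw [← T.e1, ← T.e2, hg]⟩
  by_contra hn
  rw [mem_union, not_or] at hn
  have e1 : s (g • v₀) = c := not_not.1 hn.1
  have e2 : s (g • T.d1 (T.d2 (ob G f).out i) j) = s (g • v₀) := not_not.1 hn.2
  rw [← T.e1, ← T.e2, hg] at e2
  exact hv' (by simp only [e2, e1, sub_self])

end Pool.Agent.Work.MP_3d425c_gt.Bg
end
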