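import Pool.Agent.Work.MP_3d425c_gt.Bg.LatEnd
import Pool.Agent.Work.MP_3d425c_gt.Bg.End1
import Mathlib

-- merged part: Pool.Agent.Work.MP_3d425c_gt.Bg.Cells
section
/-! Lifted cells are determined by one present vertex. -/

namespace Pool.Agent.Work.MP_3d425c_gt.Bg
open Set Relation Pool.Agent.Work.MP_3d425c_gt.Md Pool.Agent.Work.MP_3d425c_gt.Cy

variable {G X0 X1 X2 X3 : Type} [Group G] [MulAction G X0] [MulAction G X1] [MulAction G X2]
  [MulAction G X3] {T : Tri G X0 X1 X2 X3} {E : Subgroup G} {Ω : Type} [MulAction E Ω]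

theorem ce_e23 (T : Tri G X0 X1 X2 X3) (x : X3) : T.d2 (T.d3 x 1) 0 = T.d2 (T.d3 x 0) 0 :=
  T.s3 x 0 0 le_rfl
theorem ce_e13 (T : Tri G X0 X1 X2 X3) (x : X3) : T.d2 (T.d3 x 2) 0 = T.d2 (T.d3 x 0) 1 :=
  T.s3 x 0 1 (by decide)
theorem ce_e12 (T : Tri G X0 X1 X2 X3) (x : X3) : T.d2 (T.d3 x 3) 0 = T.d2 (T.d3 x 0) 2 :=
  T.s3 x 0 2 (by decide)
theorem ce_e03 (T : Tri G X0 X1 X2 X3) (x : X3) : T.d2 (T.d3 x 2) 1 = T.d2 (T.d3 x 1) 1 :=
  T.s3 x 1 1 le_rfl
theorem ce_e02 (T : Tri G X0 X1 X2 X3) (x : X3) : T.d2 (T.d3 x 3) 1 = T.d2 (T.d3 x 1) 2 :=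
  T.s3 x 1 2 (by decide)
theorem ce_e01 (T : Tri G X0 X1 X2 X3) (x : X3) : T.d2 (T.d3 x 3) 2 = T.d2 (T.d3 x 2) 2 :=
  T.s3 x 2 2 le_rfl

theorem ce_v21 (T : Tri G X0 X1 X2 X3) (f : X2) (k : Fin 3) (i : Fin 2) :
    v1 T (T.d2 f k) i = v2 T f (k.succAbove i) := by
  fin_cases k <;> fin_cases i
  · exact sb T f
  · rfl
  · exact sa T f
  · exact sc' T f
  · rfl
  · rfl

theorem ce_v32 (T : Tri G X0 X1 X2 X3) (x : X3) (k : Fin 4) (i : Fin 3) :
    v2 T (T.d3 x k) i = v3 T x (k.succAbove i) := by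
  fin_cases k <;> fin_cases i
  · exact (congrArg (T.d1 · 1) (ce_e12 T x)).symm.trans (sb T _)
  · exact (congrArg (T.d1 · 0) (ce_e12 T x)).symm
  · rfl
  · exact (congrArg (T.d1 · 1) (ce_e02 T x)).symm.trans (sa T _)
  · exact (congrArg (T.d1 · 0) (ce_e02 T x)).symm.trans (sc' T _)
  · exact congrArg (T.d1 · 0) (ce_e23 T x)
  · exact (congrArg (T.d1 · 1) (ce_e01 T x)).symm
  · exact (congrArg (T.d1 · 0) (ce_e01 T x)).symm
  · exact (congrArg (T.d1 · 0) (ce_e13 T x)).trans (sc' T _)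
  · rfl
  · rfl
  · rfl

theorem ce_v1_smul (T : Tri G X0 X1 X2 X3) (g : G) (e : X1) (i : Fin 2) :
    v1 T (g • e) i = g • v1 T e i := by
  fin_cases i <;> exact T.e1 g e _

theorem ce_v2_smul (T : Tri G X0 X1 X2 X3) (g : G) (f : X2) (i : Fin 3) :
    v2 T (g • f) i = g • v2 T f i := by
  obtain ⟨k, hk⟩ := exists_ne i
  obtain ⟨j, rfl⟩ := Fin.exists_succAbove_eq hk.symm
  rw [← ce_v21, ← ce_v21, T.e2, ce_v1_smul]

theorem ce_v3_smul (T : Tri G X0 X1 X2 X3) (g : G) (x : X3) (i : Fin 4) :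
    v3 T (g • x) i = g • v3 T x i := by
  obtain ⟨k, hk⟩ := exists_ne i
  obtain ⟨j, rfl⟩ := Fin.exists_succAbove_eq hk.symm
  rw [← ce_v32, ← ce_v32, T.e3, ce_v2_smul]

theorem ce_np {n : ℕ} {σ : Fin n → Option Ω} (hp : 0 < np σ) : ∃ i a, σ i = some a := by
  obtain ⟨i, hi⟩ := Finset.card_pos.1 hp
  exact ⟨i, Option.isSome_iff_exists.1 (Finset.mem_filter.1 hi).2⟩

theorem ce_V2 (W : Et T E Ω) {f : X2} {σ : Fin 3 → Option Ω} : W.V2 (f, σ) ↔
    W.Rp (σ 0) (T.d2 f 2) (σ 1) ∧ W.Rp (σ 0) (T.d2 f 1) (σ 2) ∧ W.Rp (σ 1) (T.d2 f 0) (σ 2) := by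
  refine ⟨fun h => ⟨h 2, h 1, h 0⟩, fun h k => ?_⟩
  fin_cases k
  · exact h.2.2
  · exact h.2.1
  · exact h.1

theorem ce_V3 (W : Et T E Ω) {x : X3} {σ : Fin 4 → Option Ω} : W.V3 (x, σ) ↔
    W.Rp (σ 0) (T.d2 (T.d3 x 3) 2) (σ 1) ∧ W.Rp (σ 0) (T.d2 (T.d3 x 3) 1) (σ 2) ∧
    W.Rp (σ 1) (T.d2 (T.d3 x 3) 0) (σ 2) ∧ W.Rp (σ 0) (T.d2 (T.d3 x 2) 1) (σ 3) ∧
    W.Rp (σ 1) (T.d2 (T.d3 x 0) 1) (σ 3) ∧ W.Rp (σ 2) (T.d2 (T.d3 x 0) 0) (σ 3) := by
  refine ⟨fun h => ⟨h 3 2, h 3 1, h 3 0, h 2 1, h 0 1, h 0 0⟩,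
    fun ⟨h01, h02, h12, h03, h13, h23⟩ k => ?_⟩
  fin_cases k
  · exact (ce_V2 W).2 ⟨ce_e12 T x ▸ h12, h13, h23⟩
  · exact (ce_V2 W).2 ⟨ce_e02 T x ▸ h02, ce_e03 T x ▸ h03, (ce_e23 T x).symm ▸ h23⟩
  · exact (ce_V2 W).2 ⟨ce_e01 T x ▸ h01, h03, (ce_e13 T x).symm ▸ h13⟩
  · exact (ce_V2 W).2 ⟨h01, h02, h12⟩

theorem Et.v1_pr (W : Et T E Ω) {c} (h : W.V1 c) {i : Fin 2} {a : Ω} (ha : c.2 i = some a) :
    W.pr a = v1 T c.1 i := by
  have h' : W.Rp (c.2 0) c.1 (c.2 1) := h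
  fin_cases i
  · have ha' : c.2 0 = some a := ha
    rw [ha'] at h'
    exact W.rp_src h'
  · have ha' : c.2 1 = some a := ha
    rw [ha'] at h'
    exact W.rp_tgt h'

theorem Et.v2_pr (W : Et T E Ω) {c} (h : W.V2 c) {i : Fin 3} {a : Ω} (ha : c.2 i = some a) :
    W.pr a = v2 T c.1 i := by
  obtain ⟨k, hk⟩ := exists_ne i
  obtain ⟨j, rfl⟩ := Fin.exists_succAbove_eq hk.symm
  exact (W.v1_pr (h k) (i := j) ha).trans (ce_v21 T c.1 k j)

theorem Et.v3_pr (W : Et T E Ω) {c} (h : W.V3 c) {i : Fin 4} {a : Ω} (ha : c.2 i = some a) :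
    W.pr a = v3 T c.1 i := by
  obtain ⟨k, hk⟩ := exists_ne i
  obtain ⟨j, rfl⟩ := Fin.exists_succAbove_eq hk.symm
  exact (W.v2_pr (h k) (i := j) ha).trans (ce_v32 T c.1 k j)

theorem ce_u1 (W : Et T E Ω) {e : X1} {i : Fin 2} {a : Ω} {σ τ : Fin 2 → Option Ω}
    (h : W.V1 (e, σ)) (h' : W.V1 (e, τ)) (ha : σ i = some a) (hb : τ i = some a) : σ = τ := by
  have k : W.Rp (σ 0) e (σ 1) := h
  have k' : W.Rp (τ 0) e (τ 1) := h'
  have e0 : σ 0 = τ 0 ∧ σ 1 = τ 1 := by
    fin_cases i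
    · have a1 : σ 0 = some a := ha
      have a2 : τ 0 = some a := hb
      rw [a1] at k
      rw [a2] at k'
      exact ⟨a1.trans a2.symm, W.rp_fn k k'⟩
    · have a1 : σ 1 = some a := ha
      have a2 : τ 1 = some a := hb
      rw [a1] at k
      rw [a2] at k'
      exact ⟨W.rp_inj k k', a1.trans a2.symm⟩
  funext j
  fin_cases j
  · exact e0.1
  · exact e0.2

theorem ce_u2 (W : Et T E Ω) {f : X2} {i : Fin 3} {a : Ω} {σ τ : Fin 3 → Option Ω}
    (h : W.V2 (f, σ)) (h' : W.V2 (f, τ)) (ha : σ i = some a) (hb : τ i = some a) : σ = τ := by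
  funext j
  obtain ⟨k, m, n, rfl, rfl⟩ := (by decide : ∀ i j : Fin 3, ∃ (k : Fin 3) (m n : Fin 2),
    k.succAbove m = i ∧ k.succAbove n = j) i j
  exact congrFun (ce_u1 W (h k) (h' k) (i := m) ha hb) n

theorem ce_u3 (W : Et T E Ω) {x : X3} {i : Fin 4} {a : Ω} {σ τ : Fin 4 → Option Ω}
    (h : W.V3 (x, σ)) (h' : W.V3 (x, τ)) (ha : σ i = some a) (hb : τ i = some a) : σ = τ := by
  funext j
  obtain ⟨k, m, n, rfl, rfl⟩ := (by decide : ∀ i j : Fin 4, ∃ (k : Fin 4) (m n : Fin 3),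
    k.succAbove m = i ∧ k.succAbove n = j) i j
  exact congrFun (ce_u2 W (h k) (h' k) (i := m) ha hb) n

theorem Et.ext1 (W : Et T E Ω) {e : X1} {i : Fin 2} {a : Ω} (h : W.pr a = v1 T e i) :
    ∃! σ : Fin 2 → Option Ω, W.V1 (e, σ) ∧ σ i = some a := by
  refine existsUnique_of_exists_of_unique ?_ fun σ τ k k' => ce_u1 W k.1 k'.1 k.2 k'.2
  fin_cases i
  · obtain ⟨b, hb⟩ := W.rp_head (e := e) h
    exact ⟨![some a, b], hb, rfl⟩
  · obtain ⟨b, hb⟩ := W.rp_tail (e := e) h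
    exact ⟨![b, some a], hb, rfl⟩

theorem Et.ext2 (W : Et T E Ω) {f : X2} {i : Fin 3} {a : Ω} (h : W.pr a = v2 T f i) :
    ∃! σ : Fin 3 → Option Ω, W.V2 (f, σ) ∧ σ i = some a := by
  refine existsUnique_of_exists_of_unique ?_ fun σ τ k k' => ce_u2 W k.1 k'.1 k.2 k'.2
  fin_cases i
  · obtain ⟨b, hb⟩ := W.rp_head (e := T.d2 f 2) h
    obtain ⟨c, hc⟩ := W.rp_head (e := T.d2 f 1) (h.trans (sa T f).symm)
    exact ⟨![some a, b, c], (ce_V2 W).2 ⟨hb, hc, W.rp_q0 hb hc⟩, rfl⟩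
  · obtain ⟨b, hb⟩ := W.rp_tail (e := T.d2 f 2) h
    obtain ⟨c, hc⟩ := W.rp_head (e := T.d2 f 0) (h.trans (sb T f).symm)
    exact ⟨![b, some a, c], (ce_V2 W).2 ⟨hb, W.rp_q1 hb hc, hc⟩, rfl⟩
  · obtain ⟨b, hb⟩ := W.rp_tail (e := T.d2 f 1) (h.trans (sc' T f).symm)
    obtain ⟨c, hc⟩ := W.rp_tail (e := T.d2 f 0) h
    exact ⟨![b, c, some a], (ce_V2 W).2 ⟨W.rp_q2 hb hc, hb, hc⟩, rfl⟩

theorem Et.ext3 (W : Et T E Ω) {x : X3} {i : Fin 4} {a : Ω} (h : W.pr a = v3 T x i) :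
    ∃! σ : Fin 4 → Option Ω, W.V3 (x, σ) ∧ σ i = some a := by
  refine existsUnique_of_exists_of_unique ?_ fun σ τ k k' => ce_u3 W k.1 k'.1 k.2 k'.2
  have e23 := ce_e23 T x
  have e13 := ce_e13 T x
  have e12 := ce_e12 T x
  have e03 := ce_e03 T x
  have e02 := ce_e02 T x
  have e01 := ce_e01 T x
  have vv : ∀ (k : Fin 4) (l : Fin 3) (j : Fin 2), v1 T (T.d2 (T.d3 x k) l) j =
      v3 T x (k.succAbove (l.succAbove j)) := fun k l j => (ce_v21 T _ l j).trans (ce_v32 T x k _)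
  fin_cases i
  · obtain ⟨b, hb⟩ := W.rp_head (e := T.d2 (T.d3 x 3) 2) (h.trans (vv 3 2 0).symm)
    obtain ⟨c, hc⟩ := W.rp_head (e := T.d2 (T.d3 x 3) 1) (h.trans (vv 3 1 0).symm)
    obtain ⟨d, hd⟩ := W.rp_head (e := T.d2 (T.d3 x 2) 1) (h.trans (vv 2 1 0).symm)
    exact ⟨![some a, b, c, d], (ce_V3 W).2 ⟨hb, hc, W.rp_q0 hb hc, hd,
      e13 ▸ W.rp_q0 (e01 ▸ hb) hd, e23 ▸ W.rp_q0 (e02 ▸ hc) (e03 ▸ hd)⟩, rfl⟩
  · obtain ⟨b, hb⟩ := W.rp_tail (e := T.d2 (T.d3 x 3) 2) (h.trans (vv 3 2 1).symm)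
    obtain ⟨c, hc⟩ := W.rp_head (e := T.d2 (T.d3 x 3) 0) (h.trans (vv 3 0 0).symm)
    obtain ⟨d, hd⟩ := W.rp_head (e := T.d2 (T.d3 x 0) 1) (h.trans (vv 0 1 0).symm)
    exact ⟨![b, some a, c, d], (ce_V3 W).2 ⟨hb, W.rp_q1 hb hc, hc,
      W.rp_q1 (e01 ▸ hb) (e13.symm ▸ hd), hd, W.rp_q0 (e12 ▸ hc) hd⟩, rfl⟩
  · obtain ⟨b, hb⟩ := W.rp_tail (e := T.d2 (T.d3 x 3) 1) (h.trans (vv 3 1 1).symm)
    obtain ⟨c, hc⟩ := W.rp_tail (e := T.d2 (T.d3 x 3) 0) (h.trans (vv 3 0 1).symm)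
    obtain ⟨d, hd⟩ := W.rp_head (e := T.d2 (T.d3 x 0) 0) (h.trans (vv 0 0 0).symm)
    exact ⟨![b, c, some a, d], (ce_V3 W).2 ⟨W.rp_q2 hb hc, hb, hc,
      e03.symm ▸ W.rp_q1 (e02 ▸ hb) (e23.symm ▸ hd), W.rp_q1 (e12 ▸ hc) hd, hd⟩, rfl⟩
  · obtain ⟨b, hb⟩ := W.rp_tail (e := T.d2 (T.d3 x 2) 1) (h.trans (vv 2 1 1).symm)
    obtain ⟨c, hc⟩ := W.rp_tail (e := T.d2 (T.d3 x 0) 1) (h.trans (vv 0 1 1).symm)
    obtain ⟨d, hd⟩ := W.rp_tail (e := T.d2 (T.d3 x 0) 0) (h.trans (vv 0 0 1).symm)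
    exact ⟨![b, c, d, some a], (ce_V3 W).2 ⟨e01.symm ▸ W.rp_q2 hb (e13.symm ▸ hc),
      e02.symm ▸ W.rp_q2 (e03 ▸ hb) (e23.symm ▸ hd), e12.symm ▸ W.rp_q2 hc hd, hb, hc, hd⟩, rfl⟩

/-- a lifted edge with a present vertex extends to every triangle that contains it -/
theorem Et.up1 (W : Et T E Ω) {c} (h : W.V1 c) (hp : 0 < np c.2) {f : X2} {k : Fin 3}
    (hk : T.d2 f k = c.1) : ∃! σ, W.V2 (f, σ) ∧ f2 T (f, σ) k = c := by
  obtain ⟨e, τ⟩ := c
  obtain rfl : T.d2 f k = e := hk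
  obtain ⟨i, a, ha⟩ := ce_np hp
  obtain ⟨σ, ⟨h1, h2⟩, -⟩ := W.ext2 ((W.v1_pr h ha).trans (ce_v21 T f k i))
  refine ⟨σ, ⟨h1, Prod.ext rfl (ce_u1 W (h1 k) h (i := i) h2 ha)⟩, fun σ' k' => ?_⟩
  exact ce_u2 W k'.1 h1 ((congrFun (congrArg Prod.snd k'.2) i).trans ha) h2

theorem Et.up2 (W : Et T E Ω) {c} (h : W.V2 c) (hp : 0 < np c.2) {x : X3} {k : Fin 4}
    (hk : T.d3 x k = c.1) : ∃! σ, W.V3 (x, σ) ∧ f3 T (x, σ) k = c := by
  obtain ⟨e, τ⟩ := c
  obtain rfl : T.d3 x k = e := hk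
  obtain ⟨i, a, ha⟩ := ce_np hp
  obtain ⟨σ, ⟨h1, h2⟩, -⟩ := W.ext3 ((W.v2_pr h ha).trans (ce_v32 T x k i))
  refine ⟨σ, ⟨h1, Prod.ext rfl (ce_u2 W (h1 k) h (i := i) h2 ha)⟩, fun σ' k' => ?_⟩
  exact ce_u3 W k'.1 h1 ((congrFun (congrArg Prod.snd k'.2) i).trans ha) h2

theorem Et.two (W : Et T E Ω) {c} (h : W.V2 c) (hp : 0 < np c.2) :
    ∃ p q : (X3 × (Fin 4 → Option Ω)) × Fin 4, p ≠ q ∧
      ∀ r : (X3 × (Fin 4 → Option Ω)) × Fin 4, (W.V3 r.1 ∧ f3 T r.1 r.2 = c) ↔ r = p ∨ r = q := by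
  obtain ⟨p, q, hpq, H⟩ := T.two c.1
  obtain ⟨σ, hσ, uσ⟩ := W.up2 h hp ((H p).2 (Or.inl rfl))
  obtain ⟨τ, hτ, uτ⟩ := W.up2 h hp ((H q).2 (Or.inr rfl))
  refine ⟨((p.1, σ), p.2), ((q.1, τ), q.2), fun e => hpq (Prod.ext (congrArg (·.1.1) e)
    (congrArg (·.2) e)), fun ⟨⟨x, ρ⟩, k⟩ => ⟨fun k' => ?_, ?_⟩⟩
  · rcases (H (x, k)).1 (congrArg Prod.fst k'.2) with rfl | rfl
    · exact Or.inl (by rw [uσ ρ k'])
    · exact Or.inr (by rw [uτ ρ k'])
  · rintro (e | e) <;> rw [e]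
    · exact hσ
    · exact hτ

theorem f2_f3 (T : Tri G X0 X1 X2 X3) (c : X3 × (Fin 4 → Option Ω)) (i j : Fin 3) (h : i ≤ j) :
    f2 T (f3 T c j.succ) i = f2 T (f3 T c i.castSucc) j :=
  Prod.ext (T.s3 c.1 i j h) (funext fun m => congrArg c.2 ((by decide : ∀ i j : Fin 3, i ≤ j →
    ∀ m : Fin 2, j.succ.succAbove (i.succAbove m) = i.castSucc.succAbove (j.succAbove m)) i j h m))

theorem ce_fin (W : Et T E Ω) [Finite (Ob E Ω)] {X : Type} [MulAction G X] [Finite (Ob G X)]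
    {n : ℕ} (v : X → Fin n → X0) (hv : ∀ (g : G) x i, v (g • x) i = g • v x i)
    (C : SubMulAction E (X × (Fin n → Option Ω))) (h0 : ∀ c ∈ C, 0 < np c.2)
    (h1 : ∀ c ∈ C, ∀ i a, c.2 i = some a → W.pr a = v c.1 i)
    (h2 : ∀ x σ τ, (x, σ) ∈ C → (x, τ) ∈ C → ∀ i a, σ i = some a → τ i = some a → σ = τ) :
    Finite (Ob E C) := by
  have fin : ∀ p : Ob E Ω × Fin n, Finite {c : C // c.1.2 p.2 = some p.1.out} := fun p => by
    have := (fib_finite T.free (v · p.2) (fun g x => hv g x p.2) (W.pr p.1.out)).to_subtype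
    refine Finite.of_injective (β := {x | v x p.2 = W.pr p.1.out})
      (fun c => ⟨c.1.1.1, (h1 _ c.1.2 _ _ c.2).symm⟩) ?_
    rintro ⟨⟨⟨x, σ⟩, k1⟩, k2⟩ ⟨⟨⟨y, τ⟩, k3⟩, k4⟩ e
    obtain rfl : x = y := congrArg Subtype.val e
    obtain rfl : σ = τ := h2 x σ τ k1 k3 _ _ k2 k4
    rfl
  refine Finite.of_surjective
    (fun p : Σ p : Ob E Ω × Fin n, {c : C // c.1.2 p.2 = some p.1.out} => ob E p.2.1) fun w => ?_
  obtain ⟨c, rfl⟩ := ob_surj w
  obtain ⟨i, a, ha⟩ := ce_np (h0 _ c.2)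
  obtain ⟨g, hg⟩ := ob_eq_iff.1 (ob_out (ob E a))
  refine ⟨⟨(ob E a, i), g • c, ?_⟩, ob_smul g c⟩
  show g • c.1.2 i = _
  rw [ha, ← hg]
  rfl

theorem Mfd.finC1 (hM : Mfd T) (W : Et T E Ω) [Finite (Ob E Ω)] {m : ℕ} (hm : 0 < m) (n : ℕ) :
    Finite (Ob E (W.C1 m n)) := by
  have := hM.fin1
  exact ce_fin W (v1 T) (ce_v1_smul T) _ (fun _ h => hm.trans_le h.2.1)
    (fun _ h _ _ => W.v1_pr h.1) fun _ _ _ h h' _ _ => ce_u1 W h.1 h'.1

theorem Et.finC2 (W : Et T E Ω) [Finite (Ob E Ω)] {m : ℕ} (hm : 0 < m) (n : ℕ) :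
    Finite (Ob E (W.C2 m n)) := by
  have := T.fin2
  exact ce_fin W (v2 T) (ce_v2_smul T) _ (fun _ h => hm.trans_le h.2.1)
    (fun _ h _ _ => W.v2_pr h.1) fun _ _ _ h h' _ _ => ce_u2 W h.1 h'.1

theorem Et.finC3 (W : Et T E Ω) [Finite (Ob E Ω)] {m : ℕ} (hm : 0 < m) (n : ℕ) :
    Finite (Ob E (W.C3 m n)) := by
  have := T.fin
  exact ce_fin W (v3 T) (ce_v3_smul T) _ (fun _ h => hm.trans_le h.2.1)
    (fun _ h _ _ => W.v3_pr h.1) fun _ _ _ h h' _ _ => ce_u3 W h.1 h'.1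

theorem Et.free_cell (W : Et T E Ω) {n : ℕ} (g : E) {σ : Fin n → Option Ω} (hp : 0 < np σ)
    (h : g • σ = σ) : g = 1 := by
  obtain ⟨i, a, ha⟩ := ce_np hp
  have k : g • σ i = σ i := congrFun h i
  rw [ha] at k
  exact W.free g a (Option.some.inj k)

/-- counting orbits through an equivariant map to a free set -/
theorem oc_fib {D A B : Type} [Group D] [MulAction D A] [MulAction D B] [Fintype (Ob D B)]
    (hB : ∀ (g : D) (b : B), g • b = b → g = 1) (f : A → B) (hf : ∀ (g : D) a, f (g • a) = g • f a)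
    (hfin : ∀ b, {a | f a = b}.Finite) :
    oc D A = ∑ q : Ob D B, Nat.card {a // f a = q.out} := by
  have : ∀ q : Ob D B, Finite {a // f a = q.out} := fun q => (hfin q.out).to_subtype
  rw [← Nat.card_sigma]
  refine (Nat.card_eq_of_bijective
    (fun p : Σ q : Ob D B, {a // f a = q.out} => ob D p.2.1) ⟨?_, fun w => ?_⟩).symm
  · rintro ⟨q, a, ha⟩ ⟨q', a', ha'⟩ e
    obtain ⟨g, rfl⟩ := ob_eq_iff.1 e
    have e1 : g • q'.out = q.out := by rw [← ha', ← hf, ha]
    obtain rfl : q = q' := by rw [← ob_out q, ← e1, ob_smul, ob_out]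
    obtain rfl := hB g _ e1
    simp only [one_smul]
  · obtain ⟨a, rfl⟩ := ob_surj w
    obtain ⟨g, hg⟩ := ob_eq_iff.1 (ob_out (ob D (f a)))
    exact ⟨⟨ob D (f a), g • a, (hf g a).trans hg⟩, ob_smul g a⟩

end Pool.Agent.Work.MP_3d425c_gt.Bg
end

-- merged part: Pool.Agent.Work.MP_3d425c_gt.Bg.Fill
section
/-! Such a boundary component bounds, so the whole stage is small. -/

namespace Pool.Agent.Work.MP_3d425c_gt.Bg
open Set Relation Pool.Agent.Work.MP_3d425c_gt.Md Pool.Agent.Work.MP_3d425c_gt.Cy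

variable {G X0 X1 X2 X3 : Type} [Group G] [MulAction G X0] [MulAction G X1] [MulAction G X2]
  [MulAction G X3] {T : Tri G X0 X1 X2 X3} {E : Subgroup G} {Ω : Type} [MulAction E Ω]

/-- indicator of the present vertices -/
def fi_p (a : Option Ω) : ℝ := if a.isSome = true then 1 else 0

theorem fi_np2 (σ : Fin 2 → Option Ω) : np σ ∈ Icc 1 1 ↔ fi_p (σ 1) - fi_p (σ 0) ≠ 0 := by
  unfold np fi_p
  rw [Finset.card_filter, Fin.sum_univ_two]
  cases σ 0 <;> cases σ 1 <;> simp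

theorem fi_np3 {σ : Fin 3 → Option Ω} {i j : Fin 3} (h : fi_p (σ i) - fi_p (σ j) ≠ 0) :
    np σ ∈ Icc 1 2 := by
  unfold np
  rw [Finset.card_filter, Fin.sum_univ_three]
  by_contra k
  refine h ?_
  have e : ∀ i, (σ i).isSome = (σ 0).isSome := by
    revert k
    simp only [Fin.forall_fin_succ, Fin.succ_zero_eq_one, Fin.succ_one_eq_two]
    cases σ 0 <;> cases σ 1 <;> cases σ 2 <;> simp
  unfold fi_p
  rw [e i, e j, sub_self]

theorem fi_sm {a : E} {U : Set (X1 × (Fin 2 → Option Ω))} (h : Sm a U) :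
    Sm a {x : Ω | ∃ c ∈ U, ∃ i, c.2 i = some x} := by
  obtain ⟨K, hK, h⟩ := h
  refine ⟨⋃ c ∈ K, ⋃ i, {x | c.2 i = some x}, hK.biUnion fun c _ => finite_iUnion fun i =>
    Set.Subsingleton.finite fun x hx y hy => Option.some.inj (hx.symm.trans hy), ?_⟩
  rintro x ⟨c, hc, i, hi⟩
  obtain ⟨k, hk, n, rfl⟩ := h c hc
  have e : a ^ n • k.2 i = some x := hi
  cases hy : k.2 i with
  | none => rw [hy] at e; cases e
  | some y =>
    rw [hy] at e
    exact ⟨y, mem_biUnion hk (mem_iUnion.2 ⟨i, hy⟩), n, (Option.some.inj e).symm⟩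

open Classical in
/-- the coboundary of the indicator, restricted to `U` -/
noncomputable def fi_z (U : Set (X1 × (Fin 2 → Option Ω))) (c : X1 × (Fin 2 → Option Ω)) : ℝ :=
  if c ∈ U then fi_p (c.2 1) - fi_p (c.2 0) else 0

theorem fi_coc {W : Et T E Ω} {U : Set (X1 × (Fin 2 → Option Ω))} (h1 : ∀ c ∈ U, c ∈ W.C1 1 1)
    (h4 : ∀ c ∈ W.C2 1 2, ∀ k l, f2 T c k ∈ U → f2 T c l ∈ W.C1 1 1 → f2 T c l ∈ U)
    {c : X2 × (Fin 3 → Option Ω)} (hc : W.V2 c) :
    fi_z U (f2 T c 1) = fi_z U (f2 T c 2) + fi_z U (f2 T c 0) := by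
  by_cases h : ∃ k, f2 T c k ∈ U
  · obtain ⟨k, hk⟩ := h
    have e : ∀ l, fi_z U (f2 T c l) = fi_p ((f2 T c l).2 1) - fi_p ((f2 T c l).2 0) := fun l => by
      unfold fi_z
      split_ifs with q
      · rfl
      · by_contra q'
        exact q (h4 c ⟨hc, fi_np3 ((fi_np2 _).1 (h1 _ hk).2)⟩ k l hk
          ⟨hc l, (fi_np2 _).2 (Ne.symm q')⟩)
    rw [e, e, e]
    show fi_p (c.2 2) - fi_p (c.2 0) = fi_p (c.2 1) - fi_p (c.2 0) + (fi_p (c.2 2) - fi_p (c.2 1))
    ring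
  · have e : ∀ l, fi_z U (f2 T c l) = 0 := fun l => if_neg fun q => h ⟨l, q⟩
    rw [e, e, e, add_zero]

theorem fi_f2 (T : Tri G X0 X1 X2 X3) (f : X2) (a b c : Option Ω) :
    f2 T (f, ![a, b, c]) 0 = (T.d2 f 0, ![b, c]) ∧ f2 T (f, ![a, b, c]) 1 = (T.d2 f 1, ![a, c]) ∧
      f2 T (f, ![a, b, c]) 2 = (T.d2 f 2, ![a, b]) := by
  refine ⟨Prod.ext rfl (funext fun i => ?_), Prod.ext rfl (funext fun i => ?_),
    Prod.ext rfl (funext fun i => ?_)⟩ <;> fin_cases i <;> rfl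

theorem fill {W : Et T E Ω} {ω : Ω} (fc : W.Fc ω) (hW : W.Zp) {a : E}
    {U : Set (X1 × (Fin 2 → Option Ω))} (h0 : U.Nonempty) (h1 : ∀ c ∈ U, c ∈ W.C1 1 1)
    (h2 : ∀ c, a • c ∈ U ↔ c ∈ U) (h3 : Sm a U)
    (h4 : ∀ c ∈ W.C2 1 2, ∀ k l, f2 T c k ∈ U → f2 T c l ∈ W.C1 1 1 → f2 T c l ∈ U) :
    Sm a (univ : Set Ω) := by
  have hp : ∀ x : Option Ω, fi_p (a • x) = fi_p x := fun x => by cases x <;> rfl
  have hR : W.Rc a fun x e y => fi_z U (e, ![x, y]) := by
    refine ⟨fun e => ?_, fun f x y u k2 k0 k1 => ?_, fun x e y _ => ?_,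
      _, fi_sm h3, fun x e y _ k => ?_⟩
    · unfold fi_z
      split_ifs
      · exact sub_self _
      · rfl
    · obtain ⟨e0, e1, e2⟩ := fi_f2 T f x y u
      have k := fi_coc h1 h4 (c := (f, ![x, y, u])) fun k => by
        fin_cases k
        exacts [k0, k1, k2]
      rwa [e0, e1, e2] at k
    · have e1 : (a • e, ![a • x, a • y]) = a • (e, ![x, y]) :=
        Prod.ext rfl (funext fun i => by fin_cases i <;> rfl)
      unfold fi_z
      by_cases q : (e, ![x, y]) ∈ U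
      · rw [if_pos q, if_pos (e1 ▸ (h2 _).2 q)]
        exact congrArg₂ (· - ·) (hp y) (hp x)
      · rw [if_neg q, if_neg fun q' => q ((h2 _).1 (e1 ▸ q'))]
    · unfold fi_z at k
      split_ifs at k with q
      · cases x with
        | some x => exact ⟨x, ⟨_, q, 0, rfl⟩, Or.inl rfl⟩
        | none =>
          cases y with
          | some y => exact ⟨y, ⟨_, q, 1, rfl⟩, Or.inr rfl⟩
          | none => exact absurd (sub_self _) k
      · exact absurd rfl k
  obtain ⟨s, s0, s1, s2⟩ := hW a _ hR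
  have s3 : ∀ x e y, W.R x e y → s (some y) = s (some x) := fun x e y k => by
    have k1 : fi_z U (e, ![some x, some y]) = s (some y) - s (some x) := s2 (some x) e (some y) k
    rw [← sub_eq_zero, ← k1]
    unfold fi_z
    split_ifs
    · exact sub_self _
    · rfl
  have s4 : ∀ x, s (some x) = s (some ω) := fun x => by
    induction fc.conn x with
    | refl => rfl
    | tail _ k ih =>
      obtain ⟨e, k | k⟩ := k
      · rw [s3 _ _ _ k, ih]
      · rw [← s3 _ _ _ k, ih]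
  refine s1.mono fun x _ k => ?_
  obtain ⟨c, hc⟩ := h0
  have s5 : ∀ y, s y = 0 := fun y => by
    cases y with
    | none => exact s0
    | some y => rw [s4 y, ← s4 x, k]
  have k1 : fi_z U (c.1, ![c.2 0, c.2 1]) = s (c.2 1) - s (c.2 0) := s2 _ _ _ (h1 c hc).1
  have e : (c.1, ![c.2 0, c.2 1]) = c := Prod.ext rfl (funext fun i => by fin_cases i <;> rfl)
  rw [e, s5, s5, sub_self, fi_z, if_pos hc] at k1
  exact (fi_np2 _).1 (h1 c hc).2 k1

end Pool.Agent.Work.MP_3d425c_gt.Bg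
end

-- merged part: Pool.Agent.Work.MP_3d425c_gt.Bg.Base1
section
/-! Links of vertices, locally finite two-cycles, orientation, and compactly supported
two-cocycles. -/

namespace Pool.Agent.Work.MP_3d425c_gt.Bg
open Set Function Pool.Agent.Work.MP_3d425c_gt.Md

variable {G X0 X1 X2 X3 : Type} [Group G] [MulAction G X0] [MulAction G X1] [MulAction G X2]
  [MulAction G X3] (T : Tri G X0 X1 X2 X3)

/-- a finitely supported vector killed by the annihilator of `P` lies in `P` -/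
theorem b1_sep {K B : Type*} [Field K] (P : Submodule K (B → K)) (w : B → K)
    (hw : (support w).Finite) (h : ∀ c : B → K,
      (∀ p ∈ P, (support p).Finite → ∑ᶠ b, p b * c b = 0) → ∑ᶠ b, w b * c b = 0) : w ∈ P := by
  classical
  by_contra hn
  have h1 : Finsupp.ofSupportFinite w hw ∉ P.comap (Finsupp.lcoeFun : (B →₀ K) →ₗ[K] B → K) := hn
  obtain ⟨φ, h2, h3⟩ := Submodule.exists_dual_map_eq_bot_of_notMem h1 inferInstance
  have key : ∀ q : B →₀ K, φ q = ∑ᶠ b, q b * φ (Finsupp.single b 1) := fun q => by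
    rw [finsum_eq_sum_of_support_subset (s := q.support)]
    · conv_lhs => rw [← q.sum_single, Finsupp.sum, map_sum]
      refine Finset.sum_congr rfl fun b _ => ?_
      rw [← smul_eq_mul, ← map_smul, Finsupp.smul_single, smul_eq_mul, mul_one]
    · intro b hb
      exact Finset.mem_coe.2 (Finsupp.mem_support_iff.2 (left_ne_zero_of_mul hb))
  refine h2 ((key _).trans (h (fun b => φ (Finsupp.single b 1)) fun p hp hf => ?_))
  have h4 : φ (Finsupp.ofSupportFinite p hf) ∈ (⊥ : Submodule K K) :=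
    h3 ▸ Submodule.mem_map_of_mem (show Finsupp.ofSupportFinite p hf ∈ P.comap _ from hp)
  exact (key _).symm.trans h4

theorem b1_inc : ∃ e : X2 × Bool ≃ X3 × Fin 4, ∀ p, T.d3 (e p).1 (e p).2 = p.1 := by
  classical
  choose p q hpq h using T.two
  have hp : ∀ f, T.d3 (p f).1 (p f).2 = f := fun f => (h f (p f)).2 (Or.inl rfl)
  have hq : ∀ f, T.d3 (q f).1 (q f).2 = f := fun f => (h f (q f)).2 (Or.inr rfl)
  refine ⟨⟨fun a => if a.2 then p a.1 else q a.1,
    fun r => (T.d3 r.1 r.2, decide (r = p (T.d3 r.1 r.2))), ?_, fun r => ?_⟩, ?_⟩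
  · rintro ⟨f, _ | _⟩
    · simp [hq, (hpq f).symm]
    · simp [hp]
  · dsimp only
    by_cases k : r = p (T.d3 r.1 r.2)
    · rw [decide_eq_true k]
      exact k.symm
    · rw [decide_eq_false k]
      exact (((h _ r).1 rfl).resolve_left k).symm
  · rintro ⟨f, _ | _⟩
    · exact hq f
    · exact hp f

/-- the two incidences of a face -/
noncomputable def inc : X2 × Bool ≃ X3 × Fin 4 := (b1_inc T).choose

theorem b1_inc_d3 (f : X2) (c : Bool) : T.d3 (inc T (f, c)).1 (inc T (f, c)).2 = f :=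
  (b1_inc T).choose_spec (f, c)

theorem b1_inc_surj (x : X3) (k : Fin 4) : ∃ c, inc T (T.d3 x k, c) = (x, k) := by
  obtain ⟨⟨f, c⟩, h⟩ := (inc T).surjective (x, k)
  have := b1_inc_d3 T f c
  rw [h] at this
  exact ⟨c, by rw [← h]; exact congrArg (fun f => inc T (f, c)) this⟩

theorem b1_inc_sum {M : Type*} [AddCommMonoid M] (g : X3 × Fin 4 → M) (hg : (support g).Finite) :
    ∑ᶠ x, ∑ k, g (x, k) = ∑ᶠ f, (g (inc T (f, true)) + g (inc T (f, false))) := by
  have h1 : (support fun p => g (inc T p)).Finite :=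
    hg.preimage (f := inc T) (inc T).injective.injOn
  have h2 := finsum_curry _ h1
  rw [finsum_comp_equiv (inc T) (f := g), finsum_curry _ hg] at h2
  simpa only [finsum_eq_sum_of_fintype, Fintype.sum_bool] using h2

theorem b1_v210 (f : X2) : T.d1 (T.d2 f 1) 0 = v2 T f 2 := T.s2 f 0 0 le_rfl
theorem b1_v211 (f : X2) : T.d1 (T.d2 f 1) 1 = v2 T f 0 := (T.s2 f 1 1 le_rfl).symm
theorem b1_v220 (f : X2) : T.d1 (T.d2 f 2) 0 = v2 T f 1 := rfl
theorem b1_v221 (f : X2) : T.d1 (T.d2 f 2) 1 = v2 T f 0 := rfl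
theorem b1_v200 (f : X2) : T.d1 (T.d2 f 0) 0 = v2 T f 2 := rfl
theorem b1_v201 (f : X2) : T.d1 (T.d2 f 0) 1 = v2 T f 1 := (T.s2 f 0 1 (by decide)).symm

theorem b1_v2_smul (g : G) (f : X2) (m : Fin 3) : v2 T (g • f) m = g • v2 T f m := by
  fin_cases m <;> simp [v2, T.e1, T.e2]

theorem b1_ecd (x : X3) : T.d2 (T.d3 x 1) 0 = T.d2 (T.d3 x 0) 0 := T.s3 x 0 0 le_rfl
theorem b1_ebd (x : X3) : T.d2 (T.d3 x 2) 0 = T.d2 (T.d3 x 0) 1 := T.s3 x 0 1 (by decide)
theorem b1_ebc (x : X3) : T.d2 (T.d3 x 3) 0 = T.d2 (T.d3 x 0) 2 := T.s3 x 0 2 (by decide)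
theorem b1_ead (x : X3) : T.d2 (T.d3 x 2) 1 = T.d2 (T.d3 x 1) 1 := T.s3 x 1 1 le_rfl
theorem b1_eac (x : X3) : T.d2 (T.d3 x 3) 1 = T.d2 (T.d3 x 1) 2 := T.s3 x 1 2 (by decide)
theorem b1_eab (x : X3) : T.d2 (T.d3 x 3) 2 = T.d2 (T.d3 x 2) 2 := T.s3 x 2 2 le_rfl

theorem b1_v2_d3 (x : X3) (k : Fin 4) (m : Fin 3) : v2 T (T.d3 x k) m = v3 T x (k.succAbove m) := by
  fin_cases k <;> fin_cases m
  · show v2 T (T.d3 x 0) 0 = v2 T (T.d3 x 3) 1
    rw [← b1_v221, ← b1_v201, b1_ebc]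
  · show v2 T (T.d3 x 0) 1 = v2 T (T.d3 x 3) 2
    rw [← b1_v220, ← b1_v200, b1_ebc]
  · rfl
  · show v2 T (T.d3 x 1) 0 = v2 T (T.d3 x 3) 0
    rw [← b1_v221, ← b1_v211, b1_eac]
  · show v2 T (T.d3 x 1) 1 = v2 T (T.d3 x 3) 2
    rw [← b1_v220, ← b1_v210, b1_eac]
  · show v2 T (T.d3 x 1) 2 = v2 T (T.d3 x 0) 2
    rw [← b1_v200, ← b1_v200, b1_ecd]
  · show v2 T (T.d3 x 2) 0 = v2 T (T.d3 x 3) 0
    rw [← b1_v221, ← b1_v221, b1_eab]
  · show v2 T (T.d3 x 2) 1 = v2 T (T.d3 x 3) 1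
    rw [← b1_v220, ← b1_v220, b1_eab]
  · show v2 T (T.d3 x 2) 2 = v2 T (T.d3 x 0) 2
    rw [← b1_v200, ← b1_v210, b1_ebd]
  · rfl
  · rfl
  · rfl

theorem b1_v3_smul (g : G) (x : X3) (i : Fin 4) : v3 T (g • x) i = g • v3 T x i := by
  fin_cases i <;> simp [v3, T.e3, b1_v2_smul]

include T in
theorem b1_fin_fib {X : Type} [MulAction G X] [Finite (Ob G X)] (d : X → X0)
    (hd : ∀ (g : G) x, d (g • x) = g • d x) (v : X0) : {x | d x = v}.Finite := by
  refine Finite.of_finite_image (f := ob G) (toFinite _) fun x hx y hy k => ?_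
  obtain ⟨g, rfl⟩ := ob_eq_iff.1 k
  have e1 : d (g • y) = v := hx
  have e2 : d y = v := hy
  rw [hd, e2] at e1
  rw [T.free g v e1, one_smul]

theorem b1_fin_v2 (v : X0) : {f | ∃ m, v2 T f m = v}.Finite := by
  have := T.fin2
  rw [setOf_exists]
  exact finite_iUnion fun m => b1_fin_fib T (fun f => v2 T f m) (fun g f => b1_v2_smul T g f m) v

theorem b1_fin_v3 (v : X0) : {x | ∃ i, v3 T x i = v}.Finite := by
  have := T.fin
  rw [setOf_exists]
  exact finite_iUnion fun m => b1_fin_fib T (fun f => v3 T f m) (fun g f => b1_v3_smul T g f m) v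

theorem b1_end_v2 (f : X2) (i : Fin 3) (b : Fin 2) : T.d1 (T.d2 f i) b = v2 T f (i.succAbove b.rev) := by
  fin_cases i <;> fin_cases b
  exacts [rfl, b1_v201 T f, b1_v210 T f, b1_v211 T f, rfl, rfl]

theorem b1_fin_d2 {S : Set X1} (hS : S.Finite) : {f | ∃ i, T.d2 f i ∈ S}.Finite :=
  (hS.biUnion fun e _ => b1_fin_v2 T (T.d1 e 0)).subset fun f ⟨i, hi⟩ =>
    mem_biUnion hi ⟨_, (b1_end_v2 T f i 0).symm⟩

theorem b1_fin_d3 {S : Set X2} (hS : S.Finite) : {r : X3 × Fin 4 | T.d3 r.1 r.2 ∈ S}.Finite := by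
  refine ((hS.prod (finite_univ (α := Bool))).image (inc T)).subset fun r hr => ?_
  obtain ⟨c, hc⟩ := b1_inc_surj T r.1 r.2
  exact ⟨(_, c), ⟨hr, trivial⟩, hc⟩

section
variable {K : Type} [Field K]

/-- coboundary of a one-cochain -/
def dd1 (z : X1 → K) (f : X2) : K := z (T.d2 f 0) - z (T.d2 f 1) + z (T.d2 f 2)

theorem b1_fin_dd1 {z : X1 → K} (hz : (support z).Finite) : (support (dd1 T z)).Finite := by
  refine (b1_fin_d2 T hz).subset fun f hf => ?_
  by_contra hn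
  simp only [mem_setOf_eq, not_exists, mem_support, not_not] at hn
  exact hf (by simp [dd1, hn])

variable {T}

/-- the links of the vertices have no first cohomology -/
theorem b1_link_coh (hD : Nv.Disc T) (c : X2 × Fin 3 → K)
    (h0 : ∀ x, c (T.d3 x 2, 0) = c (T.d3 x 1, 0) + c (T.d3 x 3, 0))
    (h1 : ∀ x, c (T.d3 x 3, 1) = c (T.d3 x 0, 0) + c (T.d3 x 2, 1))
    (h2 : ∀ x, c (T.d3 x 0, 1) = c (T.d3 x 1, 1) + c (T.d3 x 3, 2))
    (h3 : ∀ x, c (T.d3 x 1, 2) = c (T.d3 x 2, 2) + c (T.d3 x 0, 2)) :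
    ∃ s t : X1 → K, ∀ f, c (f, 0) = s (T.d2 f 1) - s (T.d2 f 2) ∧
      c (f, 1) = - s (T.d2 f 0) - t (T.d2 f 2) ∧ c (f, 2) = t (T.d2 f 1) - t (T.d2 f 0) := by
  classical
  obtain ⟨s', hs⟩ := hD.ul (Multiplicative K) (fun f => Multiplicative.ofAdd (c (f, 0)))
    fun x => congrArg Multiplicative.ofAdd (h0 x)
  obtain ⟨t', ht⟩ := hD.ll (Multiplicative K) (fun f => Multiplicative.ofAdd (c (f, 2)))
    fun x => congrArg Multiplicative.ofAdd (h3 x)
  obtain ⟨s, hs⟩ : ∃ s : X1 → K, ∀ f, c (f, 0) = s (T.d2 f 1) - s (T.d2 f 2) :=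
    ⟨fun e => (s' e).toAdd, fun f => (congrArg Multiplicative.toAdd (hs f)).trans
      (sub_eq_add_neg _ _).symm⟩
  obtain ⟨t, ht⟩ : ∃ s : X1 → K, ∀ f, c (f, 2) = s (T.d2 f 1) - s (T.d2 f 0) :=
    ⟨fun e => (t' e).toAdd, fun f => (congrArg Multiplicative.toAdd (ht f)).trans
      (sub_eq_add_neg _ _).symm⟩
  let k : X2 → K := fun f => c (f, 1) + s (T.d2 f 0) + t (T.d2 f 2)
  have hk : ∀ f f', T.d1 (T.d2 f 2) 0 = T.d1 (T.d2 f' 2) 0 → k f = k f' := by
    intro f f' e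
    have := T.equ f f' e
    clear e
    induction this with
    | rel f f' h =>
      obtain ⟨x, ⟨rfl, rfl⟩ | ⟨rfl, rfl⟩⟩ := h
      · simp only [k, h1, hs, b1_ebd, b1_ebc, b1_eab]
        ring
      · simp only [k, h2, ht, b1_ecd, b1_eac, b1_ebc]
        ring
    | refl => rfl
    | symm _ _ _ ih => exact ih.symm
    | trans _ _ _ _ _ i j => exact i.trans j
  let κ : X0 → K := fun v => if h : ∃ f, T.d1 (T.d2 f 2) 0 = v then k h.choose else 0
  have hκ : ∀ f, κ (T.d1 (T.d2 f 2) 0) = k f := fun f => by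
    have h : ∃ f', T.d1 (T.d2 f' 2) 0 = T.d1 (T.d2 f 2) 0 := ⟨f, rfl⟩
    exact (dif_pos h).trans (hk _ _ h.choose_spec)
  refine ⟨s, fun e => t e - κ (T.d1 e 0), fun f => ⟨hs f, ?_, ?_⟩⟩
  · simp only [hκ, k]
    ring
  · simp only [ht, b1_v200, b1_v210]
    ring

end

end Pool.Agent.Work.MP_3d425c_gt.Bg
end

-- merged part: Pool.Agent.Work.MP_3d425c_gt.Bg.Base2
section
/-! Locally finite two-cycles bound; orientation; compactly supported two-cocycles. -/

namespace Pool.Agent.Work.MP_3d425c_gt.Bg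
open Set Function Pool.Agent.Work.MP_3d425c_gt.Md

variable {G X0 X1 X2 X3 : Type} [Group G] [MulAction G X0] [MulAction G X1] [MulAction G X2]
  [MulAction G X3] {T : Tri G X0 X1 X2 X3} {K : Type} [Field K]

variable (T) in
/-- signed sum over the two incidences of a face -/
noncomputable def isum (g : X3 → Fin 4 → K) (f : X2) : K :=
  (-1) ^ ((inc T (f, true)).2 : ℕ) * g (inc T (f, true)).1 (inc T (f, true)).2 +
    (-1) ^ ((inc T (f, false)).2 : ℕ) * g (inc T (f, false)).1 (inc T (f, false)).2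

theorem isum_congr {g g' : X3 → Fin 4 → K} {f : X2}
    (h : ∀ x k, T.d3 x k = f → g x k = g' x k) : isum T g f = isum T g' f := by
  rw [isum, isum, h _ _ (b1_inc_d3 T f true), h _ _ (b1_inc_d3 T f false)]

theorem isum_sum (g : X3 → Fin 4 → K) (hg : {r : X3 × Fin 4 | g r.1 r.2 ≠ 0}.Finite) :
    ∑ᶠ f, isum T g f = ∑ᶠ x, (g x 0 - g x 1 + g x 2 - g x 3) := by
  rw [show (fun f => isum T g f) = _ from rfl]
  have := b1_inc_sum T (fun r => (-1 : K) ^ (r.2 : ℕ) * g r.1 r.2)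
    (hg.subset fun r hr => right_ne_zero_of_mul hr)
  refine this.symm.trans (finsum_congr fun x => ?_)
  simp only [Fin.sum_univ_four, Fin.val_zero, Fin.val_one, Fin.val_two,
    show ((3 : Fin 4) : ℕ) = 3 from rfl]
  ring

variable (T) in
/-- the boundary operator of the links -/
noncomputable def lbd : (X3 → Fin 4 → K) →ₗ[K] (X2 × Fin 3 → K) where
  toFun U b := isum T (fun x k => U x (k.succAbove b.2)) b.1
  map_add' U V := funext fun b => by simp only [isum, Pi.add_apply]; ring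
  map_smul' a U := funext fun b => by
    simp only [isum, Pi.smul_apply, smul_eq_mul, RingHom.id_apply]; ring

theorem lbd_apply (U : X3 → Fin 4 → K) (b : X2 × Fin 3) :
    lbd T U b = isum T (fun x k => U x (k.succAbove b.2)) b.1 := rfl

theorem lbd_fin {U : X3 → Fin 4 → K} (hU : (support U).Finite) :
    (support (lbd T U)).Finite := by
  refine (((hU.prod (finite_univ (α := Fin 4))).image fun r => T.d3 r.1 r.2).prod
    (finite_univ (α := Fin 3))).subset fun b hb => ⟨?_, trivial⟩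
  by_contra hn
  have h0 : ∀ c, U (inc T (b.1, c)).1 = 0 := fun c => by
    by_contra h
    exact hn ⟨inc T (b.1, c), ⟨h, trivial⟩, b1_inc_d3 T _ _⟩
  exact hb (by simp [lbd_apply, isum, h0])

theorem lbd_pair {U : X3 → Fin 4 → K} (hU : (support U).Finite) (c : X2 × Fin 3 → K) :
    ∑ᶠ b, lbd T U b * c b = ∑ᶠ x, ∑ k : Fin 4, (-1) ^ (k : ℕ) *
      ∑ m, U x (k.succAbove m) * c (T.d3 x k, m) := by
  rw [finsum_curry _ ((lbd_fin hU).subset fun b hb => left_ne_zero_of_mul hb),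
    b1_inc_sum T (fun r => (-1 : K) ^ (r.2 : ℕ) * ∑ m, U r.1 (r.2.succAbove m) * c (T.d3 r.1 r.2, m))]
  · refine finsum_congr fun f => ?_
    rw [finsum_eq_sum_of_fintype]
    simp only [b1_inc_d3, Fin.sum_univ_three, lbd_apply, isum]
    ring
  · refine (hU.prod (finite_univ (α := Fin 4))).subset fun r hr => ⟨fun h => hr ?_, trivial⟩
    simp [h]

theorem lbd_coc (hD : Nv.Disc T) (c : X2 × Fin 3 → K)
    (hc : ∀ U : X3 → Fin 4 → K, (support U).Finite → ∑ᶠ b, lbd T U b * c b = 0) :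
    ∃ s t : X1 → K, ∀ f, c (f, 0) = s (T.d2 f 1) - s (T.d2 f 2) ∧
      c (f, 1) = - s (T.d2 f 0) - t (T.d2 f 2) ∧ c (f, 2) = t (T.d2 f 1) - t (T.d2 f 0) := by
  classical
  have key : ∀ x (a : Fin 4 → K),
      a 0 * (-c (T.d3 x 1, 0) + c (T.d3 x 2, 0) - c (T.d3 x 3, 0)) +
      a 1 * (c (T.d3 x 0, 0) + c (T.d3 x 2, 1) - c (T.d3 x 3, 1)) +
      a 2 * (c (T.d3 x 0, 1) - c (T.d3 x 1, 1) - c (T.d3 x 3, 2)) +
      a 3 * (c (T.d3 x 0, 2) - c (T.d3 x 1, 2) + c (T.d3 x 2, 2)) = 0 := fun x a => by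
    have h1 : (support (Pi.single x a : X3 → Fin 4 → K)).Finite :=
      (finite_singleton x).subset Pi.support_single_subset
    have h2 := hc _ h1
    rw [lbd_pair h1, finsum_eq_single _ x fun y hy => by simp [hy]] at h2
    simp only [Pi.single_eq_same, Fin.sum_univ_four, Fin.sum_univ_three] at h2
    have h3 : (-1) ^ 0 * (a 1 * c (T.d3 x 0, 0) + a 2 * c (T.d3 x 0, 1) + a 3 * c (T.d3 x 0, 2)) +
      (-1) ^ 1 * (a 0 * c (T.d3 x 1, 0) + a 2 * c (T.d3 x 1, 1) + a 3 * c (T.d3 x 1, 2)) +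
      (-1) ^ 2 * (a 0 * c (T.d3 x 2, 0) + a 1 * c (T.d3 x 2, 1) + a 3 * c (T.d3 x 2, 2)) +
      (-1) ^ 3 * (a 0 * c (T.d3 x 3, 0) + a 1 * c (T.d3 x 3, 1) + a 2 * c (T.d3 x 3, 2)) = 0 := h2
    linear_combination h3
  refine b1_link_coh hD c (fun x => ?_) (fun x => ?_) (fun x => ?_) fun x => ?_
  · have := key x ![1, 0, 0, 0]
    simp only [Matrix.cons_val] at this
    linear_combination this
  · have := key x ![0, 1, 0, 0]
    simp only [Matrix.cons_val] at this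
    linear_combination -this
  · have := key x ![0, 0, 1, 0]
    simp only [Matrix.cons_val] at this
    linear_combination this
  · have := key x ![0, 0, 0, 1]
    simp only [Matrix.cons_val] at this
    linear_combination -this

/-- a locally finite two-cycle bounds in every link -/
theorem link_fill (hD : Nv.Disc T) (w : X2 → K)
    (hw : ∀ z : X1 → K, (support z).Finite → ∑ᶠ f, w f * dd1 T z f = 0) :
    ∃ U : X3 → Fin 4 → K, ∀ f m, w f = lbd T U (f, m) := by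
  classical
  have key : ∀ v, (fun b : X2 × Fin 3 => if v2 T b.1 b.2 = v then w b.1 else 0) ∈
      LinearMap.range (lbd T) := fun v => by
    have hf : (support fun b : X2 × Fin 3 => if v2 T b.1 b.2 = v then w b.1 else 0).Finite :=
      ((b1_fin_v2 T v).prod (finite_univ (α := Fin 3))).subset fun b hb =>
        ⟨⟨b.2, by_contra fun h => hb (if_neg h)⟩, trivial⟩
    refine b1_sep _ _ hf fun c hc => ?_
    obtain ⟨s, t, h⟩ := lbd_coc hD c fun U hU => hc _ ⟨U, rfl⟩ (lbd_fin hU)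
    let z : X1 → K := fun e => if ∃ f i, T.d2 f i = e then
      -((if T.d1 e 1 = v then s e else 0) + if T.d1 e 0 = v then t e else 0) else 0
    have hz : (support z).Finite := by
      refine (((b1_fin_v2 T v).prod (finite_univ (α := Fin 3))).image
        fun r => T.d2 r.1 r.2).subset fun e he => ?_
      by_cases h1 : ∃ f i, T.d2 f i = e
      · obtain ⟨f, i, rfl⟩ := h1
        refine ⟨(f, i), ⟨?_, trivial⟩, rfl⟩
        by_contra hn
        simp only [mem_setOf_eq, not_exists] at hn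
        exact he (by simp [z, b1_end_v2, hn])
      · exact absurd (if_neg h1) he
    rw [finsum_curry _ (hf.subset fun b hb => left_ne_zero_of_mul hb)]
    refine (finsum_congr fun f => ?_).trans (hw z hz)
    have h1 : ∀ i, ∃ f' i', T.d2 f' i' = T.d2 f i := fun i => ⟨f, i, rfl⟩
    rw [finsum_eq_sum_of_fintype, Fin.sum_univ_three, (h f).1, (h f).2.1, (h f).2.2]
    simp only [dd1, z, h1, if_true, b1_v200, b1_v201, b1_v210, b1_v211, b1_v220, b1_v221]
    split_ifs <;> ring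
  choose U hU using key
  refine ⟨fun x i => U (v3 T x i) x i, fun f m => ?_⟩
  have := congrFun (hU (v2 T f m)) (f, m)
  rw [if_pos rfl] at this
  refine this.symm.trans ?_
  rw [lbd_apply, lbd_apply]
  refine isum_congr fun x k e => ?_
  show U (v2 T f m) x (k.succAbove m) = U (v3 T x (k.succAbove m)) x (k.succAbove m)
  rw [← b1_v2_d3, show T.d3 x k = f from e]

/-- a locally finite two-cycle bounds -/
theorem glob_fill (hD : Nv.Disc T) {ε : X3 → K} (h2 : ∀ x, ε x * ε x = 1)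
    (hε : ∀ f, isum T (fun x _ => ε x) f = 0) (w : X2 → K)
    (hw : ∀ z : X1 → K, (support z).Finite → ∑ᶠ f, w f * dd1 T z f = 0) :
    ∃ u : X3 → K, ∀ f, w f = isum T (fun x _ => u x) f := by
  classical
  obtain ⟨U, hU⟩ := link_fill hD w hw
  let D : X3 × Fin 4 → Fin 3 → K := fun r i => ε r.1 *
    (U r.1 (r.2.succAbove (i.succAbove 1)) - U r.1 (r.2.succAbove (i.succAbove 0)))
  have hD1 : ∀ f i, D (inc T (f, false)) i = D (inc T (f, true)) i := fun f i => by
    have a1 := (hU f (i.succAbove 1)).symm.trans (hU f (i.succAbove 0))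
    rw [lbd_apply, lbd_apply] at a1
    have a2 := hε f
    have a3 : ∀ n : ℕ, (-1 : K) ^ n * (-1) ^ n = 1 := fun n => by
      rw [← pow_add, ← two_mul, pow_mul, neg_one_sq, one_pow]
    simp only [isum, D] at a1 a2 ⊢
    have b1 := a3 (inc T (f, true)).2
    have b2 := a3 (inc T (f, false)).2
    generalize (-1 : K) ^ ((inc T (f, true)).2 : ℕ) = p at a1 a2 b1
    generalize (-1 : K) ^ ((inc T (f, false)).2 : ℕ) = q at a1 a2 b2
    generalize U (inc T (f, true)).1 ((inc T (f, true)).2.succAbove (i.succAbove 1)) = A at a1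
    generalize U (inc T (f, true)).1 ((inc T (f, true)).2.succAbove (i.succAbove 0)) = B at a1
    generalize U (inc T (f, false)).1 ((inc T (f, false)).2.succAbove (i.succAbove 1)) = A' at a1
    generalize U (inc T (f, false)).1 ((inc T (f, false)).2.succAbove (i.succAbove 0)) = B' at a1
    linear_combination (q * ε (inc T (f, false)).1) * a1 - p * (A - B) * a2 -
      ε (inc T (f, false)).1 * (A' - B') * b2 + ε (inc T (f, true)).1 * (A - B) * b1
  have hD2 : ∀ x k i, D (inc T (T.d3 x k, true)) i = D (x, k) i := fun x k i => by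
    obtain ⟨_ | _, h⟩ := b1_inc_surj T x k
    · rw [← hD1, h]
    · rw [h]
  have hD3 : ∀ p q : X2 × Fin 3, T.d2 p.1 p.2 = T.d2 q.1 q.2 →
      D (inc T (p.1, true)) p.2 = D (inc T (q.1, true)) q.2 := by
    intro p q e
    have := T.link p q e
    clear e
    induction this with
    | rel p q h =>
      obtain ⟨x, i, j, hij, rfl, rfl⟩ := h
      have a : ∀ i j : Fin 3, i ≤ j → ∀ b : Fin 2, j.succ.succAbove (i.succAbove b) =
        i.castSucc.succAbove (j.succAbove b) := by decide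
      simp only [hD2, D, a i j hij]
    | refl => rfl
    | symm _ _ _ ih => exact ih.symm
    | trans _ _ _ _ _ i j => exact i.trans j
  let z : X1 → K := fun e => if h : ∃ p : X2 × Fin 3, T.d2 p.1 p.2 = e then
    D (inc T (h.choose.1, true)) h.choose.2 else 0
  have hz : ∀ f i, z (T.d2 f i) = D (inc T (f, true)) i := fun f i => by
    have h : ∃ p : X2 × Fin 3, T.d2 p.1 p.2 = T.d2 f i := ⟨(f, i), rfl⟩
    exact (dif_pos h).trans (hD3 _ (f, i) h.choose_spec)
  obtain ⟨s', hs⟩ := hD.sc (Multiplicative K) (fun e => Multiplicative.ofAdd (z e)) fun f => by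
    rw [← ofAdd_add, hz, hz, hz]
    congr 1
    show _ * (U _ (Fin.succAbove _ 2) - U _ (Fin.succAbove _ 0)) =
      _ * (U _ (Fin.succAbove _ 1) - U _ (Fin.succAbove _ 0)) +
      _ * (U _ (Fin.succAbove _ 2) - U _ (Fin.succAbove _ 1))
    ring
  obtain ⟨s, hs⟩ : ∃ s : X0 → K, ∀ e, z e = s (T.d1 e 1) - s (T.d1 e 0) :=
    ⟨fun v => (s' v).toAdd, fun e => (congrArg Multiplicative.toAdd (hs e)).trans
      (sub_eq_add_neg _ _).symm⟩
  have h3 : ∀ x (k : Fin 4) (i : Fin 3), U x (k.succAbove (i.succAbove 1)) +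
      ε x * s (v3 T x (k.succAbove (i.succAbove 1))) = U x (k.succAbove (i.succAbove 0)) +
      ε x * s (v3 T x (k.succAbove (i.succAbove 0))) := fun x k i => by
    have a := (hs (T.d2 (T.d3 x k) i)).symm.trans ((hz _ i).trans (hD2 x k i))
    rw [b1_end_v2, b1_end_v2, b1_v2_d3, b1_v2_d3] at a
    have a' : s (v3 T x (k.succAbove (i.succAbove 0))) - s (v3 T x (k.succAbove (i.succAbove 1))) =
      ε x * (U x (k.succAbove (i.succAbove 1)) - U x (k.succAbove (i.succAbove 0))) := a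
    linear_combination (-ε x) * a' -
      (U x (k.succAbove (i.succAbove 1)) - U x (k.succAbove (i.succAbove 0))) * h2 x
  have h4 : ∀ x (k : Fin 4), U x (k.succAbove 0) =
      (U x 0 + ε x * s (v3 T x 0)) - ε x * s (v3 T x (k.succAbove 0)) := fun x k => by
    rw [eq_sub_iff_add_eq]
    fin_cases k
    · exact h3 x 3 2
    · rfl
    · rfl
    · rfl
  refine ⟨fun x => U x 0 + ε x * s (v3 T x 0), fun f => ?_⟩
  have a1 : w f = isum T (fun x _ => (U x 0 + ε x * s (v3 T x 0)) - ε x * s (v2 T f 0)) f := by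
    rw [hU f 0, lbd_apply]
    refine isum_congr fun x k e => ?_
    show U x (k.succAbove 0) = _
    rw [h4, ← b1_v2_d3, show T.d3 x k = f from e]
  have a2 := hε f
  rw [a1]
  simp only [isum] at a2 ⊢
  linear_combination (-s (v2 T f 0)) * a2

end Pool.Agent.Work.MP_3d425c_gt.Bg
end

-- merged part: Pool.Agent.Work.MP_3d425c_gt.Bg.Base3
section
/-! Orientation, and compactly supported two-cocycles. -/

namespace Pool.Agent.Work.MP_3d425c_gt.Bg
open Set Function Pool.Agent.Work.MP_3d425c_gt.Md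

variable {G X0 X1 X2 X3 : Type} [Group G] [MulAction G X0] [MulAction G X1] [MulAction G X2]
  [MulAction G X3] {T : Tri G X0 X1 X2 X3} {K : Type} [Field K]

theorem b3_fin {M : Type*} [Zero M] {z : X1 → M} (hz : (support z).Finite) {N : Type*} [Zero N]
    (g : X3 × Fin 4 → N) (hg : ∀ r, (∀ i, z (T.d2 (T.d3 r.1 r.2) i) = 0) → g r = 0) :
    (support g).Finite := by
  refine (b1_fin_d3 T (b1_fin_d2 T hz)).subset fun r hr => ?_
  by_contra hn
  simp only [mem_setOf_eq, not_exists, mem_support, not_not] at hn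
  exact hr (hg r hn)

theorem b3_w0 (z : X1 → ZMod 2) (hz : (support z).Finite) :
    ∑ᶠ f, (1 + ((((inc T (f, true)).2 : ℕ) : ZMod 2) + (((inc T (f, false)).2 : ℕ) : ZMod 2))) *
      dd1 T z f = 0 := by
  let Z : X1 → ℤ := fun e => (z e).val
  let A : X2 → ℤ := fun f => Z (T.d2 f 0) + Z (T.d2 f 1) + Z (T.d2 f 2)
  let B : X3 → ℤ := fun x => Z (T.d2 (T.d3 x 0) 0) + Z (T.d2 (T.d3 x 0) 1) + Z (T.d2 (T.d3 x 0) 2) +
    Z (T.d2 (T.d3 x 1) 1) + Z (T.d2 (T.d3 x 1) 2) + Z (T.d2 (T.d3 x 2) 2)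
  have hA : (support A).Finite := by
    refine (b1_fin_d2 T hz).subset fun f hf => ?_
    by_contra hn
    simp only [mem_setOf_eq, not_exists, mem_support, not_not] at hn
    exact hf (by simp [A, Z, hn])
  have hB : (support B).Finite := by
    refine ((b1_fin_d3 T (b1_fin_d2 T hz)).image Prod.fst).subset fun x hx => ?_
    by_contra hn
    have h : ∀ k i, z (T.d2 (T.d3 x k) i) = 0 := fun k i => by
      by_contra h
      exact hn ⟨(x, k), ⟨i, h⟩, rfl⟩
    exact hx (by simp [B, Z, h])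
  have h1 := b1_inc_sum T (fun r => A (T.d3 r.1 r.2)) (b3_fin (T := T) hz _ fun r h => by simp [A, Z, h])
  have h2 : ∀ x, ∑ k, A (T.d3 x k) = B x + B x := fun x => by
    simp only [Fin.sum_univ_four, A, B, b1_ecd, b1_ebd, b1_ebc, b1_ead, b1_eac, b1_eab]
    ring
  simp only [h2, b1_inc_d3] at h1
  rw [finsum_add_distrib hA hA, finsum_add_distrib hB hB] at h1
  have h3 : ∑ᶠ x, B x = ∑ᶠ f, A f := by omega
  have h4 := congrArg (Int.castAddHom (ZMod 2)) h3
  rw [AddMonoidHom.map_finsum _ hA, AddMonoidHom.map_finsum _ hB] at h4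
  have h5 := b1_inc_sum T (fun r => ((r.2 : ℕ) : ZMod 2) * dd1 T z (T.d3 r.1 r.2) +
    z (T.d2 (T.d3 r.1 r.2) 1)) (b3_fin (T := T) hz _ fun r h => by simp [dd1, h])
  have two : (2 : ZMod 2) = 0 := rfl
  have h6 : ∀ x, ∑ k : Fin 4, (((k : ℕ) : ZMod 2) * dd1 T z (T.d3 x k) + z (T.d2 (T.d3 x k) 1)) =
      Int.castAddHom (ZMod 2) (B x) := fun x => by
    simp only [Fin.sum_univ_four, B, Z, dd1, b1_ecd, b1_ebd, b1_ebc, b1_ead, b1_eac, b1_eab,
      Int.coe_castAddHom, Int.cast_add, Int.cast_natCast, ZMod.natCast_val, ZMod.cast_id', id,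
      Fin.val_zero, Fin.val_one, Fin.val_two, show ((3 : Fin 4) : ℕ) = 3 from rfl]
    generalize z (T.d2 (T.d3 x 0) 0) = a
    generalize z (T.d2 (T.d3 x 0) 1) = b
    generalize z (T.d2 (T.d3 x 0) 2) = c
    generalize z (T.d2 (T.d3 x 1) 1) = d
    generalize z (T.d2 (T.d3 x 1) 2) = e
    generalize z (T.d2 (T.d3 x 2) 2) = f
    revert a b c d e f
    decide
  have h7 : ∀ f, Int.castAddHom (ZMod 2) (A f) = dd1 T z f := fun f => by
    simp only [A, Z, dd1, Int.coe_castAddHom, Int.cast_add, Int.cast_natCast, ZMod.natCast_val,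
      ZMod.cast_id', id]
    generalize z (T.d2 f 0) = a
    generalize z (T.d2 f 1) = b
    generalize z (T.d2 f 2) = c
    revert a b c
    decide
  simp only [h6, b1_inc_d3] at h5
  simp only [h7] at h4
  have hd := b1_fin_dd1 T hz
  have h8 : ∑ᶠ f, dd1 T z f = ∑ᶠ f, ((((inc T (f, true)).2 : ℕ) : ZMod 2) +
      (((inc T (f, false)).2 : ℕ) : ZMod 2)) * dd1 T z f := by
    rw [← h4, h5]
    exact finsum_congr fun f => by linear_combination z (T.d2 f 1) * two
  simp only [add_mul (1 : ZMod 2), one_mul]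
  rw [finsum_add_distrib hd (hd.subset fun f hf => right_ne_zero_of_mul hf), ← h8]
  linear_combination (∑ᶠ f, dd1 T z f) * two

/-- the complex is orientable -/
theorem exists_or (hD : Nv.Disc T) : ∃ ε : X3 → ℤ, (∀ x, ε x * ε x = 1) ∧
    ∀ f, (-1) ^ ((inc T (f, true)).2 : ℕ) * ε (inc T (f, true)).1 +
      (-1) ^ ((inc T (f, false)).2 : ℕ) * ε (inc T (f, false)).1 = 0 := by
  have neg : ∀ n : ℕ, (-1 : ZMod 2) ^ n = 1 := fun n => by
    rw [show (-1 : ZMod 2) = 1 from rfl, one_pow]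
  obtain ⟨u, hu⟩ := glob_fill (K := ZMod 2) hD (ε := fun _ => 1) (fun _ => one_mul _)
    (fun f => by simp only [isum, neg]; rfl) _ (b3_w0 (T := T))
  refine ⟨fun x => (-1) ^ (u x).val, fun x => ?_, fun f => ?_⟩
  · rw [← pow_add, ← two_mul, pow_mul, neg_one_sq, one_pow]
  · have := hu f
    simp only [isum, neg, one_mul] at this
    revert this
    beta_reduce
    generalize (inc T (f, true)).2 = k
    generalize (inc T (f, false)).2 = l
    generalize u (inc T (f, true)).1 = a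
    generalize u (inc T (f, false)).1 = b
    revert k l a b
    decide

/-- the orientation, stated for two incidences of one face -/
theorem exists_or' (hD : Nv.Disc T) : ∃ ε : X3 → ℤ, (∀ x, ε x * ε x = 1) ∧
    ∀ x k y l, T.d3 x k = T.d3 y l → (x, k) ≠ (y, l) →
      ε x * (-1) ^ (k : ℕ) = -(ε y * (-1) ^ (l : ℕ)) := by
  obtain ⟨ε, h1, h2⟩ := exists_or hD
  refine ⟨ε, h1, fun x k y l e n => ?_⟩
  obtain ⟨c, hc⟩ := b1_inc_surj T x k
  obtain ⟨d, hd⟩ := b1_inc_surj T y l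
  rw [← e] at hd
  have := h2 (T.d3 x k)
  cases c <;> cases d
  · exact absurd (hc.symm.trans hd) n
  · rw [hc, hd] at this
    linear_combination this
  · rw [hc, hd] at this
    linear_combination this
  · exact absurd (hc.symm.trans hd) n

/-- every locally finite two-cycle bounds -/
theorem lf_fill (hD : Nv.Disc T) (w : X2 → K)
    (hw : ∀ z : X1 → K, (support z).Finite → ∑ᶠ f, w f * dd1 T z f = 0) :
    ∃ u : X3 → K, ∀ f, w f = isum T (fun x _ => u x) f := by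
  obtain ⟨ε, h1, h2⟩ := exists_or hD
  refine glob_fill hD (ε := fun x => (ε x : K)) (fun x => ?_) (fun f => ?_) w hw
  · exact_mod_cast congrArg (Int.cast : ℤ → K) (h1 x)
  · simp only [isum]
    exact_mod_cast congrArg (Int.cast : ℤ → K) (h2 f)

/-- a finitely supported two-cocycle is the coboundary of a finitely supported cochain -/
theorem hc2_of (hD : Nv.Disc T) (w : X2 → K) (hw : (support w).Finite)
    (hc : ∀ x, w (T.d3 x 0) + w (T.d3 x 2) = w (T.d3 x 1) + w (T.d3 x 3)) :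
    ∃ u : X1 → K, (support u).Finite ∧ ∀ f, w f = u (T.d2 f 2) + u (T.d2 f 0) - u (T.d2 f 1) := by
  let P : Submodule K (X2 → K) :=
    { carrier := {p | ∃ u : X1 → K, (support u).Finite ∧ p = dd1 T u}
      add_mem' := by
        rintro _ _ ⟨u, hu, rfl⟩ ⟨v, hv, rfl⟩
        exact ⟨u + v, (hu.union hv).subset (support_add u v), funext fun f => by
          simp only [dd1, Pi.add_apply]; ring⟩
      zero_mem' := ⟨0, by simp, funext fun f => by simp [dd1]⟩
      smul_mem' := by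
        rintro a _ ⟨u, hu, rfl⟩
        exact ⟨a • u, hu.subset fun e he => right_ne_zero_of_mul he, funext fun f => by
          simp only [dd1, Pi.smul_apply, smul_eq_mul]; ring⟩ }
  have : w ∈ P := by
    refine b1_sep P w hw fun c h => ?_
    obtain ⟨u, hu⟩ := lf_fill hD c fun z hz => by
      simpa only [mul_comm] using h _ ⟨z, hz, rfl⟩ (b1_fin_dd1 T hz)
    have h1 := isum_sum (T := T) (fun x k => u x * w (T.d3 x k))
      ((b1_fin_d3 T hw).subset fun r hr => right_ne_zero_of_mul hr)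
    have h2 : ∀ x, u x * w (T.d3 x 0) - u x * w (T.d3 x 1) + u x * w (T.d3 x 2) -
        u x * w (T.d3 x 3) = 0 := fun x => by linear_combination u x * hc x
    simp only [h2, finsum_zero] at h1
    refine (finsum_congr fun f => ?_).trans h1
    simp only [hu f, isum, b1_inc_d3]
    ring
  obtain ⟨u, hu, rfl⟩ := this
  exact ⟨u, hu, fun f => by simp only [dd1]; ring⟩

end Pool.Agent.Work.MP_3d425c_gt.Bg
end

-- merged part: Pool.Agent.Work.MP_3d425c_gt.Bg.Tate
section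
/-! A finite cyclic group does not act freely on a finite dimensional acyclic complex. -/

namespace Pool.Agent.Work.MP_3d425c_gt.Bg
open Function Finset

variable {G A : Type} [Group G] [AddCommGroup A]

/-- `f (a x) - f x` -/
def tU (a : G) {X : Type} [MulAction G X] (f : X → A) : X → A := fun x => f (a • x) - f x

/-- the sum over the first `n` powers -/
def tN (a : G) (n : ℕ) {X : Type} [MulAction G X] (f : X → A) : X → A :=
  fun x => ∑ i ∈ range n, f (a ^ i • x)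

variable {a : G} {n : ℕ} {X : Type} [MulAction G X]

theorem tate_shift {f : X → A} (g : G) (h : (support f).Finite) :
    (support fun x => f (g • x)).Finite :=
  h.preimage (MulAction.injective g).injOn

theorem tU_fin {f : X → A} (h : (support f).Finite) : (support (tU a f)).Finite :=
  ((tate_shift a h).union h).subset (support_sub _ _)

theorem tN_fin {f : X → A} (h : (support f).Finite) : (support (tN a n f)).Finite :=
  ((range n).finite_toSet.biUnion fun i _ => tate_shift (a ^ i) h).subset fun x hx => by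
    obtain ⟨i, hi, h0⟩ := exists_ne_zero_of_sum_ne_zero hx
    exact Set.mem_biUnion hi h0

theorem tU_sub (f g : X → A) : tU a (f - g) = tU a f - tU a g := by
  funext x
  simp only [tU, Pi.sub_apply]
  abel

theorem tN_sub (f g : X → A) : tN a n (f - g) = tN a n f - tN a n g := by
  funext x
  simp only [tN, Pi.sub_apply, sum_sub_distrib]

theorem tN_tU (ha : a ^ n = 1) (f : X → A) : tN a n (tU a f) = 0 := by
  funext x
  have := sum_range_sub (fun i => f (a ^ i • x)) n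
  simp only [ha, pow_zero, sub_self, pow_succ', mul_smul] at this
  exact this

theorem tU_tN (ha : a ^ n = 1) (f : X → A) : tU a (tN a n f) = 0 := by
  funext x
  have := sum_range_sub (fun i => f (a ^ i • x)) n
  simp only [ha, pow_zero, sub_self, pow_succ, mul_smul, sum_sub_distrib] at this
  exact this

/-- representatives of the orbits -/
theorem tate_rep (hn : 0 < n) (ho : orderOf a = n) (fr : ∀ (g : G) (x : X), g • x = x → g = 1) :
    ∃ (r : X → X) (k : X → ℕ), (∀ x, r (a • x) = r x) ∧ (∀ x, k x < n ∧ a ^ k x • r x = x) ∧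
      ∀ x i, i < n → a ^ i • r x = x → i = k x := by
  classical
  let s := MulAction.orbitRel (Subgroup.zpowers a) X
  let r : X → X := fun x => (Quotient.mk s x).out
  have h1 : ∀ x, ∃ k < n, a ^ k • r x = x := by
    intro x
    obtain ⟨⟨g, hg⟩, e⟩ : x ∈ MulAction.orbit (Subgroup.zpowers a) (r x) :=
      MulAction.orbitRel_apply.1 (s.symm (Quotient.exact (Quotient.out_eq (Quotient.mk s x))))
    have hf : IsOfFinOrder a := orderOf_pos_iff.1 (ho ▸ hn)
    obtain ⟨m, rfl⟩ := (Submonoid.mem_powers_iff _ _).1 (hf.mem_powers_iff_mem_zpowers.2 hg)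
    exact ⟨m % n, Nat.mod_lt _ hn, by rw [← ho, pow_mod_orderOf]; exact e⟩
  choose k hk using h1
  refine ⟨r, k, fun x => congrArg Quotient.out (Quotient.sound
    (MulAction.orbitRel_apply.2 ⟨⟨a, Subgroup.mem_zpowers a⟩, rfl⟩)), hk, fun x i hi e => ?_⟩
  have h2 : (a ^ k x)⁻¹ * a ^ i = 1 := fr _ (r x) (by rw [mul_smul, e, inv_smul_eq_iff, (hk x).2])
  exact pow_injOn_Iio_orderOf (ho ▸ hi) (ho ▸ (hk x).1) (inv_mul_eq_one.1 h2).symm

theorem tate_inv (hn : 0 < n) (ho : orderOf a = n) (fr : ∀ (g : G) (x : X), g • x = x → g = 1)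
    {f : X → A} (h : (support f).Finite) (h0 : tU a f = 0) :
    ∃ g : X → A, (support g).Finite ∧ tN a n g = f := by
  classical
  obtain ⟨r, k, h1, h2, h3⟩ := tate_rep hn ho fr
  have rp : ∀ i x, r (a ^ i • x) = r x := fun i x => by
    induction i with
    | zero => rw [pow_zero, one_smul]
    | succ i ih => rw [pow_succ', mul_smul, h1, ih]
  have fp : ∀ i x, f (a ^ i • x) = f x := fun i x => by
    induction i with
    | zero => rw [pow_zero, one_smul]
    | succ i ih => rw [pow_succ', mul_smul, ← ih]; exact sub_eq_zero.1 (congrFun h0 _)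
  refine ⟨fun x => if k x = n - 1 then f x else 0, h.subset fun x hx h' => hx (by simp [h']),
    funext fun x => ?_⟩
  have hk := (h2 x).1
  have key : ∀ i, i + k x < n → k (a ^ i • x) = i + k x := fun i hi =>
    (h3 _ _ hi (by rw [rp, pow_add, mul_smul, (h2 x).2])).symm
  rw [tN, sum_eq_single (n - 1 - k x)]
  · rw [if_pos (by rw [key _ (by omega)]; omega), fp]
  · intro i hi hne
    refine if_neg fun e => hne ?_
    have e1 := (h2 (a ^ i • x)).2
    have e2 := (h2 (a ^ (n - 1 - k x) • x)).2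
    rw [rp, e] at e1
    rw [rp, key _ (by omega), show n - 1 - k x + k x = n - 1 by omega, e1] at e2
    have h4 : (a ^ (n - 1 - k x))⁻¹ * a ^ i = 1 := fr _ x (by rw [mul_smul, e2, inv_smul_smul])
    exact pow_injOn_Iio_orderOf (ho ▸ mem_range.1 hi) (ho ▸ (by omega : n - 1 - k x < n))
      (inv_mul_eq_one.1 h4).symm
  · intro hi
    exact absurd (mem_range.2 (by omega)) hi

theorem tate_norm (hn : 0 < n) (ho : orderOf a = n) (fr : ∀ (g : G) (x : X), g • x = x → g = 1)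
    {f : X → A} (h : (support f).Finite) (h0 : tN a n f = 0) :
    ∃ g : X → A, (support g).Finite ∧ tU a g = f := by
  classical
  obtain ⟨r, k, h1, h2, h3⟩ := tate_rep hn ho fr
  refine ⟨fun x => ∑ i ∈ range (k x), f (a ^ i • r x), ?_, funext fun x => ?_⟩
  · refine (((range n).finite_toSet.prod (range n).finite_toSet).biUnion
      fun (p : ℕ × ℕ) _ => tate_shift (a ^ p.1 * (a ^ p.2)⁻¹) h).subset fun x hx => ?_
    obtain ⟨i, hi, h4⟩ := exists_ne_zero_of_sum_ne_zero hx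
    refine Set.mem_biUnion (x := (i, k x)) ⟨mem_range.2 ((mem_range.1 hi).trans (h2 x).1),
      mem_range.2 (h2 x).1⟩ ?_
    show f ((a ^ i * (a ^ k x)⁻¹) • x) ≠ 0
    rwa [mul_smul, inv_smul_eq_iff.2 (h2 x).2.symm]
  · have e : a ^ (k x + 1) • r x = a • x := by rw [pow_succ', mul_smul, (h2 x).2]
    simp only [tU, h1]
    rcases (Nat.succ_le_of_lt (h2 x).1).lt_or_eq with l | l
    · rw [← h3 (a • x) (k x + 1) l (by rw [h1, e]), sum_range_succ, (h2 x).2, add_sub_cancel_left]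
    · have l' : k x + 1 = n := l
      rw [l', ← ho, pow_orderOf_eq_one] at e
      have h5 := congrFun h0 (r x)
      rw [tN, ← l', sum_range_succ, (h2 x).2] at h5
      rw [← h3 (a • x) 0 hn (by rw [h1, pow_zero, e]), sum_range_zero, zero_sub]
      exact (eq_neg_of_add_eq_zero_right h5).symm

/-- a pair of operators that is exact on finitely supported functions on free sets -/
structure TPair (G A : Type) [Group G] [AddCommGroup A]
    (P Q : ∀ (Y : Type) [MulAction G Y], (Y → A) → Y → A) : Prop where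
  fin : ∀ (Y : Type) [MulAction G Y] (f : Y → A), (support f).Finite → (support (P Y f)).Finite
  sub : ∀ (Y : Type) [MulAction G Y] (f g : Y → A), P Y (f - g) = P Y f - P Y g
  zero : ∀ (Y : Type) [MulAction G Y] (f : Y → A), P Y (Q Y f) = 0
  ex : ∀ (Y : Type) [MulAction G Y], (∀ (g : G) (x : Y), g • x = x → g = 1) → ∀ f : Y → A,
    (support f).Finite → P Y f = 0 → ∃ g, (support g).Finite ∧ Q Y g = f
  com : ∀ (Y Z : Type) [MulAction G Y] [MulAction G Z] (D : (Y → A) →+ (Z → A)),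
    (∀ (g : G) f, D (fun x => f (g • x)) = fun x => D f (g • x)) → ∀ f, D (P Y f) = P Z (D f)

theorem tpair_U (hn : 0 < n) (ho : orderOf a = n) :
    TPair G A (fun _ _ => tU a) fun _ _ => tN a n where
  fin _ _ _ := tU_fin
  sub _ _ := tU_sub
  zero _ _ := tU_tN (ho ▸ pow_orderOf_eq_one a)
  ex _ _ fr _ := tate_inv hn ho fr
  com _ _ _ _ D e f := by
    have : tU a f = (fun x => f (a • x)) - f := rfl
    rw [this, map_sub, e]
    rfl

theorem tpair_N (hn : 0 < n) (ho : orderOf a = n) :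
    TPair G A (fun _ _ => tN a n) fun _ _ => tU a where
  fin _ _ _ := tN_fin
  sub _ _ := tN_sub
  zero _ _ := tN_tU (ho ▸ pow_orderOf_eq_one a)
  ex _ _ fr _ := tate_norm hn ho fr
  com _ _ _ _ D e f := by
    have : tN a n f = ∑ i ∈ range n, fun x => f (a ^ i • x) := by
      funext x
      rw [Finset.sum_apply]
      rfl
    rw [this, map_sum]
    funext x
    simp only [e, Finset.sum_apply, tN]

/-- the chase -/
theorem tate_chase {X0 X1 X2 X3 : Type} [MulAction G X0] [MulAction G X1] [MulAction G X2]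
    [MulAction G X3] {P Q : ∀ (Y : Type) [MulAction G Y], (Y → A) → Y → A}
    (hP : TPair G A P Q) (hQ : TPair G A Q P)
    (f0 : ∀ (g : G) (x : X0), g • x = x → g = 1) (f1 : ∀ (g : G) (x : X1), g • x = x → g = 1)
    (f2 : ∀ (g : G) (x : X2), g • x = x → g = 1) (f3 : ∀ (g : G) (x : X3), g • x = x → g = 1)
    (D0 : (X0 → A) →+ (X1 → A)) (D1 : (X1 → A) →+ (X2 → A)) (D2 : (X2 → A) →+ (X3 → A))
    (e0 : ∀ (g : G) f, D0 (fun x => f (g • x)) = fun x => D0 f (g • x))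
    (e1 : ∀ (g : G) f, D1 (fun x => f (g • x)) = fun x => D1 f (g • x))
    (e2 : ∀ (g : G) f, D2 (fun x => f (g • x)) = fun x => D2 f (g • x))
    (s0 : ∀ f, (support f).Finite → (support (D0 f)).Finite)
    (s1 : ∀ f, (support f).Finite → (support (D1 f)).Finite)
    (s2 : ∀ f, (support f).Finite → (support (D2 f)).Finite)
    (d0 : ∀ f, D1 (D0 f) = 0) (d1 : ∀ f, D2 (D1 f) = 0)
    (c0 : ∀ f, (support f).Finite → D0 f = 0 → f = 0)
    (c1 : ∀ f, (support f).Finite → D1 f = 0 → ∃ g, (support g).Finite ∧ D0 g = f)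
    (c2 : ∀ f, (support f).Finite → D2 f = 0 → ∃ g, (support g).Finite ∧ D1 g = f)
    {u : X3 → A} (hu : (support u).Finite) {v : X2 → A} (hv : (support v).Finite)
    (h : D2 v = P X3 u) :
    ∃ (w : X2 → A) (z : X3 → A), (support w).Finite ∧ (support z).Finite ∧
      u = D2 w + Q X3 z := by
  have sb : ∀ {Y : Type} {f g : Y → A}, (support f).Finite → (support g).Finite →
      (support (f - g)).Finite := fun p q => (p.union q).subset (support_sub _ _)
  obtain ⟨a1, p1, q1⟩ := c2 _ (hQ.fin _ _ hv) (by rw [hQ.com _ _ D2 e2, h, hQ.zero])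
  obtain ⟨a0, p0, q0⟩ := c1 _ (hP.fin _ _ p1) (by rw [hP.com _ _ D1 e1, q1, hP.zero])
  obtain ⟨b0, r0, t0⟩ := hQ.ex _ f0 _ p0
    (c0 _ (hQ.fin _ _ p0) (by rw [hQ.com _ _ D0 e0, q0, hQ.zero]))
  obtain ⟨b1, r1, t1⟩ := hP.ex _ f1 _ (sb p1 (s0 _ r0))
    (by rw [hP.sub, ← hP.com _ _ D0 e0, t0, q0, sub_self])
  obtain ⟨b2, r2, t2⟩ := hQ.ex _ f2 _ (sb hv (s1 _ r1))
    (by rw [hQ.sub, ← hQ.com _ _ D1 e1, t1, map_sub, d0, q1, sub_zero, sub_self])
  obtain ⟨b3, r3, t3⟩ := hP.ex _ f3 _ (sb hu (s2 _ r2))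
    (by rw [hP.sub, ← hP.com _ _ D2 e2, t2, map_sub, d1, h, sub_zero, sub_self])
  exact ⟨b2, b3, r2, r3, by rw [t3]; abel⟩

end Pool.Agent.Work.MP_3d425c_gt.Bg
end

-- merged part: Pool.Agent.Work.MP_3d425c_gt.Bg.Tf
section
/-! The group of an infinite oriented complex with the cohomology of three-space is torsion-free. -/

namespace Pool.Agent.Work.MP_3d425c_gt.Bg
open Set Relation Function Pool.Agent.Work.MP_3d425c_gt.Md Pool.Agent.Work.MP_3d425c_gt.Cy

variable {G X0 X1 X2 X3 : Type} [Group G] [MulAction G X0] [MulAction G X1] [MulAction G X2]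
  [MulAction G X3] {T : Tri G X0 X1 X2 X3}

/-- an orientation -/
structure Ori (T : Tri G X0 X1 X2 X3) (o : X3 → ℤ) : Prop where
  sq : ∀ x, o x * o x = 1
  opp : ∀ x (k : Fin 4) y (l : Fin 4), (x, k) ≠ (y, l) → T.d3 x k = T.d3 y l →
    o x * (-1) ^ (k : ℕ) + o y * (-1) ^ (l : ℕ) = 0

/-- the coboundary maps -/
def tD0 (T : Tri G X0 X1 X2 X3) : (X0 → ℤ) →+ (X1 → ℤ) :=
  AddMonoidHom.mk' (fun s e => s (T.d1 e 0) - s (T.d1 e 1)) fun _ _ => funext fun _ => by
    simp only [Pi.add_apply]; ring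
def tD1 (T : Tri G X0 X1 X2 X3) : (X1 → ℤ) →+ (X2 → ℤ) :=
  AddMonoidHom.mk' (fun u f => u (T.d2 f 2) + u (T.d2 f 0) - u (T.d2 f 1)) fun _ _ =>
    funext fun _ => by simp only [Pi.add_apply]; ring
def tD2 (T : Tri G X0 X1 X2 X3) : (X2 → ℤ) →+ (X3 → ℤ) :=
  AddMonoidHom.mk' (fun w x => ∑ k : Fin 4, (-1) ^ (k : ℕ) * w (T.d3 x k)) fun _ _ =>
    funext fun _ => by simp only [Pi.add_apply, mul_add, Finset.sum_add_distrib]

theorem tD0_ap (s : X0 → ℤ) (e : X1) : tD0 T s e = s (T.d1 e 0) - s (T.d1 e 1) := rfl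
theorem tD1_ap (u : X1 → ℤ) (f : X2) :
    tD1 T u f = u (T.d2 f 2) + u (T.d2 f 0) - u (T.d2 f 1) := rfl
theorem tD2_ap (w : X2 → ℤ) (x : X3) :
    tD2 T w x = ∑ k : Fin 4, (-1) ^ (k : ℕ) * w (T.d3 x k) := rfl
theorem tD2_ap' (w : X2 → ℤ) (x : X3) :
    tD2 T w x = w (T.d3 x 0) - w (T.d3 x 1) + w (T.d3 x 2) - w (T.d3 x 3) := by
  rw [tD2_ap, Fin.sum_univ_four]
  simp only [Fin.val_zero, Fin.val_one, Fin.val_two, show ((3 : Fin 4) : ℕ) = 3 from rfl]
  ring

theorem tf_pre {A B : Type} {n : ℕ} (d : A → Fin n → B) (hd : ∀ b i, {a | d a i = b}.Finite)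
    {u : B → ℤ} (hu : (support u).Finite) {v : A → ℤ} (h : ∀ a, (∀ i, u (d a i) = 0) → v a = 0) :
    (support v).Finite := by
  refine (hu.biUnion fun b _ => finite_iUnion fun i => hd b i).subset fun a ha => ?_
  by_contra hn
  refine ha (h a fun i => ?_)
  by_contra k
  exact hn (mem_biUnion k (mem_iUnion.2 ⟨i, rfl⟩))

theorem tD0_fin (hM : Mfd T) (s : X0 → ℤ) (h : (support s).Finite) :
    (support (tD0 T s)).Finite :=
  tf_pre T.d1 hM.edges_finite h fun e k => by rw [tD0_ap, k, k, sub_zero]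

theorem tD1_fin (u : X1 → ℤ) (h : (support u).Finite) : (support (tD1 T u)).Finite := by
  have := T.fin2
  exact tf_pre T.d2 (fun e i => fib_finite T.free1 (T.d2 · i) (fun g f => T.e2 g f i) e) h
    fun f k => by rw [tD1_ap, k, k, k, add_zero, sub_zero]

theorem tD2_fin (w : X2 → ℤ) (h : (support w).Finite) : (support (tD2 T w)).Finite := by
  have := T.fin
  exact tf_pre T.d3 (fun f i => fib_finite T.free2 (T.d3 · i) (fun g x => T.e3 g x i) f) h
    fun x k => by simp only [tD2_ap, k, mul_zero, Finset.sum_const_zero]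

theorem tf_const (hM : Mfd T) [Infinite X0] {s : X0 → ℝ}
    (h : (support s).Finite) (P : ℝ → Prop) (h0 : P 0)
    (hs : ∀ e, P (s (T.d1 e 0)) ↔ P (s (T.d1 e 1))) (v : X0) : P (s v) := by
  obtain ⟨u, hu⟩ := h.exists_notMem
  obtain ⟨q, hq⟩ := hM.conn u v
  have k : P (s u) := by rwa [notMem_support.1 hu]
  clear hu
  induction hq with
  | nil => exact k
  | @cons a l b q c h1 _ ih =>
    refine ih ?_
    obtain ⟨e, _ | _⟩ := l
    · obtain ⟨rfl, rfl⟩ := h1
      exact (hs e).1 k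
    · obtain ⟨rfl, rfl⟩ := h1
      exact (hs e).2 k

theorem tf_cast {A : Type} {u : A → ℤ} (h : (support u).Finite) :
    (support fun a => (u a : ℝ)).Finite :=
  h.subset fun a k k' => k (by simp [k'])

theorem tf_int {A : Type} {u : A → ℝ} (h : (support u).Finite) (hu : ∀ a, ∃ n : ℤ, (n : ℝ) = u a) :
    ∃ v : A → ℤ, (support v).Finite ∧ ∀ a, (v a : ℝ) = u a := by
  choose v hv using hu
  exact ⟨v, h.subset fun a k k' => k (by exact_mod_cast (hv a).trans k'), hv⟩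

theorem tf_c0 (hM : Mfd T) [Infinite X0] (s : X0 → ℤ) (h : (support s).Finite)
    (h0 : tD0 T s = 0) : s = 0 := by
  funext v
  have := tf_const hM (tf_cast h) (· = 0) rfl (fun e => by
    rw [sub_eq_zero.1 ((tD0_ap s e).symm.trans (congrFun h0 e))]) v
  exact_mod_cast this

theorem tf_c1 (hM : Mfd T) [Infinite X0] (z : X1 → ℤ) (h : (support z).Finite)
    (h0 : tD1 T z = 0) : ∃ s, (support s).Finite ∧ tD0 T s = z := by
  obtain ⟨s, h1, h2⟩ := hM.hc1 _ (tf_cast h) fun f => by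
    exact_mod_cast (sub_eq_zero.1 ((tD1_ap z f).symm.trans (congrFun h0 f))).symm
  obtain ⟨v, h3, h4⟩ := tf_int h1 (tf_const hM h1 (fun r => ∃ n : ℤ, (n : ℝ) = r)
    ⟨0, Int.cast_zero⟩ fun e => ⟨fun ⟨n, k⟩ => ⟨n - z e, by push_cast; linarith [h2 e]⟩,
      fun ⟨n, k⟩ => ⟨n + z e, by push_cast; linarith [h2 e]⟩⟩)
  refine ⟨v, h3, funext fun e => ?_⟩
  have := h2 e
  rw [← h4, ← h4] at this
  exact_mod_cast this.symm

theorem tf_c2 (hM : Mfd T) (w : X2 → ℤ) (h : (support w).Finite) (h0 : tD2 T w = 0) :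
    ∃ u, (support u).Finite ∧ tD1 T u = w := by
  obtain ⟨u, h1, h2⟩ := hM.hc2 _ (tf_cast h) fun x => by
    have := (tD2_ap' w x).symm.trans (congrFun h0 x)
    have k : w (T.d3 x 0) + w (T.d3 x 2) = w (T.d3 x 1) + w (T.d3 x 3) := by
      rw [Pi.zero_apply] at this; linarith
    exact_mod_cast k
  let π : ℝ →+ AddCircle (1 : ℝ) := QuotientAddGroup.mk' _
  have hπ : ∀ r, π r = 0 ↔ ∃ n : ℤ, (n : ℝ) = r := fun r =>
    (AddCircle.coe_eq_zero_iff (1 : ℝ) (x := r)).trans (by simp only [zsmul_one])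
  obtain ⟨s, hs⟩ := hM.sc (Multiplicative (AddCircle (1 : ℝ)))
    (fun e => Multiplicative.ofAdd (π (u e))) fun f => by
      rw [← ofAdd_add, ← map_add, show u (T.d2 f 2) + u (T.d2 f 0) = u (T.d2 f 1) + w f by
        linarith [h2 f], map_add, (hπ _).2 ⟨_, rfl⟩, add_zero]
  choose σ hσ using (QuotientAddGroup.mk'_surjective _ : Surjective π)
  let t : X0 → ℝ := fun v => σ (-(s v).toAdd)
  have ht : ∀ e, π (u e) = π (t (T.d1 e 0)) - π (t (T.d1 e 1)) := fun e => by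
    have := congrArg Multiplicative.toAdd (hs e)
    simp only [toAdd_ofAdd, toAdd_mul, toAdd_inv] at this
    rw [this, hσ, hσ]
    abel
  obtain ⟨r, h3, h4⟩ := hM.hc1 (fun e => t (T.d1 e 0) - t (T.d1 e 1))
    (h1.subset fun e k k' => k (by
      have := ht e
      rw [k', map_zero, hσ, hσ, eq_comm, sub_eq_zero] at this
      simp only [t, this, sub_self]))
    fun f => by simp only [sa, sb, sc']; ring
  have h5 : (support fun e => r (T.d1 e 0) - r (T.d1 e 1)).Finite := by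
    refine (h3.biUnion fun b _ => finite_iUnion fun i => hM.edges_finite b i).subset fun a ha => ?_
    by_contra hn
    have k : ∀ i, r (T.d1 a i) = 0 := fun i => by
      by_contra k
      exact hn (mem_biUnion k (mem_iUnion.2 ⟨i, rfl⟩))
    exact ha (by simp only [k, sub_self])
  obtain ⟨v, h6, h7⟩ := tf_int (u := fun e => u e - (r (T.d1 e 0) - r (T.d1 e 1)))
    ((h1.union h5).subset (support_sub _ _)) fun e => (hπ _).1 (by
      rw [← h4, map_sub, map_sub, ht, sub_self])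
  refine ⟨v, h6, funext fun f => ?_⟩
  have : ((tD1 T v f : ℤ) : ℝ) = w f := by
    rw [tD1_ap]
    push_cast
    rw [h7, h7, h7, h2 f]
    simp only [sa, sb, sc']
    ring
  exact_mod_cast this

theorem tf_ind {A : Type} [DecidableEq A] {P : (A → ℤ) → Prop} (h0 : P 0)
    (h1 : ∀ u a c, (support u).Finite → P u → P (u + Pi.single a c)) {u : A → ℤ}
    (h : (support u).Finite) : P u := by
  suffices k : ∀ S : Set A, S.Finite → ∀ u : A → ℤ, support u ⊆ S → P u from k _ h u subset_rfl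
  intro S hS
  induction S, hS using Set.Finite.induction_on with
  | empty => exact fun u hu => (support_eq_empty_iff.1 (subset_empty_iff.1 hu)).symm ▸ h0
  | @insert a S _ hS ih =>
    intro u hu
    have k : support (update u a 0) ⊆ S := fun b hb => by
      rcases eq_or_ne b a with rfl | e
      · exact absurd (update_self _ _ _) hb
      · rw [mem_support, update_of_ne e] at hb
        exact (hu hb).resolve_left e
    have e : u = update u a 0 + Pi.single a (u a) := funext fun b => by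
      rcases eq_or_ne b a with rfl | e <;> simp [*]
    rw [e]
    exact h1 _ _ _ (hS.subset k) (ih _ k)

theorem tf_single {A : Type} [DecidableEq A] (a : A) (c : ℤ) :
    (support (Pi.single a c : A → ℤ)).Finite :=
  (finite_singleton a).subset Pi.support_single_subset

theorem tD2_single [DecidableEq X2] [DecidableEq X3] {x y : X3} {k l : Fin 4}
    (h : (x, k) ≠ (y, l)) (e : T.d3 x k = T.d3 y l) (c : ℤ) :
    tD2 T (Pi.single (T.d3 x k) c) =
      Pi.single x ((-1) ^ (k : ℕ) * c) + Pi.single y ((-1) ^ (l : ℕ) * c) := by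
  obtain ⟨y', l', h1, -, h2⟩ := T.other x k
  obtain ⟨rfl, rfl⟩ := Prod.mk.inj ((h2 y l e.symm).resolve_left h.symm)
  funext z
  have k1 : ∀ m, (Pi.single (T.d3 x k) c : X2 → ℤ) (T.d3 z m) =
      (if m = k then (Pi.single x c : X3 → ℤ) z else 0) +
        if m = l then (Pi.single y c : X3 → ℤ) z else 0 := fun m => by
    by_cases k2 : T.d3 z m = T.d3 x k
    · rw [k2, Pi.single_eq_same]
      rcases h2 z m k2 with k3 | k3 <;> obtain ⟨rfl, rfl⟩ := Prod.mk.inj k3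
      · by_cases k4 : m = l
        · subst k4
          have k5 : z ≠ y := fun k5 => h (by rw [k5])
          simp [k5]
        · simp [k4]
      · by_cases k4 : m = k
        · subst k4
          have k5 : z ≠ x := fun k5 => h (by rw [k5])
          simp [k5]
        · simp [k4]
    · have k3 : m = k → z ≠ x := fun a b => k2 (by rw [a, b])
      have k4 : m = l → z ≠ y := fun a b => k2 (by rw [a, b, e])
      rw [Pi.single_eq_of_ne k2]
      split_ifs with a b b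
      · rw [Pi.single_eq_of_ne (k3 a), Pi.single_eq_of_ne (k4 b), add_zero]
      · rw [Pi.single_eq_of_ne (k3 a), add_zero]
      · rw [Pi.single_eq_of_ne (k4 b), add_zero]
      · rfl
  simp only [tD2_ap, k1, mul_add, mul_ite, mul_zero, Finset.sum_add_distrib, Finset.sum_ite_eq',
    Finset.mem_univ, if_true, Pi.add_apply, Pi.single_apply]

/-- the total mass -/
noncomputable def tE {A : Type} (o u : A → ℤ) : ℤ := ∑ᶠ x, o x * u x

theorem tE_add {A : Type} (o : A → ℤ) {u v : A → ℤ} (hu : (support u).Finite)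
    (hv : (support v).Finite) : tE o (u + v) = tE o u + tE o v := by
  simp only [tE, Pi.add_apply, mul_add]
  exact finsum_add_distrib (hu.subset (support_mul_subset_right _ _))
    (hv.subset (support_mul_subset_right _ _))

theorem tE_single {A : Type} [DecidableEq A] (o : A → ℤ) (a : A) (c : ℤ) :
    tE o (Pi.single a c) = o a * c := by
  rw [tE, finsum_eq_single _ a fun b hb => by rw [Pi.single_eq_of_ne hb, mul_zero],
    Pi.single_eq_same]

theorem tE_zero {A : Type} (o : A → ℤ) : tE o 0 = 0 := by simp [tE]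

theorem tE_D2 {o : X3 → ℤ} (ho : Ori T o) {w : X2 → ℤ} (h : (support w).Finite) :
    tE o (tD2 T w) = 0 := by
  classical
  refine tf_ind (P := fun w => tE o (tD2 T w) = 0) (by rw [map_zero, tE_zero]) ?_ h
  intro w f c hw ih
  obtain ⟨x, k, rfl⟩ := T.face_surj f
  obtain ⟨y, l, h1, h2, -⟩ := T.other x k
  rw [map_add, tE_add _ (tD2_fin _ hw) (tD2_fin _ (tf_single _ _)), ih,
    tD2_single h1.symm h2.symm, tE_add _ (tf_single _ _) (tf_single _ _), tE_single, tE_single]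
  linear_combination c * ho.opp _ _ _ _ h1.symm h2.symm

theorem tE_ker {o : X3 → ℤ} (ho : Ori T o) {u : X3 → ℤ} (h : (support u).Finite)
    (h0 : tE o u = 0) : ∃ w, (support w).Finite ∧ tD2 T w = u := by
  classical
  have mv : ∀ x y (c : ℤ), ∃ w, (support w).Finite ∧
      tD2 T w = Pi.single x (o x * c) - Pi.single y (o y * c) := fun x y c => by
    induction T.conn x y with
    | rel x y h =>
      obtain ⟨k, l, e⟩ := h
      by_cases h1 : (x, k) = (y, l)
      · exact ⟨0, by simp, by rw [(Prod.mk.inj h1).1, map_zero, sub_self]⟩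
      · refine ⟨Pi.single (T.d3 x k) ((-1) ^ (k : ℕ) * o x * c), tf_single _ _, ?_⟩
        have a : ∀ m : ℕ, ((-1 : ℤ) ^ m) * (-1) ^ m = 1 := fun m => by
          rw [← mul_pow]; simp
        rw [tD2_single h1 e, sub_eq_add_neg, ← Pi.single_neg]
        congr 2
        · linear_combination o x * c * a k
        · linear_combination (-1) ^ (l : ℕ) * c * ho.opp _ _ _ _ h1 e - o y * c * a l
    | refl => exact ⟨0, by simp, by rw [map_zero, sub_self]⟩
    | symm _ _ _ ih =>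
      obtain ⟨w, h1, h2⟩ := ih
      exact ⟨-w, by rwa [support_neg], by rw [map_neg, h2, neg_sub]⟩
    | trans _ _ _ _ _ i1 i2 =>
      obtain ⟨w, h1, h2⟩ := i1
      obtain ⟨w', h3, h4⟩ := i2
      exact ⟨w + w', (h1.union h3).subset (support_add _ _), by
        rw [map_add, h2, h4, sub_add_sub_cancel]⟩
  obtain ⟨y⟩ := T.ne
  obtain ⟨w, h1, h2⟩ := tf_ind (P := fun u => ∃ w, (support w).Finite ∧
    tD2 T w = u - Pi.single y (o y * tE o u)) ⟨0, by simp, by simp [tE_zero]⟩ (by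
      rintro u x c hu ⟨w, h1, h2⟩
      obtain ⟨w', h3, h4⟩ := mv x y (o x * c)
      refine ⟨w + w', (h1.union h3).subset (support_add _ _), ?_⟩
      rw [map_add, h2, h4, tE_add _ hu (tf_single _ _), tE_single, ← mul_assoc (o x), ho.sq,
        one_mul, mul_add, Pi.single_add]
      abel) h
  exact ⟨w, h1, by rw [h2, h0, mul_zero, Pi.single_zero, sub_zero]⟩

theorem tE_smul {o : X3 → ℤ} (ho : Ori T o) (a : G) : ∃ η : ℤ, η * η = 1 ∧
    ∀ u : X3 → ℤ, tE o (fun x => u (a • x)) = η * tE o u := by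
  have k : ∀ x y, o (a • x) * o x = o (a • y) * o y := fun x y => by
    induction T.conn x y with
    | rel x y h =>
      obtain ⟨k, l, e⟩ := h
      by_cases h1 : (x, k) = (y, l)
      · rw [(Prod.mk.inj h1).1]
      · have p := ho.opp _ _ _ _ h1 e
        have q := ho.opp (a • x) k (a • y) l (fun b => h1 (by
          rw [smul_left_cancel a (Prod.mk.inj b).1, (Prod.mk.inj b).2])) (by rw [T.e3, T.e3, e])
        have b : ∀ m : ℕ, ((-1 : ℤ) ^ m) * (-1) ^ m = 1 := fun m => by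
          rw [← mul_pow]; simp
        linear_combination o x * (-1) ^ (k : ℕ) * q - o (a • y) * (-1) ^ (l : ℕ) * p -
          o (a • x) * o x * b k + o (a • y) * o y * b l
    | refl => rfl
    | symm _ _ _ ih => exact ih.symm
    | trans _ _ _ _ _ i1 i2 => exact i1.trans i2
  obtain ⟨y⟩ := T.ne
  refine ⟨o (a • y) * o y, by linear_combination o y * o y * ho.sq (a • y) + ho.sq y,
    fun u => ?_⟩
  rw [tE, tE, mul_finsum, ← finsum_comp_equiv (MulAction.toPerm a) (f := fun x => _ * (o x * u x))]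
  refine finsum_congr fun x => ?_
  rw [← k x y, MulAction.toPerm_apply]
  linear_combination (-(o x * u (a • x))) * ho.sq (a • x)

theorem tf_of (hM : Mfd T) [Infinite G] {o : X3 → ℤ} (ho : Ori T o) (a : G) (ha : a ≠ 1) :
    ¬ IsOfFinOrder a := by
  classical
  intro hf
  obtain ⟨y⟩ := T.ne
  have : Infinite X0 := Infinite.of_injective (fun g : G => g • T.d1 (T.d2 (T.d3 y 0) 0) 0)
    fun g g' e => (inv_mul_eq_one.1 (T.free _ _ (by
      rw [mul_smul, ← show g • _ = g' • _ from e, inv_smul_smul]))).symm.symm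
  have hn := hf.orderOf_pos
  have ch : ∀ {P Q : ∀ (Y : Type) [MulAction G Y], (Y → ℤ) → Y → ℤ}, TPair G ℤ P Q →
      TPair G ℤ Q P → tE o (P X3 (Pi.single y (o y))) = 0 →
      ∃ z, (support z).Finite ∧ tE o (Q X3 z) = 1 := fun hP hQ h => by
    obtain ⟨v, hv, e⟩ := tE_ker ho (hP.fin _ _ (tf_single _ _)) h
    obtain ⟨w, z, h1, h2, h3⟩ := tate_chase hP hQ T.free T.free1 T.free2 T.free3 (tD0 T) (tD1 T)
      (tD2 T) (fun g f => funext fun e => by simp only [tD0_ap, T.e1])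
      (fun g f => funext fun e => by simp only [tD1_ap, T.e2])
      (fun g f => funext fun e => by simp only [tD2_ap, T.e3]) (tD0_fin hM) tD1_fin tD2_fin
      (fun s => funext fun f => by simp only [tD1_ap, tD0_ap, sa, sb, sc', Pi.zero_apply]; ring)
      (fun s => funext fun x => by
        simp only [tD2_ap', tD1_ap, ce_e23, ce_e13, ce_e12, ce_e03, ce_e02, ce_e01, Pi.zero_apply]
        ring)
      (tf_c0 hM) (tf_c1 hM) (tf_c2 hM) (tf_single _ _) hv e
    refine ⟨z, h2, ?_⟩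
    have k := congrArg (tE o) h3
    rw [tE_single, ho.sq, tE_add _ (tD2_fin _ h1) (hQ.fin _ _ h2), tE_D2 ho h1, zero_add] at k
    exact k.symm
  obtain ⟨η, h1, h2⟩ := tE_smul ho a
  have hU : ∀ u : X3 → ℤ, (support u).Finite → tE o (tU a u) = (η - 1) * tE o u := fun u hu => by
    have k := h2 u
    rw [show (fun x => u (a • x)) = tU a u + u from funext fun x => (sub_add_cancel _ _).symm,
      tE_add _ (tU_fin hu) hu] at k
    linarith
  rcases mul_self_eq_one_iff.1 h1 with rfl | rfl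
  · obtain ⟨z, hz, e⟩ := ch (tpair_U hn rfl) (tpair_N hn rfl) (by
      rw [hU _ (tf_single _ _), sub_self, zero_mul])
    have k1 : ∀ m : ℕ, tE o (fun x => z (a ^ m • x)) = tE o z := fun m => by
      induction m with
      | zero => simp only [pow_zero, one_smul]
      | succ m ih =>
        simp only [pow_succ, mul_smul]
        rw [h2 (fun x => z (a ^ m • x)), ih, one_mul]
    have k2 : ∀ m : ℕ, tE o (tN a m z) = m * tE o z := fun m => by
      induction m with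
      | zero => exact (tE_zero o).trans (by simp)
      | succ m ih =>
        rw [show tN a (m + 1) z = tN a m z + fun x => z (a ^ m • x) from
          funext fun x => Finset.sum_range_succ _ _, tE_add _ (tN_fin hz) (tate_shift _ hz), ih, k1]
        push_cast
        ring
    rw [k2] at e
    have k3 : (orderOf a : ℤ) = 1 := Int.eq_one_of_mul_eq_one_right (by positivity) e
    exact ha (orderOf_eq_one_iff.1 (by exact_mod_cast k3))
  · obtain ⟨z, hz, e⟩ := ch (tpair_N hn rfl) (tpair_U hn rfl) (by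
      have k := hU _ (tN_fin (a := a) (n := orderOf a) (tf_single y (o y)))
      rw [tU_tN (pow_orderOf_eq_one a), tE_zero] at k
      linarith)
    rw [hU _ hz] at e
    omega

end Pool.Agent.Work.MP_3d425c_gt.Bg
end

-- merged part: Pool.Agent.Work.MP_3d425c_gt.Bg.Tf2
section
/-! Torsion-freeness without an orientation hypothesis, and two sources of infiniteness. -/

namespace Pool.Agent.Work.MP_3d425c_gt.Bg
open Set Relation Matrix Pool.Agent.Work.MP_3d425c_gt.Md Pool.Agent.Work.MP_3d425c_gt.Cy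
  Pool.Agent.Work.MP_3d425c_gt.Lt

variable {G X0 X1 X2 X3 : Type} [Group G] [MulAction G X0] [MulAction G X1] [MulAction G X2]
  [MulAction G X3] {T : Tri G X0 X1 X2 X3} {φ : X2 → ℝ ≃o ℝ}

theorem tf_disc (hM : Mfd T) (hD : Nv.Disc T) [Infinite G] (a : G) (ha : a ≠ 1) :
    ¬ IsOfFinOrder a := by
  obtain ⟨o, h1, h2⟩ := exists_or' hD
  exact tf_of hM ⟨h1, fun x k y l n e => eq_neg_iff_add_eq_zero.1 (h2 x k y l e n)⟩ a ha

theorem inf_of_nc (hN : T.NC φ) (hI : T.Inf φ) : Infinite G := by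
  by_contra hn
  have : Finite G := not_infinite_iff_finite.1 hn
  have := T.fin
  have : Finite X3 := Finite.of_surjective (fun p : G × Ob G X3 => p.1 • p.2.out) fun x => by
    obtain ⟨g, hg⟩ := ob_eq_iff.1 (ob_out (ob G x)).symm
    exact ⟨(g, ob G x), hg⟩
  obtain ⟨x⟩ := T.ne
  have m : ∀ {p q}, EqvGen (T.StepZ φ ∅) p q → EqvGen (T.Step φ) p q := fun h =>
    h.mono fun _ _ ⟨k, l, t, ht, _, e⟩ => ⟨k, l, t, ht, e⟩
  refine hI x (1 / 2) ⟨by norm_num, by norm_num⟩ (((finite_iUnion fun y : X3 =>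
    Set.Subsingleton.finite (s := {s | EqvGen (T.StepZ φ ∅) (x, 1 / 2) (y, s)}) fun s h s' h' =>
      hN y s s' (.trans _ _ _ (.symm _ _ (m h)) (m h'))).preimage' (f := Prod.snd)
      fun b _ => ?_).subset fun q ⟨y, _, h⟩ => mem_iUnion.2 ⟨y, h⟩)
  exact (finite_univ.prod (finite_singleton b)).subset fun q hq => ⟨trivial, hq⟩

theorem inf_of_lat {ρ : G →* ProjectiveSpecialLinearGroup (Fin 2) ℂ} (L : Lat ρ) :
    Infinite G := by
  by_contra hn
  have : Finite G := not_infinite_iff_finite.1 hn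
  have := Fintype.ofFinite G
  obtain ⟨R, hR⟩ := L.coc
  choose s hs using fun g => QuotientGroup.mk_surjective (ρ g)
  choose m hm using fun g => exists_bd (s g)
  obtain ⟨t, ht⟩ := exists_gt (2 * (∑ g, m g) * R)
  obtain ⟨g, y, hy, hb⟩ := hR (mk2 1 t 0 1 (by ring))
  have h1 : Bd (∑ g, m g) y := fun i j => by
    obtain ⟨e, e1, e2⟩ := lift_sign ((hs g).trans hy.symm)
    rw [e2, norm_mul, norm_sign e1, one_mul]
    exact (hm g i j).trans (Finset.single_le_sum (fun g _ => (hm g).nonneg) (Finset.mem_univ g))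
  have h2 := h1.inv.mul hb 0 1
  rw [inv_mul_cancel_left, mk2_01, Complex.norm_real] at h2
  exact ht.not_ge ((le_abs_self t).trans h2)

/-- a lattice acting on the complex is torsion-free with cyclic centralisers -/
theorem hyp_of_lat {ρ : G →* ProjectiveSpecialLinearGroup (Fin 2) ℂ} (L : Lat ρ) (hM : Mfd T)
    (hD : Nv.Disc T) : Hyp G :=
  have := inf_of_lat L
  L.hyp (tf_disc hM hD)

end Pool.Agent.Work.MP_3d425c_gt.Bg
end
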