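import Pool.Agent.Work.MP_3d425c_gt.Bq.Ibase
import Pool.Agent.Work.MP_3d425c_gt.Bg.LatEnd
import Pool.Agent.Work.MP_3d425c_gt.Bg.Tf2

-- merged part: Pool.Agent.Work.MP_3d425c_gt.Bq.Push
section
/-! The push-forward of relative cochains to the complex itself. -/

namespace Pool.Agent.Work.MP_3d425c_gt.Bq
open Set Relation Pool.Agent.Work.MP_3d425c_gt.Md Pool.Agent.Work.MP_3d425c_gt.Cy
  Pool.Agent.Work.MP_3d425c_gt.Bg

variable {G X0 X1 X2 X3 : Type} [Group G] [MulAction G X0] [MulAction G X1] [MulAction G X2]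
  [MulAction G X3] {T : Tri G X0 X1 X2 X3} {E : Subgroup G} {Ω : Type} [MulAction E Ω]

/-- a cocycle of the complex, invariant under `P`, with support finite modulo `P` -/
structure Wz (T : Tri G X0 X1 X2 X3) (P : Subgroup E) (z : X1 → ℝ) : Prop where
  coc : ∀ f, z (T.d2 f 1) = z (T.d2 f 2) + z (T.d2 f 0)
  inv : ∀ p ∈ P, ∀ e, z (p • e) = z e
  sup : SmP P (Function.support z)

theorem pu_sum {A B : Type} {S : Set A} {S' : Set B} (π : A → B) (φ : B → ℝ)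
    (h1 : ∀ a ∈ S, π a ∈ S') (h2 : ∀ b ∈ S', φ b ≠ 0 → ∃ a ∈ S, π a = b)
    (h3 : ∀ a ∈ S, ∀ a' ∈ S, φ (π a) ≠ 0 → π a = π a' → a = a') :
    ∑ᶠ a ∈ S, φ (π a) = ∑ᶠ b ∈ S', φ b := by
  rw [← finsum_mem_inter_support (fun a => φ (π a)) S, ← finsum_mem_inter_support φ S']
  refine finsum_mem_eq_of_bijOn π ⟨fun a ha => ⟨h1 a ha.1, ha.2⟩,
    fun a ha a' ha' e => h3 a ha.1 a' ha'.1 ha.2 e, fun b hb => ?_⟩ fun _ _ => rfl
  obtain ⟨a, ha, rfl⟩ := h2 b hb.1 hb.2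
  exact ⟨a, ⟨ha, hb.2⟩, rfl⟩

/-- the lifts of an edge -/
def Prs (W : Et T E Ω) (e : X1) : Set (Option Ω × Option Ω) := {p | W.Rp p.1 e p.2}

/-- sum over the fibre -/
noncomputable def pf0 (W : Et T E Ω) (s : Option Ω → ℝ) (x : X0) : ℝ :=
  ∑ᶠ a ∈ {a | W.pr a = x}, s (some a)

/-- sum over the lifts -/
noncomputable def pf1 (W : Et T E Ω) (z : Option Ω → X1 → Option Ω → ℝ) (e : X1) : ℝ :=
  ∑ᶠ p ∈ Prs W e, z p.1 e p.2

variable {W : Et T E Ω} {P : Subgroup E} {z z' : Option Ω → X1 → Option Ω → ℝ}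

theorem pu_fib (W : Et T E Ω) [Finite (Ob E Ω)] (x : X0) : {a | W.pr a = x}.Finite :=
  fib_finite (D := E) (fun g b h => Subtype.ext (T.free g b h)) W.pr W.pr_smul x

theorem pu_prs (W : Et T E Ω) [Finite (Ob E Ω)] (e : X1) : (Prs W e).Finite := by
  refine ((((pu_fib W (T.d1 e 1)).image some).insert none).prod
    (((pu_fib W (T.d1 e 0)).image some).insert none)).subset ?_
  rintro ⟨a, b⟩ h
  refine ⟨?_, ?_⟩
  · cases a with
    | none => exact Or.inl rfl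
    | some a => exact Or.inr ⟨a, W.rp_src h, rfl⟩
  · cases b with
    | none => exact Or.inl rfl
    | some b => exact Or.inr ⟨b, W.rp_tgt h, rfl⟩

theorem pf1_congr (h : ∀ a e b, W.Rp a e b → z a e b = z' a e b) (e : X1) :
    pf1 W z e = pf1 W z' e := finsum_mem_congr rfl fun _ k => h _ _ _ k

theorem pf1_add [Finite (Ob E Ω)] (z z' : Option Ω → X1 → Option Ω → ℝ) (e : X1) :
    pf1 W (fun a e b => z a e b + z' a e b) e = pf1 W z e + pf1 W z' e :=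
  finsum_mem_add_distrib (pu_prs W e)

theorem pf1_sum [Finite (Ob E Ω)] {I : Type} [Fintype I] (c : I → ℝ)
    (y : I → Option Ω → X1 → Option Ω → ℝ) (e : X1) :
    pf1 W (fun a e b => ∑ i, c i * y i a e b) e = ∑ i, c i * pf1 W (y i) e := by
  unfold pf1
  simp only [finsum_mem_eq_finite_toFinset_sum _ (pu_prs W e), Finset.mul_sum]
  exact Finset.sum_comm

theorem pf1_d [Finite (Ob E Ω)] {s : Option Ω → ℝ} (s0 : s none = 0) (e : X1) :
    pf1 W (fun a _ b => s b - s a) e = pf0 W s (T.d1 e 0) - pf0 W s (T.d1 e 1) := by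
  have one : ∀ x, pf0 W s x = ∑ᶠ o ∈ {o : Option Ω | ∀ b, o = some b → W.pr b = x}, s o :=
    fun x => pu_sum some s (fun a ha b e => Option.some.inj e ▸ ha) (fun o ho h => by
      cases o with
      | none => exact (h s0).elim
      | some b => exact ⟨b, ho b rfl, rfl⟩) fun a _ a' _ _ e => Option.some.inj e
  unfold pf1
  rw [finsum_mem_sub_distrib _ _ (pu_prs W e), one, one]
  congr 1
  · refine pu_sum Prod.snd s
      (fun p hp b k => W.rp_tgt (a := p.1) (k ▸ (hp : W.Rp p.1 e p.2))) (fun o ho h => ?_) ?_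
    · cases o with
      | none => exact (h s0).elim
      | some b =>
        obtain ⟨a, k⟩ := W.rp_tail (ho b rfl)
        exact ⟨(a, some b), k, rfl⟩
    · rintro ⟨a, b⟩ k ⟨a', b'⟩ k' h (rfl : b = b')
      cases b with
      | none => exact (h s0).elim
      | some b => exact Prod.ext (W.rp_inj k k') rfl
  · refine pu_sum Prod.fst s
      (fun p hp b k => W.rp_src (b := p.2) (k ▸ (hp : W.Rp p.1 e p.2))) (fun o ho h => ?_) ?_
    · cases o with
      | none => exact (h s0).elim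
      | some a =>
        obtain ⟨b, k⟩ := W.rp_head (ho a rfl)
        exact ⟨(some a, b), k, rfl⟩
    · rintro ⟨a, b⟩ k ⟨a', b'⟩ k' h (rfl : a = a')
      cases a with
      | none => exact (h s0).elim
      | some a => exact Prod.ext rfl (W.rp_fn k k')

theorem pf0_smul (s : Option Ω → ℝ) (g : E) (x : X0) :
    pf0 W s (g • x) = pf0 W (fun a => s (g • a)) x := by
  refine (finsum_mem_eq_of_bijOn (fun a => g • a) ⟨fun a ha => ?_,
    fun a _ a' _ e => MulAction.injective g e, fun b hb => ⟨g⁻¹ • b, ?_, smul_inv_smul g b⟩⟩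
    fun _ _ => rfl).symm
  · exact (W.pr_smul g a).trans (congrArg (g • ·) ha)
  · show W.pr (g⁻¹ • b) = x
    rw [W.pr_smul, show W.pr b = g • x from hb, inv_smul_smul]

theorem pf0_sm [Finite (Ob E Ω)] (s : Option Ω → ℝ) :
    SmP (⊤ : Subgroup E) (Function.support (pf0 W s)) := by
  refine ((smP_top (D := E) (univ : Set Ω)).image W.pr fun p _ a => W.pr_smul p a).mono
    fun x hx => ?_
  obtain ⟨a, ha, -⟩ := exists_ne_zero_of_finsum_mem_ne_zero hx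
  exact ⟨a, trivial, ha⟩

theorem pf1_smul (z : Option Ω → X1 → Option Ω → ℝ) (g : E) (e : X1) :
    pf1 W z (g • e) = ∑ᶠ p ∈ Prs W e, z (g • p.1) (g • e) (g • p.2) := by
  refine (finsum_mem_eq_of_bijOn (fun p : Option Ω × Option Ω => g • p)
    ⟨fun a ha => W.Rp_smul g ha, fun a _ a' _ e => MulAction.injective g e,
      fun b hb => ⟨g⁻¹ • b, ?_, smul_inv_smul g b⟩⟩ fun _ _ => rfl).symm
  have := W.Rp_smul g⁻¹ hb
  rwa [inv_smul_smul] at this

theorem pf1_sm1 [Finite (Ob E Ω)] (h : W.Rq P z) (e : X1) :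
    pf1 W (sm1 P z) e = sm0 P (pf1 W z) e := by
  unfold sm0
  simp only [pf1_smul]
  unfold pf1 sm1
  simp only [finsum_mem_eq_finite_toFinset_sum _ (pu_prs W e)]
  exact sum_finsum_comm _ _ fun p hp => h.fin ((pu_prs W e).mem_toFinset.1 hp)

theorem pf1_coc [Finite (Ob E Ω)] (h : W.Rq P z) (f : X2) :
    pf1 W z (T.d2 f 1) = pf1 W z (T.d2 f 2) + pf1 W z (T.d2 f 0) := by
  let Tr : Set (Option Ω × Option Ω × Option Ω) := {t | W.Rp t.1 (T.d2 f 2) t.2.1 ∧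
    W.Rp t.2.1 (T.d2 f 0) t.2.2 ∧ W.Rp t.1 (T.d2 f 1) t.2.2}
  have fin : Tr.Finite := by
    refine (((pu_prs W (T.d2 f 2)).prod (pu_prs W (T.d2 f 0))).preimage
      (f := fun t : Option Ω × Option Ω × Option Ω => ((t.1, t.2.1), (t.2.1, t.2.2)))
      fun t _ t' _ e => ?_).subset fun t ht => ⟨ht.1, ht.2.1⟩
    simp only [Prod.mk.injEq] at e
    exact Prod.ext e.1.1 (Prod.ext e.2.1 e.2.2)
  have e1 : ∑ᶠ t ∈ Tr, z t.1 (T.d2 f 1) t.2.2 = pf1 W z (T.d2 f 1) := by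
    refine pu_sum (fun t : Option Ω × Option Ω × Option Ω => (t.1, t.2.2))
      (fun p => z p.1 (T.d2 f 1) p.2) (fun t ht => ht.2.2) ?_ ?_
    · rintro ⟨a, c⟩ k n
      cases a with
      | some a =>
        obtain ⟨b, k'⟩ := W.rp_head (e := T.d2 f 2) ((W.rp_src k).trans (sa T f))
        exact ⟨(some a, b, c), ⟨k', W.rp_q0 k' k, k⟩, rfl⟩
      | none =>
        cases c with
        | none => exact (n (h.zero _)).elim
        | some c =>
          obtain ⟨b, k'⟩ := W.rp_tail (e := T.d2 f 0) ((W.rp_tgt (a := none) k).trans (sc' T f))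
          exact ⟨(none, b, some c), ⟨W.rp_q2 k k', k', k⟩, rfl⟩
    · rintro ⟨a, b, c⟩ k ⟨a', b', c'⟩ k' n e
      obtain ⟨rfl, rfl⟩ := Prod.mk.inj e
      cases a with
      | some a => exact Prod.ext rfl (Prod.ext (W.rp_fn k.1 k'.1) rfl)
      | none =>
        cases c with
        | none => exact (n (h.zero _)).elim
        | some c => exact Prod.ext rfl (Prod.ext (W.rp_inj k.2.1 k'.2.1) rfl)
  have e2 : ∑ᶠ t ∈ Tr, z t.1 (T.d2 f 2) t.2.1 = pf1 W z (T.d2 f 2) := by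
    refine pu_sum (fun t : Option Ω × Option Ω × Option Ω => (t.1, t.2.1))
      (fun p => z p.1 (T.d2 f 2) p.2) (fun t ht => ht.1) ?_ ?_
    · rintro ⟨a, b⟩ k n
      cases a with
      | some a =>
        obtain ⟨c, k'⟩ := W.rp_head (e := T.d2 f 1) ((W.rp_src k).trans (sa T f).symm)
        exact ⟨(some a, b, c), ⟨k, W.rp_q0 k k', k'⟩, rfl⟩
      | none =>
        cases b with
        | none => exact (n (h.zero _)).elim
        | some b =>
          obtain ⟨c, k'⟩ := W.rp_head (e := T.d2 f 0) ((W.rp_tgt (a := none) k).trans (sb T f).symm)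
          exact ⟨(none, some b, c), ⟨k, k', W.rp_q1 k k'⟩, rfl⟩
    · rintro ⟨a, b, c⟩ k ⟨a', b', c'⟩ k' n e
      obtain ⟨rfl, rfl⟩ := Prod.mk.inj e
      cases a with
      | some a => exact Prod.ext rfl (Prod.ext rfl (W.rp_fn k.2.2 k'.2.2))
      | none =>
        cases b with
        | none => exact (n (h.zero _)).elim
        | some b => exact Prod.ext rfl (Prod.ext rfl (W.rp_fn k.2.1 k'.2.1))
  have e0 : ∑ᶠ t ∈ Tr, z t.2.1 (T.d2 f 0) t.2.2 = pf1 W z (T.d2 f 0) := by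
    refine pu_sum (fun t : Option Ω × Option Ω × Option Ω => (t.2.1, t.2.2))
      (fun p => z p.1 (T.d2 f 0) p.2) (fun t ht => ht.2.1) ?_ ?_
    · rintro ⟨b, c⟩ k n
      cases b with
      | some b =>
        obtain ⟨a, k'⟩ := W.rp_tail (e := T.d2 f 2) ((W.rp_src k).trans (sb T f))
        exact ⟨(a, some b, c), ⟨k', k, W.rp_q1 k' k⟩, rfl⟩
      | none =>
        cases c with
        | none => exact (n (h.zero _)).elim
        | some c =>
          obtain ⟨a, k'⟩ := W.rp_tail (e := T.d2 f 1) ((W.rp_tgt (a := none) k).trans (sc' T f).symm)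
          exact ⟨(a, none, some c), ⟨W.rp_q2 k' k, k, k'⟩, rfl⟩
    · rintro ⟨a, b, c⟩ k ⟨a', b', c'⟩ k' n e
      obtain ⟨rfl, rfl⟩ := Prod.mk.inj e
      cases b with
      | some b => exact Prod.ext (W.rp_inj k.1 k'.1) rfl
      | none =>
        cases c with
        | none => exact (n (h.zero _)).elim
        | some c => exact Prod.ext (W.rp_inj k.2.2 k'.2.2) rfl
  rw [← e1, ← e2, ← e0, ← finsum_mem_add_distrib fin]
  exact finsum_mem_congr rfl fun t ht => h.coc f _ _ _ ht.1 ht.2.1 ht.2.2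

/-- edges at a set of vertices that is finite modulo `P` -/
theorem pu_edges (hM : Mfd T) {S : Set X0} (h : SmP P S) :
    SmP P {e | ∃ i, T.d1 e i ∈ S} := by
  obtain ⟨K, hK, h⟩ := h
  refine ⟨⋃ k ∈ K, ⋃ i, {e | T.d1 e i = k}, hK.biUnion fun k _ => finite_iUnion fun i =>
    hM.edges_finite k i, ?_⟩
  rintro e ⟨i, hi⟩
  obtain ⟨k, hk, p, hp, c⟩ := h _ hi
  refine ⟨p⁻¹ • e, mem_biUnion hk (mem_iUnion.2 ⟨i, ?_⟩), p, hp, (smul_inv_smul p e).symm⟩
  exact (T.e1 _ e i).trans (inv_smul_eq_iff.2 c)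

theorem pf1_wz (hM : Mfd T) [Finite (Ob E Ω)] (h : W.Rq P z) : Wz T P (pf1 W z) := by
  refine ⟨pf1_coc h, fun p hp e => (pf1_smul z p e).trans
    (finsum_mem_congr rfl fun _ k => h.inv p hp _ _ _ k), ?_⟩
  obtain ⟨S, hS, hs⟩ := h.sup
  refine (pu_edges hM (hS.image W.pr fun p _ a => W.pr_smul p a)).mono fun e he => ?_
  obtain ⟨⟨a, b⟩, k, n⟩ := exists_ne_zero_of_finsum_mem_ne_zero he
  obtain ⟨x, hx, rfl | rfl⟩ := hs a e b k n
  · exact ⟨1, x, hx, W.rp_src k⟩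
  · exact ⟨0, x, hx, W.rp_tgt k⟩

end Pool.Agent.Work.MP_3d425c_gt.Bq
end

-- merged part: Pool.Agent.Work.MP_3d425c_gt.Bg.Sc
section
/-! Closed paths close up in every cover that contains a large ball. -/

namespace Pool.Agent.Work.MP_3d425c_gt.Bg
open Set Relation Pool.Agent.Work.MP_3d425c_gt.Md Pool.Agent.Work.MP_3d425c_gt.Cy

variable {G X0 X1 X2 X3 : Type} [Group G] [MulAction G X0] [MulAction G X1] [MulAction G X2]
  [MulAction G X3] {T : Tri G X0 X1 X2 X3} {E : Subgroup G} {Ω : Type} [MulAction E Ω]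

/-- lifts of `p` and of `q` have the same ends in every cover with a large ball -/
def sc_Sim (T : Tri G X0 X1 X2 X3) (E : Subgroup G) (v : X0) (p q : List (X1 × Bool)) : Prop :=
  ∃ ρ : ℕ, ∀ (Ω : Type) [MulAction E Ω] (W : Et T E Ω) (ω : Ω),
    W.pr ω = v → W.Lifts ω ρ → ∀ b, Pth W.R ω p b ↔ Pth W.R ω q b

theorem sc_equiv (T : Tri G X0 X1 X2 X3) (E : Subgroup G) (v : X0) :
    Equivalence (sc_Sim T E v) where
  refl _ := ⟨0, fun _ _ _ _ _ _ _ => Iff.rfl⟩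
  symm := fun ⟨ρ, h⟩ => ⟨ρ, fun Ω _ W ω a b c => (h Ω W ω a b c).symm⟩
  trans := fun ⟨ρ, h⟩ ⟨ρ', h'⟩ => ⟨max ρ ρ', fun Ω _ W ω a b c =>
    (h Ω W ω a (fun q u k l => b q u k (l.trans (le_max_left _ _))) c).trans
      (h' Ω W ω a (fun q u k l => b q u k (l.trans (le_max_right _ _))) c)⟩

theorem sc_app {v : X0} {p q : List (X1 × Bool)} (h : sc_Sim T E v p q) (r : List (X1 × Bool)) :
    sc_Sim T E v (p ++ r) (q ++ r) := by
  obtain ⟨ρ, h⟩ := h
  refine ⟨ρ, fun Ω _ W ω a b c => ⟨fun k => ?_, fun k => ?_⟩⟩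
  · obtain ⟨x, k1, k2⟩ := k.split
    exact ((h Ω W ω a b x).1 k1).append k2
  · obtain ⟨x, k1, k2⟩ := k.split
    exact ((h Ω W ω a b x).2 k1).append k2

theorem sc_of {v u : X0} {p q q₁ q₂ : List (X1 × Bool)} (hp : Pth (bR T) v (p ++ q) u)
    (h : ∀ (Ω : Type) [MulAction E Ω] (W : Et T E Ω) (a b : Ω), Pth W.R a q b →
      ∃ c, Pth W.R a q₁ c ∧ Pth W.R a q₂ c) : sc_Sim T E v (p ++ q₁) (p ++ q₂) := by
  refine ⟨(p ++ q).length, fun Ω _ W ω a b x => ?_⟩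
  obtain ⟨y, hy⟩ := b _ u (a ▸ hp) le_rfl
  obtain ⟨z, k1, k2⟩ := hy.split
  obtain ⟨c, k3, k4⟩ := h Ω W z y k2
  exact ⟨fun k => Pth.det W (k1.append k3) k ▸ k1.append k4,
    fun k => Pth.det W (k1.append k4) k ▸ k1.append k3⟩

theorem sc_rv (q : List (X1 × Bool)) : rv (rv q) = q := by
  simp [rv, List.map_reverse, Function.comp_def]

theorem sc_can {v u w : X0} {p q : List (X1 × Bool)} (hp : Pth (bR T) v p u)
    (hq : Pth (bR T) u q w) : sc_Sim T E v (p ++ q ++ rv q) p := by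
  have := sc_of (E := E) (q₁ := q ++ rv q) (q₂ := []) (hp.append hq)
    fun _ _ W a b k => ⟨a, k.append k.rv, .nil a⟩
  rwa [List.append_nil, ← List.append_assoc] at this

theorem sc_can' {v u w : X0} {p q : List (X1 × Bool)} (hp : Pth (bR T) v p u)
    (hq : Pth (bR T) w q u) : sc_Sim T E v (p ++ rv q ++ q) p := by
  have := sc_can (E := E) hp hq.rv
  rwa [sc_rv] at this

theorem sc_one {R : Ω → X1 → Ω → Prop} {a b : Ω} {l : X1 × Bool} (h : St R a l b) :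
    Pth R a [l] b := .cons h (.nil b)

theorem sc_edge (T : Tri G X0 X1 X2 X3) (e : X1) :
    Pth (bR T) (T.d1 e 1) [(e, true)] (T.d1 e 0) := sc_one ⟨rfl, rfl⟩

theorem sc_tri {v : X0} {p : List (X1 × Bool)} {f : X2} (hp : Pth (bR T) v p (T.d1 (T.d2 f 2) 1)) :
    sc_Sim T E v (p ++ ([(T.d2 f 2, true)] ++ [(T.d2 f 0, true)])) (p ++ [(T.d2 f 1, true)]) := by
  refine sc_of (hp.append ((sc_edge T _).append (sb T f ▸ sc_edge T (T.d2 f 0))))
    fun _ _ W a b k => ⟨b, k, ?_⟩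
  cases k with
  | cons k1 k2 =>
    cases k2 with
    | cons k3 k4 =>
      cases k4
      exact sc_one (W.t1 f _ _ _ k1 k3)

/-- closed paths up to `sc_Sim` -/
def sc_S (T : Tri G X0 X1 X2 X3) (E : Subgroup G) (v : X0) : Setoid {p // Pth (bR T) v p v} :=
  ⟨fun p q => sc_Sim T E v p.1 q.1, (sc_equiv T E v).comap _⟩

/-- appending a closed path -/
def sc_A (E : Subgroup G) {v : X0} {r : List (X1 × Bool)} (h : Pth (bR T) v r v) :
    Quotient (sc_S T E v) → Quotient (sc_S T E v) :=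
  Quotient.map' (fun p => ⟨p.1 ++ r, p.2.append h⟩) fun _ _ k => sc_app k r

/-- appending a closed path is a permutation -/
def sc_P (E : Subgroup G) {v : X0} {r : List (X1 × Bool)} (h : Pth (bR T) v r v) :
    Equiv.Perm (Quotient (sc_S T E v)) where
  toFun := sc_A E h
  invFun := sc_A E h.rv
  left_inv x := Quotient.inductionOn x fun p => Quotient.sound (sc_can p.2 h)
  right_inv x := Quotient.inductionOn x fun p => Quotient.sound (sc_can' p.2 h)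

theorem sc_close (hM : Mfd T) (E : Subgroup G) {v : X0} {q : List (X1 × Bool)}
    (hq : Pth (bR T) v q v) : ∃ ρ : ℕ, ∀ (Ω : Type) [MulAction E Ω] (W : Et T E Ω) (ω : Ω),
      W.pr ω = v → W.Lifts ω ρ → Pth W.R ω q ω := by
  choose al hal using hM.conn v
  have lp : ∀ e, Pth (bR T) v (al (T.d1 e 1) ++ [(e, true)] ++ rv (al (T.d1 e 0))) v := fun e =>
    ((hal _).append (sc_edge T e)).append (hal _).rv
  have eq := sc_equiv T E v
  have st : ∀ e p, Pth (bR T) v p (T.d1 e 1) → sc_Sim T E v (p ++ rv (al (T.d1 e 1)) ++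
      (al (T.d1 e 1) ++ [(e, true)] ++ rv (al (T.d1 e 0))))
      (p ++ [(e, true)] ++ rv (al (T.d1 e 0))) := fun e p hp => by
    have := sc_app (sc_app (sc_can' (E := E) hp (hal _)) [(e, true)]) (rv (al (T.d1 e 0)))
    simpa only [List.append_assoc] using this
  obtain ⟨s, hs⟩ := hM.sc _ (fun e => (sc_P E (lp e))⁻¹) fun f => by
    rw [← mul_inv_rev, inv_inj]
    ext x
    refine Quotient.inductionOn x fun p => Quotient.sound (eq.symm ?_)
    have a := st (T.d2 f 0) _ (sb T f ▸ (p.2.append (hal _)).append (sc_edge T (T.d2 f 2)))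
    have b := sc_app (sc_tri (E := E) (p.2.append (hal (T.d1 (T.d2 f 2) 1))))
      (rv (al (T.d1 (T.d2 f 0) 0)))
    rw [sb T f] at a
    simp only [List.append_assoc] at a b
    have c := eq.trans a b
    simpa only [List.append_assoc, sa T f, sb T f, sc' T f] using c
  have hs' : ∀ e, sc_P E (lp e) = s (T.d1 e 0) * (s (T.d1 e 1))⁻¹ := fun e => by
    rw [← inv_inj, hs, mul_inv_rev, inv_inv]
  obtain ⟨c, hc⟩ : ∃ c : ∀ p u, Pth (bR T) v p u → Quotient (sc_S T E v), ∀ p u h,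
      c p u h = (s u)⁻¹ (Quotient.mk _ ⟨p ++ rv (al u), h.append (hal u).rv⟩) :=
    ⟨_, fun _ _ _ => rfl⟩
  have k1 : ∀ e p (h : Pth (bR T) v p (T.d1 e 1)),
      c _ _ (h.append (sc_edge T e)) = c p _ h := fun e p h => by
    rw [hc, hc, ← Equiv.Perm.eq_inv_iff_eq, inv_inv, ← Equiv.Perm.mul_apply, ← hs']
    exact Quotient.sound (eq.symm (st e p h))
  have k2 : ∀ p p' u (h : Pth (bR T) v p u) (h' : Pth (bR T) v p' u), sc_Sim T E v p p' →
      c p u h = c p' u h' := fun p p' u h h' k => by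
    rw [hc, hc]
    exact congrArg _ (Quotient.sound (sc_app k _))
  have k3 : ∀ {u r w} (hr : Pth (bR T) u r w) p (h : Pth (bR T) v p u),
      c _ _ (h.append hr) = c p u h := by
    intro u r w hr
    induction hr with
    | nil a => exact fun p h => k2 _ _ _ _ _ (by rw [List.append_nil]; exact eq.refl _)
    | @cons a l b r w h1 h2 ih =>
      intro p h
      have e1 := ih _ (h.append (sc_one h1))
      refine (k2 _ _ _ _ _ (by rw [List.append_assoc]; exact eq.refl _)).trans (e1.trans ?_)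
      obtain ⟨e, _ | _⟩ := l
      · obtain ⟨rfl, rfl⟩ : b = T.d1 e 1 ∧ a = T.d1 e 0 := h1
        exact (k1 e _ _).symm.trans (k2 _ _ _ _ _ (sc_can' h (sc_edge T e)))
      · obtain ⟨rfl, rfl⟩ : a = T.d1 e 1 ∧ b = T.d1 e 0 := h1
        exact k1 e p h
  have k4 := k3 hq [] (.nil v)
  rw [hc, hc] at k4
  have k5 : sc_Sim T E v _ _ := Quotient.exact (Equiv.injective _ k4)
  obtain ⟨ρ, h⟩ := eq.trans (eq.symm (sc_can' hq (hal v)))
    (eq.trans (sc_app k5 (al v)) (sc_can' (.nil v) (hal v)))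
  exact ⟨ρ, fun Ω _ W ω a b => (h Ω W ω a b ω).2 (.nil ω)⟩

end Pool.Agent.Work.MP_3d425c_gt.Bg
end

-- merged part: Pool.Agent.Work.MP_3d425c_gt.Bq.Lift
section
/-! Cocycles with support finite modulo a subgroup lift to every stage of large radius. -/

namespace Pool.Agent.Work.MP_3d425c_gt.Bq
open Set Relation Pool.Agent.Work.MP_3d425c_gt.Md Pool.Agent.Work.MP_3d425c_gt.Cy
  Pool.Agent.Work.MP_3d425c_gt.Bg

variable {G X0 X1 X2 X3 : Type} [Group G] [MulAction G X0] [MulAction G X1] [MulAction G X2]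
  [MulAction G X3] {T : Tri G X0 X1 X2 X3} {E : Subgroup G} {Ω : Type} [MulAction E Ω]

/-- an equivariant section over a set of edges that is finite modulo `P` -/
theorem li_sec (hM : Mfd T) {P : Subgroup E} {U : Set X1} (hU : SmP P U) (v : X0)
    (p : E → List (X1 × Bool)) (hp : ∀ g : E, Pth (bR T) v (p g) (g • v)) :
    ∃ (S₀ : Set E) (ρ₀ : ℕ), S₀.Finite ∧ ∀ (Ω : Type) [MulAction E Ω] (W : Et T E Ω) (ω : Ω),
      W.pr ω = v → W.Lifts ω ρ₀ → (∀ g ∈ S₀, Pth W.R ω (p g) (g • ω)) →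
      ∃ σ : X0 → Ω, (∀ g ∈ P, ∀ x, σ (g • x) = g • σ x) ∧
        ∀ e ∈ U, W.R (σ (T.d1 e 1)) e (σ (T.d1 e 0)) := by
  classical
  obtain ⟨K, hK, hU⟩ := hU
  let r : X0 → X0 := fun x => (Quotient.mk (MulAction.orbitRel P X0) x).out
  have hr : ∀ (g : P) x, r (g • x) = r x := fun g x =>
    congrArg Quotient.out (Quotient.sound (MulAction.mem_orbit x g))
  have ex : ∀ x, ∃ g : P, g • r x = x := fun x =>
    (MulAction.orbitRel P X0).symm (Quotient.mk_out (s := MulAction.orbitRel P X0) x)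
  choose γ hγ using ex
  have uq : ∀ (g g' : P) (x : X0), g • x = g' • x → g = g' := fun g g' x c =>
    (inv_mul_eq_one.1 (Subtype.ext ((base T E).free (g'⁻¹ * g : P) x
      (show (g'⁻¹ * g) • x = x by rw [mul_smul, c, inv_smul_smul])))).symm
  have γm : ∀ (g : P) x, γ (g • x) = g * γ x := fun g x =>
    uq _ _ (r x) (by rw [mul_smul, hγ, ← hr g x, hγ])
  choose q hq using hM.conn v
  let Q : X0 → List (X1 × Bool) := fun x =>
    p (γ x).1 ++ (q (r x)).map fun l => ((γ x).1 • l.1, l.2)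
  have hQ : ∀ x, Pth (bR T) v (Q x) x := fun x => by
    have := (hp (γ x).1).append (Pth.smul (base T E) (γ x).1 (hq (r x)))
    rwa [show (γ x).1 • r x = x from hγ x] at this
  have lp : ∀ e, Pth (bR T) v (Q (T.d1 e 1) ++ [(e, true)] ++ rv (Q (T.d1 e 0))) v := fun e =>
    ((hQ _).append (sc_edge T e)).append (hQ _).rv
  choose ρ hρ using fun e => sc_close hM E (lp e)
  obtain ⟨m, hm⟩ := (hK.image fun e => max (ρ e)
    (max (q (r (T.d1 e 0))).length (q (r (T.d1 e 1))).length)).bddAbove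
  refine ⟨⋃ i, (fun e => (γ (T.d1 e i)).1) '' K, m, finite_iUnion fun i => hK.image _,
    fun Ω _ W ω h1 h2 h3 => ?_⟩
  let τ : X0 → Ω := fun y => if k : ∃ b, Pth W.R ω (q y) b then k.choose else ω
  have hτ : ∀ y, (q y).length ≤ m → Pth W.R ω (q y) (τ y) := fun y hy => by
    have k := h2 (q y) y (h1 ▸ hq y) hy
    simp only [τ, dif_pos k]
    exact k.choose_spec
  have eqv : ∀ g ∈ P, ∀ x, (γ (g • x)).1 • τ (r (g • x)) = g • (γ x).1 • τ (r x) := fun g hg x => by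
    have a1 : r (g • x) = r x := hr ⟨g, hg⟩ x
    have a2 : γ (g • x) = ⟨g, hg⟩ * γ x := γm ⟨g, hg⟩ x
    rw [a1, a2, ← mul_smul]
    rfl
  have up : ∀ e ∈ K, ∀ i, Pth W.R ω (Q (T.d1 e i)) ((γ (T.d1 e i)).1 • τ (r (T.d1 e i))) := by
    intro e he i
    refine (h3 _ (mem_iUnion.2 ⟨i, e, he, rfl⟩)).append (Pth.smul W _ (hτ _ ?_))
    refine le_trans ?_ (hm ⟨e, he, rfl⟩)
    fin_cases i
    · exact (le_max_left _ _).trans (le_max_right _ _)
    · exact (le_max_right _ _).trans (le_max_right _ _)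
  refine ⟨fun x => (γ x).1 • τ (r x), eqv, fun e he => ?_⟩
  obtain ⟨k, hk, g, hg, rfl⟩ := hU e he
  have cl := hρ k Ω W ω h1 fun q u a b => h2 q u a
    (b.trans ((le_max_left _ _).trans (hm ⟨k, hk, rfl⟩)))
  obtain ⟨b, c1, c2⟩ := cl.split
  obtain ⟨a, c3, c4⟩ := c1.split
  have c5 := c2.rv
  rw [sc_rv] at c5
  have c6 : W.R a k b := by
    cases c4 with
    | cons s t =>
      cases t
      exact s
  rw [Pth.det W c3 (up k hk 1), Pth.det W c5 (up k hk 0)] at c6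
  have e1 : ∀ i, T.d1 (g • k) i = g • T.d1 k i := fun i => T.e1 g k i
  beta_reduce
  rw [e1, e1, eqv g hg, eqv g hg]
  exact W.R_smul g _ _ _ c6

/-- the lift of a cocycle along a section -/
theorem li_coc {P : Subgroup E} {z : X1 → ℝ} (hz : Wz T P z) (W : Et T E Ω) {σ : X0 → Ω}
    (h1 : ∀ g ∈ P, ∀ x, σ (g • x) = g • σ x)
    (h2 : ∀ e, z e ≠ 0 → W.R (σ (T.d1 e 1)) e (σ (T.d1 e 0))) :
    ∃ y, W.Rq P y ∧ ∀ e, pf1 W y e = z e := by
  classical
  refine ⟨fun a e _ => if a = some (σ (T.d1 e 1)) then z e else 0, ⟨fun e => if_neg nofun,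
    fun f a b c k2 k0 k1 => ?_, fun g hg a e b _ => ?_, ?_⟩, fun e => ?_⟩
  · have c := hz.coc f
    rw [sa T f, sb T f]
    by_cases n : z (T.d2 f 0) = 0
    · rw [c, n]
      split_ifs <;> simp
    have r0 := h2 _ n
    have r2 : W.R (σ (T.d1 (T.d2 f 2) 1)) (T.d2 f 2) (σ (T.d1 (T.d2 f 2) 0)) := by
      by_cases n2 : z (T.d2 f 2) = 0
      · have r1 := h2 (T.d2 f 1) (by rwa [c, n2, zero_add])
        rw [sa T f, sc' T f] at r1
        rw [sb T f] at r0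
        exact W.t3 f _ _ _ r1 r0
      · exact h2 _ n2
    by_cases ha : a = some (σ (T.d1 (T.d2 f 2) 1))
    · subst ha
      rw [if_pos rfl, if_pos rfl, if_pos (W.rp_fn k2 (b' := some _) r2), c]
    · rw [if_neg ha, if_neg ha, if_neg, add_zero]
      rintro rfl
      exact ha (W.rp_inj k2 (a' := some _) r2)
  · have e1 : T.d1 (g • e) 1 = g • T.d1 e 1 := T.e1 g e 1
    rw [e1, h1 g hg, hz.inv g hg]
    refine if_congr ⟨fun k => MulAction.injective g k, fun k => congrArg (g • ·) k⟩ rfl rfl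
  · refine ⟨_, hz.sup.image (fun e => σ (T.d1 e 1)) fun g hg e => ?_, fun a e b _ n => ?_⟩
    · exact (congrArg σ (T.e1 g e 1)).trans (h1 g hg _)
    · by_cases ha : a = some (σ (T.d1 e 1))
      · rw [if_pos ha] at n
        exact ⟨_, ⟨e, n, rfl⟩, Or.inl ha⟩
      · exact (n (if_neg ha)).elim
  · by_cases n : z e = 0
    · rw [n]
      exact finsum_mem_eq_zero_of_forall_eq_zero fun p _ => by simp only [n, ite_self]
    · have r := h2 e n
      unfold pf1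
      rw [finsum_mem_inter_support_eq' _ _ {(some (σ (T.d1 e 1)), some (σ (T.d1 e 0)))},
        finsum_mem_singleton]
      · exact if_pos rfl
      rintro ⟨a, b⟩ hx
      have ha : a = some (σ (T.d1 e 1)) := by_contra fun k => hx (if_neg k)
      subst ha
      exact ⟨fun k => Prod.ext rfl (W.rp_fn k (b' := some _) r), fun k => by
        rw [mem_singleton_iff.1 k]
        exact r⟩

/-- finitely many cocycles lift -/
theorem lift (hM : Mfd T) {I : Type} [Finite I] {P : I → Subgroup E} {z : I → X1 → ℝ}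
    (hz : ∀ i, Wz T (P i) (z i)) (v : X0) (p : E → List (X1 × Bool))
    (hp : ∀ g : E, Pth (bR T) v (p g) (g • v)) :
    ∃ (S₀ : Set E) (ρ₀ : ℕ), S₀.Finite ∧ ∀ (Ω : Type) [MulAction E Ω] (W : Et T E Ω) (ω : Ω),
      W.pr ω = v → W.Lifts ω ρ₀ → (∀ g ∈ S₀, Pth W.R ω (p g) (g • ω)) →
      ∀ i, ∃ y, W.Rq (P i) y ∧ ∀ e, pf1 W y e = z i e := by
  choose S ρ h1 h2 using fun i => li_sec hM (hz i).sup v p hp
  obtain ⟨m, hm⟩ := (finite_range ρ).bddAbove
  refine ⟨⋃ i, S i, m, finite_iUnion h1, fun Ω _ W ω a b c i => ?_⟩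
  obtain ⟨σ, s1, s2⟩ := h2 i Ω W ω a (fun q u k l => b q u k (l.trans (hm ⟨i, rfl⟩)))
    fun g hg => c g (mem_iUnion.2 ⟨i, hg⟩)
  exact li_coc (hz i) W s1 s2

end Pool.Agent.Work.MP_3d425c_gt.Bq
end

-- merged part: Pool.Agent.Work.MP_3d425c_gt.Bg.Tower
section
/-! The tower stops. -/

namespace Pool.Agent.Work.MP_3d425c_gt.Bg
open Set Relation Pool.Agent.Work.MP_3d425c_gt.Md Pool.Agent.Work.MP_3d425c_gt.Cy

variable {G X0 X1 X2 X3 : Type} [Group G] [MulAction G X0] [MulAction G X1] [MulAction G X2]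
  [MulAction G X3] {T : Tri G X0 X1 X2 X3} {E : Subgroup G} {Ω : Type} [MulAction E Ω]

theorem tw_map {D A B : Type} [Group D] [MulAction D A] [MulAction D B] (f : A → B)
    (hf : ∀ (g : D) a, f (g • a) = g • f a) (hi : Function.Injective f) :
    ∃ j : Ob D A → Ob D B, Function.Injective j ∧
      ∀ a, j (Quotient.mk _ a) = Quotient.mk _ (f a) := by
  refine ⟨Quotient.map f ?_, ?_, fun _ => rfl⟩
  · rintro a b ⟨g, hg⟩
    exact ⟨g, by rw [← hg]; exact (hf g b).symm⟩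
  · intro x y
    induction x using Quotient.inductionOn with | _ a => ?_
    induction y using Quotient.inductionOn with | _ b => ?_
    intro e
    obtain ⟨g, hg⟩ := Quotient.exact e
    exact Quotient.sound ⟨g, hi ((hf g b).trans hg)⟩

theorem tw_surj {D A B : Type} [Group D] [MulAction D A] [MulAction D B] [Finite (Ob D B)]
    (f : A → B) (hf : ∀ (g : D) a, f (g • a) = g • f a) (hi : Function.Injective f)
    (hc : oc D B ≤ oc D A) : Function.Surjective f := by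
  obtain ⟨j, hj, e⟩ := tw_map f hf hi
  intro b
  obtain ⟨x, hx⟩ := (hj.bijective_of_nat_card_le hc).2 (Quotient.mk _ b)
  induction x using Quotient.inductionOn with | _ a => ?_
  obtain ⟨g, hg⟩ := Quotient.exact ((e a).symm.trans hx)
  exact ⟨g⁻¹ • a, by rw [hf, ← hg]; exact inv_smul_smul g b⟩

/-- the present edges -/
def tw_Ed (W : Et T E Ω) : SubMulAction E (Ω × X1 × Ω) :=
  ⟨{t | W.R t.1 t.2.1 t.2.2}, fun g _ h => W.R_smul g _ _ _ h⟩

theorem tw_fin (hM : Mfd T) (W : Et T E Ω) [Finite (Ob E Ω)] : Finite (Ob E (tw_Ed W)) := by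
  have := hM.finC1 W (m := 2) two_pos 2
  have hn : ∀ a b : Ω, np ![some a, some b] = 2 := fun a b => by
    unfold np
    rw [Finset.filter_true_of_mem fun i _ => by fin_cases i <;> rfl]
    simp
  obtain ⟨j, hj, -⟩ := tw_map (D := E) (A := tw_Ed W) (B := W.C1 2 2)
    (fun t => ⟨(t.1.2.1, ![some t.1.1, some t.1.2.2]), t.2, (hn _ _).symm ▸ ⟨le_rfl, le_rfl⟩⟩)
    (fun g t => Subtype.ext (Prod.ext rfl (funext fun i => by fin_cases i <;> rfl)))
    (fun t t' e => by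
      have e1 := congrArg Subtype.val e
      have e2 := congrArg Prod.snd e1
      have e3 := congrArg Prod.fst e1
      exact Subtype.ext (Prod.ext (Option.some.inj (congrFun e2 0))
        (Prod.ext e3 (Option.some.inj (congrFun e2 1)))))
  exact Finite.of_injective j hj

/-- pairs of short paths whose ends lie in one orbit -/
def tw_Pr (W : Et T E Ω) (ω : Ω) (ρ : ℕ) : Set (List (X1 × Bool) × List (X1 × Bool)) :=
  {t | t.1.length ≤ ρ ∧ t.2.length ≤ ρ ∧ ∃ (g : E) (b : Ω), Pth W.R ω t.1 (g • b) ∧ Pth W.R ω t.2 b}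

theorem tw_Pr_fin (hM : Mfd T) (W : Et T E Ω) (ω : Ω) (ρ : ℕ) : (tw_Pr W ω ρ).Finite := by
  have k := hM.paths_finite (W.pr ω) ρ
  have dn : ∀ {q b}, Pth W.R ω q b → Pth (bR T) (W.pr ω) q (W.pr b) := fun h =>
    Pth.map W.pr (fun a e b h => ⟨W.src a e b h, W.tgt a e b h⟩) h
  refine (k.prod k).subset ?_
  rintro t ⟨h1, h2, g, b, h3, h4⟩
  exact ⟨⟨h1, _, dn h3⟩, h2, _, dn h4⟩

theorem tower (hM : Mfd T) (hG : Hyp G) (hE : ¬ E.FiniteIndex) (D : Dat T E) :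
    ∃ (Ω : Type) (_ : MulAction E Ω) (W : Et T E Ω) (ω : Ω), W.Fc ω ∧ W.Zp ∧ W.Top := by
  classical
  let P : ℕ → ℕ → Prop := fun n m => ∃ (Ω : Type) (_ : MulAction E Ω) (W : Et T E Ω) (ω : Ω),
    Stg D W ω ∧ (tw_Pr W ω D.ρ).ncard = n ∧ oc E (tw_Ed W) = m
  have h1 : ∃ n, ∃ m, P n m := by
    obtain ⟨F, h, hS⟩ := start hM hG D
    exact ⟨_, _, _, _, _, _, hS, rfl, rfl⟩
  have h2 := Nat.find_spec h1
  obtain ⟨Ω, _, W, ω, hS, e1, e2⟩ := Nat.find_spec h2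
  obtain ⟨Λ, hΛ⟩ := D.key Ω W ω hS.pr hS.lifts hS.gen
  refine ⟨Ω, inferInstance, W, ω, hS.fc, hS.z, Λ, fun χ h h0 => ?_⟩
  obtain ⟨F, hF, hS', hinj⟩ := step hM hE hS h (hΛ χ h h0)
  have dn : ∀ {x y : Lv Ω} {q}, Pth (W.cov h).R x q y → Pth W.R x.p q y.p := fun k =>
    Pth.map Lv.p (fun _ _ _ k => k.1) k
  have dn' : ∀ {x y : F} {q}, Pth ((W.cov h).res F).R x q y → Pth (W.cov h).R x.1 q y.1 :=
    fun k => Pth.map Subtype.val (fun _ _ _ k => k) k
  have sub : tw_Pr ((W.cov h).res F) ⟨⟨ω, 0⟩, hF⟩ D.ρ ⊆ tw_Pr W ω D.ρ := by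
    rintro t ⟨a1, a2, g, b, a3, a4⟩
    exact ⟨a1, a2, g, b.1.p, dn (dn' a3), dn (dn' a4)⟩
  have eq : tw_Pr ((W.cov h).res F) ⟨⟨ω, 0⟩, hF⟩ D.ρ = tw_Pr W ω D.ρ :=
    Set.eq_of_subset_of_ncard_le sub
      (e1 ▸ Nat.find_min' h1 ⟨_, _, _, _, _, hS', rfl, rfl⟩) (tw_Pr_fin hM W ω D.ρ)
  have inj : ∀ x ∈ F, ∀ y ∈ F, x.p = y.p → x = y := by
    refine hinj ?_
    rintro x ⟨g, q, b, a1, a2, rfl⟩ y ⟨g', q', b', a3, a4, rfl⟩ e
    refine Lv.ext e ?_
    have e' : b.p = (g⁻¹ * g') • b'.p := by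
      rw [mul_smul, eq_inv_smul_iff]; exact e
    have m : (q, q') ∈ tw_Pr W ω D.ρ := ⟨a1, a3, g⁻¹ * g', b'.p, e' ▸ dn a2, dn a4⟩
    rw [← eq] at m
    obtain ⟨-, -, g'', c, a5, a6⟩ := m
    have k1 := Pth.det (W.cov h) a2 (dn' a5)
    have k2 := Pth.det (W.cov h) a4 (dn' a6)
    change b.r = b'.r
    rw [k1, k2]
    rfl
  have := hS.fc.fin
  have := tw_fin hM W
  have sj : Function.Surjective (fun t : tw_Ed ((W.cov h).res F) =>
      (⟨(t.1.1.1.p, t.1.2.1, t.1.2.2.1.p), t.2.1⟩ : tw_Ed W)) := by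
    refine tw_surj (D := E) _ (fun _ _ => rfl) (fun t t' e => ?_)
      (e2 ▸ Nat.find_min' h2 ⟨_, _, _, _, hS', eq ▸ e1, rfl⟩)
    have a1 := congrArg Subtype.val e
    have a2 := congrArg Prod.snd a1
    have a3 := congrArg Prod.fst a2
    exact Subtype.ext (Prod.ext (Subtype.ext (inj _ t.1.1.2 _ t'.1.1.2 (congrArg Prod.fst a1)))
      (Prod.ext a3 (Subtype.ext (inj _ t.1.2.2.2 _ t'.1.2.2.2 (congrArg Prod.snd a2)))))
  let u : Ω → ℝ := fun a => if k : ∃ x ∈ F, x.p = a then k.choose.r else 0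
  have hu : ∀ x ∈ F, u x.p = x.r := fun x hx => by
    have k : ∃ y ∈ F, y.p = x.p := ⟨x, hx, rfl⟩
    simp only [u, dif_pos k]
    rw [inj _ k.choose_spec.1 x hx k.choose_spec.2]
  refine ⟨u, fun g a => ?_, fun a e b k => ?_⟩
  · by_cases k : ∃ x ∈ F, x.p = a
    · obtain ⟨x, hx, rfl⟩ := k
      exact (hu (g • x) (F.smul_mem g hx)).trans (hu x hx).symm
    · have k' : ¬ ∃ x ∈ F, x.p = g • a := by
        rintro ⟨x, hx, e⟩
        exact k ⟨g⁻¹ • x, F.smul_mem _ hx, by rw [Lv.smul_p, e, inv_smul_smul]⟩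
      simp only [u, dif_neg k, dif_neg k']
  · obtain ⟨⟨⟨x, e', y⟩, k'⟩, e3⟩ := sj ⟨(a, e, b), k⟩
    have a1 := congrArg Subtype.val e3
    simp only [Prod.mk.injEq] at a1
    obtain ⟨rfl, rfl, rfl⟩ := a1
    rw [hu _ x.2, hu _ y.2]
    have a2 : y.1.r = x.1.r + χ x.1.p e' y.1.p := k'.2
    linarith

end Pool.Agent.Work.MP_3d425c_gt.Bg
end

-- merged part: Pool.Agent.Work.MP_3d425c_gt.Bg.Rho
section
/-! The data to be lifted. -/

namespace Pool.Agent.Work.MP_3d425c_gt.Bg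
open Set Relation Pool.Agent.Work.MP_3d425c_gt.Md Pool.Agent.Work.MP_3d425c_gt.Cy

variable {G X0 X1 X2 X3 : Type} [Group G] [MulAction G X0] [MulAction G X1] [MulAction G X2]
  [MulAction G X3] {T : Tri G X0 X1 X2 X3} {E : Subgroup G} {Ω : Type} [MulAction E Ω]

/-- the value of a word -/
def rh_ev {H : Type} [Group H] {S : Type} (f : S → H) (w : List (S × Bool)) : H :=
  (w.map fun l => cond l.2 (f l.1) (f l.1)⁻¹).prod

/-- the signed sum along a word -/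
def rh_lv {S : Type} : List (S × Bool) → (S → ℝ) →ₗ[ℝ] ℝ
  | [] => 0
  | l :: w => cond l.2 (LinearMap.proj l.1) (-LinearMap.proj l.1) + rh_lv w

theorem rh_ev_lv {S : Type} (x : S → ℝ) (w : List (S × Bool)) :
    rh_ev (fun s => Multiplicative.ofAdd (x s)) w = Multiplicative.ofAdd (rh_lv w x) := by
  induction w with
  | nil => rfl
  | cons l w ih =>
    obtain ⟨s, b⟩ := l
    unfold rh_ev at ih ⊢
    rw [List.map_cons, List.prod_cons, ih]
    cases b <;> rfl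

/-- the edge path of a word -/
def rh_P {S : Set E} (p : E → List (X1 × Bool)) : List (S × Bool) → List (X1 × Bool)
  | [] => []
  | (g, true) :: w => p g.1 ++ (rh_P p w).map fun l => (g.1 • l.1, l.2)
  | (g, false) :: w => (rv (p g.1) ++ rh_P p w).map fun l => (g.1⁻¹ • l.1, l.2)

theorem rh_pth (W : Et T E Ω) {S : Set E} (p : E → List (X1 × Bool)) (o : ℝ → Ω) (x : S → ℝ)
    (h : ∀ (g : S) r, Pth W.R (o r) (p g.1) (g.1 • o (r + x g))) (w : List (S × Bool)) (r : ℝ) :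
    Pth W.R (o r) (rh_P p w) (rh_ev Subtype.val w • o (r + rh_lv w x)) := by
  induction w generalizing r with
  | nil =>
    have : rh_ev (Subtype.val : S → E) [] • o (r + rh_lv [] x) = o r := by
      show (1 : E) • o (r + 0) = o r
      rw [one_smul, add_zero]
    rw [this]
    exact Pth.nil _
  | cons l w ih =>
    obtain ⟨g, b⟩ := l
    cases b
    · have e1 : rh_ev (Subtype.val : S → E) ((g, false) :: w) = g.1⁻¹ * rh_ev Subtype.val w := rfl
      have e2 : r + rh_lv ((g, false) :: w) x = r - x g + rh_lv w x := by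
        show r + (-x g + rh_lv w x) = _
        ring
      have h1 := h g (r - x g)
      rw [sub_add_cancel] at h1
      have h2 := Pth.smul W g.1⁻¹ (h1.rv.append (ih (r - x g)))
      rw [inv_smul_smul] at h2
      rw [e1, e2, mul_smul]
      exact h2
    · have e1 : rh_ev (Subtype.val : S → E) ((g, true) :: w) = g.1 * rh_ev Subtype.val w := rfl
      have e2 : r + rh_lv ((g, true) :: w) x = r + x g + rh_lv w x := by
        show r + (x g + rh_lv w x) = _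
        ring
      rw [e1, e2, mul_smul]
      exact (h g r).append (Pth.smul W g.1 (ih (r + x g)))

theorem rh_lift {H : Type} [Group H] {S : Type} (f : S → H) (w : List (S × Bool)) :
    FreeGroup.lift f (FreeGroup.mk w) = rh_ev f w := FreeGroup.lift_mk

/-- finitely many relators and one word for `κ` span the dual -/
theorem rh_span {H : Type} [Group H] {S : Set H} (hS : Subgroup.closure S = ⊤) (hf : S.Finite)
    (κ : H) (h0 : ∀ φ : H →* Multiplicative ℝ, φ κ = 1 → φ = 1) :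
    ∃ (k : List (S × Bool)) (N : Set (List (S × Bool))), N.Finite ∧
      (∀ w ∈ N, rh_ev Subtype.val w = 1) ∧
      ∀ x : S → ℝ, rh_lv k x = 0 → (∀ w ∈ N, rh_lv w x = 0) → x = 0 := by
  have := hf.to_subtype
  have sj : Function.Surjective (FreeGroup.lift (Subtype.val : S → H)) := by
    rw [← MonoidHom.range_eq_top, FreeGroup.range_lift_eq_closure, Subtype.range_val, hS]
  obtain ⟨k, hk⟩ := sj κ
  obtain ⟨k, rfl⟩ := Quot.exists_rep k
  obtain ⟨t, t1, t2⟩ := (Submodule.fg_span_iff_fg_span_finset_subset (R := ℝ)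
    (rh_lv '' {w : List (S × Bool) | rh_ev Subtype.val w = 1})).1 (IsNoetherian.noetherian _)
  obtain ⟨N, n1, n2, n3⟩ := Set.Finite.exists_subset_finite_image_eq t.finite_toSet t1
  refine ⟨k, N, n2, n1, fun x hx hN => ?_⟩
  have all : ∀ w : List (S × Bool), rh_ev Subtype.val w = 1 → rh_lv w x = 0 := fun w hw => by
    have m : rh_lv w ∈ Submodule.span ℝ (t : Set ((S → ℝ) →ₗ[ℝ] ℝ)) :=
      t2 ▸ Submodule.subset_span ⟨w, hw, rfl⟩
    have le : Submodule.span ℝ (t : Set ((S → ℝ) →ₗ[ℝ] ℝ)) ≤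
        LinearMap.ker (LinearMap.applyₗ (R := ℝ) (M₂ := ℝ) x) := by
      refine Submodule.span_le.2 fun f hf => ?_
      rw [← n3] at hf
      obtain ⟨u, hu, rfl⟩ := hf
      exact hN u hu
    exact le m
  let ψ : FreeGroup S →* Multiplicative ℝ := FreeGroup.lift fun s => Multiplicative.ofAdd (x s)
  have ker : (FreeGroup.lift (Subtype.val : S → H)).ker ≤ ψ.ker := fun u hu => by
    obtain ⟨w, rfl⟩ := Quot.exists_rep u
    have e : ψ (FreeGroup.mk w) = 1 := by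
      rw [rh_lift, rh_ev_lv, all w ((rh_lift _ w).symm.trans hu)]
      rfl
    exact e
  let φ := (FreeGroup.lift (Subtype.val : S → H)).liftOfSurjective sj ⟨ψ, ker⟩
  have hφ : ∀ u, φ (FreeGroup.lift (Subtype.val : S → H) u) = ψ u := fun u =>
    MonoidHom.liftOfRightInverse_comp_apply _ _ _ _ u
  have one : φ = 1 := h0 φ (by
    rw [← hk, hφ]
    show ψ (FreeGroup.mk k) = 1
    rw [rh_lift, rh_ev_lv, hx]
    rfl)
  funext s
  have := hφ (FreeGroup.of s)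
  rw [one] at this
  have e : ψ (FreeGroup.of s) = Multiplicative.ofAdd (x s) := FreeGroup.lift_apply_of
  rw [e] at this
  exact this.symm

theorem exists_dat (hM : Mfd T) (hE : E.FG) (κ : E)
    (h0 : ∀ φ : E →* Multiplicative ℝ, φ κ = 1 → φ = 1) : Nonempty (Dat T E) := by
  obtain ⟨S, hS, hf⟩ := Group.fg_iff.1 ((Group.fg_iff_subgroup_fg E).2 hE)
  obtain ⟨k, N, n1, n2, n3⟩ := rh_span hS hf κ h0
  obtain ⟨x⟩ := T.ne
  let v : X0 := T.d1 (T.d2 (T.d3 x 0) 0) 0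
  choose p hp using fun g : E => hM.conn v (g • v)
  have cl : ∀ w : List (S × Bool), ∃ ρ : ℕ, w ∈ N → ∀ (Ω : Type) [MulAction E Ω] (W : Et T E Ω)
      (ω : Ω), W.pr ω = v → W.Lifts ω ρ → Pth W.R ω (rh_P p w) ω := fun w => by
    by_cases hw : w ∈ N
    · have h1 := rh_pth (base T E) p (fun _ => v) 0 (fun g _ => hp g.1) w 0
      rw [n2 w hw, one_smul] at h1
      obtain ⟨ρ, hρ⟩ := sc_close hM E h1
      exact ⟨ρ, fun _ => hρ⟩
    · exact ⟨0, fun h => absurd h hw⟩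
  choose ρ hρ using cl
  obtain ⟨m, hm⟩ := (n1.image ρ).bddAbove
  obtain ⟨n, hn⟩ := (hf.image fun g => (p g).length).bddAbove
  refine ⟨⟨v, S, p, max m n, hS, fun g hg => ⟨hp g, (hn ⟨g, hg, rfl⟩).trans (le_max_right _ _)⟩,
    fun Ω _ W ω h1 h2 h3 => ?_⟩⟩
  choose L hL using fun g : S => (h3 g.1 g.2).lev
  refine ⟨rh_lv k ∘ₗ LinearMap.pi L, fun χ hχ hk g hg => ?_⟩
  have z : LinearMap.pi L χ = 0 := n3 _ hk fun w hw => by
    have a := rh_pth (W.cov hχ) p (fun r => ⟨ω, r⟩) (LinearMap.pi L χ) (fun g r => hL g χ r) w 0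
    have b := hρ w hw (Lv Ω) (W.cov hχ) ⟨ω, 0⟩ h1 fun q u hq hl => by
      obtain ⟨b, hb⟩ := h2 q u hq (hl.trans ((hm ⟨w, hw, rfl⟩).trans (le_max_left _ _)))
      obtain ⟨Λ, hΛ⟩ := hb.lev
      exact ⟨_, hΛ χ 0⟩
    have c := congrArg Lv.r (Pth.det (W.cov hχ) a b)
    rw [Lv.smul_r] at c
    exact (zero_add _).symm.trans c
  have a := hL ⟨g, hg⟩ χ 0
  have e : L ⟨g, hg⟩ χ = 0 := congrFun z ⟨g, hg⟩
  rw [e, add_zero] at a
  exact a

end Pool.Agent.Work.MP_3d425c_gt.Bg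
end

-- merged part: Pool.Agent.Work.MP_3d425c_gt.Bq.TowG
section
/-! The tower for an arbitrary invariant and finitely many allowed classes. -/

namespace Pool.Agent.Work.MP_3d425c_gt.Bq
open Set Relation Pool.Agent.Work.MP_3d425c_gt.Md Pool.Agent.Work.MP_3d425c_gt.Cy
  Pool.Agent.Work.MP_3d425c_gt.Bg

variable {G X0 X1 X2 X3 : Type} [Group G] [MulAction G X0] [MulAction G X1] [MulAction G X2]
  [MulAction G X3] {T : Tri G X0 X1 X2 X3} {E : Subgroup G} {Ω : Type} [MulAction E Ω]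

/-- no piece of the complement of `F` is closed off and finite modulo the group -/
def Hole (W : Et T E Ω) (F : SubMulAction E Ω) : Prop :=
  ∀ x, x ∉ F → ∀ s : Option Ω → ℝ, s none = 0 → st_FM E {y | s (some y) ≠ 0} →
    (∀ a e b, W.Rp a e b → (∀ y ∈ F, a ≠ some y ∧ b ≠ some y) → s a = s b) → s (some x) = 0

/-- a property that passes through the tower -/
structure Adm (T : Tri G X0 X1 X2 X3) (E : Subgroup G)
    (J : ∀ (Ω : Type) [MulAction E Ω], Et T E Ω → Prop) : Prop where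
  base : J X0 (base T E)
  res : ∀ (Ω : Type) [MulAction E Ω] (W : Et T E Ω) (F : SubMulAction E Ω), J Ω W → Hole W F →
    J F (W.res F)
  cov : ∀ (Ω : Type) [MulAction E Ω] (W : Et T E Ω) (ω : Ω) (χ : Ω → X1 → Ω → ℝ) (h : W.Coc χ),
    W.Fc ω → (∃ x, W.Bd x) → J Ω W → J (Lv Ω) (W.cov h)

/-- base point, generators, paths, radius -/
structure Dt (T : Tri G X0 X1 X2 X3) (E : Subgroup G) where
  v : X0
  S : Set E
  p : E → List (X1 × Bool)
  ρ : ℕ
  gen : Subgroup.closure S = ⊤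
  pth : ∀ g ∈ S, Pth (bR T) v (p g) (g • v) ∧ (p g).length ≤ ρ

/-- a stage -/
structure Sg (J : ∀ (Ω : Type) [MulAction E Ω], Et T E Ω → Prop) (D : Dt T E) {Ω : Type}
    [MulAction E Ω] (W : Et T E Ω) (ω : Ω) : Prop where
  fc : W.Fc ω
  z : J Ω W
  pr : W.pr ω = D.v
  lifts : W.Lifts ω D.ρ
  gen : ∀ g ∈ D.S, Pth W.R ω (D.p g) (g • ω)

/-- the first Betti number of the quotient is at most `n` -/
def TopN (W : Et T E Ω) (n : ℕ) : Prop :=
  ∃ Λ : (Ω → X1 → Ω → ℝ) →ₗ[ℝ] (Fin n → ℝ), ∀ χ, W.Coc χ → Λ χ = 0 →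
    ∃ u : Ω → ℝ, (∀ (g : E) a, u (g • a) = u a) ∧ ∀ a e b, W.R a e b → χ a e b = u b - u a

/-- classes killed by `n` functionals do not open the generator paths -/
def Key (D : Dt T E) (n : ℕ) : Prop :=
  ∀ (Ω : Type) [MulAction E Ω] (W : Et T E Ω) (ω : Ω), W.pr ω = D.v → W.Lifts ω D.ρ →
    (∀ g ∈ D.S, Pth W.R ω (D.p g) (g • ω)) → ∃ Λ : (Ω → X1 → Ω → ℝ) →ₗ[ℝ] (Fin n → ℝ),
      ∀ χ, W.Coc χ → Λ χ = 0 → ∀ g ∈ D.S, Pth (cR W.R χ) ⟨ω, 0⟩ (D.p g) ⟨g • ω, 0⟩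

variable {J : ∀ (Ω : Type) [MulAction E Ω], Et T E Ω → Prop}

theorem adm_zp (hM : Mfd T) (h0 : (base T E).Zp) : Adm T E fun _ _ W => W.Zp :=
  ⟨h0, fun _ _ W F h k => zres W F h fun x hx a₀ s s0 hs => k x hx s s0
      (hs.imp fun _ q => ⟨q.1, fun y hy => (q.2 y hy).imp fun _ r => ⟨r.1, r.2.elim fun n t =>
        ⟨a₀ ^ n, t⟩⟩⟩),
    fun _ _ _ _ _ h fc bd k => zcov hM fc bd k h⟩

theorem Adm.and {J' : ∀ (Ω : Type) [MulAction E Ω], Et T E Ω → Prop} (h : Adm T E J)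
    (h' : Adm T E J') : Adm T E fun Ω _ W => J Ω W ∧ J' Ω W :=
  ⟨⟨h.base, h'.base⟩, fun Ω _ W F k q => ⟨h.res Ω W F k.1 q, h'.res Ω W F k.2 q⟩,
    fun Ω _ W ω χ c fc bd k => ⟨h.cov Ω W ω χ c fc bd k.1, h'.cov Ω W ω χ c fc bd k.2⟩⟩

theorem Adm.all {ι : Type} {K : ι → ∀ (Ω : Type) [MulAction E Ω], Et T E Ω → Prop}
    (h : ∀ i, Adm T E (K i)) : Adm T E fun Ω _ W => ∀ i, K i Ω W :=
  ⟨fun i => (h i).base, fun Ω _ W F k q i => (h i).res Ω W F (k i) q,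
    fun Ω _ W ω χ c fc bd k i => (h i).cov Ω W ω χ c fc bd (k i)⟩

theorem tg_start (hM : Mfd T) (hJ : Adm T E J) (D : Dt T E) :
    ∃ (F : SubMulAction E X0) (h : D.v ∈ F), Sg J D ((base T E).res F) ⟨D.v, h⟩ := by
  have hI : ∀ (g : E), ∀ x ∈ (base T E).Im D.v D.ρ, g • x ∈ (base T E).Im D.v D.ρ := by
    rintro g x ⟨a, q, b, h1, h2, rfl⟩
    exact ⟨g * a, q, b, h1, h2, (mul_smul _ _ _).symm⟩
  have hv : D.v ∈ (base T E).Im D.v D.ρ := ⟨1, [], D.v, Nat.zero_le _, .nil _, (one_smul _ _).symm⟩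
  have hc : ∀ x, x ∈ (base T E).Im D.v D.ρ ∨ ∃ y ∈ st_Cp (base T E) ((base T E).Im D.v D.ρ) x,
      ∃ i ∈ (base T E).Im D.v D.ρ, (base T E).Adj y i := fun x => by
    obtain ⟨q, hq⟩ := hM.conn x D.v
    exact st_hit (W := base T E) hq hv
  have hf : st_FM E ((base T E).Im D.v D.ρ) := by
    refine ⟨⋃ q ∈ {q : List (X1 × Bool) | q.length ≤ D.ρ ∧ ∃ u, Pth (bR T) D.v q u},
      {u | Pth (bR T) D.v q u}, (hM.paths_finite D.v D.ρ).biUnion fun q _ =>
        Set.Subsingleton.finite fun u hu u' hu' => Pth.det (base T E) hu hu', ?_⟩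
    rintro x ⟨a, q, b, h1, h2, rfl⟩
    exact ⟨b, mem_iUnion₂.2 ⟨q, ⟨h1, b, h2⟩, h2⟩, a, rfl⟩
  obtain ⟨F, hF⟩ : ∃ F, F = st_F (base T E) _ hI := ⟨_, rfl⟩
  have mF : ∀ x, x ∈ F ↔ x ∈ (base T E).Im D.v D.ρ ∨
      st_FM E (st_Cp (base T E) ((base T E).Im D.v D.ρ) x) := fun x => by
    rw [hF]
    rfl
  have iF : ∀ x ∈ (base T E).Im D.v D.ρ, x ∈ F := fun x hx => (mF x).2 (Or.inl hx)
  have sh : ∀ q b, Pth (bR T) D.v q b → q.length ≤ D.ρ →
      ∃ hb : b ∈ F, Pth ((base T E).res F).R ⟨D.v, iF _ hv⟩ q ⟨b, hb⟩ := fun q b h hl => by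
    obtain ⟨_, hb, k⟩ := st_short (W := base T E) iF h [] (.nil _) (by simpa using hl)
    exact ⟨hb, k⟩
  have gen : ∀ g ∈ D.S, Pth ((base T E).res F).R ⟨D.v, iF _ hv⟩ (D.p g)
      (g • (⟨D.v, iF _ hv⟩ : F)) := fun g hg => by
    obtain ⟨_, k⟩ := sh _ _ (D.pth g hg).1 (D.pth g hg).2
    exact k
  have cg : ∀ g : E, ReflTransGen ((base T E).res F).Adj ⟨D.v, iF _ hv⟩
      (g • (⟨D.v, iF _ hv⟩ : F)) := by
    intro g
    have hg : g ∈ Subgroup.closure D.S := D.gen ▸ Subgroup.mem_top g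
    induction hg using Subgroup.closure_induction with
    | mem g hg => exact st_Pth_rtg (gen g hg)
    | one => rw [one_smul]
    | mul g g' _ _ k k' =>
      rw [mul_smul]
      exact k.trans (st_rtg_smul g k')
    | inv g _ k =>
      have k' := st_rtg_smul g⁻¹ k
      rw [inv_smul_smul] at k'
      exact st_rtg_symm k'
  have cI : ∀ x (hx : x ∈ (base T E).Im D.v D.ρ),
      ReflTransGen ((base T E).res F).Adj ⟨D.v, iF _ hv⟩ ⟨x, iF x hx⟩ := by
    rintro x ⟨a, q, b, h1, h2, rfl⟩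
    obtain ⟨hb, k⟩ := sh q b h2 h1
    exact (cg a).trans (st_rtg_smul a (st_Pth_rtg k))
  refine ⟨F, iF _ hv, ⟨st_finite (hF ▸ st_F_FM hM hI hf hc), fun x => ?_⟩, ?_, rfl,
    fun q u h hl => (sh q u h hl).elim fun hb k => ⟨_, k⟩, gen⟩
  · by_cases hx : x.1 ∈ (base T E).Im D.v D.ρ
    · exact cI x.1 hx
    have hx' := ((mF x.1).1 x.2).resolve_left hx
    obtain ⟨y, hy, i, hi, ha⟩ := (hc x.1).resolve_left hx
    have k := st_Cp_rtg (F := F) (fun y hy => (mF y).2 (Or.inr (hx'.mono (st_Cp_trans hy)))) hy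
    have ha' : ((base T E).res F).Adj ⟨i, iF i hi⟩
        ⟨y, (mF y).2 (Or.inr (hx'.mono (st_Cp_trans hy)))⟩ := ha.symm
    exact ((cI i hi).tail ha').trans (st_rtg_symm k)
  · refine hJ.res _ _ F hJ.base fun x hx s _ hs he => by_contra fun hn => ?_
    have hx1 : x ∉ (base T E).Im D.v D.ρ := fun k => hx (iF x k)
    have hy : ∀ y ∈ st_Cp (base T E) ((base T E).Im D.v D.ρ) x, y ∉ F := fun y hy k =>
      ((mF y).1 k).elim (st_Cp_not hx1 hy) fun k' =>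
        hx ((mF x).2 (Or.inr (k'.mono (st_Cp_trans (st_Cp_symm hy)))))
    have hs' : ∀ y ∈ st_Cp (base T E) ((base T E).Im D.v D.ρ) x, s (some y) = s (some x) := by
      intro y h
      induction h with
      | refl => rfl
      | @tail b c k h ih =>
        have hb := hy b k
        have hc' := hy c (ReflTransGen.tail k h)
        rw [← ih]
        obtain ⟨e, h1 | h1⟩ := h.1
        · exact (he (some b) e (some c) h1 fun y hy' =>
            ⟨fun t => hb (Option.some.inj t ▸ hy'), fun t => hc' (Option.some.inj t ▸ hy')⟩).symm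
        · exact he (some c) e (some b) h1 fun y hy' =>
            ⟨fun t => hc' (Option.some.inj t ▸ hy'), fun t => hb (Option.some.inj t ▸ hy')⟩
    obtain ⟨K, hK, h⟩ := hs
    refine hx ((mF x).2 (Or.inr ⟨K, hK, fun y k => ?_⟩))
    exact h y (fun t => hn ((hs' y k).symm.trans t))

theorem tg_step (hM : Mfd T) (hE : ¬ E.FiniteIndex) (hJ : Adm T E J) {D : Dt T E}
    {W : Et T E Ω} {ω : Ω} (hS : Sg J D W ω) {χ : Ω → X1 → Ω → ℝ} (h : W.Coc χ)
    (hp : ∀ g ∈ D.S, Pth (cR W.R χ) ⟨ω, 0⟩ (D.p g) ⟨g • ω, 0⟩) :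
    ∃ (F : SubMulAction E (Lv Ω)) (h0 : (⟨ω, 0⟩ : Lv Ω) ∈ F),
      Sg J D ((W.cov h).res F) ⟨⟨ω, 0⟩, h0⟩ ∧
      ((∀ x ∈ (W.cov h).Im ⟨ω, 0⟩ D.ρ, ∀ y ∈ (W.cov h).Im ⟨ω, 0⟩ D.ρ, x.p = y.p → x = y) →
        ∀ x ∈ F, ∀ y ∈ F, x.p = y.p → x = y) := by
  have bd := hM.exists_bd hE hS.fc
  obtain ⟨N, hN⟩ := sp_depth W hS.fc bd
  have dep : ∀ x : Lv Ω, x ∈ sp_near (W.cov h) {x | (W.cov h).Bd x} N := fun x =>
    sp_cov_near h N x.p (hN _) x.r
  obtain ⟨I, hI⟩ : ∃ I, I = (W.cov h).Im ⟨ω, 0⟩ D.ρ := ⟨_, rfl⟩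
  have Ism : ∀ (g : E), ∀ a ∈ I, g • a ∈ I := hI ▸ sp_im_smul _ _ _
  have esm : ∀ (g : E) x, sp_esc (W.cov h) I x → sp_esc (W.cov h) I (g • x) := fun g x hx =>
    have n : ∀ a, sp_esc (W.cov h) I a → g • a ∉ I := fun a ha k =>
      sp_esc_not ha (by simpa using Ism g⁻¹ _ k)
    sp_esc_ind (fun x => sp_esc (W.cov h) I (g • x))
      (fun y k e => ⟨_, sp_bd_smul _ g k, n y e, .refl⟩)
      (fun a b k ea _ p => sp_esc_head (n a ea) (sp_adj_smul _ g k) p) hx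
  let F : SubMulAction E (Lv Ω) :=
    ⟨{x | ¬ sp_esc (W.cov h) I x}, fun g x hx k => hx (by simpa using esm g⁻¹ _ k)⟩
  have mF : ∀ x, x ∈ F ↔ ¬ sp_esc (W.cov h) I x := fun x => Iff.rfl
  have IF : ∀ x ∈ I, x ∈ F := fun x hx k => sp_esc_not k hx
  have ωI : (⟨ω, 0⟩ : Lv Ω) ∈ I := hI ▸ ⟨1, [], _, Nat.zero_le _, .nil _, (one_smul _ _).symm⟩
  have nr : ∀ n, ∀ x ∈ sp_near (W.cov h) {x | (W.cov h).Bd x} n, x ∈ F →
      x ∈ sp_near (W.cov h) I n ∧ ∃ y ∈ I, ReflTransGen (sp_in (W.cov h) F) x y := fun n => by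
    induction n with
    | zero =>
      intro x hx hF
      have : x ∈ I := by_contra fun k => hF ⟨x, hx, k, .refl⟩
      exact ⟨this, x, this, .refl⟩
    | succ n ih =>
      rintro x (hx | ⟨b, hb, k⟩) hF
      · exact ⟨Or.inl (ih x hx hF).1, (ih x hx hF).2⟩
      · by_cases hxI : x ∈ I
        · exact ⟨sp_near_le _ _ (Nat.zero_le _) hxI, x, hxI, .refl⟩
        · have bF : b ∈ F := fun e => hF (sp_esc_head hxI k e)
          obtain ⟨i1, y, hy, i2⟩ := ih b hb bF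
          exact ⟨Or.inr ⟨b, i1, k⟩, y, hy, .head ⟨hF, bF, k⟩ i2⟩
  have fin : sp_fin E {x | ¬ sp_esc (W.cov h) I x} := by
    obtain ⟨K, hK, k⟩ := sp_fin_near hM (W.cov h) (hI ▸ sp_fin_im hM (W.cov h) _ _ : sp_fin E I) N
    exact ⟨K, hK, fun x hx => k x (nr N x (dep x) hx).1⟩
  have conn : ∀ a ∈ I, ReflTransGen (sp_in (W.cov h) I) ⟨ω, 0⟩ a := hI ▸
    sp_im_conn (W.cov h) D.gen fun g hg => ⟨D.p g, (D.pth g hg).2, hp g hg⟩
  have pre : ∀ {q : List (X1 × Bool)}, q.length ≤ D.ρ → ∀ q1 q2 c, q = q1 ++ q2 →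
      Pth (W.cov h).R ⟨ω, 0⟩ q1 c → c ∈ F := fun hq q1 q2 c e p =>
    IF c (hI ▸ sp_pre (W.cov h) _ hq q1 q2 c e p)
  refine ⟨F, IF _ ωI, ⟨⟨?_, fun x => ?_⟩, hJ.res _ _ F (hJ.cov _ W ω χ h hS.fc bd hS.z) ?_, hS.pr,
    fun q v p hq => ?_, fun g hg => ?_⟩, fun inj x hx y hy e => ?_⟩
  · obtain ⟨K, hK, k⟩ := fin
    have : Finite {x : F // x.1 ∈ K} := (hK.preimage Subtype.val_injective.injOn).to_subtype
    refine Finite.of_surjective (fun x : {x : F // x.1 ∈ K} => ob E x.1) fun o => ?_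
    obtain ⟨x, rfl⟩ := Quotient.exists_rep o
    obtain ⟨c, hc, g, e⟩ := k x.1 x.2
    have e' : (g⁻¹ • x).1 = c := by
      change g⁻¹ • x.1 = c
      rw [e, inv_smul_smul]
    exact ⟨⟨g⁻¹ • x, e' ▸ hc⟩, Quotient.sound ⟨g⁻¹, rfl⟩⟩
  · have up : ∀ a b, ReflTransGen (sp_in (W.cov h) F) a b → ∀ ha hb,
        ReflTransGen ((W.cov h).res F).Adj ⟨a, ha⟩ ⟨b, hb⟩ := fun a b p ha => by
      induction p with
      | refl => exact fun _ => .refl
      | tail _ k ih => exact fun hb => (ih k.1).tail k.2.2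
    obtain ⟨-, y, hy, p⟩ := nr N x.1 (dep _) x.2
    have c : ∀ a b, ReflTransGen (sp_in (W.cov h) I) a b → ReflTransGen (sp_in (W.cov h) F) a b :=
      fun a b p => by
        induction p with
        | refl => exact .refl
        | tail _ k ih => exact ih.tail ⟨IF _ k.1, IF _ k.2.1, k.2.2⟩
    exact up _ _ ((c _ _ (conn y hy)).trans (sp_in_symm _ p)) _ x.2
  · intro x hx s s0 _ hs
    have nF : ∀ a, sp_esc (W.cov h) I a → ∀ y ∈ F, some a ≠ some y := fun a ha y hy e =>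
      hy (Option.some.inj e ▸ ha)
    refine sp_esc_ind (fun x => s (some x) = 0) (fun y k e => ?_) (fun a b k ea eb p => ?_)
      (not_not.1 hx)
    · obtain ⟨c, k | k⟩ := k
      · exact (hs _ _ _ k fun z hz => ⟨nF y e z hz, nofun⟩).trans s0
      · exact (hs _ _ _ k fun z hz => ⟨nofun, nF y e z hz⟩).symm.trans s0
    · obtain ⟨c, k | k⟩ := k
      · exact (hs (some a) c (some b) k fun z hz => ⟨nF a ea z hz, nF b eb z hz⟩).trans p
      · exact (hs (some b) c (some a) k fun z hz => ⟨nF b eb z hz, nF a ea z hz⟩).symm.trans p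
  · obtain ⟨b, hb⟩ := hS.lifts q v p hq
    obtain ⟨Λ, hΛ⟩ := hb.lev
    have p' : Pth (W.cov h).R ⟨ω, 0⟩ q ⟨b, 0 + Λ χ⟩ := hΛ χ 0
    exact ⟨⟨_, pre hq q [] _ (List.append_nil q).symm p'⟩, sp_res (W.cov h) F p' (pre hq) _ _⟩
  · exact sp_res (W.cov h) F (hp g hg) (pre (D.pth g hg).2) _
      (g • (⟨⟨ω, 0⟩, IF _ ωI⟩ : F)).2
  · by_contra hne
    rw [← hI] at inj
    have hr : y.r - x.r ≠ 0 := fun k => hne (Lv.ext e (sub_eq_zero.1 k).symm)
    have key : ∀ n, ∀ w ∈ sp_near (W.cov h) {x | (W.cov h).Bd x} n, w ∈ F →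
        sp_sh (y.r - x.r) w ∈ F → False := fun n => by
      have n1 : ∀ w, sp_sh (y.r - x.r) w ∈ F → w ∉ I := fun w k hw =>
        k (sp_shift h ωI conn fin inj hr hw)
      have n2 : ∀ w ∈ F, sp_sh (y.r - x.r) w ∉ I := fun w k hw =>
        k (sp_sh_neg (y.r - x.r) w ▸ sp_shift h ωI conn fin inj (neg_ne_zero.2 hr) hw)
      induction n with
      | zero => exact fun w hw k k' => k ⟨w, hw, n1 w k', .refl⟩
      | succ n ih =>
        rintro w (hw | ⟨b, hb, a⟩) k k'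
        · exact ih w hw k k'
        · exact ih b hb (fun e => k (sp_esc_head (n1 w k') a e))
            fun e => k' (sp_esc_head (n2 w k) (sp_sh_adj h _ a) e)
    refine key N x (dep x) hx ?_
    have : sp_sh (y.r - x.r) x = y := Lv.ext e (by simp [sp_sh])
    rwa [this]

theorem tg_tower (hM : Mfd T) (hE : ¬ E.FiniteIndex) (hJ : Adm T E J) (D : Dt T E) {d : ℕ}
    (hK : Key D d) :
    ∃ (Ω : Type) (_ : MulAction E Ω) (W : Et T E Ω) (ω : Ω), Sg J D W ω ∧ TopN W d := by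
  classical
  let P : ℕ → ℕ → Prop := fun n m => ∃ (Ω : Type) (_ : MulAction E Ω) (W : Et T E Ω) (ω : Ω),
    Sg J D W ω ∧ (tw_Pr W ω D.ρ).ncard = n ∧ oc E (tw_Ed W) = m
  have h1 : ∃ n, ∃ m, P n m := by
    obtain ⟨F, h, hS⟩ := tg_start hM hJ D
    exact ⟨_, _, _, _, _, _, hS, rfl, rfl⟩
  have h2 := Nat.find_spec h1
  obtain ⟨Ω, _, W, ω, hS, e1, e2⟩ := Nat.find_spec h2
  obtain ⟨Λ, hΛ⟩ := hK Ω W ω hS.pr hS.lifts hS.gen
  refine ⟨Ω, inferInstance, W, ω, hS, Λ, fun χ h h0 => ?_⟩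
  obtain ⟨F, hF, hS', hinj⟩ := tg_step hM hE hJ hS h (hΛ χ h h0)
  have dn : ∀ {x y : Lv Ω} {q}, Pth (W.cov h).R x q y → Pth W.R x.p q y.p := fun k =>
    Pth.map Lv.p (fun _ _ _ k => k.1) k
  have dn' : ∀ {x y : F} {q}, Pth ((W.cov h).res F).R x q y → Pth (W.cov h).R x.1 q y.1 :=
    fun k => Pth.map Subtype.val (fun _ _ _ k => k) k
  have sub : tw_Pr ((W.cov h).res F) ⟨⟨ω, 0⟩, hF⟩ D.ρ ⊆ tw_Pr W ω D.ρ := by
    rintro t ⟨a1, a2, g, b, a3, a4⟩
    exact ⟨a1, a2, g, b.1.p, dn (dn' a3), dn (dn' a4)⟩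
  have eq : tw_Pr ((W.cov h).res F) ⟨⟨ω, 0⟩, hF⟩ D.ρ = tw_Pr W ω D.ρ :=
    Set.eq_of_subset_of_ncard_le sub
      (e1 ▸ Nat.find_min' h1 ⟨_, _, _, _, _, hS', rfl, rfl⟩) (tw_Pr_fin hM W ω D.ρ)
  have inj : ∀ x ∈ F, ∀ y ∈ F, x.p = y.p → x = y := by
    refine hinj ?_
    rintro x ⟨g, q, b, a1, a2, rfl⟩ y ⟨g', q', b', a3, a4, rfl⟩ e
    refine Lv.ext e ?_
    have e' : b.p = (g⁻¹ * g') • b'.p := by
      rw [mul_smul, eq_inv_smul_iff]; exact e
    have m : (q, q') ∈ tw_Pr W ω D.ρ := ⟨a1, a3, g⁻¹ * g', b'.p, e' ▸ dn a2, dn a4⟩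
    rw [← eq] at m
    obtain ⟨-, -, g'', c, a5, a6⟩ := m
    have k1 := Pth.det (W.cov h) a2 (dn' a5)
    have k2 := Pth.det (W.cov h) a4 (dn' a6)
    change b.r = b'.r
    rw [k1, k2]
    rfl
  have := hS.fc.fin
  have := tw_fin hM W
  have sj : Function.Surjective (fun t : tw_Ed ((W.cov h).res F) =>
      (⟨(t.1.1.1.p, t.1.2.1, t.1.2.2.1.p), t.2.1⟩ : tw_Ed W)) := by
    refine tw_surj (D := E) _ (fun _ _ => rfl) (fun t t' e => ?_)
      (e2 ▸ Nat.find_min' h2 ⟨_, _, _, _, hS', eq ▸ e1, rfl⟩)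
    have a1 := congrArg Subtype.val e
    have a2 := congrArg Prod.snd a1
    have a3 := congrArg Prod.fst a2
    exact Subtype.ext (Prod.ext (Subtype.ext (inj _ t.1.1.2 _ t'.1.1.2 (congrArg Prod.fst a1)))
      (Prod.ext a3 (Subtype.ext (inj _ t.1.2.2.2 _ t'.1.2.2.2 (congrArg Prod.snd a2)))))
  let u : Ω → ℝ := fun a => if k : ∃ x ∈ F, x.p = a then k.choose.r else 0
  have hu : ∀ x ∈ F, u x.p = x.r := fun x hx => by
    have k : ∃ y ∈ F, y.p = x.p := ⟨x, hx, rfl⟩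
    simp only [u, dif_pos k]
    rw [inj _ k.choose_spec.1 x hx k.choose_spec.2]
  refine ⟨u, fun g a => ?_, fun a e b k => ?_⟩
  · by_cases k : ∃ x ∈ F, x.p = a
    · obtain ⟨x, hx, rfl⟩ := k
      exact (hu (g • x) (F.smul_mem g hx)).trans (hu x hx).symm
    · have k' : ¬ ∃ x ∈ F, x.p = g • a := by
        rintro ⟨x, hx, e⟩
        exact k ⟨g⁻¹ • x, F.smul_mem _ hx, by rw [Lv.smul_p, e, inv_smul_smul]⟩
      simp only [u, dif_neg k, dif_neg k']
  · obtain ⟨⟨⟨x, e', y⟩, k'⟩, e3⟩ := sj ⟨(a, e, b), k⟩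
    have a1 := congrArg Subtype.val e3
    simp only [Prod.mk.injEq] at a1
    obtain ⟨rfl, rfl, rfl⟩ := a1
    rw [hu _ x.2, hu _ y.2]
    have a2 : y.1.r = x.1.r + χ x.1.p e' y.1.p := k'.2
    linarith

/-- finitely many relators and `n` words span the dual -/
theorem tg_span {H : Type} [Group H] {S : Set H} (hS : Subgroup.closure S = ⊤) (hf : S.Finite)
    {n : ℕ} (κ : Fin n → H) (h0 : ∀ φ : H →* Multiplicative ℝ, (∀ i, φ (κ i) = 1) → φ = 1) :
    ∃ (k : Fin n → List (S × Bool)) (N : Set (List (S × Bool))), N.Finite ∧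
      (∀ w ∈ N, rh_ev Subtype.val w = 1) ∧
      ∀ x : S → ℝ, (∀ i, rh_lv (k i) x = 0) → (∀ w ∈ N, rh_lv w x = 0) → x = 0 := by
  have := hf.to_subtype
  have sj : Function.Surjective (FreeGroup.lift (Subtype.val : S → H)) := by
    rw [← MonoidHom.range_eq_top, FreeGroup.range_lift_eq_closure, Subtype.range_val, hS]
  have hk : ∀ i, ∃ k : List (S × Bool),
      FreeGroup.lift (Subtype.val : S → H) (FreeGroup.mk k) = κ i := fun i => by
    obtain ⟨k, hk⟩ := sj (κ i)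
    obtain ⟨k, rfl⟩ := Quot.exists_rep k
    exact ⟨k, hk⟩
  choose k hk using hk
  obtain ⟨t, t1, t2⟩ := (Submodule.fg_span_iff_fg_span_finset_subset (R := ℝ)
    (rh_lv '' {w : List (S × Bool) | rh_ev Subtype.val w = 1})).1 (IsNoetherian.noetherian _)
  obtain ⟨N, n1, n2, n3⟩ := Set.Finite.exists_subset_finite_image_eq t.finite_toSet t1
  refine ⟨k, N, n2, n1, fun x hx hN => ?_⟩
  have all : ∀ w : List (S × Bool), rh_ev Subtype.val w = 1 → rh_lv w x = 0 := fun w hw => by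
    have m : rh_lv w ∈ Submodule.span ℝ (t : Set ((S → ℝ) →ₗ[ℝ] ℝ)) :=
      t2 ▸ Submodule.subset_span ⟨w, hw, rfl⟩
    have le : Submodule.span ℝ (t : Set ((S → ℝ) →ₗ[ℝ] ℝ)) ≤
        LinearMap.ker (LinearMap.applyₗ (R := ℝ) (M₂ := ℝ) x) := by
      refine Submodule.span_le.2 fun f hf => ?_
      rw [← n3] at hf
      obtain ⟨u, hu, rfl⟩ := hf
      exact hN u hu
    exact le m
  let ψ : FreeGroup S →* Multiplicative ℝ := FreeGroup.lift fun s => Multiplicative.ofAdd (x s)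
  have ker : (FreeGroup.lift (Subtype.val : S → H)).ker ≤ ψ.ker := fun u hu => by
    obtain ⟨w, rfl⟩ := Quot.exists_rep u
    have e : ψ (FreeGroup.mk w) = 1 := by
      rw [rh_lift, rh_ev_lv, all w ((rh_lift _ w).symm.trans hu)]
      rfl
    exact e
  let φ := (FreeGroup.lift (Subtype.val : S → H)).liftOfSurjective sj ⟨ψ, ker⟩
  have hφ : ∀ u, φ (FreeGroup.lift (Subtype.val : S → H) u) = ψ u := fun u =>
    MonoidHom.liftOfRightInverse_comp_apply _ _ _ _ u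
  have one : φ = 1 := h0 φ fun i => by
    rw [← hk, hφ]
    show ψ (FreeGroup.mk (k i)) = 1
    rw [rh_lift, rh_ev_lv, hx]
    rfl
  funext s
  have := hφ (FreeGroup.of s)
  rw [one] at this
  have e : ψ (FreeGroup.of s) = Multiplicative.ofAdd (x s) := FreeGroup.lift_apply_of
  rw [e] at this
  exact this.symm

/-- Data for any finite generating set, any base point and any lower bound of the radius. -/
theorem tg_dat (hM : Mfd T) {S : Set E} (hS : Subgroup.closure S = ⊤) (hf : S.Finite) {n : ℕ}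
    (κ : Fin n → E) (h0 : ∀ φ : E →* Multiplicative ℝ, (∀ i, φ (κ i) = 1) → φ = 1) (v : X0)
    (p : E → List (X1 × Bool)) (hp : ∀ g : E, Pth (bR T) v (p g) (g • v)) (ρ₀ : ℕ) :
    ∃ D : Dt T E, D.v = v ∧ D.S = S ∧ D.p = p ∧ ρ₀ ≤ D.ρ ∧ Key D n := by
  obtain ⟨k, N, n1, n2, n3⟩ := tg_span hS hf κ h0
  have cl : ∀ w : List (S × Bool), ∃ ρ : ℕ, w ∈ N → ∀ (Ω : Type) [MulAction E Ω] (W : Et T E Ω)
      (ω : Ω), W.pr ω = v → W.Lifts ω ρ → Pth W.R ω (rh_P p w) ω := fun w => by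
    by_cases hw : w ∈ N
    · have h1 := rh_pth (base T E) p (fun _ => v) 0 (fun g _ => hp g.1) w 0
      rw [n2 w hw, one_smul] at h1
      obtain ⟨ρ, hρ⟩ := sc_close hM E h1
      exact ⟨ρ, fun _ => hρ⟩
    · exact ⟨0, fun h => absurd h hw⟩
  choose ρ hρ using cl
  obtain ⟨m, hm⟩ := (n1.image ρ).bddAbove
  obtain ⟨l, hn⟩ := (hf.image fun g => (p g).length).bddAbove
  refine ⟨⟨v, S, p, max ρ₀ (max m l), hS, fun g hg => ⟨hp g, (hn ⟨g, hg, rfl⟩).trans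
    ((le_max_right _ _).trans (le_max_right _ _))⟩⟩, rfl, rfl, rfl, le_max_left _ _,
    fun Ω _ W ω h1 h2 h3 => ?_⟩
  choose L hL using fun g : S => (h3 g.1 g.2).lev
  refine ⟨LinearMap.pi (fun i => rh_lv (k i)) ∘ₗ LinearMap.pi L, fun χ hχ hk g hg => ?_⟩
  have z : LinearMap.pi L χ = 0 := n3 _ (fun i => congrFun hk i) fun w hw => by
    have a := rh_pth (W.cov hχ) p (fun r => ⟨ω, r⟩) (LinearMap.pi L χ) (fun g r => hL g χ r) w 0
    have b := hρ w hw (Lv Ω) (W.cov hχ) ⟨ω, 0⟩ h1 fun q u hq hl => by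
      obtain ⟨b, hb⟩ := h2 q u hq (hl.trans ((hm ⟨w, hw, rfl⟩).trans
        ((le_max_left _ _).trans (le_max_right _ _))))
      obtain ⟨Λ, hΛ⟩ := hb.lev
      exact ⟨_, hΛ χ 0⟩
    have c := congrArg Lv.r (Pth.det (W.cov hχ) a b)
    rw [Lv.smul_r] at c
    exact (zero_add _).symm.trans c
  have a := hL ⟨g, hg⟩ χ 0
  have e : L ⟨g, hg⟩ χ = 0 := congrFun z ⟨g, hg⟩
  rw [e, add_zero] at a
  exact a

/-- The top of the tower: connected, finite modulo `E`, all paths of length `ρ₀` lift, the paths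
`p g` close up for every `g` in the chosen finite set, the invariant holds, `b₁ ≤ n`. -/
theorem top_stage (hM : Mfd T) (hE : ¬ E.FiniteIndex) (hfg : E.FG) (hJ : Adm T E J) {n : ℕ}
    (κ : Fin n → E) (h0 : ∀ φ : E →* Multiplicative ℝ, (∀ i, φ (κ i) = 1) → φ = 1) (v : X0)
    (p : E → List (X1 × Bool)) (hp : ∀ g : E, Pth (bR T) v (p g) (g • v)) {S₀ : Set E}
    (hS₀ : S₀.Finite) (ρ₀ : ℕ) :
    ∃ (Ω : Type) (_ : MulAction E Ω) (W : Et T E Ω) (ω : Ω), W.Fc ω ∧ J Ω W ∧ W.pr ω = v ∧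
      W.Lifts ω ρ₀ ∧ (∀ g ∈ S₀, Pth W.R ω (p g) (g • ω)) ∧ TopN W n := by
  obtain ⟨S, hS, hf⟩ := Group.fg_iff.1 ((Group.fg_iff_subgroup_fg E).2 hfg)
  obtain ⟨D, rfl, e1, rfl, e2, hK⟩ := tg_dat hM (S := S ∪ S₀)
    (top_le_iff.1 (hS ▸ Subgroup.closure_mono subset_union_left)) (hf.union hS₀) κ h0 v p hp ρ₀
  obtain ⟨Ω, _, W, ω, hs, ht⟩ := tg_tower hM hE hJ D hK
  exact ⟨Ω, inferInstance, W, ω, hs.fc, hs.z, hs.pr,
    fun q u h hl => hs.lifts q u h (hl.trans e2), fun g hg => hs.gen g (e1 ▸ Or.inr hg), ht⟩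

end Pool.Agent.Work.MP_3d425c_gt.Bq
end

-- merged part: Pool.Agent.Work.MP_3d425c_gt.Bg.Rank
section
/-! At the top of the tower the Euler characteristic is not negative. -/

namespace Pool.Agent.Work.MP_3d425c_gt.Bg
open Set Relation Pool.Agent.Work.MP_3d425c_gt.Md Pool.Agent.Work.MP_3d425c_gt.Cy

variable {G X0 X1 X2 X3 : Type} [Group G] [MulAction G X0] [MulAction G X1] [MulAction G X2]
  [MulAction G X3] {T : Tri G X0 X1 X2 X3} {E : Subgroup G} {Ω : Type} [MulAction E Ω]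

open Module in
theorem rk_lin {A B C D : Type} [Finite A] [Finite B] [Finite C] [Finite D]
    (d0 : (A → ℝ) →ₗ[ℝ] (B → ℝ)) (d1 : (B → ℝ) →ₗ[ℝ] (C → ℝ)) (d2 : (C → ℝ) →ₗ[ℝ] (D → ℝ))
    (Λ : (B → ℝ) →ₗ[ℝ] ℝ) (h0 : ∃ u, u ≠ 0 ∧ d0 u = 0)
    (h1 : ∀ z, d1 z = 0 → Λ z = 0 → z ∈ LinearMap.range d0) (h2 : ∀ z, d2 (d1 z) = 0)
    (h3 : LinearMap.range d2 = ⊤) : Nat.card B + Nat.card D ≤ Nat.card A + Nat.card C := by
  have e : ∀ (X : Type) [Finite X], finrank ℝ (X → ℝ) = Nat.card X := fun X _ => by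
    have := Fintype.ofFinite X
    rw [finrank_fintype_fun_eq_card, Nat.card_eq_fintype_card]
  have a0 := d0.finrank_range_add_finrank_ker
  have a1 := d1.finrank_range_add_finrank_ker
  have a2 := d2.finrank_range_add_finrank_ker
  have a3 := Λ.finrank_range_add_finrank_ker
  rw [h3, finrank_top] at a2
  have b0 : 1 ≤ finrank ℝ (LinearMap.ker d0) := by
    obtain ⟨u, h, h'⟩ := h0
    exact Submodule.one_le_finrank_iff.2 fun k => h ((Submodule.eq_bot_iff _).1 k u h')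
  have b1 : finrank ℝ (LinearMap.range Λ) ≤ 1 := (Submodule.finrank_le _).trans_eq (finrank_self ℝ)
  have b2 := Submodule.finrank_sup_add_finrank_inf_eq (LinearMap.ker d1) (LinearMap.ker Λ)
  have b3 := Submodule.finrank_le (LinearMap.ker d1 ⊔ LinearMap.ker Λ)
  have b4 : finrank ℝ ↥(LinearMap.ker d1 ⊓ LinearMap.ker Λ) ≤ finrank ℝ (LinearMap.range d0) :=
    Submodule.finrank_mono fun z hz => h1 z hz.1 hz.2
  have b5 : finrank ℝ (LinearMap.range d1) ≤ finrank ℝ (LinearMap.ker d2) :=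
    Submodule.finrank_mono fun _ ⟨z, hz⟩ => hz ▸ h2 z
  simp only [e] at a0 a1 a2 a3 b3
  omega

theorem rk_full {n : ℕ} {σ : Fin n → Option Ω} : np σ ∈ Icc n n ↔ ∀ i, ∃ a, σ i = some a := by
  rw [Icc_self, mem_singleton_iff, np]
  conv_lhs => rhs; rw [← Fintype.card_fin n]
  rw [Finset.card_eq_iff_eq_univ, Finset.filter_eq_self]
  simp only [Finset.mem_univ, true_imp_iff, Option.isSome_iff_exists]

/-- the map of orbit spaces -/
noncomputable def rkM {A B : Type} [MulAction E A] [MulAction E B] (f : A → B) (q : Ob E A) :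
    Ob E B := ob E (f q.out)

theorem rkM_ob {A B : Type} [MulAction E A] [MulAction E B] {f : A → B}
    (hf : ∀ (g : E) a, f (g • a) = g • f a) (a : A) : rkM f (ob E a) = ob E (f a) := by
  obtain ⟨g, hg⟩ := ob_eq_iff.1 (ob_out (ob E a))
  rw [rkM, ← hg, hf, ob_smul]

variable (W : Et T E Ω)

/-- a vertex of a full edge -/
noncomputable def rk1 (i : Fin 2) (c : W.C1 2 2) : Ω := (rk_full.1 c.2.2 i).choose

theorem rk1_eq (i : Fin 2) (c : W.C1 2 2) : c.1.2 i = some (rk1 W i c) :=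
  (rk_full.1 c.2.2 i).choose_spec

theorem rk1_smul (i : Fin 2) (g : E) (c : W.C1 2 2) : rk1 W i (g • c) = g • rk1 W i c := by
  have h : g • c.1.2 i = _ := rk1_eq W i (g • c)
  rw [rk1_eq] at h
  exact (Option.some.inj h).symm

/-- an edge of a full triangle -/
def rk2 (k : Fin 3) (c : W.C2 3 3) : W.C1 2 2 :=
  ⟨f2 T c.1 k, c.2.1 k, rk_full.2 fun _ => rk_full.1 c.2.2 _⟩

/-- a face of a full tetrahedron -/
def rk3 (k : Fin 4) (c : W.C3 4 4) : W.C2 3 3 :=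
  ⟨f3 T c.1 k, c.2.1 k, rk_full.2 fun _ => rk_full.1 c.2.2 _⟩

theorem rk2_ob (k : Fin 3) (c : W.C2 3 3) : rkM (rk2 W k) (ob E c) = ob E (rk2 W k c) :=
  rkM_ob (fun g c => Subtype.ext (Et.f2_smul g c.1 k)) c

theorem rk3_ob (k : Fin 4) (c : W.C3 4 4) : rkM (rk3 W k) (ob E c) = ob E (rk3 W k c) :=
  rkM_ob (fun g c => Subtype.ext (Et.f3_smul g c.1 k)) c

/-- the full edge with given ends -/
def rkE {a b : Ω} {e : X1} (h : W.R a e b) : W.C1 2 2 :=
  ⟨(e, ![some a, some b]), h, rk_full.2 fun i => by fin_cases i <;> exact ⟨_, rfl⟩⟩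

open Classical in
/-- a function on the orbits of edges as a cochain -/
noncomputable def rkL : (Ob E (W.C1 2 2) → ℝ) →ₗ[ℝ] (Ω → X1 → Ω → ℝ) where
  toFun z a e b := if h : W.R a e b then z (ob E (rkE W h)) else 0
  map_add' z z' := by
    funext a e b
    simp only [Pi.add_apply]
    split_ifs <;> simp
  map_smul' r z := by
    funext a e b
    simp only [Pi.smul_apply, RingHom.id_apply]
    split_ifs <;> simp

theorem rkL_eq (z : Ob E (W.C1 2 2) → ℝ) (c : W.C1 2 2) {a b : Ω} (h0 : c.1.2 0 = some a)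
    (h1 : c.1.2 1 = some b) : W.R a c.1.1 b ∧ rkL W z a c.1.1 b = z (ob E c) := by
  have h : W.Rp (c.1.2 0) c.1.1 (c.1.2 1) := c.2.1
  rw [h0, h1] at h
  refine ⟨h, (dif_pos h).trans (congrArg (fun c => z (ob E c)) (Subtype.ext (Prod.ext rfl ?_)))⟩
  funext i
  fin_cases i
  · exact h0.symm
  · exact h1.symm

/-- the coboundary on triangles -/
noncomputable def rkD : (Ob E (W.C2 3 3) → ℝ) →ₗ[ℝ] (Ob E (W.C3 4 4) → ℝ) :=
  ∑ k : Fin 4, (-1 : ℝ) ^ k.val • LinearMap.funLeft ℝ ℝ (rkM (rk3 W k))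

theorem rkD_apply (w : Ob E (W.C2 3 3) → ℝ) (q : Ob E (W.C3 4 4)) :
    rkD W w q = ∑ k : Fin 4, (-1 : ℝ) ^ k.val * w (rkM (rk3 W k) q) := by
  simp [rkD, LinearMap.funLeft_apply]

open Classical in
theorem rk_step {x y : X3} {k l : Fin 4} (e : T.d3 x k = T.d3 y l)
    (h : ∃ c : W.C3 4 4, c.1.1 = x ∧ Pi.single (ob E c) 1 ∉ LinearMap.range (rkD W)) :
    ∃ c : W.C3 4 4, c.1.1 = y ∧ Pi.single (ob E c) 1 ∉ LinearMap.range (rkD W) := by
  by_cases n : (y, l) = (x, k)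
  · exact (Prod.mk.inj n).1 ▸ h
  obtain ⟨c, rfl, hc⟩ := h
  by_contra hn
  have p : 0 < np (rk3 W k c).1.2 := lt_of_lt_of_le (by norm_num) (rk3 W k c).2.2.1
  obtain ⟨τ, -, uτ⟩ := W.up2 (rk3 W k c).2.1 p (x := y) (k := l) e.symm
  obtain ⟨σ, -, uσ⟩ := W.up2 (rk3 W k c).2.1 p (x := c.1.1) (k := k) rfl
  obtain ⟨y', l', -, -, o⟩ := T.other c.1.1 k
  have o' := (o y l e.symm).resolve_left n
  have key : ∀ q j, rkM (rk3 W j) q = ob E (rk3 W k c) → (q = ob E c ∧ j = k) ∨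
      ∃ h : (y, τ) ∈ W.C3 4 4, q = ob E ⟨(y, τ), h⟩ := by
    intro q j hq
    obtain ⟨d, rfl⟩ := ob_surj q
    rw [rk3_ob] at hq
    obtain ⟨g, hg⟩ := ob_eq_iff.1 hq.symm
    have f : f3 T (g • d).1 j = (rk3 W k c).1 :=
      (Et.f3_smul g d.1 j).trans (congrArg Subtype.val hg)
    rw [← ob_smul g d]
    generalize g • d = d' at f
    obtain ⟨⟨z, ρ⟩, hz⟩ := d'
    rcases o z j (congrArg Prod.fst f) with a | a
    · obtain ⟨rfl, rfl⟩ := Prod.mk.inj a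
      refine Or.inl ⟨congrArg _ (Subtype.ext (Prod.ext rfl ?_)), rfl⟩
      exact (uσ ρ ⟨hz.1, f⟩).trans (uσ c.1.2 ⟨c.2.1, rfl⟩).symm
    · obtain ⟨rfl, rfl⟩ := Prod.mk.inj (a.trans o'.symm)
      obtain rfl := uτ ρ ⟨hz.1, f⟩
      exact Or.inr ⟨hz, rfl⟩
  obtain ⟨D, hD⟩ : ∃ D, D = rkD W (Pi.single (ob E (rk3 W k c)) 1) := ⟨_, rfl⟩
  have m : D ∈ LinearMap.range (rkD W) := ⟨_, hD.symm⟩
  have m' : ∀ h : (y, τ) ∈ W.C3 4 4, Pi.single (ob E ⟨(y, τ), h⟩) 1 ∈ LinearMap.range (rkD W) :=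
    fun h => by_contra fun a => hn ⟨⟨(y, τ), h⟩, rfl, a⟩
  have z : ∀ q, q ≠ ob E c → (∀ h : (y, τ) ∈ W.C3 4 4, q ≠ ob E ⟨(y, τ), h⟩) → D q = 0 := by
    intro q a b
    rw [hD, rkD_apply]
    refine Finset.sum_eq_zero fun j _ => ?_
    rw [Pi.single_eq_of_ne, mul_zero]
    exact fun f => (key q j f).elim (fun f => a f.1) fun ⟨h, f⟩ => b h f
  have ne : ∀ h : (y, τ) ∈ W.C3 4 4, ob E c ≠ ob E ⟨(y, τ), h⟩ := fun h a => hc (a ▸ m' h)
  have nz : D (ob E c) ≠ 0 := by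
    rw [hD, rkD_apply, Finset.sum_eq_single k (fun j _ hj => by
      rw [Pi.single_eq_of_ne, mul_zero]
      exact fun f => (key _ j f).elim (fun f => hj f.2) fun ⟨h, f⟩ => ne h f) (by simp),
      rk3_ob, Pi.single_eq_same, mul_one]
    exact pow_ne_zero _ (by norm_num)
  have fin : ∀ v ∈ LinearMap.range (rkD W), v (ob E c) = D (ob E c) →
      (∀ q, q ≠ ob E c → v q = 0) → False := fun v h1 h2 h3 => hc (by
    have : (Pi.single (ob E c) 1 : Ob E (W.C3 4 4) → ℝ) = (D (ob E c))⁻¹ • v := by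
      funext q
      by_cases a : q = ob E c
      · rw [a, Pi.single_eq_same, Pi.smul_apply, h2, smul_eq_mul, inv_mul_cancel₀ nz]
      · rw [Pi.single_eq_of_ne a, Pi.smul_apply, h3 q a, smul_zero]
    rw [this]
    exact Submodule.smul_mem _ _ h1)
  by_cases h : (y, τ) ∈ W.C3 4 4
  · refine fin _ (Submodule.sub_mem _ m (Submodule.smul_mem _ (D (ob E ⟨(y, τ), h⟩)) (m' h))) ?_
      fun q a => ?_
    · rw [Pi.sub_apply, Pi.smul_apply, Pi.single_eq_of_ne (ne h), smul_zero, sub_zero]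
    · by_cases b : q = ob E ⟨(y, τ), h⟩
      · rw [b, Pi.sub_apply, Pi.smul_apply, Pi.single_eq_same, smul_eq_mul, mul_one, sub_self]
      · rw [Pi.sub_apply, Pi.smul_apply, Pi.single_eq_of_ne b, smul_zero, sub_zero,
          z q a fun _ => b]
  · exact fin D m rfl fun q a => z q a fun h' => absurd h' h

theorem rk_onto (hE : ¬ E.FiniteIndex) [Finite (Ob E (W.C3 4 4))] :
    LinearMap.range (rkD W) = ⊤ := by
  classical
  have := Fintype.ofFinite (Ob E (W.C3 4 4))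
  by_cases h : ∀ q, Pi.single q 1 ∈ LinearMap.range (rkD W)
  · refine eq_top_iff.2 fun v _ => ?_
    rw [pi_eq_sum_univ' v]
    exact Submodule.sum_mem _ fun q _ => Submodule.smul_mem _ _ (h q)
  obtain ⟨q, hq⟩ := not_forall.1 h
  obtain ⟨c, rfl⟩ := ob_surj q
  have key : ∀ x y, EqvGen (fun x y => ∃ k l, T.d3 x k = T.d3 y l) x y →
      ((∃ c : W.C3 4 4, c.1.1 = x ∧ Pi.single (ob E c) 1 ∉ LinearMap.range (rkD W)) ↔
        ∃ c : W.C3 4 4, c.1.1 = y ∧ Pi.single (ob E c) 1 ∉ LinearMap.range (rkD W)) := by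
    intro x y h
    induction h with
    | rel x y h =>
      obtain ⟨k, l, e⟩ := h
      exact ⟨rk_step W e, rk_step W e.symm⟩
    | refl => rfl
    | symm _ _ _ ih => exact ih.symm
    | trans _ _ _ _ _ a b => exact a.trans b
  refine absurd (finiteIndex_of T.free3 c.1.1 _
    (finite_range fun q : Ob E (W.C3 4 4) => q.out.1.1) fun g => ?_) hE
  obtain ⟨d, h1, -⟩ := (key _ (g • c.1.1) (T.conn _ _)).1 ⟨c, rfl, hq⟩
  obtain ⟨a, ha⟩ := ob_eq_iff.1 (ob_out (ob E d)).symm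
  exact ⟨_, ⟨ob E d, rfl⟩, a, h1.symm.trans (congrArg (·.1.1) ha).symm⟩

theorem rank (hM : Mfd T) (hE : ¬ E.FiniteIndex) {W : Et T E Ω} {ω : Ω} (fc : W.Fc ω)
    (top : W.Top) : oc E (W.C1 2 2) + oc E (W.C3 4 4) ≤ oc E Ω + oc E (W.C2 3 3) := by
  have := fc.fin
  have := hM.finC1 W two_pos 2
  have := W.finC2 three_pos 3
  have := W.finC3 four_pos 4
  obtain ⟨Λ, hΛ⟩ := top
  refine rk_lin (LinearMap.funLeft ℝ ℝ (rkM (rk1 W 1)) - LinearMap.funLeft ℝ ℝ (rkM (rk1 W 0)))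
    (LinearMap.funLeft ℝ ℝ (rkM (rk2 W 2)) + LinearMap.funLeft ℝ ℝ (rkM (rk2 W 0)) -
      LinearMap.funLeft ℝ ℝ (rkM (rk2 W 1))) (rkD W) (Λ ∘ₗ rkL W)
    ⟨1, fun h => one_ne_zero (congrFun h (ob E ω)), funext fun q => sub_self _⟩
    (fun z h1 h2 => ?_) (fun z => funext fun q => ?_) (rk_onto W hE)
  · refine (hΛ (rkL W z) ⟨fun f a b c k k' => ?_, fun g a e b k => ?_⟩ h2).elim
      fun u ⟨u1, u2⟩ => ?_
    rotate_right
    · refine ⟨fun q => u q.out, funext fun q => ?_⟩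
      obtain ⟨c, rfl⟩ := ob_surj q
      have v : ∀ a, u (ob E a).out = u a := fun a => by
        obtain ⟨g, hg⟩ := ob_eq_iff.1 (ob_out (ob E a))
        rw [← hg, u1]
      obtain ⟨a, b⟩ := rkL_eq W z c (rk1_eq W 0 c) (rk1_eq W 1 c)
      show u (rkM (rk1 W 1) (ob E c)).out - u (rkM (rk1 W 0) (ob E c)).out = _
      rw [rkM_ob (rk1_smul W 1), rkM_ob (rk1_smul W 0), v, v, ← b, u2 _ _ _ a]
    · let d : W.C2 3 3 := ⟨(f, ![some a, some b, some c]), (ce_V2 W).2 ⟨k, W.t1 f _ _ _ k k', k'⟩,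
        rk_full.2 fun i => by fin_cases i <;> exact ⟨_, rfl⟩⟩
      have e : z (rkM (rk2 W 2) (ob E d)) + z (rkM (rk2 W 0) (ob E d)) -
        z (rkM (rk2 W 1) (ob E d)) = 0 := congrFun h1 (ob E d)
      rw [rk2_ob, rk2_ob, rk2_ob, ← (rkL_eq W z (rk2 W 2 d) (a := a) (b := b) rfl rfl).2,
        ← (rkL_eq W z (rk2 W 0 d) (a := b) (b := c) rfl rfl).2,
        ← (rkL_eq W z (rk2 W 1 d) (a := a) (b := c) rfl rfl).2] at e
      exact (sub_eq_zero.1 e).symm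
    · exact (rkL_eq W z (g • rkE W k) rfl rfl).2.trans
        ((congrArg z (ob_smul g _)).trans (rkL_eq W z (rkE W k) rfl rfl).2.symm)
  · obtain ⟨c, rfl⟩ := ob_surj q
    have e : ∀ i j : Fin 3, i ≤ j → rk2 W i (rk3 W j.succ c) = rk2 W j (rk3 W i.castSucc c) :=
      fun i j h => Subtype.ext (f2_f3 T c.1 i j h)
    have e00 : rk2 W 0 (rk3 W 1 c) = rk2 W 0 (rk3 W 0 c) := e 0 0 le_rfl
    have e01 : rk2 W 0 (rk3 W 2 c) = rk2 W 1 (rk3 W 0 c) := e 0 1 (by decide)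
    have e02 : rk2 W 0 (rk3 W 3 c) = rk2 W 2 (rk3 W 0 c) := e 0 2 (by decide)
    have e11 : rk2 W 1 (rk3 W 2 c) = rk2 W 1 (rk3 W 1 c) := e 1 1 le_rfl
    have e12 : rk2 W 1 (rk3 W 3 c) = rk2 W 2 (rk3 W 1 c) := e 1 2 (by decide)
    have e22 : rk2 W 2 (rk3 W 3 c) = rk2 W 2 (rk3 W 2 c) := e 2 2 le_rfl
    rw [rkD_apply, Fin.sum_univ_four]
    simp only [LinearMap.sub_apply, LinearMap.add_apply, Pi.sub_apply, Pi.add_apply,
      LinearMap.funLeft_apply, rk3_ob, rk2_ob, e00, e01, e02, e11, e12, e22]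
    norm_num
    ring

end Pool.Agent.Work.MP_3d425c_gt.Bg
end
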