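import Pool.Agent.Work.MP_3d425c_gt.Bg.Final
import Pool.Agent.Work.MP_3d425c_gt.Bg.Tf2
import Pool.Agent.Work.MP_3d425c_gt.Sm.Main

/-! Taut foliations of closed hyperbolic three-manifolds, and of rational homology spheres whose
fundamental groups have cyclic centralisers. -/

namespace Pool.Agent.Work.MP_3d425c_gt.Bg
open Set Relation Pool.Agent.Work.MP_3d425c_gt.Md Pool.Agent.Work.MP_3d425c_gt.Cy
open scoped Manifold ContDiff

theorem main_all {G X0 X1 X2 X3 : Type} [Group G] [MulAction G X0] [MulAction G X1]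
    [MulAction G X2] [MulAction G X3] (T : Tri G X0 X1 X2 X3)
    (h : (∃ ρ : G →* Matrix.ProjectiveSpecialLinearGroup (Fin 2) ℂ, Lt.Lat ρ) ∨
      (∀ a : G, a ≠ 1 → IsCyclic (Subgroup.centralizer ({a} : Set G))) ∧
        ∀ χ : G →* Multiplicative ℝ, χ = 1)
    (hD : Nv.Disc T) (mid : ∀ v, ∃ f, T.d1 (T.d2 f 2) 0 = v) (φ : X2 → ℝ ≃o ℝ) (hf : T.Fol φ)
    (ht : T.Taut φ) : Nontrivial G ∧ LO G := by
  rcases h with ⟨ρ, L⟩ | ⟨hc, h0⟩
  · have hE := oneEnd_of_lat L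
    exact main_taut T (hyp_of_lat L (mfd_end hD mid hE) hD) (Or.inl hE) hD mid φ hf ht
  · obtain ⟨ρ, hρ, hb⟩ := Tri.ball h0 hf ht mid
    obtain ⟨y, hy⟩ := hb φ hf fun f t => by rw [sub_self, abs_zero]; exact hρ.le
    have := inf_of_nc (Nv.fw_nov hD hy hf.1) (hy.inf hf)
    exact main_taut T ⟨tf_disc (mfd_taut hD mid (Or.inr h0) hf ht) hD, hc⟩ (Or.inr h0) hD mid φ hf ht

theorem main_smooth {M : Type} [TopologicalSpace M] [ChartedSpace (EuclideanSpace ℝ (Fin 3)) M]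
    [IsManifold (𝓡 3) ∞ M] [CompactSpace M] [T2Space M] [ConnectedSpace M] (m : M)
    (h : (∃ ρ : FundamentalGroup M m →* Matrix.ProjectiveSpecialLinearGroup (Fin 2) ℂ, Lt.Lat ρ) ∨
      (∀ a : FundamentalGroup M m, a ≠ 1 → IsCyclic (Subgroup.centralizer {a})) ∧
        ∀ χ : FundamentalGroup M m →* Multiplicative ℝ, χ = 1)
    {A : Set (OpenPartialHomeomorph M ((ℝ × ℝ) × ℝ))} (hA : Sm.Foliation A) (hT : Sm.Taut A) :
    Nontrivial (FundamentalGroup M m) ∧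
      ∃ r : FundamentalGroup M m → FundamentalGroup M m → Prop,
        IsStrictTotalOrder _ r ∧ ∀ a b c, r a b ↔ r (c * a) (c * b) := by
  obtain ⟨Y, _, _, p, hp, _⟩ := Tp.exists_universal_cover_manifold (EuclideanSpace ℝ (Fin 3)) m
  obtain ⟨X0, X1, X2, X3, _, _, _, _, T, φ, a, b, c, d⟩ := Sm.normal_form p hp hA hT
  exact main_all T h a b φ c d

end Pool.Agent.Work.MP_3d425c_gt.Bg
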